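import Mathlib

/-!
# Nets in the unit ball of a finite dimensional space
-/

namespace Pool.Agent.H756

open Filter Topology

/-- a linear map on a finite dimensional space that is small on a net is bounded -/
theorem exists_net {V : Type*} [NormedAddCommGroup V] [NormedSpace ℝ V] (G : Submodule ℝ V)
    (hG : FiniteDimensional ℝ G) (X : Type*) [NormedAddCommGroup X] [NormedSpace ℝ X] :
    ∃ t : Finset V, (∀ a ∈ t, a ∈ G ∧ ‖a‖ ≤ 1) ∧ ∀ τ : G →ₗ[ℝ] X,
      (∀ a ∈ t, ∀ h : a ∈ G, ‖τ ⟨a, h⟩‖ ≤ 2) → ∀ g : G, ‖τ g‖ ≤ 4 * ‖(g : V)‖ := by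
  classical
  have hprop : ProperSpace G := FiniteDimensional.proper ℝ G
  have htb : TotallyBounded (Metric.closedBall (0 : G) 1) :=
    (isCompact_closedBall (0 : G) 1).totallyBounded
  obtain ⟨t, ht, hfin, hcov⟩ := Metric.finite_approx_of_totallyBounded htb (1 / 2) (by norm_num)
  refine ⟨hfin.toFinset.image (fun a : G => (a : V)), ?_, ?_⟩
  · intro a ha
    obtain ⟨b, hb, rfl⟩ := Finset.mem_image.mp ha
    exact ⟨b.2, mem_closedBall_zero_iff.mp (ht (hfin.mem_toFinset.mp hb))⟩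
  intro τ hτ
  have h1 : ∀ a ∈ t, ‖τ a‖ ≤ 2 := fun a ha =>
    hτ a (Finset.mem_image.mpr ⟨a, hfin.mem_toFinset.mpr ha, rfl⟩) a.2
  obtain ⟨N, hN0, hN⟩ : ∃ N : ℝ, 0 ≤ N ∧ ∀ g : G, ‖τ g‖ ≤ N * ‖g‖ :=
    ⟨‖LinearMap.toContinuousLinearMap τ‖, norm_nonneg (LinearMap.toContinuousLinearMap τ),
      fun g => (LinearMap.toContinuousLinearMap τ).le_opNorm g⟩
  have hiter : ∀ n : ℕ, ∀ g : G, ‖τ g‖ ≤ (4 + N / 2 ^ n) * ‖g‖ := by
    intro n
    induction n with
    | zero =>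
      intro g
      refine (hN g).trans ?_
      gcongr
      rw [pow_zero, div_one]; linarith
    | succ n ih =>
      intro g
      rcases eq_or_ne g 0 with rfl | h0
      · rw [map_zero]; simp
      have hgn : 0 < ‖g‖ := norm_pos_iff.mpr h0
      have h2 : ‖g‖⁻¹ • g ∈ Metric.closedBall (0 : G) 1 := by
        rw [mem_closedBall_zero_iff, norm_smul, norm_inv, norm_norm, inv_mul_cancel₀ hgn.ne']
      have h3 := hcov h2
      simp only [Set.mem_iUnion, Metric.mem_ball, exists_prop] at h3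
      obtain ⟨a, ha, had⟩ := h3
      rw [dist_eq_norm] at had
      have h3 := ih (‖g‖⁻¹ • g - a)
      have h5 : ‖τ (‖g‖⁻¹ • g)‖ ≤ 4 + N / 2 ^ (n + 1) := by
        have e : τ (‖g‖⁻¹ • g) = τ (‖g‖⁻¹ • g - a) + τ a := by
          rw [map_sub]; abel
        rw [e]
        have h6 : (4 + N / 2 ^ n) * ‖‖g‖⁻¹ • g - a‖ ≤ (4 + N / 2 ^ n) * (1 / 2) := by gcongr
        have h7 : N / 2 ^ (n + 1) = N / 2 ^ n * (1 / 2) := by rw [pow_succ]; ring
        have h8 := norm_add_le (τ (‖g‖⁻¹ • g - a)) (τ a)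
        have h9 := h1 a ha
        rw [h7]
        linarith
      have e : g = ‖g‖ • (‖g‖⁻¹ • g) := by
        rw [smul_smul, mul_inv_cancel₀ hgn.ne', one_smul]
      conv_lhs => rw [e]
      rw [map_smul, norm_smul, norm_norm, mul_comm]
      gcongr
  intro g
  have hlim : Tendsto (fun n : ℕ => (4 + N / 2 ^ n) * ‖g‖) atTop (𝓝 ((4 + 0) * ‖g‖)) := by
    refine Tendsto.mul_const _ (tendsto_const_nhds.add ?_)
    have h2 : Tendsto (fun n : ℕ => N * ((1 : ℝ) / 2) ^ n) atTop (𝓝 (N * 0)) :=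
      (tendsto_pow_atTop_nhds_zero_of_lt_one (by norm_num) (by norm_num)).const_mul N
    rw [mul_zero] at h2
    refine h2.congr fun n => ?_
    rw [one_div, inv_pow, div_eq_mul_inv]
  have := ge_of_tendsto' hlim fun n => hiter n g
  rwa [add_zero] at this

end Pool.Agent.H756
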