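import Pool.Agent.H756.LocalMap
import Pool.Agent.H756.Net

/-!
# Spaces whose dual is an Asplund space
-/

namespace Pool.Agent.H756

open Filter Topology TopologicalSpace

universe u

variable {X : Type u} [NormedAddCommGroup X] [NormedSpace ℝ X]
variable {W : Type u} [NormedAddCommGroup W] [NormedSpace ℝ W]

/-- `X` is locally complemented in the dual of a capturing space -/
theorem lf_of_captures {D : Set (X →L[ℝ] ℝ)} (hD : Captures.{u, u} D)
    (J : W →ₗᵢ[ℝ] (X →L[ℝ] ℝ)) (hDJ : ∀ z ∈ D, ∃ w, J w = z) :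
    ∃ A : X →L[ℝ] (W →L[ℝ] ℝ), ‖A‖ ≤ 4 ∧ ∀ (F : Finset X) (δ : ℝ), 0 < δ →
      ∀ G : Submodule ℝ (W →L[ℝ] ℝ), FiniteDimensional ℝ G →
          ∃ τ : G →ₗ[ℝ] X, (∀ g : G, ‖τ g‖ ≤ 4 * ‖(g : W →L[ℝ] ℝ)‖) ∧
            ∀ x ∈ F, ∀ h : A x ∈ G, ‖τ ⟨A x, h⟩ - x‖ ≤ δ := by
  classical
  let A : X →L[ℝ] (W →L[ℝ] ℝ) := J.toContinuousLinearMap.flip
  have hAapp : ∀ x w, A x w = J w x := fun _ _ => rfl
  refine ⟨A, ?_, ?_⟩
  · have h1 : ‖A‖ ≤ 1 := by
      refine ContinuousLinearMap.opNorm_le_bound _ zero_le_one fun x => ?_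
      refine ContinuousLinearMap.opNorm_le_bound _ (by positivity) fun w => ?_
      rw [hAapp]
      refine ((J w).le_opNorm x).trans_eq ?_
      rw [J.norm_map]; ring
    linarith
  intro F δ hδ G hG
  obtain ⟨t, ht1, ht2⟩ := exists_net G hG X
  -- the index set
  let I := {x : X // x ∈ F ∧ A x ∈ G} ⊕ {a : W →L[ℝ] ℝ // a ∈ t}
  have hfinI1 : Finite {x : X // x ∈ F ∧ A x ∈ G} :=
    Finite.of_injective (fun x => (⟨x.1, x.2.1⟩ : F)) fun x y h => by
      have := congrArg (fun z : F => (z : X)) h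
      exact Subtype.ext this
  have : Fintype {x : X // x ∈ F ∧ A x ∈ G} := Fintype.ofFinite _
  obtain ⟨τ, hτ⟩ := exists_local_map hD J hDJ G (I := I)
    (Sum.elim (fun x => ⟨A x.1, x.2.2⟩) (fun a => ⟨a.1, (ht1 a.1 a.2).1⟩))
    (Sum.elim (fun x => x.1) (fun _ => 0)) (Sum.elim (fun _ => 0) (fun _ => 1))
    (Sum.elim (fun _ => δ) (fun _ => 2))
    (by rintro (x | a); exacts [le_rfl, zero_le_one])
    (by rintro (x | a); exacts [hδ, one_lt_two])
    (by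
      rintro (x | a) w
      · show |A x.1 w - J w x.1| ≤ 0 * ‖w‖
        rw [hAapp, sub_self, abs_zero, zero_mul]
      · show |a.1 w - J w 0| ≤ 1 * ‖w‖
        rw [map_zero, sub_zero]
        exact (a.1.le_opNorm w).trans
          (mul_le_mul_of_nonneg_right (ht1 a.1 a.2).2 (norm_nonneg w)))
  refine ⟨τ, ?_, ?_⟩
  · refine ht2 τ fun a ha h => ?_
    have h2 : ‖τ ⟨a, h⟩ - 0‖ < 2 := hτ (Sum.inr ⟨a, ha⟩)
    rw [sub_zero] at h2
    exact h2.le
  · intro x hx h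
    exact (hτ (Sum.inl ⟨x, hx, h⟩)).le

/-- the embedding theorem for spaces whose dual is an Asplund space -/
theorem embeds_of_dual_asplund [CompleteSpace X] [SeparableSpace X] {ξ : Ordinal.{0}}
    (hX : BourgainIndexLE X ξ)
    (hAsp : ∀ (W : Type u) [NormedAddCommGroup W] [NormedSpace ℝ W] [CompleteSpace W]
      [SeparableSpace W], (W →ₗᵢ[ℝ] (X →L[ℝ] ℝ)) → SeparableSpace (W →L[ℝ] ℝ)) :
    EmbedsWithIndex X (Ordinal.omega0 * ξ * Ordinal.omega0) := by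
  classical
  obtain ⟨D, hDc, hD⟩ := exists_captures.{u, u} X
  obtain ⟨W, iW1, iW2, iW3, iW4, J, hJ⟩ : ∃ (W : Type u) (_ : NormedAddCommGroup W)
      (_ : NormedSpace ℝ W) (_ : CompleteSpace W) (_ : SeparableSpace W)
      (J : W →ₗᵢ[ℝ] (X →L[ℝ] ℝ)), ∀ z ∈ D, ∃ w, J w = z := by
    let Z : Submodule ℝ (X →L[ℝ] ℝ) := (Submodule.span ℝ D).topologicalClosure
    have hDZ : ∀ z ∈ D, z ∈ Z := fun z hz =>
      Submodule.le_topologicalClosure _ (Submodule.subset_span hz)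
    have hcomp : CompleteSpace Z := (Submodule.isClosed_topologicalClosure _).completeSpace_coe
    have hsep : IsSeparable (Z : Set (X →L[ℝ] ℝ)) := (hDc.isSeparable.span (R := ℝ)).closure
    have hsep' : SeparableSpace Z := hsep.separableSpace
    exact ⟨Z, inferInstance, inferInstance, hcomp, hsep', Z.subtypeₗᵢ,
      fun z hz => ⟨⟨z, hDZ z hz⟩, rfl⟩⟩
  have hW := hAsp W J
  obtain ⟨A, hA, hlf⟩ := lf_of_captures hD J hJ
  exact embeds_of_lf hX (C := 4) fun F δ hδ => ⟨W, iW1, iW2, hW, A, hA, hlf F δ hδ⟩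

end Pool.Agent.H756
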