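import Mathlib

/-!
# A Banach space with a Schauder basis from a monotone norm on finitely supported sequences
-/

namespace Pool.Agent.H756

open Filter Topology

/-- restriction of a finitely supported sequence to the first `M` coordinates -/
noncomputable def trunc (M : ℕ) : (ℕ →₀ ℝ) →ₗ[ℝ] (ℕ →₀ ℝ) where
  toFun c := c.filter (· < M)
  map_add' c d := by simp
  map_smul' t c := by simp

lemma trunc_apply (M : ℕ) (c : ℕ →₀ ℝ) (k : ℕ) : trunc M c k = if k < M then c k else 0 := by
  simp [trunc, Finsupp.filter_apply]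

lemma trunc_succ_sub (M : ℕ) (c : ℕ →₀ ℝ) :
    trunc (M + 1) c - trunc M c = Finsupp.single M (c M) := by
  ext k
  simp only [Finsupp.sub_apply, trunc_apply, Finsupp.single_apply]
  by_cases h1 : k < M
  · have h2 : k < M + 1 := by omega
    have h3 : M ≠ k := by omega
    simp [h1, h2, h3]
  · by_cases h2 : k < M + 1
    · have h3 : M = k := by omega
      subst h3; simp
    · have h3 : M ≠ k := by omega
      simp [h1, h2, h3]

lemma trunc_eq_sum (M : ℕ) (c : ℕ →₀ ℝ) :
    trunc M c = ∑ k ∈ Finset.range M, c k • Finsupp.single k (1 : ℝ) := by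
  induction M with
  | zero =>
    ext k; simp [trunc_apply]
  | succ M ih =>
    rw [Finset.sum_range_succ, ← ih]
    have := trunc_succ_sub M c
    rw [sub_eq_iff_eq_add] at this
    rw [this, Finsupp.smul_single, smul_eq_mul, mul_one, add_comm]

lemma trunc_of_le {M : ℕ} {c : ℕ →₀ ℝ} (h : ∀ k, M ≤ k → c k = 0) : trunc M c = c := by
  ext k
  rw [trunc_apply]
  split_ifs with hk
  · rfl
  · exact (h k (by omega)).symm

lemma exists_bound (c : ℕ →₀ ℝ) : ∃ M, ∀ k, M ≤ k → c k = 0 := by
  refine ⟨c.support.sup id + 1, fun k hk => ?_⟩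
  by_contra hne
  have : k ≤ c.support.sup id := Finset.le_sup (f := id) (Finsupp.mem_support_iff.mpr hne)
  omega

theorem exists_basis_space (p : (ℕ →₀ ℝ) → ℝ)
    (hadd : ∀ c d, p (c + d) ≤ p c + p d) (hsmul : ∀ (t : ℝ) c, p (t • c) = |t| * p c)
    (hpos : ∀ c, p c = 0 → c = 0) (hmono : ∀ M c, p (trunc M c) ≤ p c) :
    ∃ (Y : Type) (_ : NormedAddCommGroup Y) (_ : NormedSpace ℝ Y) (_ : CompleteSpace Y)
      (ι : (ℕ →₀ ℝ) →ₗ[ℝ] Y), (∀ c, ‖ι c‖ = p c) ∧ DenseRange ι ∧
        Nonempty (SchauderBasis ℝ Y) := by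
  have hp0 : p 0 = 0 := by simpa using hsmul 0 0
  have hpnn : ∀ c, 0 ≤ p c := by
    intro c
    have h1 := hadd c ((-1 : ℝ) • c)
    have h2 : c + (-1 : ℝ) • c = 0 := by simp
    rw [h2, hp0, hsmul] at h1
    simp at h1
    linarith
  let _ : Norm (ℕ →₀ ℝ) := ⟨p⟩
  have hnorm : ∀ c : ℕ →₀ ℝ, ‖c‖ = p c := fun _ => rfl
  have core : NormedSpace.Core ℝ (ℕ →₀ ℝ) :=
    { norm_nonneg := hpnn
      norm_smul := fun t c => hsmul t c
      norm_triangle := hadd
      norm_eq_zero_iff := fun c => ⟨hpos c, fun h => by rw [h]; exact hp0⟩ }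
  let _ : NormedAddCommGroup (ℕ →₀ ℝ) := NormedAddCommGroup.ofCore core
  let _ : NormedSpace ℝ (ℕ →₀ ℝ) := NormedSpace.ofCore core
  let Y := UniformSpace.Completion (ℕ →₀ ℝ)
  let ι : (ℕ →₀ ℝ) →L[ℝ] Y := UniformSpace.Completion.toComplL
  have hι : ∀ c, ‖ι c‖ = p c := fun c => UniformSpace.Completion.norm_coe c
  have hdense : DenseRange ι := UniformSpace.Completion.denseRange_coe
  have hind : IsUniformInducing ι := UniformSpace.Completion.isUniformInducing_coe _
  have hsingle : ∀ k : ℕ, Finsupp.single k (1 : ℝ) ≠ 0 := fun k => by simp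
  have hpk : ∀ k : ℕ, 0 < p (Finsupp.single k (1 : ℝ)) := fun k =>
    lt_of_le_of_ne (hpnn _) (fun h => hsingle k (hpos _ h.symm))
  have hck : ∀ (k : ℕ) (c : ℕ →₀ ℝ), |c k| * p (Finsupp.single k (1 : ℝ)) ≤ 2 * p c := by
    intro k c
    rw [← hsmul, Finsupp.smul_single, smul_eq_mul, mul_one, ← trunc_succ_sub, sub_eq_add_neg,
      ← neg_one_smul ℝ (trunc k c)]
    refine (hadd _ _).trans ?_
    rw [hsmul]
    have h1 := hmono (k + 1) c
    have h2 := hmono k c
    simp only [abs_neg, abs_one, one_mul]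
    linarith
  let coord0 : ℕ → (ℕ →₀ ℝ) →L[ℝ] ℝ := fun k =>
    LinearMap.mkContinuous (Finsupp.lapply k) (2 / p (Finsupp.single k (1 : ℝ))) (by
      intro c
      rw [div_mul_eq_mul_div, le_div_iff₀ (hpk k)]
      exact hck k c)
  have hcoord0 : ∀ k c, coord0 k c = c k := fun k c => rfl
  let coord : ℕ → Y →L[ℝ] ℝ := fun k => (coord0 k).extend ι
  have hcoord : ∀ k c, coord k (ι c) = c k := fun k c =>
    ContinuousLinearMap.extend_eq (coord0 k) hdense hind c
  let P : ℕ → Y →L[ℝ] Y := fun M =>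
    ∑ k ∈ Finset.range M, (coord k).smulRight (ι (Finsupp.single k 1))
  have hPapply : ∀ M y, P M y = ∑ k ∈ Finset.range M, coord k y • ι (Finsupp.single k 1) := by
    intro M y
    simp [P]
  have hP : ∀ M c, P M (ι c) = ι (trunc M c) := by
    intro M c
    rw [hPapply, trunc_eq_sum, map_sum]
    refine Finset.sum_congr rfl fun k _ => ?_
    rw [hcoord, map_smul]
  have hPle : ∀ M y, ‖P M y‖ ≤ ‖y‖ := by
    intro M y
    induction y using hdense.induction_on with
    | hp => exact isClosed_le (P M).continuous.norm continuous_norm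
    | ih c => rw [hP, hι, hι]; exact hmono M c
  have hPtend : ∀ y, Tendsto (fun M => P M y) atTop (𝓝 y) := by
    intro y
    rw [Metric.tendsto_atTop]
    intro ε hε
    obtain ⟨c, hc⟩ := hdense.exists_dist_lt y (show 0 < ε / 3 by positivity)
    obtain ⟨M₀, hM₀⟩ := exists_bound c
    refine ⟨M₀, fun M hM => ?_⟩
    have h1 : P M (ι c) = ι c := by
      rw [hP, trunc_of_le (fun k hk => hM₀ k (hM.trans hk))]
    have h2 : P M y - y = P M (y - ι c) - (y - ι c) := by
      rw [map_sub, h1]; abel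
    rw [dist_eq_norm, h2]
    have h3 : ‖y - ι c‖ < ε / 3 := by rwa [dist_eq_norm] at hc
    calc ‖P M (y - ι c) - (y - ι c)‖ ≤ ‖P M (y - ι c)‖ + ‖y - ι c‖ := norm_sub_le _ _
      _ ≤ ‖y - ι c‖ + ‖y - ι c‖ := by gcongr; exact hPle _ _
      _ < ε := by linarith
  refine ⟨Y, inferInstance, inferInstance, inferInstance, ι.toLinearMap, hι, hdense, ⟨?_⟩⟩
  exact
    { basis := fun k => ι (Finsupp.single k 1)
      coord := coord
      ortho := by
        intro i j
        rw [hcoord, Finsupp.single_apply]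
        by_cases h : i = j
        · subst h; simp
        · have h' : ¬ j = i := fun e => h e.symm
          simp [h, h']
      expansion := by
        intro y
        rw [HasSum, SummationFilter.conditional_filter_eq_map_range, tendsto_map'_iff]
        refine (hPtend y).congr fun M => ?_
        simp only [Function.comp]
        exact hPapply M y }

end Pool.Agent.H756
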