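import Pool.Agent.H756.LocalMap

/-!
# Separable subspaces of a pair of dual spaces that capture its local structure
-/

namespace Pool.Agent.H756

open Filter Topology TopologicalSpace

universe u v w

section

variable {X : Type u} [NormedAddCommGroup X] [NormedSpace ℝ X]
variable {V : Type w} [NormedAddCommGroup V] [NormedSpace ℝ V]

/-- combinations of functionals on `X`, functionals on `V` and fixed functionals -/
noncomputable def comb2 (A : X →L[ℝ] V) (s : ℕ → X →L[ℝ] ℝ) {I₁ I₂ : Type*} [Fintype I₁]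
    [Fintype I₂] {N : ℕ} (b : I₁ → X →L[ℝ] ℝ) (c : I₂ → V →L[ℝ] ℝ)
    (a : (I₁ → ℝ) × (I₂ → ℝ) × (Fin N → ℝ)) : X →L[ℝ] ℝ :=
  ∑ k, a.1 k • b k + ∑ k, a.2.1 k • (c k).comp A + ∑ i, a.2.2 i • s i

/-- the norm function of a tuple -/
noncomputable def normFn2 (A : X →L[ℝ] V) (s : ℕ → X →L[ℝ] ℝ) {m₁ m₂ N : ℕ}
    (b : Fin m₁ → X →L[ℝ] ℝ) (c : Fin m₂ → V →L[ℝ] ℝ) :
    C((Fin m₁ → ℝ) × (Fin m₂ → ℝ) × (Fin N → ℝ), ℝ) :=
  ⟨fun a => ‖comb2 A s b c a‖, by unfold comb2; fun_prop⟩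

lemma normFn2_apply (A : X →L[ℝ] V) (s : ℕ → X →L[ℝ] ℝ) {m₁ m₂ N : ℕ}
    (b : Fin m₁ → X →L[ℝ] ℝ) (c : Fin m₂ → V →L[ℝ] ℝ)
    (a : (Fin m₁ → ℝ) × (Fin m₂ → ℝ) × (Fin N → ℝ)) : normFn2 A s b c a = ‖comb2 A s b c a‖ := rfl

/-- sets of functionals that capture the local structure of a pair of dual spaces -/
def Captures2 (A : X →L[ℝ] V) (s : ℕ → X →L[ℝ] ℝ) (D : Set (X →L[ℝ] ℝ)) (D' : Set (V →L[ℝ] ℝ)) :
    Prop :=
  ∀ (I₁ I₂ : Type v) [Fintype I₁] [Fintype I₂] (b : I₁ → X →L[ℝ] ℝ) (c : I₂ → V →L[ℝ] ℝ)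
    (N : ℕ) (B : Finset ((I₁ → ℝ) × (I₂ → ℝ) × (Fin N → ℝ))) (F : Finset X) (η : ℝ),
    0 < η → ∃ (z : I₁ → X →L[ℝ] ℝ) (z' : I₂ → V →L[ℝ] ℝ), (∀ k, z k ∈ D) ∧ (∀ k, z' k ∈ D') ∧
      (∀ a ∈ B, |‖comb2 A s z z' a‖ - ‖comb2 A s b c a‖| < η) ∧
      (∀ k, ‖z k‖ ≤ ‖b k‖ + η) ∧ (∀ k, ‖z' k‖ ≤ ‖c k‖ + η) ∧
      ∀ k, ∀ x ∈ F, |z k x - b k x| < η

theorem exists_captures2 [SeparableSpace X] (A : X →L[ℝ] V) (s : ℕ → X →L[ℝ] ℝ) :
    ∃ (D : Set (X →L[ℝ] ℝ)) (D' : Set (V →L[ℝ] ℝ)), D.Countable ∧ D'.Countable ∧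
      Captures2.{u, v, w} A s D D' := by
  classical
  let d : ℕ → X := denseSeq X
  have hd : DenseRange d := denseRange_denseSeq X
  let Ψ : ∀ m : ℕ × ℕ × ℕ, (Fin m.1 → X →L[ℝ] ℝ) × (Fin m.2.1 → V →L[ℝ] ℝ) →
      C((Fin m.1 → ℝ) × (Fin m.2.1 → ℝ) × (Fin m.2.2 → ℝ), ℝ) × (Fin m.1 → ℕ → ℝ) ×
        (Fin m.2.1 → ℝ) := fun m p =>
    (normFn2 A s p.1 p.2, fun k n => p.1 k (d n), fun k => ‖p.2 k‖)
  have hT : ∀ m, ∃ T : Set ((Fin m.1 → X →L[ℝ] ℝ) × (Fin m.2.1 → V →L[ℝ] ℝ)), T.Countable ∧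
      ∀ b, Ψ m b ∈ closure (Ψ m '' T) := by
    intro m
    obtain ⟨t, ht, htd⟩ := exists_countable_dense (Set.range (Ψ m))
    have hpre : ∀ p : Set.range (Ψ m), ∃ b, Ψ m b = p := fun p => p.2
    choose q hq using hpre
    refine ⟨q '' t, ht.image _, fun b => ?_⟩
    have h1 := htd ⟨Ψ m b, b, rfl⟩
    have h2 := image_closure_subset_closure_image (s := t)
      (continuous_subtype_val (p := fun p => p ∈ Set.range (Ψ m))) ⟨_, h1, rfl⟩
    refine closure_mono ?_ h2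
    rintro _ ⟨p, hp, rfl⟩
    exact ⟨q p, ⟨p, hp, rfl⟩, hq p⟩
  choose T hTc hTd using hT
  refine ⟨⋃ m, ⋃ p ∈ T m, Set.range p.1, ⋃ m, ⋃ p ∈ T m, Set.range p.2, ?_, ?_, ?_⟩
  · refine Set.countable_iUnion fun m => ?_
    exact (hTc m).biUnion fun b _ => Set.countable_range b.1
  · refine Set.countable_iUnion fun m => ?_
    exact (hTc m).biUnion fun b _ => Set.countable_range b.2
  intro I₁ I₂ _ _ b c N B F η hη
  let m : ℕ × ℕ × ℕ := (Fintype.card I₁, Fintype.card I₂, N)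
  let e₁ : I₁ ≃ Fin m.1 := Fintype.equivFin I₁
  let e₂ : I₂ ≃ Fin m.2.1 := Fintype.equivFin I₂
  let b' : Fin m.1 → X →L[ℝ] ℝ := fun k => b (e₁.symm k)
  let c' : Fin m.2.1 → V →L[ℝ] ℝ := fun k => c (e₂.symm k)
  -- a bound for the norms
  let L : ℝ := (∑ k, ‖b k‖) + 1
  have hL : 0 < L := by
    have : 0 ≤ ∑ k, ‖b k‖ := Finset.sum_nonneg fun _ _ => norm_nonneg _
    positivity
  have hbL : ∀ k, ‖b k‖ + 1 ≤ L := by
    intro k
    have := Finset.single_le_sum (f := fun k => ‖b k‖) (fun _ _ => norm_nonneg _)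
      (Finset.mem_univ k)
    simp only [L]
    linarith
  have hx : ∀ x : X, ∃ n, ‖x - d n‖ < η / (4 * L) := by
    intro x
    obtain ⟨n, hn⟩ := hd.exists_dist_lt x (show 0 < η / (4 * L) by positivity)
    exact ⟨n, by rw [← dist_eq_norm]; exact hn⟩
  choose nn hnn using hx
  let re : (I₁ → ℝ) × (I₂ → ℝ) × (Fin N → ℝ) →
      (Fin m.1 → ℝ) × (Fin m.2.1 → ℝ) × (Fin m.2.2 → ℝ) := fun a =>
    (fun k => a.1 (e₁.symm k), fun k => a.2.1 (e₂.symm k), a.2.2)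
  have hreidx : ∀ (a : (I₁ → ℝ) × (I₂ → ℝ) × (Fin N → ℝ)) (z : Fin m.1 → X →L[ℝ] ℝ)
      (z' : Fin m.2.1 → V →L[ℝ] ℝ), comb2 A s z z' (re a) =
        comb2 A s (fun k => z (e₁ k)) (fun k => z' (e₂ k)) a := by
    intro a z z'
    unfold comb2
    congr 1
    congr 1
    · rw [← e₁.sum_comp]
      simp [re]
    · rw [← e₂.sum_comp]
      simp [re]
  let sg : I₁ → (I₁ → ℝ) × (I₂ → ℝ) × (Fin N → ℝ) := fun k => (Pi.single k (1 : ℝ), 0, 0)
  have hsingle : ∀ (z : I₁ → X →L[ℝ] ℝ) (z' : I₂ → V →L[ℝ] ℝ) (k : I₁),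
      comb2 A s z z' (sg k) = z k := by
    intro z z' k
    unfold comb2
    simp only [sg, Pi.zero_apply, zero_smul, Finset.sum_const_zero, add_zero]
    rw [Finset.sum_eq_single k]
    · simp
    · intro j _ hj
      rw [Pi.single_eq_of_ne hj, zero_smul]
    · intro h
      exact absurd (Finset.mem_univ _) h
  let η₁ : ℝ := min η 1
  have hη₁ : 0 < η₁ := lt_min hη one_pos
  -- the neighbourhood
  let O : Set (C((Fin m.1 → ℝ) × (Fin m.2.1 → ℝ) × (Fin m.2.2 → ℝ), ℝ) × (Fin m.1 → ℕ → ℝ) ×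
        (Fin m.2.1 → ℝ)) :=
    ((⋂ a ∈ B, {p | |p.1 (re a) - ‖comb2 A s b c a‖| < η}) ∩
    (⋂ k : I₁, {p | |p.1 (re (sg k)) - ‖b k‖| < η₁})) ∩
    ((⋂ x ∈ F, ⋂ k : I₁, {p | |p.2.1 (e₁ k) (nn x) - b k (d (nn x))| < η / 2}) ∩
    (⋂ k : I₂, {p | |p.2.2 (e₂ k) - ‖c k‖| < η}))
  have hOo : IsOpen O := by
    refine (IsOpen.inter ?_ ?_).inter (IsOpen.inter ?_ ?_)
    · refine B.finite_toSet.isOpen_biInter fun a _ => ?_
      refine isOpen_lt (Continuous.abs (Continuous.sub ?_ continuous_const)) continuous_const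
      exact (continuous_eval_const (re a)).comp continuous_fst
    · refine isOpen_iInter_of_finite fun k => ?_
      refine isOpen_lt (Continuous.abs (Continuous.sub ?_ continuous_const)) continuous_const
      exact (continuous_eval_const
        (F := C((Fin m.1 → ℝ) × (Fin m.2.1 → ℝ) × (Fin m.2.2 → ℝ), ℝ)) (re (sg k))).comp
          continuous_fst
    · refine F.finite_toSet.isOpen_biInter fun x _ => isOpen_iInter_of_finite fun k => ?_
      refine isOpen_lt (Continuous.abs (Continuous.sub ?_ continuous_const)) continuous_const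
      fun_prop
    · refine isOpen_iInter_of_finite fun k => ?_
      refine isOpen_lt (Continuous.abs (Continuous.sub ?_ continuous_const)) continuous_const
      fun_prop
  have hb'e : (fun k => b' (e₁ k)) = b := by
    funext k; simp [b']
  have hc'e : (fun k => c' (e₂ k)) = c := by
    funext k; simp [c']
  have hbO : Ψ m (b', c') ∈ O := by
    refine ⟨⟨?_, ?_⟩, ?_, ?_⟩
    · simp only [Set.mem_iInter]
      intro a _
      show |normFn2 A s b' c' (re a) - ‖comb2 A s b c a‖| < η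
      rw [normFn2_apply, hreidx, hb'e, hc'e, sub_self, abs_zero]
      exact hη
    · simp only [Set.mem_iInter]
      intro k
      show |normFn2 A s b' c' (re (sg k)) - ‖b k‖| < η₁
      rw [normFn2_apply, hreidx, hb'e, hc'e, hsingle, sub_self, abs_zero]
      exact hη₁
    · simp only [Set.mem_iInter]
      intro x _ k
      show |b' (e₁ k) (d (nn x)) - b k (d (nn x))| < η / 2
      simp only [b', Equiv.symm_apply_apply, sub_self, abs_zero]
      positivity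
    · simp only [Set.mem_iInter]
      intro k
      show |‖c' (e₂ k)‖ - ‖c k‖| < η
      simp only [c', Equiv.symm_apply_apply, sub_self, abs_zero]
      exact hη
  obtain ⟨_, hzO, ⟨z, z'⟩, hz, rfl⟩ := mem_closure_iff.mp (hTd m (b', c')) O hOo hbO
  obtain ⟨⟨h1, h2⟩, h3, h4⟩ := hzO
  simp only [Set.mem_iInter] at h1 h2 h3 h4
  have hn : ∀ k, |‖z (e₁ k)‖ - ‖b k‖| < η₁ := by
    intro k
    have h5 : |normFn2 A s z z' (re (sg k)) - ‖b k‖| < η₁ := h2 k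
    rw [normFn2_apply, hreidx, hsingle] at h5
    exact h5
  refine ⟨fun k => z (e₁ k), fun k => z' (e₂ k), fun k => ?_, fun k => ?_, fun a ha => ?_,
    fun k => ?_, fun k => ?_, fun k x hx => ?_⟩
  · exact Set.mem_iUnion.mpr ⟨m, Set.mem_iUnion₂.mpr ⟨_, hz, ⟨e₁ k, rfl⟩⟩⟩
  · exact Set.mem_iUnion.mpr ⟨m, Set.mem_iUnion₂.mpr ⟨_, hz, ⟨e₂ k, rfl⟩⟩⟩
  · have h5 : |normFn2 A s z z' (re a) - ‖comb2 A s b c a‖| < η := h1 a ha
    rw [normFn2_apply, hreidx] at h5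
    exact h5
  · have h5 := (abs_lt.mp (hn k)).2
    have h6 : η₁ ≤ η := min_le_left _ _
    show ‖z (e₁ k)‖ ≤ ‖b k‖ + η
    linarith
  · have h5 : |‖z' (e₂ k)‖ - ‖c k‖| < η := h4 k
    have h6 := (abs_lt.mp h5).2
    show ‖z' (e₂ k)‖ ≤ ‖c k‖ + η
    linarith
  · have h5 : |z (e₁ k) (d (nn x)) - b k (d (nn x))| < η / 2 := h3 x hx k
    have h6 : ‖z (e₁ k)‖ ≤ L := by
      have h7 := (abs_lt.mp (hn k)).2
      have h8 : η₁ ≤ 1 := min_le_right _ _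
      have := hbL k
      linarith
    have h7 : ‖b k‖ ≤ L := by have := hbL k; linarith
    have h8 := hnn x
    have h9 : |z (e₁ k) (x - d (nn x))| ≤ L * ‖x - d (nn x)‖ :=
      ((z (e₁ k)).le_opNorm _).trans (by gcongr)
    have h10 : |b k (x - d (nn x))| ≤ L * ‖x - d (nn x)‖ :=
      ((b k).le_opNorm _).trans (by gcongr)
    have h11 : L * ‖x - d (nn x)‖ < η / 4 := by
      calc L * ‖x - d (nn x)‖ < L * (η / (4 * L)) := by gcongr
        _ = η / 4 := by field_simp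
    have h12 : z (e₁ k) x - b k x = (z (e₁ k) (d (nn x)) - b k (d (nn x))) +
        z (e₁ k) (x - d (nn x)) - b k (x - d (nn x)) := by
      rw [map_sub, map_sub]; ring
    show |z (e₁ k) x - b k x| < η
    rw [h12]
    have h13 := abs_sub (z (e₁ k) (d (nn x)) - b k (d (nn x)) + z (e₁ k) (x - d (nn x)))
      (b k (x - d (nn x)))
    have h14 := abs_add_le (z (e₁ k) (d (nn x)) - b k (d (nn x))) (z (e₁ k) (x - d (nn x)))
    linarith

end

end Pool.Agent.H756
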