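import Pool.Agent.H756.LF

/-!
# Separable subspaces of a dual space that capture its local structure
-/

namespace Pool.Agent.H756

open Filter Topology TopologicalSpace

universe u v w

variable {X : Type u} [NormedAddCommGroup X] [NormedSpace ℝ X]

/-- the norm function of a tuple -/
noncomputable def normFn {m : ℕ} (b : Fin m → X →L[ℝ] ℝ) : C(Fin m → ℝ, ℝ) :=
  ⟨fun a => ‖∑ k, a k • b k‖, by fun_prop⟩

lemma normFn_apply {m : ℕ} (b : Fin m → X →L[ℝ] ℝ) (a : Fin m → ℝ) :
    normFn b a = ‖∑ k, a k • b k‖ := rfl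

/-- a set of functionals that captures the local structure of the dual -/
def Captures (D : Set (X →L[ℝ] ℝ)) : Prop :=
  ∀ (I : Type v) [Fintype I] (b : I → X →L[ℝ] ℝ) (A : Finset (I → ℝ)) (F : Finset X) (η : ℝ),
    0 < η → ∃ z : I → X →L[ℝ] ℝ, (∀ k, z k ∈ D) ∧
      (∀ a ∈ A, |‖∑ k, a k • z k‖ - ‖∑ k, a k • b k‖| < η) ∧
      ∀ k, ∀ x ∈ F, |z k x - b k x| < η

theorem exists_captures (X : Type u) [NormedAddCommGroup X] [NormedSpace ℝ X] [SeparableSpace X] :
    ∃ D : Set (X →L[ℝ] ℝ), D.Countable ∧ Captures.{u, v} D := by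
  classical
  let d : ℕ → X := denseSeq X
  have hd : DenseRange d := denseRange_denseSeq X
  let Ψ : ∀ m : ℕ, (Fin m → X →L[ℝ] ℝ) → C(Fin m → ℝ, ℝ) × (Fin m → ℕ → ℝ) := fun m b =>
    (normFn b, fun k n => b k (d n))
  have hT : ∀ m, ∃ T : Set (Fin m → X →L[ℝ] ℝ), T.Countable ∧
      ∀ b, Ψ m b ∈ closure (Ψ m '' T) := by
    intro m
    obtain ⟨t, ht, htd⟩ := exists_countable_dense (Set.range (Ψ m))
    have hpre : ∀ p : Set.range (Ψ m), ∃ b, Ψ m b = p := fun p => p.2
    choose q hq using hpre
    refine ⟨q '' t, ht.image _, fun b => ?_⟩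
    have h1 := htd ⟨Ψ m b, b, rfl⟩
    have h2 := image_closure_subset_closure_image (s := t)
      (continuous_subtype_val (p := fun p => p ∈ Set.range (Ψ m))) ⟨_, h1, rfl⟩
    refine closure_mono ?_ h2
    rintro _ ⟨p, hp, rfl⟩
    exact ⟨q p, ⟨p, hp, rfl⟩, hq p⟩
  choose T hTc hTd using hT
  refine ⟨⋃ m, ⋃ b ∈ T m, Set.range b, ?_, ?_⟩
  · refine Set.countable_iUnion fun m => ?_
    exact (hTc m).biUnion fun b _ => Set.countable_range b
  · intro I _ b A F η hη
    let m := Fintype.card I
    let e : I ≃ Fin m := Fintype.equivFin I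
    let b' : Fin m → X →L[ℝ] ℝ := fun k => b (e.symm k)
    -- a bound for the norms
    let N : ℝ := (∑ k, ‖b k‖) + 1
    have hN : 0 < N := by
      have : 0 ≤ ∑ k, ‖b k‖ := Finset.sum_nonneg fun _ _ => norm_nonneg _
      positivity
    have hbN : ∀ k, ‖b k‖ + 1 ≤ N := by
      intro k
      have := Finset.single_le_sum (f := fun k => ‖b k‖) (fun _ _ => norm_nonneg _)
        (Finset.mem_univ k)
      simp only [N]
      linarith
    have hx : ∀ x : X, ∃ n, ‖x - d n‖ < η / (4 * N) := by
      intro x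
      obtain ⟨n, hn⟩ := hd.exists_dist_lt x (show 0 < η / (4 * N) by positivity)
      exact ⟨n, by rw [← dist_eq_norm]; exact hn⟩
    choose nn hnn using hx
    -- the neighbourhood
    let U : Set (C(Fin m → ℝ, ℝ) × (Fin m → ℕ → ℝ)) :=
      (⋂ a ∈ A, {p | |p.1 (fun k => a (e.symm k)) - ‖∑ k, a k • b k‖| < η}) ∩
      (⋂ k : I, {p | |p.1 (Pi.single (e k) (1 : ℝ) : Fin m → ℝ) - ‖b k‖| < 1}) ∩
      (⋂ x ∈ F, ⋂ k : I, {p | |p.2 (e k) (nn x) - b k (d (nn x))| < η / 2})
    have hUo : IsOpen U := by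
      refine (IsOpen.inter ?_ ?_).inter ?_
      · refine A.finite_toSet.isOpen_biInter fun a _ => ?_
        refine isOpen_lt (Continuous.abs (Continuous.sub ?_ continuous_const)) continuous_const
        exact (continuous_eval_const (fun k => a (e.symm k))).comp continuous_fst
      · refine isOpen_iInter_of_finite fun k => ?_
        refine isOpen_lt (Continuous.abs (Continuous.sub ?_ continuous_const)) continuous_const
        exact (continuous_eval_const (F := C(Fin m → ℝ, ℝ))
          (Pi.single (e k) (1 : ℝ) : Fin m → ℝ)).comp continuous_fst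
      · refine F.finite_toSet.isOpen_biInter fun x _ => isOpen_iInter_of_finite fun k => ?_
        refine isOpen_lt (Continuous.abs (Continuous.sub ?_ continuous_const)) continuous_const
        fun_prop
    have hreidx : ∀ (a : I → ℝ) (z : Fin m → X →L[ℝ] ℝ),
        ∑ k : Fin m, a (e.symm k) • z k = ∑ k : I, a k • z (e k) := by
      intro a z
      rw [← e.sum_comp]
      simp
    have hsingle : ∀ (z : Fin m → X →L[ℝ] ℝ) (k : I),
        normFn z (Pi.single (e k) (1 : ℝ) : Fin m → ℝ) = ‖z (e k)‖ := by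
      intro z k
      rw [normFn_apply]
      congr 1
      rw [Finset.sum_eq_single (e k)]
      · simp
      · intro j _ hj
        rw [Pi.single_eq_of_ne hj, zero_smul]
      · intro h
        exact absurd (Finset.mem_univ _) h
    have hbU : Ψ m b' ∈ U := by
      refine ⟨⟨?_, ?_⟩, ?_⟩
      · simp only [Set.mem_iInter]
        intro a _
        show |normFn b' (fun k => a (e.symm k)) - ‖∑ k, a k • b k‖| < η
        rw [normFn_apply, hreidx]
        simp only [b', Equiv.symm_apply_apply, sub_self, abs_zero]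
        exact hη
      · simp only [Set.mem_iInter]
        intro k
        show |normFn b' (Pi.single (e k) (1 : ℝ) : Fin m → ℝ) - ‖b k‖| < 1
        rw [hsingle]
        simp [b']
      · simp only [Set.mem_iInter]
        intro x _ k
        show |b' (e k) (d (nn x)) - b k (d (nn x))| < η / 2
        simp only [b', Equiv.symm_apply_apply, sub_self, abs_zero]
        positivity
    obtain ⟨_, hzU, z, hz, rfl⟩ := mem_closure_iff.mp (hTd m b') U hUo hbU
    obtain ⟨⟨h1, h2⟩, h3⟩ := hzU
    simp only [Set.mem_iInter] at h1 h2 h3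
    refine ⟨fun k => z (e k), fun k => ?_, fun a ha => ?_, fun k x hx => ?_⟩
    · exact Set.mem_iUnion.mpr ⟨m, Set.mem_iUnion₂.mpr ⟨z, hz, ⟨e k, rfl⟩⟩⟩
    · have h4 : |normFn z (fun k => a (e.symm k)) - ‖∑ k, a k • b k‖| < η := h1 a ha
      rw [normFn_apply, hreidx] at h4
      exact h4
    · have h4 : |normFn z (Pi.single (e k) (1 : ℝ) : Fin m → ℝ) - ‖b k‖| < 1 := h2 k
      rw [hsingle] at h4
      have h5 : |z (e k) (d (nn x)) - b k (d (nn x))| < η / 2 := h3 x hx k
      have h6 : ‖z (e k)‖ ≤ N := by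
        have := (abs_lt.mp h4).2
        have := hbN k
        linarith
      have h7 : ‖b k‖ ≤ N := by have := hbN k; linarith
      have h8 := hnn x
      have h9 : |z (e k) (x - d (nn x))| ≤ N * ‖x - d (nn x)‖ :=
        ((z (e k)).le_opNorm _).trans (by gcongr)
      have h10 : |b k (x - d (nn x))| ≤ N * ‖x - d (nn x)‖ :=
        ((b k).le_opNorm _).trans (by gcongr)
      have h11 : N * ‖x - d (nn x)‖ < η / 4 := by
        calc N * ‖x - d (nn x)‖ < N * (η / (4 * N)) := by gcongr
          _ = η / 4 := by field_simp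
      have h12 : z (e k) x - b k x = (z (e k) (d (nn x)) - b k (d (nn x))) +
          z (e k) (x - d (nn x)) - b k (x - d (nn x)) := by
        rw [map_sub, map_sub]; ring
      rw [h12]
      have h13 := abs_sub (z (e k) (d (nn x)) - b k (d (nn x)) + z (e k) (x - d (nn x)))
        (b k (x - d (nn x)))
      have h14 := abs_add_le (z (e k) (d (nn x)) - b k (d (nn x))) (z (e k) (x - d (nn x)))
      linarith

end Pool.Agent.H756
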