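import Pool.Agent.H756.Tree

/-!
# Linear combinations of finite sequences, the block lemma and the abstract index bound
-/

namespace Pool.Agent.H756

open Ordinal

variable {V : Type*} [AddCommGroup V] [Module ℝ V]

/-- `Comb s A v`: `v` is a linear combination of the entries of `s` with coefficients of
absolute sum `A`. -/
def Comb : List V → ℝ → V → Prop
  | [], A, v => A = 0 ∧ v = 0
  | x :: s, A, v => ∃ a A' v', Comb s A' v' ∧ A = |a| + A' ∧ v = a • x + v'

lemma comb_nil {A : ℝ} {v : V} : Comb ([] : List V) A v ↔ A = 0 ∧ v = 0 := Iff.rfl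

lemma comb_cons {x : V} {s : List V} {A : ℝ} {v : V} :
    Comb (x :: s) A v ↔ ∃ a A' v', Comb s A' v' ∧ A = |a| + A' ∧ v = a • x + v' := Iff.rfl

lemma comb_iff {s : List V} : ∀ {A : ℝ} {v : V},
    Comb s A v ↔ ∃ a : Fin s.length → ℝ, A = ∑ i, |a i| ∧ v = ∑ i, a i • s.get i := by
  induction s with
  | nil =>
    intro A v
    rw [comb_nil]
    constructor
    · rintro ⟨h1, h2⟩
      exact ⟨fun i => 0, by simpa using h1, by simpa using h2⟩
    · rintro ⟨a, h1, h2⟩
      have : IsEmpty (Fin ([] : List V).length) := Fin.isEmpty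
      refine ⟨?_, ?_⟩
      · rw [h1]; exact Finset.sum_of_isEmpty _
      · rw [h2]; exact Finset.sum_of_isEmpty _
  | cons x s ih =>
    intro A v
    rw [comb_cons]
    constructor
    · rintro ⟨a, A', v', h, hA, hv⟩
      obtain ⟨b, hb1, hb2⟩ := ih.mp h
      refine ⟨Fin.cons a b, ?_, ?_⟩
      · show A = ∑ i : Fin (s.length + 1), |(Fin.cons a b : Fin (s.length + 1) → ℝ) i|
        rw [Fin.sum_univ_succ, hA, hb1]
        simp
      · show v = ∑ i : Fin (s.length + 1), (Fin.cons a b : Fin (s.length + 1) → ℝ) i • (x :: s).get i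
        rw [Fin.sum_univ_succ, hv, hb2]
        simp
    · rintro ⟨a, hA, hv⟩
      refine ⟨a 0, ∑ i : Fin s.length, |a i.succ|, ∑ i : Fin s.length, a i.succ • s.get i, ?_, ?_, ?_⟩
      · exact ih.mpr ⟨fun i => a i.succ, rfl, rfl⟩
      · rw [hA]
        show ∑ i : Fin (s.length + 1), |a i| = _
        rw [Fin.sum_univ_succ]
      · rw [hv]
        show ∑ i : Fin (s.length + 1), a i • (x :: s).get i = _
        rw [Fin.sum_univ_succ]
        simp

lemma Comb.nonneg {s : List V} : ∀ {A : ℝ} {v : V}, Comb s A v → 0 ≤ A := by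
  induction s with
  | nil => intro A v h; rw [h.1]
  | cons x s ih =>
    rintro A v ⟨a, A', v', h, hA, _⟩
    rw [hA]; exact add_nonneg (abs_nonneg _) (ih h)

lemma Comb.eq_zero {s : List V} : ∀ {A : ℝ} {v : V}, Comb s A v → A = 0 → v = 0 := by
  induction s with
  | nil => intro A v h _; exact h.2
  | cons x s ih =>
    rintro A v ⟨a, A', v', h, hA, hv⟩ h0
    have h1 := h.nonneg
    have h2 := abs_nonneg a
    have h3 : |a| = 0 := by linarith
    have h4 : A' = 0 := by linarith
    rw [hv, ih h h4, abs_eq_zero.mp h3]; simp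

lemma comb_zero (s : List V) : Comb s 0 0 := by
  induction s with
  | nil => exact ⟨rfl, rfl⟩
  | cons x s ih => exact ⟨0, 0, 0, ih, by simp, by simp⟩

lemma Comb.smul {s : List V} : ∀ {A : ℝ} {v : V}, Comb s A v → ∀ c : ℝ, Comb s (|c| * A) (c • v) := by
  induction s with
  | nil => intro A v h c; rw [h.1, h.2]; exact ⟨by simp, by simp⟩
  | cons x s ih =>
    rintro A v ⟨a, A', v', h, hA, hv⟩ c
    refine ⟨c * a, |c| * A', c • v', ih h c, ?_, ?_⟩
    · rw [hA, abs_mul]; ring
    · rw [hv, smul_add, smul_smul]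

lemma Comb.append {s t : List V} {B : ℝ} {w : V} (ht : Comb t B w) :
    ∀ {A : ℝ} {v : V}, Comb s A v → Comb (s ++ t) (A + B) (v + w) := by
  induction s with
  | nil => intro A v h; rw [h.1, h.2]; simpa using ht
  | cons x s ih =>
    rintro A v ⟨a, A', v', h, hA, hv⟩
    refine ⟨a, A' + B, v' + w, ih h, ?_, ?_⟩
    · rw [hA]; ring
    · rw [hv]; abel

lemma comb_append {s t : List V} : ∀ {A : ℝ} {v : V}, Comb (s ++ t) A v →
    ∃ A₁ v₁ A₂ v₂, Comb s A₁ v₁ ∧ Comb t A₂ v₂ ∧ A = A₁ + A₂ ∧ v = v₁ + v₂ := by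
  induction s with
  | nil =>
    intro A v h
    exact ⟨0, 0, A, v, comb_zero _, h, by simp, by simp⟩
  | cons x s ih =>
    rintro A v ⟨a, A', v', h, hA, hv⟩
    obtain ⟨A₁, v₁, A₂, v₂, h1, h2, h3, h4⟩ := ih h
    refine ⟨|a| + A₁, a • x + v₁, A₂, v₂, ⟨a, A₁, v₁, h1, rfl, rfl⟩, h2, ?_, ?_⟩
    · rw [hA, h3]; ring
    · rw [hv, h4]; abel

lemma comb_singleton {x : V} {A : ℝ} {v : V} : Comb [x] A v ↔ ∃ a : ℝ, A = |a| ∧ v = a • x := by
  constructor
  · rintro ⟨a, A', v', h, hA, hv⟩
    rw [comb_nil] at h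
    exact ⟨a, by rw [hA, h.1]; simp, by rw [hv, h.2]; simp⟩
  · rintro ⟨a, hA, hv⟩
    exact ⟨a, 0, 0, ⟨rfl, rfl⟩, by rw [hA]; simp, by rw [hv]; simp⟩

lemma Comb.map {W : Type*} [AddCommGroup W] [Module ℝ W] (f : V →ₗ[ℝ] W) {s : List V} :
    ∀ {A : ℝ} {v : V}, Comb s A v → Comb (s.map f) A (f v) := by
  induction s with
  | nil => intro A v h; exact ⟨h.1, by rw [h.2]; simp⟩
  | cons x s ih =>
    rintro A v ⟨a, A', v', h, hA, hv⟩
    exact ⟨a, A', f v', ih h, hA, by rw [hv]; simp⟩

lemma comb_map {W : Type*} [AddCommGroup W] [Module ℝ W] (f : V →ₗ[ℝ] W) {s : List V} :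
    ∀ {A : ℝ} {w : W}, Comb (s.map f) A w → ∃ v, Comb s A v ∧ w = f v := by
  induction s with
  | nil => intro A w h; exact ⟨0, ⟨h.1, rfl⟩, by rw [h.2]; simp⟩
  | cons x s ih =>
    rintro A w ⟨a, A', v', h, hA, hv⟩
    obtain ⟨v, hv1, hv2⟩ := ih h
    exact ⟨a • x + v, ⟨a, A', v, hv1, hA, rfl⟩, by rw [hv, hv2]; simp⟩

/-- bound for a subadditive homogeneous size predicate -/
lemma Comb.size {s : List V} (B : V → ℝ → Prop) (h0 : B 0 0)
    (hadd : ∀ v w r r', B v r → B w r' → B (v + w) (r + r'))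
    (hsmul : ∀ (c : ℝ) v r, B v r → B (c • v) (|c| * r)) {r : ℝ} (hs : ∀ x ∈ s, B x r) :
    ∀ {A : ℝ} {v : V}, Comb s A v → B v (A * r) := by
  induction s with
  | nil => intro A v h; rw [h.1, h.2]; simpa using h0
  | cons x s ih =>
    rintro A v ⟨a, A', v', h, hA, hv⟩
    rw [hA, hv, add_mul]
    exact hadd _ _ _ _ (hsmul _ _ _ (hs x (by simp))) (ih (fun y hy => hs y (by simp [hy])) h)

lemma Comb.mem {s : List V} (U : Submodule ℝ V) (hs : ∀ x ∈ s, x ∈ U) :
    ∀ {A : ℝ} {v : V}, Comb s A v → v ∈ U := by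
  induction s with
  | nil => intro A v h; rw [h.2]; exact U.zero_mem
  | cons x s ih =>
    rintro A v ⟨a, A', v', h, _, hv⟩
    rw [hv]
    exact U.add_mem (U.smul_mem _ (hs x (by simp))) (ih (fun y hy => hs y (by simp [hy])) h)

/-- The lower `ℓ₁`-estimate with respect to `p`. -/
def LowerEst (κ : ℝ) (p : V → ℝ) (s : List V) : Prop := ∀ A v, Comb s A v → κ * A ≤ p v

lemma LowerEst.left {κ : ℝ} {p : V → ℝ} {s t : List V} (h : LowerEst κ p (s ++ t)) :
    LowerEst κ p s := by
  intro A v hv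
  have := h (A + 0) (v + 0) ((comb_zero t).append hv)
  simpa using this

lemma mem_bourgainTree_iff {X : Type*} [NormedAddCommGroup X] [NormedSpace ℝ X] {K : ℝ}
    {s : List X} : s ∈ bourgainTree X K ↔ (∀ x ∈ s, ‖x‖ = 1) ∧ LowerEst K⁻¹ (fun x => ‖x‖) s := by
  unfold bourgainTree LowerEst
  constructor
  · rintro ⟨h1, h2⟩
    refine ⟨h1, fun A v hv => ?_⟩
    obtain ⟨a, hA, hv⟩ := comb_iff.mp hv
    rw [hA, hv]; exact h2 a
  · rintro ⟨h1, h2⟩
    exact ⟨h1, fun a => h2 _ _ (comb_iff.mpr ⟨a, rfl, rfl⟩)⟩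

section blocks

variable {Y : Type*}

/-- cutting a sequence into blocks of length `N` from the left -/
def blockStep (N : ℕ) (f : List V → Y) (st : List Y × List V) (u : V) : List Y × List V :=
  if (st.2 ++ [u]).length = N then (st.1 ++ [f (st.2 ++ [u])], []) else (st.1, st.2 ++ [u])

/-- the complete blocks and the remainder -/
def blocks (N : ℕ) (f : List V → Y) (s : List V) : List Y × List V :=
  s.foldl (blockStep N f) ([], [])

omit [AddCommGroup V] [Module ℝ V] in
lemma blocks_append (N : ℕ) (f : List V → Y) (s : List V) (u : V) :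
    blocks N f (s ++ [u]) = blockStep N f (blocks N f s) u := by
  unfold blocks; rw [List.foldl_append]; rfl

omit [AddCommGroup V] [Module ℝ V] in
lemma blocks_len {N : ℕ} (hN : 0 < N) (f : List V → Y) (s : List V) :
    (blocks N f s).2.length < N := by
  induction s using List.reverseRecOn with
  | nil => simpa [blocks] using hN
  | append_singleton s u ih =>
    rw [blocks_append]
    unfold blockStep
    split_ifs with h
    · simpa using hN
    · simp only [List.length_append, List.length_cons, List.length_nil] at h ⊢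
      omega

omit [AddCommGroup V] [Module ℝ V] in
/-- **Block lemma.** -/
lemma RankLE.block {T : Set (List V)} {T' : Set (List Y)} {ξ : Ordinal.{0}} (h : RankLE T' ξ)
    {N : ℕ} (hN : 0 < N) (f : List V → Y) (hf : ∀ s ∈ T, (blocks N f s).1 ∈ T') :
    RankLE T ((N : Ordinal.{0}) * ξ) := by
  obtain ⟨ρ, h1, h2⟩ := h
  let r : List V → ℕ := fun s => N - 1 - (blocks N f s).2.length
  refine ⟨fun s => (N : Ordinal.{0}) * ρ (blocks N f s).1 + (r s : ℕ), ?_, ?_⟩
  · intro s hs
    have hlt := h1 _ (hf s hs)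
    have hr : ((r s : ℕ) : Ordinal.{0}) < (N : ℕ) := by
      have : r s < N := by
        show N - 1 - _ < N
        omega
      exact_mod_cast this
    calc (N : Ordinal.{0}) * ρ (blocks N f s).1 + (r s : ℕ)
        < (N : Ordinal.{0}) * ρ (blocks N f s).1 + (N : ℕ) := add_lt_add_right hr _
      _ = (N : Ordinal.{0}) * (ρ (blocks N f s).1 + 1) := by rw [mul_add_one]
      _ ≤ (N : Ordinal.{0}) * ξ := by
          gcongr
          exact Order.add_one_le_of_lt hlt
  · intro s u hs hu
    have hs' := hf s hs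
    have hu' := hf _ hu
    have hlen := blocks_len hN f s
    by_cases hc : ((blocks N f s).2 ++ [u]).length = N
    · have hb : blocks N f (s ++ [u]) =
          ((blocks N f s).1 ++ [f ((blocks N f s).2 ++ [u])], []) := by
        rw [blocks_append]; unfold blockStep; rw [if_pos hc]
      rw [hb] at hu'
      have hlt := h2 _ _ hs' hu'
      have hr : r s = 0 := by
        show N - 1 - _ = 0
        simp only [List.length_append, List.length_cons, List.length_nil] at hc
        omega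
      have hr' : r (s ++ [u]) = N - 1 := by
        show N - 1 - (blocks N f (s ++ [u])).2.length = _
        rw [hb]; simp
      show (N : Ordinal.{0}) * ρ (blocks N f (s ++ [u])).1 + (r (s ++ [u]) : ℕ) <
        (N : Ordinal.{0}) * ρ (blocks N f s).1 + (r s : ℕ)
      rw [hr, hr', hb]
      have hN1 : ((N - 1 : ℕ) : Ordinal.{0}) < (N : ℕ) := by
        have : N - 1 < N := by omega
        exact_mod_cast this
      calc (N : Ordinal.{0}) * ρ ((blocks N f s).1 ++ [f ((blocks N f s).2 ++ [u])]) + ((N - 1 : ℕ))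
          < (N : Ordinal.{0}) * ρ ((blocks N f s).1 ++ [f ((blocks N f s).2 ++ [u])]) + (N : ℕ) :=
            add_lt_add_right hN1 _
        _ = (N : Ordinal.{0}) * (ρ ((blocks N f s).1 ++ [f ((blocks N f s).2 ++ [u])]) + 1) := by
            rw [mul_add_one]
        _ ≤ (N : Ordinal.{0}) * ρ (blocks N f s).1 := by
            gcongr
            exact Order.add_one_le_of_lt hlt
        _ = (N : Ordinal.{0}) * ρ (blocks N f s).1 + ((0 : ℕ)) := by simp
    · have hb : blocks N f (s ++ [u]) = ((blocks N f s).1, (blocks N f s).2 ++ [u]) := by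
        rw [blocks_append]; unfold blockStep; rw [if_neg hc]
      have hr : r (s ++ [u]) < r s := by
        show N - 1 - (blocks N f (s ++ [u])).2.length < N - 1 - _
        rw [hb]
        simp only [List.length_append, List.length_cons, List.length_nil] at hc ⊢
        omega
      show (N : Ordinal.{0}) * ρ (blocks N f (s ++ [u])).1 + (r (s ++ [u]) : ℕ) <
        (N : Ordinal.{0}) * ρ (blocks N f s).1 + (r s : ℕ)
      rw [hb]
      have : ((r (s ++ [u]) : ℕ) : Ordinal.{0}) < (r s : ℕ) := by exact_mod_cast hr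
      exact add_lt_add_right this _

end blocks

/-- linear dependence modulo a subspace of finite codimension -/
lemma exists_comb_mem (U : Submodule ℝ V) [FiniteDimensional ℝ (V ⧸ U)] {s : List V}
    (hs : s.length = Module.finrank ℝ (V ⧸ U) + 1) : ∃ v, Comb s 1 v ∧ v ∈ U := by
  classical
  let L : (Fin s.length → ℝ) →ₗ[ℝ] V := Fintype.linearCombination ℝ (fun i => s.get i)
  let f : (Fin s.length → ℝ) →ₗ[ℝ] (V ⧸ U) := U.mkQ ∘ₗ L
  have hk : LinearMap.ker f ≠ ⊥ := by
    apply LinearMap.ker_ne_bot_of_finrank_lt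
    rw [Module.finrank_fin_fun]
    omega
  obtain ⟨a, ha, ha0⟩ := (Submodule.ne_bot_iff _).mp hk
  have hA : 0 < ∑ i, |a i| := by
    obtain ⟨i, hi⟩ : ∃ i, a i ≠ 0 := by
      by_contra hcon
      push Not at hcon
      exact ha0 (funext hcon)
    exact Finset.sum_pos' (fun _ _ => abs_nonneg _) ⟨i, Finset.mem_univ _, abs_pos.mpr hi⟩
  have hmem : L a ∈ U := by
    have : U.mkQ (L a) = 0 := by simpa [f] using ha
    simpa using this
  have hc : Comb s (∑ i, |a i|) (L a) := by
    refine comb_iff.mpr ⟨a, rfl, ?_⟩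
    simp [L, Fintype.linearCombination_apply]
  refine ⟨(∑ i, |a i|)⁻¹ • L a, ?_, U.smul_mem _ hmem⟩
  have := hc.smul (∑ i, |a i|)⁻¹
  rwa [abs_of_pos (inv_pos.mpr hA), inv_mul_cancel₀ hA.ne'] at this

end Pool.Agent.H756
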