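import Pool.Agent.H756.Local

/-!
# Passing to convex combinations
-/

namespace Pool.Agent.H756

open Filter Topology TopologicalSpace

/-- the unit ball of the dual with the weak star topology -/
def dualBallSet (V : Type*) [NormedAddCommGroup V] [NormedSpace ℝ V] : Set (WeakDual ℝ V) :=
  WeakDual.toStrongDual ⁻¹' Metric.closedBall 0 1

abbrev DualBall (V : Type*) [NormedAddCommGroup V] [NormedSpace ℝ V] : Type _ :=
  ↥(dualBallSet V)

section

variable {V : Type*} [NormedAddCommGroup V] [NormedSpace ℝ V]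

lemma isCompact_dualBallSet : IsCompact (dualBallSet V) :=
  WeakDual.isCompact_closedBall (𝕜 := ℝ) (E := V) 0 1

instance : CompactSpace (DualBall V) := isCompact_iff_compactSpace.mp isCompact_dualBallSet

lemma DualBall.norm_le (f : DualBall V) : ‖WeakDual.toStrongDual (f : WeakDual ℝ V)‖ ≤ 1 := by
  have h : WeakDual.toStrongDual (f : WeakDual ℝ V) ∈ Metric.closedBall 0 1 := f.2
  exact mem_closedBall_zero_iff.mp h

/-- the functional -/
noncomputable def DualBall.fn (f : DualBall V) : V →L[ℝ] ℝ := WeakDual.toStrongDual (f : WeakDual ℝ V)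

lemma DualBall.fn_norm_le (f : DualBall V) : ‖f.fn‖ ≤ 1 := f.norm_le

lemma DualBall.abs_le (f : DualBall V) (v : V) : |f.fn v| ≤ ‖v‖ := by
  have h1 := f.fn.le_opNorm v
  have h2 := f.fn_norm_le
  rw [Real.norm_eq_abs] at h1
  refine h1.trans ?_
  have := norm_nonneg v
  nlinarith

lemma DualBall.continuous_fn (v : V) : Continuous fun f : DualBall V => f.fn v :=
  (WeakDual.eval_continuous v).comp continuous_subtype_val

/-- constructor -/
noncomputable def DualBall.mk' (f : V →L[ℝ] ℝ) (hf : ‖f‖ ≤ 1) : DualBall V :=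
  ⟨StrongDual.toWeakDual f, mem_closedBall_zero_iff.mpr hf⟩

@[simp] lemma DualBall.fn_mk' (f : V →L[ℝ] ℝ) (hf : ‖f‖ ≤ 1) : (DualBall.mk' f hf).fn = f := rfl

end

variable {X : Type*} [NormedAddCommGroup X] [NormedSpace ℝ X]
variable {E : Type*} [NormedAddCommGroup E] [NormedSpace ℝ E]

/-- annihilator of the range of `i`, in the dual ball -/
abbrev AnnBall (i : X →L[ℝ] E) : Type _ := ↥({f : DualBall E | ∀ x, f.fn (i x) = 0})

instance (i : X →L[ℝ] E) : CompactSpace (AnnBall i) := by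
  have : IsClosed {f : DualBall E | ∀ x, f.fn (i x) = 0} := by
    have e : {f : DualBall E | ∀ x, f.fn (i x) = 0} = ⋂ x, {f : DualBall E | f.fn (i x) = 0} := by
      ext f; simp
    rw [e]
    exact isClosed_iInter fun x => isClosed_eq (DualBall.continuous_fn _) continuous_const
  exact isCompact_iff_compactSpace.mp this.isCompact

lemma AnnBall.continuous_fn {i : X →L[ℝ] E} (v : E) : Continuous fun f : AnnBall i => f.1.fn v :=
  (DualBall.continuous_fn v).comp continuous_subtype_val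

/-- finite sums of finite rank operators -/
lemma finrank_sum {ι : Type*} (s : Finset ι) (R : ι → X →L[ℝ] E)
    (hR : ∀ j ∈ s, FiniteDimensional ℝ (LinearMap.range (R j).toLinearMap)) (c : ι → ℝ) :
    FiniteDimensional ℝ (LinearMap.range (∑ j ∈ s, c j • R j).toLinearMap) := by
  classical
  have h : LinearMap.range (∑ j ∈ s, c j • R j).toLinearMap ≤
      s.sup fun j => LinearMap.range (R j).toLinearMap := by
    rintro _ ⟨x, rfl⟩
    have e : (∑ j ∈ s, c j • R j).toLinearMap x = ∑ j ∈ s, c j • R j x := by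
      simp
    rw [e]
    refine Submodule.sum_mem _ fun j hj => Submodule.smul_mem _ _ ?_
    exact (Finset.le_sup (f := fun j => LinearMap.range (R j).toLinearMap) hj) ⟨x, rfl⟩
  have h2 : FiniteDimensional ℝ (s.sup fun j => LinearMap.range (R j).toLinearMap : Submodule ℝ E) := by
    clear h
    induction s using Finset.induction_on with
    | empty => rw [Finset.sup_empty]; infer_instance
    | insert a s ha ih =>
      rw [Finset.sup_insert]
      have h3 := hR a (Finset.mem_insert_self _ _)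
      have h4 := ih fun j hj => hR j (Finset.mem_insert_of_mem hj)
      infer_instance
  exact Submodule.finiteDimensional_of_le h

/-- convex combinations give good approximations -/
theorem local_of_compact (i : X →L[ℝ] E) {Q : Type*} [TopologicalSpace Q] [CompactSpace Q]
    [T2Space Q] (R : ℕ → X →L[ℝ] E)
    (hR : ∀ n, FiniteDimensional ℝ (LinearMap.range (R n).toLinearMap)) {C : ℝ}
    (hC : ∀ n, ‖R n‖ ≤ C) (g : ℕ → C(Q, ℝ)) (C' : ℝ) (hC' : ∀ n q, |g n q| ≤ C')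
    {δ : ℝ} (hδ : 0 < δ) (hg : ∀ q, ∀ᶠ n in atTop, g n q ≤ δ) (F : Finset X) (n₀ : ℕ)
    (h1 : ∀ x, ‖x‖ ≤ 1 → ∀ μ : AnnBall i, ∃ q, ∀ n, |μ.1.fn (R n x)| ≤ g n q)
    (h2 : ∀ (ι : Type) (s : Finset ι) (c : ι → ℝ) (n : ι → ℕ), (∀ j ∈ s, n₀ ≤ n j) →
      (∀ j ∈ s, 0 ≤ c j) → ∑ j ∈ s, c j = 1 → (∀ q, ∑ j ∈ s, c j * g (n j) q ≤ 2 * δ) →
      ∀ x ∈ F, ‖∑ j ∈ s, c j • R (n j) x - i x‖ ≤ 2 * δ) :
    ∃ R' : X →L[ℝ] E, FiniteDimensional ℝ (LinearMap.range R'.toLinearMap) ∧ ‖R'‖ ≤ C ∧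
      (∀ x ∈ F, ‖R' x - i x‖ ≤ 2 * δ) ∧ ∀ x, ∃ x', ‖R' x - i x'‖ ≤ 3 * δ * ‖x‖ := by
  classical
  obtain ⟨ι, s, c, n, hn, hc0, hc1, hle⟩ := mazur_weights g C' hC' hδ hg n₀
  have happ : ∀ x, (∑ j ∈ s, c j • R (n j)) x = ∑ j ∈ s, c j • R (n j) x := by
    intro x; simp
  refine ⟨∑ j ∈ s, c j • R (n j), finrank_sum s (fun j => R (n j)) (fun j _ => hR _) c, ?_, ?_, ?_⟩
  · calc ‖∑ j ∈ s, c j • R (n j)‖ ≤ ∑ j ∈ s, ‖c j • R (n j)‖ := norm_sum_le _ _
      _ ≤ ∑ j ∈ s, c j * C := by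
        refine Finset.sum_le_sum fun j hj => ?_
        rw [norm_smul, Real.norm_of_nonneg (hc0 j hj)]
        exact mul_le_mul_of_nonneg_left (hC _) (hc0 j hj)
      _ = C := by rw [← Finset.sum_mul, hc1, one_mul]
  · intro x hx
    rw [happ]
    exact h2 ι s c n hn hc0 hc1 hle x hx
  · -- first for vectors of norm at most one
    have hball : ∀ x, ‖x‖ ≤ 1 → ∃ x', ‖(∑ j ∈ s, c j • R (n j)) x - i x'‖ ≤ 3 * δ := by
      intro x hx
      have h3 : ∀ μ : E →L[ℝ] ℝ, ‖μ‖ ≤ 1 → (∀ y, μ (i y) = 0) →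
          |μ ((∑ j ∈ s, c j • R (n j)) x)| ≤ 2 * δ := by
        intro μ hμ hμi
        obtain ⟨q, hq⟩ := h1 x hx ⟨DualBall.mk' μ hμ, hμi⟩
        rw [happ, map_sum]
        refine (Finset.abs_sum_le_sum_abs _ _).trans (le_trans ?_ (hle q))
        refine Finset.sum_le_sum fun j hj => ?_
        rw [map_smul, smul_eq_mul, abs_mul, abs_of_nonneg (hc0 j hj)]
        exact mul_le_mul_of_nonneg_left (hq _) (hc0 j hj)
      obtain ⟨x', hx'⟩ := exists_near_of_annihilator i _ h3 hδ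
      exact ⟨x', hx'.trans (by linarith)⟩
    intro x
    rcases eq_or_ne x 0 with rfl | hx
    · exact ⟨0, by simp⟩
    have hxn : 0 < ‖x‖ := norm_pos_iff.mpr hx
    obtain ⟨x', hx'⟩ := hball (‖x‖⁻¹ • x) (by
      rw [norm_smul, norm_inv, norm_norm, inv_mul_cancel₀ hxn.ne'])
    refine ⟨‖x‖ • x', ?_⟩
    have e : (∑ j ∈ s, c j • R (n j)) x - i (‖x‖ • x') =
        ‖x‖ • ((∑ j ∈ s, c j • R (n j)) (‖x‖⁻¹ • x) - i x') := by
      rw [smul_sub, map_smul, map_smul, smul_smul, mul_inv_cancel₀ hxn.ne', one_smul]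
    rw [e, norm_smul, norm_norm, mul_comm]
    gcongr

end Pool.Agent.H756
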