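import Pool.Agent.H756.SepDual

/-!
# Approximate selections modulo functionals that factor through an operator
-/

namespace Pool.Agent.H756

open Filter Topology TopologicalSpace

section weights

variable {K : Type*} [TopologicalSpace K] (u : ℕ → ℕ → C(K, ℝ))

/-- the weights -/
noncomputable def wt (k m : ℕ) : C(K, ℝ) :=
  ⟨fun b => u k m b * ∏ j ∈ Finset.range k, (1 - u j m b), by fun_prop⟩

lemma wt_apply (k m : ℕ) (b : K) : wt u k m b = u k m b * ∏ j ∈ Finset.range k, (1 - u j m b) := rfl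

variable {u}

lemma wt_nonneg (h0 : ∀ k m b, 0 ≤ u k m b) (h1 : ∀ k m b, u k m b ≤ 1) (k m : ℕ) (b : K) :
    0 ≤ wt u k m b := by
  rw [wt_apply]
  refine mul_nonneg (h0 _ _ _) (Finset.prod_nonneg fun j _ => ?_)
  have := h1 j m b
  linarith

lemma sum_wt (m N : ℕ) (b : K) : ∑ k ∈ Finset.range N, wt u k m b =
    1 - ∏ j ∈ Finset.range N, (1 - u j m b) := by
  induction N with
  | zero => simp
  | succ N ih =>
    rw [Finset.sum_range_succ, ih, Finset.prod_range_succ, wt_apply]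
    ring

lemma sum_wt_le (h1 : ∀ k m b, u k m b ≤ 1) (m N : ℕ) (b : K) :
    ∑ k ∈ Finset.range N, wt u k m b ≤ 1 := by
  rw [sum_wt]
  have : 0 ≤ ∏ j ∈ Finset.range N, (1 - u j m b) :=
    Finset.prod_nonneg fun j _ => by
      have := h1 j m b
      linarith
  linarith

/-- the weights are eventually concentrated on good indices -/
lemma wt_near (b : K) (P : ℕ → Prop) (h1 : ∃ k₀, ∀ m, u k₀ m b = 1)
    (h0 : ∀ k, ¬ P k → ∀ᶠ m in atTop, u k m b = 0) :
    ∀ᶠ m in atTop, ∑ k ∈ Finset.range m, wt u k m b = 1 ∧ ∀ k, ¬ P k → wt u k m b = 0 := by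
  obtain ⟨k₀, hk₀⟩ := h1
  have hbig : ∀ᶠ m in atTop, ∀ k ∈ Finset.range (k₀ + 1), ¬ P k → u k m b = 0 := by
    rw [Filter.eventually_all_finset]
    intro k _
    by_cases h : P k
    · exact Eventually.of_forall fun m h' => absurd h h'
    · filter_upwards [h0 k h] with m hm _
      exact hm
  filter_upwards [hbig, eventually_ge_atTop (k₀ + 1)] with m hm hm2
  refine ⟨?_, fun k hk => ?_⟩
  · rw [sum_wt]
    have : ∏ j ∈ Finset.range m, (1 - u j m b) = 0 :=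
      Finset.prod_eq_zero (Finset.mem_range.mpr (show k₀ < m by omega)) (by rw [hk₀, sub_self])
    rw [this, sub_zero]
  · rw [wt_apply]
    by_cases hkk : k ∈ Finset.range (k₀ + 1)
    · rw [hm k hkk hk, zero_mul]
    · have hlt : k₀ < k := by
        rw [Finset.mem_range] at hkk; omega
      have : ∏ j ∈ Finset.range k, (1 - u j m b) = 0 :=
        Finset.prod_eq_zero (Finset.mem_range.mpr hlt) (by rw [hk₀, sub_self])
      rw [this, mul_zero]

end weights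

section gauge

variable {X : Type*} [NormedAddCommGroup X] [NormedSpace ℝ X]
variable {V : Type*} [NormedAddCommGroup V] [NormedSpace ℝ V]

/-- a functional that factors through `A` up to an error -/
def Dom (A : X →L[ℝ] V) (M η : ℝ) (f : X →L[ℝ] ℝ) : Prop := ∀ x, |f x| ≤ M * ‖A x‖ + η * ‖x‖

/-- Hahn-Banach: the factorization -/
theorem Dom.exists_factor {A : X →L[ℝ] V} {M η : ℝ} (hM : 0 ≤ M) (hη : 0 ≤ η)
    {f : X →L[ℝ] ℝ} (h : Dom A M η f) :
    ∃ g : V →L[ℝ] ℝ, ‖g‖ ≤ M ∧ ‖f - g.comp A‖ ≤ η := by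
  let N : X × V → ℝ := fun p => M * ‖p.2‖ + η * ‖p.1‖
  let fp : (X × V) →ₗ.[ℝ] ℝ :=
    { domain := A.toLinearMap.graph
      toFun := (f.toLinearMap ∘ₗ LinearMap.fst ℝ X V) ∘ₗ A.toLinearMap.graph.subtype }
  obtain ⟨g', hg1, hg2⟩ := exists_extension_of_le_sublinear fp N (by
    intro c hc p
    show M * ‖c • p.2‖ + η * ‖c • p.1‖ = c * (M * ‖p.2‖ + η * ‖p.1‖)
    rw [norm_smul, norm_smul, Real.norm_of_nonneg hc.le]; ring) (by
    intro p q
    show M * ‖p.2 + q.2‖ + η * ‖p.1 + q.1‖ ≤ (M * ‖p.2‖ + η * ‖p.1‖) + (M * ‖q.2‖ + η * ‖q.1‖)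
    have h1 := mul_le_mul_of_nonneg_left (norm_add_le p.2 q.2) hM
    have h2 := mul_le_mul_of_nonneg_left (norm_add_le p.1 q.1) hη
    linarith) (by
    rintro ⟨⟨x, v⟩, hx⟩
    have hx' : v = A x := hx
    subst hx'
    exact (le_abs_self _).trans (h x))
  have hgraph : ∀ x, g' (x, A x) = f x := fun x => hg1 ⟨(x, A x), rfl⟩
  have hv : ∀ v, |g' (0, v)| ≤ M * ‖v‖ := by
    intro v
    have h1 := hg2 (0, v)
    have h2 := hg2 (0, -v)
    have e1 : N (0, v) = M * ‖v‖ := by simp [N]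
    have e2 : N (0, -v) = M * ‖v‖ := by simp [N]
    have e3 : g' (0, -v) = - g' (0, v) := by
      rw [← map_neg]; congr 1; simp
    rw [e1] at h1
    rw [e2, e3] at h2
    exact abs_le.mpr ⟨by linarith, h1⟩
  have hx : ∀ x, |g' (x, 0)| ≤ η * ‖x‖ := by
    intro x
    have h1 := hg2 (x, 0)
    have h2 := hg2 (-x, 0)
    have e1 : N (x, 0) = η * ‖x‖ := by simp [N]
    have e2 : N (-x, 0) = η * ‖x‖ := by simp [N]
    have e3 : g' (-x, 0) = - g' (x, 0) := by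
      rw [← map_neg]; congr 1; simp
    rw [e1] at h1
    rw [e2, e3] at h2
    exact abs_le.mpr ⟨by linarith, h1⟩
  let g : V →L[ℝ] ℝ := LinearMap.mkContinuous (g' ∘ₗ LinearMap.inr ℝ X V) M (fun v => hv v)
  refine ⟨g, LinearMap.mkContinuous_norm_le _ hM _, ?_⟩
  refine ContinuousLinearMap.opNorm_le_bound _ hη fun x => ?_
  have e : (f - g.comp A) x = g' (x, 0) := by
    show f x - g' (0, A x) = g' (x, 0)
    rw [← hgraph x, ← map_sub]
    congr 1
    simp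
  rw [e]
  exact hx x

/-- approximate gauges of a functional -/
noncomputable def th2 (A : X →L[ℝ] V) (M : ℝ) (x : ℕ → X) (f : X →L[ℝ] ℝ) : ℕ → ℝ
  | 0 => 0
  | (m + 1) => max (th2 A M x f m) (|f (x m)| - M * ‖A (x m)‖)

variable {A : X →L[ℝ] V} {M : ℝ}

lemma th2_mono (x : ℕ → X) (f : X →L[ℝ] ℝ) : Monotone (th2 A M x f) :=
  monotone_nat_of_le_succ fun _ => le_max_left _ _

lemma th2_le (x : ℕ → X) (hx : ∀ k, ‖x k‖ ≤ 1) {f : X →L[ℝ] ℝ} {η : ℝ} (hη : 0 ≤ η)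
    (h : Dom A M η f) (m : ℕ) : th2 A M x f m ≤ η := by
  induction m with
  | zero => exact hη
  | succ m ih =>
    refine max_le ih ?_
    have h1 := h (x m)
    have h2 : η * ‖x m‖ ≤ η := mul_le_of_le_one_right hη (hx m)
    linarith

lemma exists_th2_gt (x : ℕ → X)
    (hd : ∀ y : X, ‖y‖ ≤ 1 → ∀ ε > 0, ∃ k, ‖y - x k‖ < ε) {f : X →L[ℝ] ℝ} {η : ℝ}
    (h : ¬ Dom A M η f) : ∃ m₀, ∀ m ≥ m₀, η < th2 A M x f m := by
  unfold Dom at h
  push Not at h
  obtain ⟨y, hy⟩ := h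
  have hy0 : y ≠ 0 := by
    rintro rfl
    simp at hy
  have hyn : 0 < ‖y‖ := norm_pos_iff.mpr hy0
  let y' : X := ‖y‖⁻¹ • y
  have hy'n : ‖y'‖ ≤ 1 := by
    rw [norm_smul, norm_inv, norm_norm, inv_mul_cancel₀ hyn.ne']
  have hy' : η < |f y'| - M * ‖A y'‖ := by
    have e1 : |f y'| = ‖y‖⁻¹ * |f y| := by
      rw [map_smul, smul_eq_mul, abs_mul, abs_inv, abs_of_pos hyn]
    have e2 : ‖A y'‖ = ‖y‖⁻¹ * ‖A y‖ := by
      rw [map_smul, norm_smul, norm_inv, norm_norm]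
    rw [e1, e2]
    have h3 : ‖y‖⁻¹ * (M * ‖A y‖ + η * ‖y‖) < ‖y‖⁻¹ * |f y| :=
      mul_lt_mul_of_pos_left hy (inv_pos.mpr hyn)
    have h4 : ‖y‖⁻¹ * (M * ‖A y‖ + η * ‖y‖) = M * (‖y‖⁻¹ * ‖A y‖) + η := by
      field_simp
    linarith
  have hopen : IsOpen {z : X | η < |f z| - M * ‖A z‖} :=
    isOpen_lt continuous_const (by fun_prop)
  obtain ⟨ε, hε, hball⟩ := Metric.isOpen_iff.mp hopen y' hy'
  obtain ⟨k, hk⟩ := hd y' hy'n ε hε
  have hk' : η < |f (x k)| - M * ‖A (x k)‖ := hball (by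
    rw [Metric.mem_ball, dist_eq_norm, norm_sub_rev]; exact hk)
  refine ⟨k + 1, fun m hm => lt_of_lt_of_le hk' (le_trans (le_max_right _ _)
    (th2_mono x f (show k + 1 ≤ m from hm)))⟩

variable (A M) (U : X →L[ℝ] X) (x : ℕ → X) (s : ℕ → X →L[ℝ] ℝ) (δ : ℝ)

lemma continuous_th2_sub (k m : ℕ) :
    Continuous fun b : DualBall X => th2 A M x (b.fn.comp U - s k) m := by
  induction m with
  | zero => exact continuous_const
  | succ m ih =>
    refine ih.max (Continuous.sub (Continuous.abs ?_) continuous_const)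
    exact (DualBall.continuous_fn (U (x m))).sub continuous_const

/-- the cut-off functions -/
noncomputable def uu2 (k m : ℕ) : C(DualBall X, ℝ) :=
  ⟨fun b => cut δ (th2 A M x (b.fn.comp U - s k) m),
    (continuous_cut δ).comp (continuous_th2_sub A M U x s k m)⟩

lemma uu2_nonneg (k m : ℕ) (b : DualBall X) : 0 ≤ uu2 A M U x s δ k m b := cut_nonneg _ _

lemma uu2_le_one (k m : ℕ) (b : DualBall X) : uu2 A M U x s δ k m b ≤ 1 := cut_le_one _ _

/-- the weights -/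
noncomputable def ww (k m : ℕ) : C(DualBall X, ℝ) := wt (uu2 A M U x s δ) k m

lemma ww_nonneg (k m : ℕ) (b : DualBall X) : 0 ≤ ww A M U x s δ k m b :=
  wt_nonneg (uu2_nonneg A M U x s δ) (uu2_le_one A M U x s δ) k m b

lemma sum_ww_le (m N : ℕ) (b : DualBall X) : ∑ k ∈ Finset.range N, ww A M U x s δ k m b ≤ 1 :=
  sum_wt_le (uu2_le_one A M U x s δ) m N b

/-- the approximate selection -/
noncomputable def sel (m : ℕ) (b : DualBall X) : X →L[ℝ] ℝ :=
  ∑ k ∈ Finset.range m, ww A M U x s δ k m b • s k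

variable {A M U x s δ}

lemma sel_norm_le {C : ℝ} (hC : 0 ≤ C) (hs : ∀ k, ‖s k‖ ≤ C) (m : ℕ) (b : DualBall X) :
    ‖sel A M U x s δ m b‖ ≤ C := by
  unfold sel
  refine (norm_sum_le _ _).trans ?_
  calc ∑ k ∈ Finset.range m, ‖ww A M U x s δ k m b • s k‖
      ≤ ∑ k ∈ Finset.range m, ww A M U x s δ k m b * C := by
        refine Finset.sum_le_sum fun k _ => ?_
        rw [norm_smul, Real.norm_of_nonneg (ww_nonneg A M U x s δ k m b)]
        exact mul_le_mul_of_nonneg_left (hs k) (ww_nonneg A M U x s δ k m b)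
    _ = (∑ k ∈ Finset.range m, ww A M U x s δ k m b) * C := by rw [Finset.sum_mul]
    _ ≤ 1 * C := by gcongr; exact sum_ww_le A M U x s δ m m b
    _ = C := one_mul C

lemma sel_near (hδ : 0 < δ) (hx1 : ∀ k, ‖x k‖ ≤ 1)
    (hx : ∀ y : X, ‖y‖ ≤ 1 → ∀ ε > 0, ∃ k, ‖y - x k‖ < ε)
    (hs : ∀ b : DualBall X, ∃ k, Dom A M δ (b.fn.comp U - s k)) (b : DualBall X) :
    ∀ᶠ m in atTop, Dom A M (2 * δ) (b.fn.comp U - sel A M U x s δ m b) := by
  have h1 := wt_near (u := uu2 A M U x s δ) b (fun k => Dom A M (2 * δ) (b.fn.comp U - s k))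
    (by
      obtain ⟨k₀, hk₀⟩ := hs b
      exact ⟨k₀, fun m => cut_eq_one hδ (th2_le x hx1 hδ.le hk₀ m)⟩)
    (fun k hk => by
      obtain ⟨m₀, hm₀⟩ := exists_th2_gt x hx hk
      filter_upwards [eventually_ge_atTop m₀] with m hm
      exact cut_eq_zero hδ (hm₀ m hm).le)
  filter_upwards [h1] with m hm
  obtain ⟨hsum, hzero⟩ := hm
  have hsum' : ∑ k ∈ Finset.range m, ww A M U x s δ k m b = 1 := hsum
  have hzero' : ∀ k, ¬ Dom A M (2 * δ) (b.fn.comp U - s k) → ww A M U x s δ k m b = 0 := hzero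
  intro y
  have e : (b.fn.comp U - sel A M U x s δ m b) y =
      ∑ k ∈ Finset.range m, ww A M U x s δ k m b * ((b.fn.comp U - s k) y) := by
    have e1 : b.fn.comp U - sel A M U x s δ m b =
        ∑ k ∈ Finset.range m, ww A M U x s δ k m b • (b.fn.comp U - s k) := by
      simp only [smul_sub, Finset.sum_sub_distrib, ← Finset.sum_smul, hsum', one_smul]
      rfl
    rw [e1, _root_.sum_apply]
    rfl
  rw [e]
  calc |∑ k ∈ Finset.range m, ww A M U x s δ k m b * ((b.fn.comp U - s k) y)|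
      ≤ ∑ k ∈ Finset.range m, |ww A M U x s δ k m b * ((b.fn.comp U - s k) y)| :=
        Finset.abs_sum_le_sum_abs _ _
    _ ≤ ∑ k ∈ Finset.range m, ww A M U x s δ k m b * (M * ‖A y‖ + 2 * δ * ‖y‖) := by
      refine Finset.sum_le_sum fun k _ => ?_
      rw [abs_mul, abs_of_nonneg (ww_nonneg A M U x s δ k m b)]
      by_cases h : Dom A M (2 * δ) (b.fn.comp U - s k)
      · exact mul_le_mul_of_nonneg_left (h y) (ww_nonneg A M U x s δ k m b)
      · rw [hzero' k h]; simp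
    _ = M * ‖A y‖ + 2 * δ * ‖y‖ := by rw [← Finset.sum_mul, hsum', one_mul]

variable (A M U x s δ)

/-- the finite rank operators -/
noncomputable def RS (m : ℕ) : X →L[ℝ] C(DualBall X, ℝ) :=
  ∑ k ∈ Finset.range m, (s k).smulRight (ww A M U x s δ k m)

lemma RS_apply (m : ℕ) (y : X) (b : DualBall X) :
    RS A M U x s δ m y b = sel A M U x s δ m b y := by
  unfold RS sel
  rw [_root_.sum_apply, ContinuousMap.sum_apply, _root_.sum_apply]
  refine Finset.sum_congr rfl fun k _ => ?_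
  show s k y * ww A M U x s δ k m b = ww A M U x s δ k m b * s k y
  ring

lemma sel_apply_le {C : ℝ} (hC : 0 ≤ C) (hs : ∀ k, ‖s k‖ ≤ C) (m : ℕ) (b : DualBall X) (y : X) :
    ‖sel A M U x s δ m b y‖ ≤ C * ‖y‖ :=
  ((sel A M U x s δ m b).le_opNorm y).trans (by gcongr; exact sel_norm_le hC hs m b)

lemma RS_apply_le {C : ℝ} (hC : 0 ≤ C) (hs : ∀ k, ‖s k‖ ≤ C) (m : ℕ) (y : X) :
    ‖RS A M U x s δ m y‖ ≤ C * ‖y‖ := by
  refine (ContinuousMap.norm_le _ (by positivity)).mpr fun b => ?_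
  rw [RS_apply]
  exact sel_apply_le A M U x s δ hC hs m b y

lemma RS_norm_le {C : ℝ} (hC : 0 ≤ C) (hs : ∀ k, ‖s k‖ ≤ C) (m : ℕ) : ‖RS A M U x s δ m‖ ≤ C :=
  ContinuousLinearMap.opNorm_le_bound _ hC fun y => RS_apply_le A M U x s δ hC hs m y

variable {A M U x s δ}

/-- the adjoints are eventually dominated on the annihilator -/
theorem adjoint_dom (hM : 0 ≤ M) (hδ : 0 < δ) (hx1 : ∀ k, ‖x k‖ ≤ 1)
    (hx : ∀ y : X, ‖y‖ ≤ 1 → ∀ ε > 0, ∃ k, ‖y - x k‖ < ε) {C : ℝ} (hC : 0 ≤ C)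
    (hUC : ‖U‖ ≤ C) (hs1 : ∀ k, ‖s k‖ ≤ C)
    (hs : ∀ b : DualBall X, ∃ k, Dom A M δ (b.fn.comp U - s k))
    (μ : AnnBall (evC X)) :
    ∀ᶠ m in atTop, Dom A (3 * M) (6 * δ) ((μ.1.fn).comp (RS A M U x s δ m)) := by
  have hnear := fun b => sel_near (δ := δ) hδ hx1 hx hs b
  by_contra hcon
  rw [Filter.not_eventually] at hcon
  obtain ⟨φ, hφ, hφ2⟩ := extraction_of_frequently_atTop hcon
  unfold Dom at hφ2
  push Not at hφ2
  choose y hy using hφ2
  have hy0 : ∀ n, y n ≠ 0 := by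
    intro n h0
    have := hy n
    rw [h0] at this
    simp at this
  have hyn : ∀ n, 0 < ‖y n‖ := fun n => norm_pos_iff.mpr (hy0 n)
  let γ : ℕ → ℝ := fun n => M * ‖A (y n)‖ + 2 * δ * ‖y n‖
  have hγ : ∀ n, 2 * δ * ‖y n‖ ≤ γ n := by
    intro n
    have : 0 ≤ M * ‖A (y n)‖ := by positivity
    simp only [γ]
    linarith
  have hγ0 : ∀ n, 0 < γ n := fun n => lt_of_lt_of_le (by have := hyn n; positivity) (hγ n)
  have h1 := weak_small μ.1.fn μ.1.fn_norm_le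
    (fun n => (γ n)⁻¹ • (RS A M U x s δ (φ n) (y n) - evC X (U (y n)))) (2 * C / (2 * δ))
    (fun n b => by
      show |(γ n)⁻¹ * (RS A M U x s δ (φ n) (y n) b - evC X (U (y n)) b)| ≤ 2 * C / (2 * δ)
      rw [RS_apply, evC_apply, abs_mul, abs_inv, abs_of_pos (hγ0 n), inv_mul_le_iff₀ (hγ0 n)]
      have h2 : ‖sel A M U x s δ (φ n) b (y n)‖ ≤ C * ‖y n‖ :=
        sel_apply_le A M U x s δ hC hs1 (φ n) b (y n)
      have h3 : ‖b.fn (U (y n))‖ ≤ C * ‖y n‖ := (b.abs_le _).trans ((U.le_opNorm _).trans (by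
        gcongr))
      have h4 := norm_sub_le (sel A M U x s δ (φ n) b (y n)) (b.fn (U (y n)))
      rw [Real.norm_eq_abs] at h4
      have h5 : 2 * C * ‖y n‖ = 2 * δ * ‖y n‖ * (2 * C / (2 * δ)) := by field_simp
      have h6 : 2 * δ * ‖y n‖ * (2 * C / (2 * δ)) ≤ γ n * (2 * C / (2 * δ)) :=
        mul_le_mul_of_nonneg_right (hγ n) (by positivity)
      linarith) (δ := 1) one_pos (fun b => by
        filter_upwards [hφ.tendsto_atTop.eventually (hnear b)] with n hn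
        show |(γ n)⁻¹ * (RS A M U x s δ (φ n) (y n) b - evC X (U (y n)) b)| ≤ 1
        rw [RS_apply, evC_apply, abs_mul, abs_inv, abs_of_pos (hγ0 n), inv_mul_le_iff₀ (hγ0 n),
          mul_one, abs_sub_comm]
        exact hn (y n))
  obtain ⟨n, hn⟩ := h1.exists
  have h2 := hy n
  have h3 : μ.1.fn (evC X (U (y n))) = 0 := μ.2 _
  have h4 : μ.1.fn ((γ n)⁻¹ • (RS A M U x s δ (φ n) (y n) - evC X (U (y n)))) =
      (γ n)⁻¹ * μ.1.fn (RS A M U x s δ (φ n) (y n)) := by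
    rw [map_smul, map_sub, h3, sub_zero, smul_eq_mul]
  rw [h4, abs_mul, abs_inv, abs_of_pos (hγ0 n), inv_mul_le_iff₀ (hγ0 n)] at hn
  rw [ContinuousLinearMap.comp_apply] at h2
  have h5 : γ n * (3 * 1) = 3 * M * ‖A (y n)‖ + 6 * δ * ‖y n‖ := by
    simp only [γ]; ring
  linarith

end gauge

end Pool.Agent.H756
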