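import Pool.Agent.H756.LF
import Pool.Agent.H756.Gauge

/-!
# A weak criterion, and extensions by reflexive spaces
-/

namespace Pool.Agent.H756

open Filter Topology TopologicalSpace ENNReal

universe u v

/-- Mazur's theorem for weakly null sequences -/
theorem mazur_weak {Y : Type*} [NormedAddCommGroup Y] [NormedSpace ℝ Y] (z : ℕ → Y)
    (hz : ∀ Φ : Y →L[ℝ] ℝ, Tendsto (fun n => Φ (z n)) atTop (𝓝 0)) (n₀ : ℕ) {ε : ℝ}
    (hε : 0 < ε) : ∃ w ∈ convexHull ℝ (z '' Set.Ici n₀), ‖w‖ < ε := by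
  by_contra hcon
  push Not at hcon
  have h0 : (0 : Y) ∉ closure (convexHull ℝ (z '' Set.Ici n₀)) := by
    intro h
    obtain ⟨w, hw, hd⟩ := Metric.mem_closure_iff.mp h ε hε
    rw [dist_zero_left] at hd
    exact absurd (hcon w hw) (not_le.mpr hd)
  obtain ⟨f, u, hf1, hf2⟩ := geometric_hahn_banach_point_closed
    ((convex_convexHull ℝ _).closure) isClosed_closure h0
  rw [map_zero] at hf1
  have h1 : ∀ᶠ n in atTop, u ≤ f (z n) := by
    filter_upwards [eventually_ge_atTop n₀] with n hn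
    exact (hf2 _ (subset_closure (subset_convexHull ℝ _ ⟨n, hn, rfl⟩))).le
  have h2 := ge_of_tendsto (hz f) h1
  linarith

section crit

variable {X : Type*} [NormedAddCommGroup X] [NormedSpace ℝ X]
variable {E : Type*} [NormedAddCommGroup E] [NormedSpace ℝ E]

/-- finite rank operators -/
lemma exists_finrank_repr (R : X →L[ℝ] E)
    (hR : FiniteDimensional ℝ (LinearMap.range R.toLinearMap)) :
    ∃ (n : ℕ) (v : Fin n → X →L[ℝ] ℝ) (e : Fin n → E), ∀ x, R x = ∑ j, v j x • e j := by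
  let H := LinearMap.range R.toLinearMap
  have hfree : Module.Free ℝ H := Module.Free.of_divisionRing ℝ H
  let b := Module.finBasis ℝ H
  let R' : X →L[ℝ] H := R.codRestrict H (fun x => ⟨x, rfl⟩)
  refine ⟨_, fun j => (LinearMap.toContinuousLinearMap (b.coord j)).comp R', fun j => (b j : E),
    fun x => ?_⟩
  have h1 := congrArg H.subtype (b.sum_repr (R' x)).symm
  rw [map_sum] at h1
  refine Eq.trans (show R x = H.subtype (R' x) from rfl) (h1.trans ?_)
  exact Finset.sum_congr rfl fun j _ => by rw [map_smul]; rfl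

/-- the weak criterion -/
theorem local_of_weak (i : X →L[ℝ] E) (R : ℕ → X →L[ℝ] E)
    (hfin : ∀ n, FiniteDimensional ℝ (LinearMap.range (R n).toLinearMap)) {C : ℝ}
    (hC : ∀ n, ‖R n‖ ≤ C) (hR : ∀ x, Tendsto (fun n => R n x) atTop (𝓝 (i x)))
    (hw : ∀ μ : E →L[ℝ] ℝ, (∀ x, μ (i x) = 0) → ∀ Φ : (X →L[ℝ] ℝ) →L[ℝ] ℝ,
      Tendsto (fun n => Φ (μ.comp (R n))) atTop (𝓝 0))
    (F : Finset X) (δ₀ : ℝ) (hδ₀ : 0 < δ₀) :
    ∃ R' : X →L[ℝ] E, FiniteDimensional ℝ (LinearMap.range R'.toLinearMap) ∧ ‖R'‖ ≤ C ∧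
      (∀ x ∈ F, ‖R' x - i x‖ ≤ δ₀) ∧ ∀ x, ∃ x', ‖R' x - i x'‖ ≤ δ₀ * ‖x‖ := by
  classical
  have hC0 : 0 ≤ C := (norm_nonneg _).trans (hC 0)
  have hgcont : ∀ n, Continuous fun p : DualBall (X →L[ℝ] ℝ) × AnnBall i =>
      |p.1.fn ((p.2.1.fn).comp (R n))| := by
    intro n
    obtain ⟨m, v, e, hve⟩ := exists_finrank_repr (R n) (hfin n)
    have e1 : ∀ p : DualBall (X →L[ℝ] ℝ) × AnnBall i, p.1.fn ((p.2.1.fn).comp (R n)) =
        ∑ j, p.2.1.fn (e j) * p.1.fn (v j) := by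
      intro p
      have e2 : (p.2.1.fn).comp (R n) = ∑ j, p.2.1.fn (e j) • v j := by
        ext x
        rw [ContinuousLinearMap.comp_apply, hve, map_sum, _root_.sum_apply]
        refine Finset.sum_congr rfl fun j _ => ?_
        show p.2.1.fn (v j x • e j) = p.2.1.fn (e j) * v j x
        rw [map_smul, smul_eq_mul, mul_comm]
      rw [e2, map_sum]
      exact Finset.sum_congr rfl fun j _ => by rw [map_smul, smul_eq_mul]
    simp only [e1]
    refine Continuous.abs (continuous_finsetSum _ fun j _ => ?_)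
    exact ((AnnBall.continuous_fn (i := i) (e j)).comp continuous_snd).mul
      ((DualBall.continuous_fn (v j)).comp continuous_fst)
  let g : ℕ → C(DualBall (X →L[ℝ] ℝ) × AnnBall i, ℝ) := fun n => ⟨_, hgcont n⟩
  have hgapp : ∀ n p, g n p = |p.1.fn ((p.2.1.fn).comp (R n))| := fun _ _ => rfl
  have hn₀ : ∃ n₀, ∀ n ≥ n₀, ∀ x ∈ F, ‖R n x - i x‖ ≤ 2 * (δ₀ / 3) := by
    have h1 : ∀ᶠ n in atTop, ∀ x ∈ F, ‖R n x - i x‖ ≤ 2 * (δ₀ / 3) := by
      rw [Filter.eventually_all_finset]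
      intro x _
      have h2 := Metric.tendsto_atTop.mp (hR x) (2 * (δ₀ / 3)) (by positivity)
      obtain ⟨N, hN⟩ := h2
      filter_upwards [eventually_ge_atTop N] with n hn
      rw [← dist_eq_norm]
      exact (hN n hn).le
    exact eventually_atTop.mp h1
  obtain ⟨n₀, hn₀⟩ := hn₀
  obtain ⟨R', h1, h2, h3, h4⟩ := local_of_compact (i := i) (C := C) R hfin hC g C
    (fun n p => by
      rw [hgapp, abs_abs]
      refine (p.1.abs_le _).trans ((ContinuousLinearMap.opNorm_comp_le _ _).trans ?_)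
      calc ‖p.2.1.fn‖ * ‖R n‖ ≤ 1 * C := by gcongr; exacts [p.2.1.fn_norm_le, hC n]
        _ = C := one_mul C)
    (δ := δ₀ / 3) (by positivity)
    (fun p => by
      have h1 := hw p.2.1.fn p.2.2 p.1.fn
      have h2 := Metric.tendsto_atTop.mp h1 (δ₀ / 3) (by positivity)
      obtain ⟨N, hN⟩ := h2
      filter_upwards [eventually_ge_atTop N] with n hn
      have h3 := hN n hn
      rw [Real.dist_eq, sub_zero] at h3
      exact h3.le)
    F n₀
    (fun x hx μ => by
      refine ⟨⟨DualBall.mk' (NormedSpace.inclusionInDoubleDual ℝ X x)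
        ((NormedSpace.double_dual_bound ℝ X x).trans hx), μ⟩, fun n => ?_⟩
      rw [hgapp]
      exact le_rfl)
    (fun ι s c n hn hc0 hc1 _ x hx => by
      have h1 : ∑ k ∈ s, c k • R (n k) x - i x = ∑ k ∈ s, c k • (R (n k) x - i x) := by
        simp only [smul_sub, Finset.sum_sub_distrib, ← Finset.sum_smul, hc1, one_smul]
      rw [h1]
      calc ‖∑ k ∈ s, c k • (R (n k) x - i x)‖
          ≤ ∑ k ∈ s, ‖c k • (R (n k) x - i x)‖ := norm_sum_le _ _
        _ ≤ ∑ k ∈ s, c k * (2 * (δ₀ / 3)) := by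
          refine Finset.sum_le_sum fun k hk => ?_
          rw [norm_smul, Real.norm_of_nonneg (hc0 k hk)]
          exact mul_le_mul_of_nonneg_left (hn₀ _ (hn k hk) x hx) (hc0 k hk)
        _ = 2 * (δ₀ / 3) := by rw [← Finset.sum_mul, hc1, one_mul])
  refine ⟨R', h1, h2, fun x hx => (h3 x hx).trans (by linarith), fun x => ?_⟩
  obtain ⟨x', hx'⟩ := h4 x
  exact ⟨x', hx'.trans_eq (by ring)⟩

end crit

end Pool.Agent.H756
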