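import Pool.Agent.H756.Compact

/-!
# Evaluation operators and finite selections
-/

namespace Pool.Agent.H756

open Filter Topology TopologicalSpace ENNReal

section evOp

variable {V : Type*} [NormedAddCommGroup V] [NormedSpace ℝ V] {G : Type*} {M : ℝ}

/-- evaluation of functionals along a bounded family of vectors -/
noncomputable def evOp (r : G → V) (hM : 0 ≤ M) (hr : ∀ b, ‖r b‖ ≤ M) :
    (V →L[ℝ] ℝ) →L[ℝ] lp (fun _ : G => ℝ) ∞ :=
  LinearMap.mkContinuous
    { toFun := fun f => ⟨fun b => f (r b), memℓp_infty ⟨‖f‖ * M, by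
        rintro _ ⟨b, rfl⟩
        exact (f.le_opNorm _).trans (mul_le_mul_of_nonneg_left (hr b) (norm_nonneg f))⟩⟩
      map_add' := fun _ _ => rfl
      map_smul' := fun _ _ => rfl } M (fun f => by
        refine lp.norm_le_of_forall_le (by positivity) fun b => ?_
        rw [mul_comm]
        exact (f.le_opNorm _).trans (mul_le_mul_of_nonneg_left (hr b) (norm_nonneg f)))

lemma evOp_apply (r : G → V) (hM : 0 ≤ M) (hr : ∀ b, ‖r b‖ ≤ M) (f : V →L[ℝ] ℝ) (b : G) :
    evOp r hM hr f b = f (r b) := rfl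

lemma evOp_norm_le (r : G → V) (hM : 0 ≤ M) (hr : ∀ b, ‖r b‖ ≤ M) : ‖evOp r hM hr‖ ≤ M :=
  LinearMap.mkContinuous_norm_le _ hM _

open Classical in
/-- the indicator of a fibre -/
noncomputable def fibInd (r : G → V) (v : V) : lp (fun _ : G => ℝ) ∞ :=
  ⟨fun b => if r b = v then 1 else 0, memℓp_infty ⟨1, by
    rintro _ ⟨b, rfl⟩
    by_cases h : r b = v <;> simp [h]⟩⟩

lemma evOp_eq (r : G → V) (hM : 0 ≤ M) (hr : ∀ b, ‖r b‖ ≤ M) (t : Finset V) (ht : ∀ b, r b ∈ t)
    (f : V →L[ℝ] ℝ) : evOp r hM hr f = ∑ v ∈ t, f v • fibInd r v := by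
  classical
  ext b
  rw [evOp_apply, lp.coeFn_sum, Finset.sum_apply]
  simp only [lp.coeFn_smul, Pi.smul_apply, fibInd, smul_eq_mul, mul_ite, mul_one, mul_zero]
  rw [Finset.sum_ite_eq t (r b)]
  rw [if_pos (ht b)]

lemma evOp_finrank (r : G → V) (hM : 0 ≤ M) (hr : ∀ b, ‖r b‖ ≤ M) (t : Finset V)
    (ht : ∀ b, r b ∈ t) :
    FiniteDimensional ℝ (LinearMap.range (evOp r hM hr).toLinearMap) := by
  classical
  refine Submodule.finiteDimensional_of_le
    (S₂ := Submodule.span ℝ (t.image (fibInd r) : Set (lp (fun _ : G => ℝ) ∞))) ?_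
  rintro _ ⟨f, rfl⟩
  show evOp r hM hr f ∈ _
  rw [evOp_eq r hM hr t ht]
  refine Submodule.sum_mem _ fun v hv => Submodule.smul_mem _ _ (Submodule.subset_span ?_)
  exact Finset.mem_coe.mpr (Finset.mem_image_of_mem _ hv)

end evOp

/-- Helly's theorem, approximate form -/
theorem exists_helly {B : Type*} [NormedAddCommGroup B] [NormedSpace ℝ B] {ι : Type*} [Fintype ι]
    (g : ι → B →L[ℝ] ℝ) (c : ι → ℝ) {M : ℝ} (hM : 0 ≤ M)
    (h : ∀ a : ι → ℝ, |∑ j, a j * c j| ≤ M * ‖∑ j, a j • g j‖) {ε : ℝ} (hε : 0 < ε) :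
    ∃ z : B, ‖z‖ ≤ M ∧ ∀ j, |g j z - c j| < ε := by
  classical
  let Φ : B →L[ℝ] (ι → ℝ) := ContinuousLinearMap.pi g
  by_cases hc : c ∈ closure (Φ '' Metric.closedBall 0 M)
  · obtain ⟨y, ⟨z, hz, rfl⟩, hd⟩ := Metric.mem_closure_iff.mp hc ε hε
    refine ⟨z, mem_closedBall_zero_iff.mp hz, fun j => ?_⟩
    have h1 := (dist_le_pi_dist c (Φ z) j).trans_lt hd
    rw [Real.dist_eq, abs_sub_comm] at h1
    exact h1
  · exfalso
    have hconv : Convex ℝ (closure (Φ '' Metric.closedBall 0 M)) :=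
      ((convex_closedBall (0 : B) M).linear_image Φ.toLinearMap).closure
    obtain ⟨f, u, hf1, hf2⟩ := geometric_hahn_banach_closed_point hconv isClosed_closure hc
    let a : ι → ℝ := fun j => f (Pi.single j 1)
    have hfa : ∀ y : ι → ℝ, f y = ∑ j, a j * y j := by
      intro y
      have e : y = ∑ j, y j • Pi.single j (1 : ℝ) := by
        ext k
        simp [Finset.sum_apply, Pi.single_apply]
      conv_lhs => rw [e]
      rw [map_sum]
      refine Finset.sum_congr rfl fun j _ => ?_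
      rw [map_smul, smul_eq_mul, mul_comm]
    have hg : ∀ z, (∑ j, a j • g j) z = f (Φ z) := by
      intro z
      rw [hfa, _root_.sum_apply]
      rfl
    have h1 : M * ‖∑ j, a j • g j‖ ≤ u := by
      rcases eq_or_lt_of_le hM with hM0 | hM0
      · rw [← hM0, zero_mul]
        have : f (Φ 0) < u := hf1 _ (subset_closure ⟨0, by simp [← hM0], rfl⟩)
        rw [map_zero, map_zero] at this
        exact this.le
      · rw [← le_div_iff₀' hM0]
        have hu : 0 ≤ u := by
          have : f (Φ 0) < u := hf1 _ (subset_closure ⟨0, by simp [hM], rfl⟩)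
          rw [map_zero, map_zero] at this
          exact this.le
        refine ContinuousLinearMap.opNorm_le_of_unit_norm (𝕜 := ℝ) (by positivity) fun z hz => ?_
        rw [le_div_iff₀' hM0, Real.norm_eq_abs]
        have h2 : ∀ σ : ℝ, |σ| = 1 → M * (σ * (∑ j, a j • g j) z) ≤ u := by
          intro σ hσ
          have h3 : f (Φ ((M * σ) • z)) < u := hf1 _ (subset_closure ⟨_, by
            rw [mem_closedBall_zero_iff, norm_smul, hz, mul_one, Real.norm_eq_abs, abs_mul, hσ,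
              mul_one, abs_of_pos hM0], rfl⟩)
          rw [← hg, map_smul, smul_eq_mul, mul_assoc] at h3
          exact h3.le
        rcases abs_cases ((∑ j, a j • g j) z) with ⟨h4, _⟩ | ⟨h4, _⟩
        · rw [h4]
          simpa using h2 1 (by simp)
        · rw [h4]
          simpa using h2 (-1) (by simp)
    have h2 : u < ∑ j, a j * c j := by rw [← hfa]; exact hf2
    have h3 := (le_abs_self _).trans (h a)
    linarith

/-- a finite selection on the unit ball of a dual space -/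
theorem exists_finite_selection {X : Type*} [NormedAddCommGroup X] [NormedSpace ℝ X]
    {B : Type*} [NormedAddCommGroup B] [NormedSpace ℝ B] {ι : Type*} [Fintype ι]
    (g : ι → B →L[ℝ] ℝ) (y : ι → X) {M : ℝ} (hM : 0 ≤ M)
    (h : ∀ a : ι → ℝ, ‖∑ j, a j • y j‖ ≤ M * ‖∑ j, a j • g j‖) {δ : ℝ} (hδ : 0 < δ) :
    ∃ (r : Metric.closedBall (0 : X →L[ℝ] ℝ) 1 → B) (t : Finset B), (∀ b, ‖r b‖ ≤ M) ∧
      (∀ b, r b ∈ t) ∧ ∀ b j, |g j (r b) - (b : X →L[ℝ] ℝ) (y j)| ≤ δ := by
  classical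
  let Φ : (X →L[ℝ] ℝ) →L[ℝ] (ι → ℝ) :=
    ContinuousLinearMap.pi fun j => NormedSpace.inclusionInDoubleDual ℝ X (y j)
  have hΦ : ∀ b j, Φ b j = b (y j) := fun _ _ => rfl
  have htb : TotallyBounded (Φ '' Metric.closedBall 0 1) := by
    have h1 : Bornology.IsBounded (Φ '' Metric.closedBall 0 1) :=
      Φ.lipschitz.isBounded_image Metric.isBounded_closedBall
    exact (h1.isCompact_closure.totallyBounded).subset subset_closure
  obtain ⟨t, ht, hfin, hcov⟩ := Metric.finite_approx_of_totallyBounded htb (δ / 2) (by positivity)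
  have hsub : ∀ c ∈ t, ∃ z : B, ‖z‖ ≤ M ∧ ∀ j, |g j z - c j| < δ / 2 := by
    intro c hc
    obtain ⟨b, hb, rfl⟩ := ht hc
    refine exists_helly g (Φ b) hM (fun a => ?_) (by positivity)
    have h1 : ∑ j, a j * Φ b j = b (∑ j, a j • y j) := by
      rw [map_sum]
      refine Finset.sum_congr rfl fun j _ => ?_
      rw [map_smul, smul_eq_mul, hΦ]
    rw [h1]
    have h2 : ‖b‖ ≤ 1 := mem_closedBall_zero_iff.mp hb
    have h3 := b.le_opNorm (∑ j, a j • y j)
    rw [Real.norm_eq_abs] at h3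
    refine h3.trans (le_trans ?_ (h a))
    exact mul_le_of_le_one_left (norm_nonneg _) h2
  choose! q hq1 hq2 using hsub
  have hb : ∀ b : Metric.closedBall (0 : X →L[ℝ] ℝ) 1, ∃ c ∈ t, dist (Φ b) c < δ / 2 := by
    intro b
    have h1 := hcov (Set.mem_image_of_mem Φ b.2)
    simpa only [Set.mem_iUnion, Metric.mem_ball, exists_prop] using h1
  choose p hp1 hp2 using hb
  refine ⟨fun b => q (p b), hfin.toFinset.image q, fun b => hq1 _ (hp1 b), fun b => ?_,
    fun b j => ?_⟩
  · exact Finset.mem_image_of_mem _ (hfin.mem_toFinset.mpr (hp1 b))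
  · have h1 := hq2 (p b) (hp1 b) j
    have h2 := (dist_le_pi_dist (Φ b) (p b) j).trans_lt (hp2 b)
    rw [Real.dist_eq, hΦ] at h2
    have h3 : g j (q (p b)) - (b : X →L[ℝ] ℝ) (y j) =
        (g j (q (p b)) - p b j) - ((b : X →L[ℝ] ℝ) (y j) - p b j) := by ring
    rw [h3]
    exact (abs_sub _ _).trans (by linarith)

end Pool.Agent.H756
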