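import Pool.Agent.H756.Crit

/-!
# Extensions by reflexive spaces
-/

namespace Pool.Agent.H756

open Filter Topology TopologicalSpace ENNReal

section ext

variable {X : Type*} [NormedAddCommGroup X] [NormedSpace ℝ X]
variable {V : Type*} [NormedAddCommGroup V] [NormedSpace ℝ V]
variable {Y : Type*} [NormedAddCommGroup Y] [NormedSpace ℝ Y]

/-- Hahn-Banach along an embedding -/
theorem exists_ext_of_bound (j : Y →L[ℝ] X) {Cj : ℝ} (hCj0 : 0 ≤ Cj)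
    (hj : ∀ y, ‖y‖ ≤ Cj * ‖j y‖) (d : Y →L[ℝ] ℝ) :
    ∃ w : X →L[ℝ] ℝ, (∀ y, w (j y) = d y) ∧ ‖w‖ ≤ Cj * ‖d‖ := by
  have hdom : Dom j (Cj * ‖d‖) 0 d := by
    intro y
    have h1 : |d y| ≤ ‖d‖ * ‖y‖ := d.le_opNorm y
    have h2 : ‖d‖ * ‖y‖ ≤ ‖d‖ * (Cj * ‖j y‖) := by gcongr; exact hj y
    rw [zero_mul, add_zero]
    linarith
  obtain ⟨g, hg1, hg2⟩ := hdom.exists_factor (by positivity) le_rfl
  refine ⟨g, fun y => ?_, hg1⟩
  have h3 := (d - g.comp j).le_opNorm y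
  have h4 : ‖d - g.comp j‖ * ‖y‖ ≤ 0 * ‖y‖ := by gcongr
  rw [zero_mul] at h4
  have h5 := norm_le_zero_iff.mp (h3.trans h4)
  have h6 : d y - g (j y) = 0 := h5
  linarith

/-- extending functionals from the kernel, with small values on a finite dimensional subspace -/
theorem exists_ext_functional (j : Y →L[ℝ] X) {Cj : ℝ} (hCj0 : 0 ≤ Cj)
    (hj : ∀ y, ‖y‖ ≤ Cj * ‖j y‖) (q : X →L[ℝ] V) (hjq : ∀ x, q x = 0 ↔ ∃ y, j y = x)
    {Cq : ℝ} (hCq0 : 0 ≤ Cq)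
    (hCq : ∀ v, ∃ x, q x = v ∧ ‖x‖ ≤ Cq * ‖v‖) (G : Submodule ℝ X) [FiniteDimensional ℝ G]
    {M₀ : ℝ} (hM₀ : 0 ≤ M₀) {ε : ℝ} (hε : 0 < ε) :
    ∃ (A : Finset Y) (η : ℝ), 0 < η ∧
      ∀ d : Y →L[ℝ] ℝ, ‖d‖ ≤ M₀ → (∀ y ∈ A, |d y| ≤ η) →
        ∃ w : X →L[ℝ] ℝ, (∀ y, w (j y) = d y) ∧
          ‖w‖ ≤ (Cj * M₀) * (1 + Cq * ‖q‖) ∧ ∀ g ∈ G, |w g| ≤ ε * ‖g‖ := by
  classical
  let M : ℝ := Cj * M₀
  have hM : 0 ≤ M := by positivity
  let D : ℝ := M * Cq * ‖q‖ + M + 1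
  have hD : 0 < D := by positivity
  let ε' : ℝ := ε / (2 * D)
  have hε' : 0 < ε' := by positivity
  have hε'D : ε' * D = ε / 2 := by simp only [ε']; field_simp
  have hprop : ProperSpace G := FiniteDimensional.proper ℝ G
  have htb : TotallyBounded (Metric.closedBall (0 : G) 1) :=
    (isCompact_closedBall (0 : G) 1).totallyBounded
  obtain ⟨t, ht, hfin, hcov⟩ := Metric.finite_approx_of_totallyBounded htb ε' hε'
  choose s hs1 hs2 using hCq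
  have hker : ∀ g : X, ∃ y, j y = g - s (q g) := by
    intro g
    rw [← hjq, map_sub, hs1, sub_self]
  choose yy hyy using hker
  refine ⟨hfin.toFinset.image (fun g : G => yy g), ε / 2, by positivity, ?_⟩
  intro d hd hdA
  obtain ⟨w₀, hw1, hw2⟩ := exists_ext_of_bound j hCj0 hj d
  have hw₀ : ‖w₀‖ ≤ M := hw2.trans (by simp only [M]; gcongr)
  have hnet : ∀ g : G, g ∈ t → |w₀ g| ≤ M * Cq * ‖q g‖ + ε / 2 := by
    intro g hg
    have h1 : (g : X) = s (q g) + j (yy g) := by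
      rw [hyy]; abel
    have h2 : |d (yy g)| ≤ ε / 2 :=
      hdA _ (Finset.mem_image.mpr ⟨g, hfin.mem_toFinset.mpr hg, rfl⟩)
    have h3 : w₀ g = w₀ (s (q g)) + d (yy g) := by
      conv_lhs => rw [h1]
      rw [map_add, hw1]
    rw [h3]
    refine (abs_add_le _ _).trans (add_le_add ?_ h2)
    refine (w₀.le_opNorm _).trans ?_
    calc ‖w₀‖ * ‖s (q g)‖ ≤ M * (Cq * ‖q g‖) := by gcongr; exact hs2 _
      _ = M * Cq * ‖q g‖ := by ring
  have hdom : Dom (q.comp G.subtypeL) (M * Cq) ε (w₀.comp G.subtypeL) := by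
    intro g
    show |w₀ g| ≤ M * Cq * ‖q g‖ + ε * ‖g‖
    rcases eq_or_ne g 0 with rfl | h0
    · simp
    have hgn : 0 < ‖g‖ := norm_pos_iff.mpr h0
    have h2 : ‖g‖⁻¹ • g ∈ Metric.closedBall (0 : G) 1 := by
      rw [mem_closedBall_zero_iff, norm_smul, norm_inv, norm_norm, inv_mul_cancel₀ hgn.ne']
    have h3 := hcov h2
    simp only [Set.mem_iUnion, Metric.mem_ball, exists_prop] at h3
    obtain ⟨a, ha, had⟩ := h3
    rw [dist_eq_norm] at had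
    let g' : G := ‖g‖⁻¹ • g
    have hg' : |w₀ g'| ≤ M * Cq * ‖q g'‖ + ε := by
      have e1 : w₀ g' = w₀ ((g' - a : G) : X) + w₀ a := by
        rw [← map_add]; congr 1; rw [Submodule.coe_sub]; abel
      have e2 : q a = q g' - q ((g' - a : G) : X) := by
        rw [← map_sub]; congr 1; rw [Submodule.coe_sub]; abel
      have h4 : |w₀ ((g' - a : G) : X)| ≤ M * ε' := by
        refine (w₀.le_opNorm _).trans ?_
        have : ‖((g' - a : G) : X)‖ ≤ ε' := had.le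
        gcongr
      have h5 : ‖q ((g' - a : G) : X)‖ ≤ ‖q‖ * ε' := by
        refine (q.le_opNorm _).trans ?_
        have : ‖((g' - a : G) : X)‖ ≤ ε' := had.le
        gcongr
      have h6 := hnet a ha
      have h7 : ‖q a‖ ≤ ‖q g'‖ + ‖q‖ * ε' := by
        rw [e2]
        exact (norm_sub_le _ _).trans (by linarith)
      have h8 : M * Cq * ‖q a‖ ≤ M * Cq * (‖q g'‖ + ‖q‖ * ε') := by gcongr
      rw [e1]
      refine (abs_add_le _ _).trans ?_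
      have h9 : ε' * D = ε' * (M * Cq * ‖q‖) + M * ε' + ε' := by simp only [D]; ring
      nlinarith
    have e3 : (g : X) = ‖g‖ • (g' : X) := by
      show (g : X) = ‖g‖ • ((‖g‖⁻¹ • g : G) : X)
      rw [Submodule.coe_smul, smul_smul, mul_inv_cancel₀ hgn.ne', one_smul]
    have e4 : w₀ g = ‖g‖ * w₀ g' := by
      conv_lhs => rw [e3]
      rw [map_smul, smul_eq_mul]
    have e5 : ‖q g‖ = ‖g‖ * ‖q g'‖ := by
      conv_lhs => rw [e3]
      rw [map_smul, norm_smul, norm_norm]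
    rw [e4, e5, abs_mul, abs_of_pos hgn]
    calc ‖g‖ * |w₀ g'| ≤ ‖g‖ * (M * Cq * ‖q g'‖ + ε) := by gcongr
      _ = M * Cq * (‖g‖ * ‖q g'‖) + ε * ‖g‖ := by ring
  obtain ⟨u, hu1, hu2⟩ := hdom.exists_factor (by positivity) hε.le
  refine ⟨w₀ - u.comp q, fun y => ?_, ?_, fun g hg => ?_⟩
  · have : q (j y) = 0 := (hjq _).mpr ⟨y, rfl⟩
    rw [_root_.sub_apply, ContinuousLinearMap.comp_apply, this, map_zero, sub_zero, hw1]
  · refine (norm_sub_le _ _).trans ?_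
    have h1 : ‖u.comp q‖ ≤ M * Cq * ‖q‖ := (ContinuousLinearMap.opNorm_comp_le _ _).trans (by gcongr)
    calc ‖w₀‖ + ‖u.comp q‖ ≤ M + M * Cq * ‖q‖ := add_le_add hw₀ h1
      _ = M * (1 + Cq * ‖q‖) := by ring
  · have h1 := (w₀.comp G.subtypeL - u.comp (q.comp G.subtypeL)).le_opNorm ⟨g, hg⟩
    rw [Real.norm_eq_abs] at h1
    exact h1.trans (by gcongr; exact le_rfl)

/-- extending finite rank operators from the kernel -/
theorem exists_ext_operator (j : Y →L[ℝ] X) {Cj : ℝ} (hCj0 : 0 ≤ Cj)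
    (hj : ∀ y, ‖y‖ ≤ Cj * ‖j y‖) (q : X →L[ℝ] V) (hjq : ∀ x, q x = 0 ↔ ∃ y, j y = x)
    {Cq : ℝ} (hCq0 : 0 ≤ Cq)
    (hCq : ∀ v, ∃ x, q x = v ∧ ‖x‖ ≤ Cq * ‖v‖) (G : Submodule ℝ X) [FiniteDimensional ℝ G]
    {C : ℝ} (hC : 0 ≤ C) {ε : ℝ} (hε : 0 < ε) :
    ∃ (A : Finset Y) (η : ℝ), 0 < η ∧
      ∀ S : Y →L[ℝ] lp (fun _ : Metric.closedBall (0 : X →L[ℝ] ℝ) 1 => ℝ) ∞,
        FiniteDimensional ℝ (LinearMap.range S.toLinearMap) → ‖S‖ ≤ C →
        (∀ y ∈ A, ‖S y - evL X (j y)‖ ≤ η) →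
        ∃ R : X →L[ℝ] lp (fun _ : Metric.closedBall (0 : X →L[ℝ] ℝ) 1 => ℝ) ∞,
          FiniteDimensional ℝ (LinearMap.range R.toLinearMap) ∧
          ‖R‖ ≤ 1 + (Cj * (C + ‖j‖)) * (1 + Cq * ‖q‖) ∧
          (∀ y, ‖R (j y) - S y‖ ≤ ε * ‖y‖) ∧
          ∀ g ∈ G, ‖R g - evL X g‖ ≤ ε * ‖g‖ := by
  classical
  obtain ⟨A, η, hη, hA⟩ := exists_ext_functional j hCj0 hj q hjq hCq0 hCq G (M₀ := C + ‖j‖)
    (by positivity) (show 0 < ε / 3 by positivity)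
  refine ⟨A, η, hη, ?_⟩
  intro S hS hSC hSA
  let Γ := Metric.closedBall (0 : X →L[ℝ] ℝ) 1
  let b : Γ → X →L[ℝ] ℝ := fun γ => γ
  have hb : ∀ γ, ‖b γ‖ ≤ 1 := fun γ => mem_closedBall_zero_iff.mp γ.2
  let sγ : Γ → Y →L[ℝ] ℝ := fun γ => LinearMap.mkContinuous
    { toFun := fun y => S y γ
      map_add' := fun y z => by rw [map_add]; rfl
      map_smul' := fun a y => by rw [map_smul]; rfl } C (fun y =>
        (lp.norm_apply_le_norm (p := ∞) (by simp) (S y) γ).trans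
          ((S.le_opNorm y).trans (by gcongr)))
  have hsγ : ∀ γ y, sγ γ y = S y γ := fun _ _ => rfl
  have hsγn : ∀ γ, ‖sγ γ‖ ≤ C := fun γ => LinearMap.mkContinuous_norm_le _ hC _
  -- the extended functionals
  have hext : ∀ γ, ∃ x' : X →L[ℝ] ℝ, (∀ y, x' (j y) = S y γ) ∧
      ‖x'‖ ≤ 1 + (Cj * (C + ‖j‖)) * (1 + Cq * ‖q‖) ∧
      ∀ g ∈ G, |x' g - b γ g| ≤ ε / 3 * ‖g‖ := by
    intro γ
    have hbY : ‖(b γ).comp j‖ ≤ ‖j‖ := by
      refine (ContinuousLinearMap.opNorm_comp_le _ _).trans ?_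
      exact mul_le_of_le_one_left (norm_nonneg _) (hb γ)
    obtain ⟨w, hw1, hw2, hw3⟩ := hA (sγ γ - (b γ).comp j) (by
      have h1 := norm_sub_le (sγ γ) ((b γ).comp j)
      have h2 := hsγn γ
      linarith) (fun y hy => by
      have h1 := lp.norm_apply_le_norm (p := ∞) (by simp) (S y - evL X (j y)) γ
      exact h1.trans (hSA y hy))
    refine ⟨b γ + w, fun y => ?_, ?_, fun g hg => ?_⟩
    · rw [_root_.add_apply, hw1]
      show b γ (j y) + (S y γ - b γ (j y)) = S y γ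
      ring
    · exact (norm_add_le _ _).trans (add_le_add (hb γ) hw2)
    · rw [_root_.add_apply, add_sub_cancel_left]
      exact hw3 g hg
  choose xs hxs1 hxs2 hxs3 using hext
  -- finitely many classes
  let H := LinearMap.range S.toLinearMap
  have hHfin : FiniteDimensional ℝ H := hS
  let eγ : Γ → H →L[ℝ] ℝ := fun γ => LinearMap.mkContinuous
    { toFun := fun h => (h : lp (fun _ : Γ => ℝ) ∞) γ
      map_add' := fun y z => rfl
      map_smul' := fun a y => rfl } 1 (fun h => by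
        rw [one_mul]
        exact lp.norm_apply_le_norm (p := ∞) (by simp) (h : lp (fun _ : Γ => ℝ) ∞) γ)
  have heγ : ∀ γ (h : H), eγ γ h = (h : lp (fun _ : Γ => ℝ) ∞) γ := fun _ _ => rfl
  have heγn : ∀ γ, ‖eγ γ‖ ≤ 1 := fun γ => LinearMap.mkContinuous_norm_le _ zero_le_one _
  let Ψ : Γ → (H →L[ℝ] ℝ) × (G →L[ℝ] ℝ) := fun γ => (eγ γ, (b γ).comp G.subtypeL)
  have hΨ : ∀ γ, Ψ γ ∈ Metric.closedBall (0 : (H →L[ℝ] ℝ) × (G →L[ℝ] ℝ)) 1 := by
    intro γ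
    rw [Metric.mem_closedBall, Prod.dist_eq]
    refine max_le ?_ ?_
    · exact (dist_zero_right (eγ γ)).trans_le (heγn γ)
    · refine (dist_zero_right ((b γ).comp G.subtypeL)).trans_le ?_
      refine ContinuousLinearMap.opNorm_le_bound _ zero_le_one fun y => ?_
      refine ((b γ).le_opNorm _).trans ?_
      have := hb γ
      gcongr
      exact le_rfl
  have hprop1 : ProperSpace (H →L[ℝ] ℝ) := FiniteDimensional.proper ℝ (H →L[ℝ] ℝ)
  have hprop2 : ProperSpace (G →L[ℝ] ℝ) := FiniteDimensional.proper ℝ (G →L[ℝ] ℝ)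
  have htb : TotallyBounded (Set.range Ψ) :=
    (isCompact_closedBall (0 : (H →L[ℝ] ℝ) × (G →L[ℝ] ℝ)) 1).totallyBounded.subset (by
      rintro _ ⟨γ, rfl⟩; exact hΨ γ)
  let ε' : ℝ := ε / (2 * (C + 1))
  have hε' : 0 < ε' := by positivity
  have hε'1 : ε' ≤ ε / 2 := by
    simp only [ε']
    rw [div_le_div_iff₀ (by positivity) (by positivity)]
    nlinarith [mul_nonneg hε.le hC]
  have hε'2 : ε' * C ≤ ε := by
    have : ε' * (C + 1) = ε / 2 := by simp only [ε']; field_simp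
    nlinarith
  obtain ⟨t, ht, hfin, hcov⟩ := Metric.finite_approx_of_totallyBounded
    (α := (H →L[ℝ] ℝ) × (G →L[ℝ] ℝ)) htb ε' hε'
  have hrep : ∀ c, ∃ γ, c ∈ t → Ψ γ = c := by
    intro c
    by_cases hc : c ∈ t
    · obtain ⟨γ, hγ⟩ := ht hc
      exact ⟨γ, fun _ => hγ⟩
    · exact ⟨⟨0, Metric.mem_closedBall_self zero_le_one⟩, fun h => absurd h hc⟩
  choose rep hrep using hrep
  have hcen : ∀ γ, ∃ c ∈ t, dist (Ψ γ) c < ε' := by
    intro γ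
    have h1 := hcov (Set.mem_range_self γ)
    simpa only [Set.mem_iUnion, Metric.mem_ball, exists_prop] using h1
  choose cen hcen1 hcen2 using hcen
  let r : Γ → X →L[ℝ] ℝ := fun γ => xs (rep (cen γ))
  let T : Finset (X →L[ℝ] ℝ) := hfin.toFinset.image fun c => xs (rep c)
  have hrT : ∀ γ, r γ ∈ T := fun γ =>
    Finset.mem_image_of_mem _ (hfin.mem_toFinset.mpr (hcen1 γ))
  have hdist : ∀ γ, dist (Ψ γ) (Ψ (rep (cen γ))) ≤ ε' := by
    intro γ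
    rw [hrep _ (hcen1 γ)]
    exact (hcen2 γ).le
  have hC' : 0 ≤ 1 + (Cj * (C + ‖j‖)) * (1 + Cq * ‖q‖) := by positivity
  let R₀ := evOp (V := X →L[ℝ] ℝ) r hC' (fun γ => hxs2 _)
  let R : X →L[ℝ] lp (fun _ : Γ => ℝ) ∞ := R₀.comp (NormedSpace.inclusionInDoubleDual ℝ X)
  have hRapp : ∀ x γ, R x γ = r γ x := fun _ _ => rfl
  refine ⟨R, ?_, ?_, fun y => ?_, fun g hg => ?_⟩
  · have h1 : FiniteDimensional ℝ (LinearMap.range R₀.toLinearMap) := evOp_finrank _ _ _ T hrT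
    refine Submodule.finiteDimensional_of_le (S₂ := LinearMap.range R₀.toLinearMap) ?_
    rintro _ ⟨x, rfl⟩
    exact ⟨NormedSpace.inclusionInDoubleDual ℝ X x, rfl⟩
  · refine ContinuousLinearMap.opNorm_le_bound _ hC' fun x => ?_
    refine lp.norm_le_of_forall_le (by positivity) fun γ => ?_
    rw [hRapp]
    exact ((r γ).le_opNorm x).trans (by gcongr; exact hxs2 _)
  · refine lp.norm_le_of_forall_le (by positivity) fun γ => ?_
    have e1 : (R (j y) - S y) γ = eγ (rep (cen γ)) ⟨S y, y, rfl⟩ - eγ γ ⟨S y, y, rfl⟩ := by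
      show R (j y) γ - S y γ = S y (rep (cen γ)) - S y γ
      rw [hRapp]
      show xs (rep (cen γ)) (j y) - S y γ = S y (rep (cen γ)) - S y γ
      rw [hxs1]
    rw [e1, ← _root_.sub_apply]
    have h1 : ‖eγ (rep (cen γ)) - eγ γ‖ ≤ ε' := by
      have h2 := hdist γ
      rw [Prod.dist_eq] at h2
      have h3 := (le_max_left _ _).trans h2
      exact (norm_sub_rev (eγ (rep (cen γ))) (eγ γ)).trans_le
        ((dist_eq_norm (eγ γ) (eγ (rep (cen γ)))).symm.trans_le h3)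
    have h3 : ‖(⟨S y, y, rfl⟩ : H)‖ ≤ C * ‖y‖ := (S.le_opNorm y).trans (by gcongr)
    refine ((eγ (rep (cen γ)) - eγ γ).le_opNorm _).trans ?_
    calc ‖eγ (rep (cen γ)) - eγ γ‖ * ‖(⟨S y, y, rfl⟩ : H)‖ ≤ ε' * (C * ‖y‖) := by gcongr
      _ = (ε' * C) * ‖y‖ := by ring
      _ ≤ ε * ‖y‖ := by gcongr
  · refine lp.norm_le_of_forall_le (by positivity) fun γ => ?_
    have e1 : (R g - evL X g) γ = (xs (rep (cen γ)) g - b (rep (cen γ)) g) -
        ((b γ).comp G.subtypeL - (b (rep (cen γ))).comp G.subtypeL) ⟨g, hg⟩ := by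
      show xs (rep (cen γ)) g - b γ g = (xs (rep (cen γ)) g - b (rep (cen γ)) g) -
        (b γ g - b (rep (cen γ)) g)
      ring
    rw [e1]
    have h1 : ‖(b γ).comp G.subtypeL - (b (rep (cen γ))).comp G.subtypeL‖ ≤ ε' := by
      have h2 := hdist γ
      rw [Prod.dist_eq] at h2
      have h3 := (le_max_right _ _).trans h2
      exact (dist_eq_norm ((b γ).comp G.subtypeL)
        ((b (rep (cen γ))).comp G.subtypeL)).symm.trans_le h3
    have h3 := ((b γ).comp G.subtypeL - (b (rep (cen γ))).comp G.subtypeL).le_opNorm ⟨g, hg⟩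
    have h4 : ‖(b γ).comp G.subtypeL - (b (rep (cen γ))).comp G.subtypeL‖ * ‖(⟨g, hg⟩ : G)‖ ≤
        ε' * ‖g‖ := by gcongr; exact le_rfl
    have h5 := hxs3 (rep (cen γ)) g hg
    refine (norm_sub_le _ _).trans ?_
    rw [Real.norm_eq_abs]
    have h6 : ε' * ‖g‖ ≤ ε / 2 * ‖g‖ := by gcongr
    have h7 := mul_nonneg hε.le (norm_nonneg g)
    linarith

/-- a bound for functionals on the dual, when the quotient is reflexive -/
theorem exists_bound_of_reflexive (j : Y →L[ℝ] X) {Cj : ℝ} (hCj0 : 0 ≤ Cj)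
    (hj : ∀ y, ‖y‖ ≤ Cj * ‖j y‖) (q : X →L[ℝ] V) (hjq : ∀ x, q x = 0 ↔ ∃ y, j y = x)
    {Cq : ℝ} (hCq : ∀ v, ∃ x, q x = v ∧ ‖x‖ ≤ Cq * ‖v‖)
    (hV : Function.Surjective (NormedSpace.inclusionInDoubleDual ℝ V))
    (Φ : (X →L[ℝ] ℝ) →L[ℝ] ℝ) : ∃ x₀ : X, ∀ z : X →L[ℝ] ℝ,
      |Φ z| ≤ |z x₀| + ((‖x₀‖ + ‖Φ‖) * Cj) * ‖z.comp j‖ := by
  classical
  obtain ⟨v₀, hv₀⟩ := hV (Φ.comp ((ContinuousLinearMap.compL ℝ X V ℝ).flip q))
  obtain ⟨x₀, hx₀, _⟩ := hCq v₀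
  refine ⟨x₀, fun z => ?_⟩
  obtain ⟨w, hw1, hw2⟩ := exists_ext_of_bound j hCj0 hj (z.comp j)
  -- the difference factors through the quotient
  have hfac : ∃ v : V →L[ℝ] ℝ, z - w = v.comp q := by
    choose s hs1 hs2 using hCq
    have hzw : ∀ x, q x = 0 → (z - w) x = 0 := by
      intro x hx
      obtain ⟨y, rfl⟩ := (hjq x).mp hx
      rw [_root_.sub_apply, hw1]
      exact sub_self _
    have hwd : ∀ x y, q x = q y → (z - w) x = (z - w) y := by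
      intro x y hxy
      have := hzw (x - y) (by rw [map_sub, hxy, sub_self])
      rw [map_sub] at this
      linarith
    let v : V →L[ℝ] ℝ := LinearMap.mkContinuous
      { toFun := fun a => (z - w) (s a)
        map_add' := fun a b => by
          rw [← map_add]
          exact hwd _ _ (by rw [hs1, map_add, hs1, hs1])
        map_smul' := fun c a => by
          rw [RingHom.id_apply, ← map_smul]
          exact hwd _ _ (by rw [hs1, map_smul, hs1]) } (‖z - w‖ * Cq) (fun a => by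
        refine ((z - w).le_opNorm _).trans ?_
        rw [mul_assoc]
        gcongr
        exact hs2 a)
    refine ⟨v, ?_⟩
    ext x
    exact hwd _ _ (hs1 _).symm
  obtain ⟨v, hv⟩ := hfac
  have h1 : Φ (z - w) = (z - w) x₀ := by
    have h2 : Φ (v.comp q) = v v₀ := by
      have h3 := congrArg (fun ψ : (V →L[ℝ] ℝ) →L[ℝ] ℝ => ψ v) hv₀
      exact h3.symm
    rw [hv, h2, ContinuousLinearMap.comp_apply, hx₀]
  have h2 : Φ z = (z x₀ - w x₀) + Φ w := by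
    have h3 := congrArg (fun a : ℝ => a) h1
    rw [map_sub, _root_.sub_apply] at h3
    linarith
  rw [h2]
  have h3 : |w x₀| ≤ ‖w‖ * ‖x₀‖ := w.le_opNorm x₀
  have h4 : |Φ w| ≤ ‖Φ‖ * ‖w‖ := Φ.le_opNorm w
  have h5 := abs_add_le (z x₀ - w x₀) (Φ w)
  have h6 := abs_sub (z x₀) (w x₀)
  have h7 : (‖x₀‖ + ‖Φ‖) * ‖w‖ = ‖w‖ * ‖x₀‖ + ‖Φ‖ * ‖w‖ := by ring
  have h8 : (‖x₀‖ + ‖Φ‖) * ‖w‖ ≤ (‖x₀‖ + ‖Φ‖) * (Cj * ‖z.comp j‖) := by gcongr
  have h9 : (‖x₀‖ + ‖Φ‖) * (Cj * ‖z.comp j‖) = ((‖x₀‖ + ‖Φ‖) * Cj) * ‖z.comp j‖ := by ring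
  linarith

/-- weak convergence in the dual, when the quotient is reflexive -/
theorem weak_null_of_reflexive (j : Y →L[ℝ] X) {Cj : ℝ} (hCj0 : 0 ≤ Cj)
    (hj : ∀ y, ‖y‖ ≤ Cj * ‖j y‖) (q : X →L[ℝ] V) (hjq : ∀ x, q x = 0 ↔ ∃ y, j y = x)
    {Cq : ℝ} (hCq : ∀ v, ∃ x, q x = v ∧ ‖x‖ ≤ Cq * ‖v‖)
    (hV : Function.Surjective (NormedSpace.inclusionInDoubleDual ℝ V)) (z : ℕ → X →L[ℝ] ℝ)
    (h1 : ∀ x, Tendsto (fun n => z n x) atTop (𝓝 0))
    (h2 : ∀ Φ : (Y →L[ℝ] ℝ) →L[ℝ] ℝ,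
      Tendsto (fun n => Φ ((z n).comp j)) atTop (𝓝 0))
    (Φ : (X →L[ℝ] ℝ) →L[ℝ] ℝ) : Tendsto (fun n => Φ (z n)) atTop (𝓝 0) := by
  classical
  have key : ∀ Φ : (X →L[ℝ] ℝ) →L[ℝ] ℝ, ∀ ε > 0, ∀ᶠ n in atTop, Φ (z n) < ε := by
    intro Φ ε hε
    by_contra hcon
    rw [Filter.not_eventually] at hcon
    obtain ⟨φ, hφ, hφ2⟩ := extraction_of_frequently_atTop hcon
    obtain ⟨x₀, hx₀⟩ := exists_bound_of_reflexive j hCj0 hj q hjq hCq hV Φ
    have hN : ∃ N, ∀ n ≥ N, |z (φ n) x₀| ≤ ε / 4 := by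
      have h3 := (h1 x₀).comp hφ.tendsto_atTop
      obtain ⟨N, hN⟩ := Metric.tendsto_atTop.mp h3 (ε / 4) (by positivity)
      refine ⟨N, fun n hn => ?_⟩
      have := hN n hn
      rw [Real.dist_eq, sub_zero] at this
      exact this.le
    obtain ⟨N, hN⟩ := hN
    let L : (X →L[ℝ] ℝ) →ₗ[ℝ] (Y →L[ℝ] ℝ) :=
      { toFun := fun z => z.comp j
        map_add' := fun _ _ => rfl
        map_smul' := fun _ _ => rfl }
    obtain ⟨w, hw, hwn⟩ := mazur_weak (fun n => L (z (φ n)))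
      (fun Ψ => by
        have h3 := (h2 Ψ).comp hφ.tendsto_atTop
        exact h3) N
      (show 0 < ε / (4 * ((‖x₀‖ + ‖Φ‖) * Cj + 1)) by positivity)
    have himg : (fun n => L (z (φ n))) '' Set.Ici N = L '' ((fun n => z (φ n)) '' Set.Ici N) := by
      rw [Set.image_image]
    rw [himg, ← LinearMap.image_convexHull] at hw
    obtain ⟨z', hz', rfl⟩ := hw
    have hΦz : ε ≤ Φ z' := by
      have hconv : Convex ℝ {y : X →L[ℝ] ℝ | ε ≤ Φ y} :=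
        convex_halfSpace_ge Φ.toLinearMap.isLinear ε
      have hsub : (fun n => z (φ n)) '' Set.Ici N ⊆ {y : X →L[ℝ] ℝ | ε ≤ Φ y} := by
        rintro _ ⟨n, _, rfl⟩
        exact not_lt.mp (hφ2 n)
      exact (convexHull_min hsub hconv) hz'
    have hzx : |z' x₀| ≤ ε / 4 := by
      have hconv : Convex ℝ {y : X →L[ℝ] ℝ | |y x₀| ≤ ε / 4} := by
        intro y hy y' hy' s t hs ht hst
        have h5 : |(s • y + t • y') x₀| ≤ s * |y x₀| + t * |y' x₀| := by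
          rw [_root_.add_apply, _root_.smul_apply, _root_.smul_apply, smul_eq_mul,
            smul_eq_mul]
          refine (abs_add_le _ _).trans (le_of_eq ?_)
          rw [abs_mul, abs_mul, abs_of_nonneg hs, abs_of_nonneg ht]
        have h6 : s * |y x₀| ≤ s * (ε / 4) := mul_le_mul_of_nonneg_left hy hs
        have h7 : t * |y' x₀| ≤ t * (ε / 4) := mul_le_mul_of_nonneg_left hy' ht
        have h8 : s * (ε / 4) + t * (ε / 4) = ε / 4 := by rw [← add_mul, hst, one_mul]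
        show |(s • y + t • y') x₀| ≤ ε / 4
        linarith
      have hsub : (fun n => z (φ n)) '' Set.Ici N ⊆ {y : X →L[ℝ] ℝ | |y x₀| ≤ ε / 4} := by
        rintro _ ⟨n, hn, rfl⟩
        exact hN n hn
      exact (convexHull_min hsub hconv) hz'
    have h5 := hx₀ z'
    have h6 : ‖z'.comp j‖ < ε / (4 * ((‖x₀‖ + ‖Φ‖) * Cj + 1)) := hwn
    have h7 : ((‖x₀‖ + ‖Φ‖) * Cj) * ‖z'.comp j‖ ≤ ε / 4 := by
      have h8 : ((‖x₀‖ + ‖Φ‖) * Cj + 1) * (ε / (4 * ((‖x₀‖ + ‖Φ‖) * Cj + 1))) = ε / 4 := by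
        field_simp
      have h9 := norm_nonneg (z'.comp j)
      have h10 : 0 ≤ (‖x₀‖ + ‖Φ‖) * Cj := by positivity
      nlinarith
    have h8 := le_abs_self (Φ z')
    linarith
  rw [Metric.tendsto_atTop]
  intro ε hε
  have h3 := key Φ ε hε
  have h4 := key (-Φ) ε hε
  obtain ⟨N, hN⟩ := eventually_atTop.mp (h3.and h4)
  refine ⟨N, fun n hn => ?_⟩
  obtain ⟨h5, h6⟩ := hN n hn
  rw [_root_.neg_apply] at h6
  rw [Real.dist_eq, sub_zero]
  exact abs_lt.mpr ⟨by linarith, h5⟩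

end ext

end Pool.Agent.H756
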