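import Pool.Agent.H756.Ext

/-!
# The embedding theorem for extensions by reflexive spaces
-/

namespace Pool.Agent.H756

open Filter Topology TopologicalSpace ENNReal

variable {X : Type*} [NormedAddCommGroup X] [NormedSpace ℝ X]
variable {V : Type*} [NormedAddCommGroup V] [NormedSpace ℝ V]
variable {E : Type*} [NormedAddCommGroup E] [NormedSpace ℝ E]
variable {Y : Type*} [NormedAddCommGroup Y] [NormedSpace ℝ Y]

/-- transfer to the canonical space -/
theorem exists_transfer (j : Y →L[ℝ] X) (i : Y →L[ℝ] E) {c : ℝ} (hc : 0 < c)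
    (hi : ∀ y, c * ‖y‖ ≤ ‖i y‖) :
    ∃ Φ : E →L[ℝ] lp (fun _ : Metric.closedBall (0 : X →L[ℝ] ℝ) 1 => ℝ) ∞,
      ‖Φ‖ ≤ c⁻¹ * ‖j‖ ∧ ∀ y : Y, Φ (i y) = evL X (j y) := by
  have hi' : ∀ y, ‖y‖ ≤ c⁻¹ * ‖i y‖ := by
    intro y
    rw [← div_eq_inv_mul, le_div_iff₀ hc, mul_comm]
    exact hi y
  have hφ : ∀ γ : Metric.closedBall (0 : X →L[ℝ] ℝ) 1, ∃ φ : E →L[ℝ] ℝ, ‖φ‖ ≤ c⁻¹ * ‖j‖ ∧
      ∀ y : Y, φ (i y) = (γ : X →L[ℝ] ℝ) (j y) := by
    intro γ
    obtain ⟨w, hw1, hw2⟩ := exists_ext_of_bound i (inv_nonneg.mpr hc.le) hi'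
      ((γ : X →L[ℝ] ℝ).comp j)
    refine ⟨w, hw2.trans ?_, hw1⟩
    have h1 : ‖(γ : X →L[ℝ] ℝ).comp j‖ ≤ ‖j‖ :=
      (ContinuousLinearMap.opNorm_comp_le _ _).trans
        (mul_le_of_le_one_left (norm_nonneg _) (mem_closedBall_zero_iff.mp γ.2))
    gcongr
  choose φ hφ1 hφ2 using hφ
  have hcj : 0 ≤ c⁻¹ * ‖j‖ := by positivity
  refine ⟨(evOp (V := E →L[ℝ] ℝ) φ hcj hφ1).comp
    (NormedSpace.inclusionInDoubleDual ℝ E), ?_, fun y => ?_⟩
  · refine ContinuousLinearMap.opNorm_le_bound _ hcj fun e => ?_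
    refine lp.norm_le_of_forall_le (by positivity) fun γ => ?_
    exact ((φ γ).le_opNorm e).trans (by gcongr; exact hφ1 _)
  · ext γ
    exact hφ2 γ y

/-- the embedding theorem for extensions by reflexive spaces -/
theorem embeds_of_extension [CompleteSpace X] [SeparableSpace X] [CompleteSpace V]
    [CompleteSpace Y] {ξ : Ordinal.{0}} (hX : BourgainIndexLE X ξ)
    (hV : Function.Surjective (NormedSpace.inclusionInDoubleDual ℝ V))
    (j : Y →L[ℝ] X) (hjinj : Function.Injective j) (q : X →L[ℝ] V)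
    (hq : Function.Surjective q) (hjq : ∀ x, q x = 0 ↔ ∃ y, j y = x)
    (i : Y →L[ℝ] E) {c : ℝ} (hc : 0 < c)
    (hi : ∀ y, c * ‖y‖ ≤ ‖i y‖) (R : ℕ → Y →L[ℝ] E)
    (hfin : ∀ n, FiniteDimensional ℝ (LinearMap.range (R n).toLinearMap))
    (hR : ∀ y, Tendsto (fun n => R n y) atTop (𝓝 (i y)))
    (hw : ∀ μ : E →L[ℝ] ℝ, (∀ y, μ (i y) = 0) → ∀ Φ : (Y →L[ℝ] ℝ) →L[ℝ] ℝ,
      Tendsto (fun n => Φ (μ.comp (R n))) atTop (𝓝 0)) :
    EmbedsWithIndex X (Ordinal.omega0 * ξ * Ordinal.omega0) := by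
  classical
  obtain ⟨Cq, hCq0, hCq⟩ := q.exists_preimage_norm_le hq
  -- `j` is bounded below
  obtain ⟨Cj, hCj0, hj⟩ : ∃ Cj : ℝ, 0 ≤ Cj ∧ ∀ y, ‖y‖ ≤ Cj * ‖j y‖ := by
    have hclosed : IsClosed (Set.range j) := by
      have e : Set.range j = q ⁻¹' {0} := by
        ext x
        rw [Set.mem_preimage, Set.mem_singleton_iff, hjq]
        rfl
      rw [e]
      exact isClosed_singleton.preimage q.continuous
    obtain ⟨K, hK⟩ := j.antilipschitz_of_injective_of_isClosed_range hjinj hclosed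
    refine ⟨K, K.2, fun y => ?_⟩
    have := hK.le_mul_dist y 0
    rwa [dist_zero_right, map_zero, dist_zero_right] at this
  obtain ⟨C, hC⟩ : ∃ C, ∀ n, ‖R n‖ ≤ C := by
    refine banach_steinhaus fun y => ?_
    obtain ⟨B, hB⟩ := (hR y).norm.bddAbove_range
    exact ⟨B, fun n => hB ⟨n, rfl⟩⟩
  have hC0 : 0 ≤ C := (norm_nonneg (R 0)).trans (hC 0)
  obtain ⟨Φ, hΦ1, hΦ2⟩ := exists_transfer j i hc hi
  let S : ℕ → Y →L[ℝ]
      lp (fun _ : Metric.closedBall (0 : X →L[ℝ] ℝ) 1 => ℝ) ∞ := fun n => Φ.comp (R n)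
  have hSfin : ∀ n, FiniteDimensional ℝ (LinearMap.range (S n).toLinearMap) := by
    intro n
    have := hfin n
    have e : LinearMap.range (S n).toLinearMap =
        (LinearMap.range (R n).toLinearMap).map Φ.toLinearMap := by
      rw [← LinearMap.range_comp]; rfl
    rw [e]
    infer_instance
  let D : ℝ := c⁻¹ * ‖j‖ * C
  have hD0 : 0 ≤ D := by positivity
  have hSn : ∀ n, ‖S n‖ ≤ D := fun n =>
    (ContinuousLinearMap.opNorm_comp_le _ _).trans (by
      simp only [D]; gcongr; exact hC n)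
  have hSlim : ∀ y, Tendsto (fun n => S n y) atTop (𝓝 (evL X (j y))) := by
    intro y
    rw [← hΦ2]
    exact (Φ.continuous.tendsto _).comp (hR y)
  let d : ℕ → X := denseSeq X
  have hd : DenseRange d := denseRange_denseSeq X
  let G : ℕ → Submodule ℝ X := fun k =>
    Submodule.span ℝ (((Finset.range (k + 1)).image d : Finset X) : Set X)
  have hGfin : ∀ k, FiniteDimensional ℝ (G k) := fun k => FiniteDimensional.span_finset ℝ _
  have hdG : ∀ l k, l ≤ k → d l ∈ G k := by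
    intro l k hlk
    refine Submodule.subset_span ?_
    exact Finset.mem_coe.mpr (Finset.mem_image_of_mem _ (Finset.mem_range.mpr (by omega)))
  let B : ℝ := 1 + (Cj * (D + ‖j‖)) * (1 + Cq * ‖q‖)
  have hkey : ∀ k : ℕ, ∃ n ≥ k,
      ∃ R' : X →L[ℝ] lp (fun _ : Metric.closedBall (0 : X →L[ℝ] ℝ) 1 => ℝ) ∞,
        FiniteDimensional ℝ (LinearMap.range R'.toLinearMap) ∧ ‖R'‖ ≤ B ∧
        (∀ y, ‖R' (j y) - S n y‖ ≤ (1 / (k + 1 : ℝ)) * ‖y‖) ∧
        ∀ g ∈ G k, ‖R' g - evL X g‖ ≤ (1 / (k + 1 : ℝ)) * ‖g‖ := by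
    intro k
    have := hGfin k
    obtain ⟨A, η, hη, hA⟩ := exists_ext_operator j hCj0 hj q hjq hCq0.le hCq (G k) hD0
      (show 0 < 1 / (k + 1 : ℝ) by positivity)
    have h1 : ∀ᶠ n in atTop, ∀ y ∈ A, ‖S n y - evL X (j y)‖ ≤ η := by
      rw [Filter.eventually_all_finset]
      intro y _
      obtain ⟨N, hN⟩ := Metric.tendsto_atTop.mp (hSlim y) η hη
      filter_upwards [eventually_ge_atTop N] with n hn
      rw [← dist_eq_norm]
      exact (hN n hn).le
    obtain ⟨n, hn, hnk⟩ := (h1.and (eventually_ge_atTop k)).exists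
    exact ⟨n, hnk, hA (S n) (hSfin n) (hSn n) hn⟩
  choose nn hnn R' hR1 hR2 hR3 hR4 using hkey
  have hnnlim : Tendsto nn atTop atTop := tendsto_atTop_mono hnn tendsto_id
  have hinv : Tendsto (fun k : ℕ => 1 / (k + 1 : ℝ)) atTop (𝓝 0) :=
    tendsto_one_div_add_atTop_nhds_zero_nat
  have hB0 : 0 ≤ B := (norm_nonneg _).trans (hR2 0)
  -- pointwise convergence
  have hlim : ∀ x, Tendsto (fun k => R' k x) atTop (𝓝 (evL X x)) := by
    intro x
    rw [Metric.tendsto_atTop]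
    intro ε hε
    obtain ⟨l, hl⟩ := hd.exists_dist_lt x (show 0 < ε / (2 * (B + 1)) by positivity)
    rw [dist_eq_norm] at hl
    have h2 : Tendsto (fun k : ℕ => (1 / (k + 1 : ℝ)) * ‖d l‖) atTop (𝓝 (0 * ‖d l‖)) :=
      hinv.mul_const _
    rw [zero_mul] at h2
    obtain ⟨N, hN⟩ := Metric.tendsto_atTop.mp h2 (ε / 2) (by positivity)
    refine ⟨max N l, fun k hk => ?_⟩
    have hk1 : N ≤ k := (le_max_left _ _).trans hk
    have hk2 : l ≤ k := (le_max_right _ _).trans hk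
    have h3 := hN k hk1
    rw [Real.dist_eq, sub_zero, abs_of_nonneg (by positivity)] at h3
    have h4 := hR4 k (d l) (hdG l k hk2)
    rw [dist_eq_norm]
    have e : R' k x - evL X x = R' k (x - d l) + (R' k (d l) - evL X (d l)) - evL X (x - d l) := by
      rw [map_sub, map_sub]; abel
    rw [e]
    have h5 : ‖R' k (x - d l)‖ ≤ B * ‖x - d l‖ := ((R' k).le_opNorm _).trans (by
      gcongr; exact hR2 k)
    have h6 : ‖evL X (x - d l)‖ ≤ ‖x - d l‖ := evL_le _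
    have h7 : (B + 1) * ‖x - d l‖ < ε / 2 := by
      calc (B + 1) * ‖x - d l‖ < (B + 1) * (ε / (2 * (B + 1))) := by gcongr
        _ = ε / 2 := by field_simp
    have h8 := norm_sub_le (R' k (x - d l) + (R' k (d l) - evL X (d l))) (evL X (x - d l))
    have h9 := norm_add_le (R' k (x - d l)) (R' k (d l) - evL X (d l))
    linarith
  refine embeds_of_local hX (evL X) one_pos (fun y => by rw [one_mul]; exact evL_norm_le y) B ?_
  intro F δ₀ hδ₀
  refine local_of_weak (evL X) R' hR1 hR2 hlim ?_ F δ₀ hδ₀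
  intro μ hμ
  refine weak_null_of_reflexive j hCj0 hj q hjq hCq hV (fun k => μ.comp (R' k))
    (fun x => ?_) (fun Ψ => ?_)
  · have h1 := (μ.continuous.tendsto (evL X x)).comp (hlim x)
    rw [hμ] at h1
    exact h1
  · have h1 : Tendsto (fun k => Ψ ((μ.comp Φ).comp (R (nn k)))) atTop (𝓝 0) := by
      have h2 := hw (μ.comp Φ) (fun y => by
        rw [ContinuousLinearMap.comp_apply, hΦ2, hμ]) Ψ
      exact h2.comp hnnlim
    have h3 : ∀ k, |Ψ ((μ.comp (R' k)).comp j) -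
        Ψ ((μ.comp Φ).comp (R (nn k)))| ≤ ‖Ψ‖ * (‖μ‖ * (1 / (k + 1 : ℝ))) := by
      intro k
      rw [← map_sub]
      refine (Ψ.le_opNorm _).trans ?_
      gcongr
      refine ContinuousLinearMap.opNorm_le_bound _ (by positivity) fun y => ?_
      have e : ((μ.comp (R' k)).comp j -
          (μ.comp Φ).comp (R (nn k))) y = μ (R' k (j y) - S (nn k) y) := by
        rw [map_sub]; rfl
      rw [e]
      refine (μ.le_opNorm _).trans ?_
      rw [mul_assoc]
      gcongr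
      exact hR3 k y
    have h4 : Tendsto (fun k : ℕ => ‖Ψ‖ * (‖μ‖ * (1 / (k + 1 : ℝ)))) atTop (𝓝 0) := by
      have := (hinv.const_mul ‖μ‖).const_mul ‖Ψ‖
      rwa [mul_zero, mul_zero] at this
    have h5 := squeeze_zero_norm (fun k => by rw [Real.norm_eq_abs]; exact h3 k) h4
    have h6 := h5.add h1
    rw [add_zero] at h6
    refine h6.congr fun k => ?_
    ring

end Pool.Agent.H756
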