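import Pool.Agent.H756.SepDual

/-!
# Closed embeddings, countability, compact operators
-/

namespace Pool.Agent.H756

open Filter Topology TopologicalSpace

/-- `ω · ξ · ω` is a countable ordinal when `ξ` is -/
theorem bound_lt_omega_one {ξ : Ordinal.{0}} (h : ξ < Ordinal.omega 1) :
    Ordinal.omega0 * ξ * Ordinal.omega0 < Ordinal.omega 1 := by
  rw [Cardinal.lt_omega_iff_card_lt, Cardinal.lt_aleph_one_iff] at h ⊢
  rw [Ordinal.card_mul, Ordinal.card_mul, Ordinal.card_omega0]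
  calc Cardinal.aleph0 * ξ.card * Cardinal.aleph0
      ≤ Cardinal.aleph0 * Cardinal.aleph0 * Cardinal.aleph0 := by gcongr
    _ = Cardinal.aleph0 := by rw [Cardinal.aleph0_mul_aleph0, Cardinal.aleph0_mul_aleph0]

/-- from a lower estimate to a closed embedding -/
theorem EmbedsWithIndex.exists_closed {X : Type*} [NormedAddCommGroup X] [NormedSpace ℝ X]
    [CompleteSpace X] {η : Ordinal.{0}} (h : EmbedsWithIndex X η) :
    ∃ (Y : Type) (_ : NormedAddCommGroup Y) (_ : NormedSpace ℝ Y) (_ : CompleteSpace Y),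
      Nonempty (SchauderBasis ℝ Y) ∧ (∃ T : X →L[ℝ] Y, Topology.IsClosedEmbedding T) ∧
        BourgainIndexLE Y η := by
  obtain ⟨Y, i1, i2, i3, h1, ⟨T, c, hc, hT⟩, h3⟩ := h
  refine ⟨Y, i1, i2, i3, h1, ⟨T, ?_⟩, h3⟩
  have hanti : AntilipschitzWith (Real.toNNReal c⁻¹) T := by
    refine AddMonoidHomClass.antilipschitz_of_bound T fun x => ?_
    rw [Real.coe_toNNReal _ (inv_nonneg.mpr hc.le), ← div_eq_inv_mul, le_div_iff₀ hc, mul_comm]
    exact hT x
  exact hanti.isClosedEmbedding T.uniformContinuous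

/-- the adjoint of a compact operator has separable range -/
theorem isSeparable_adjoint_of_compact {X Y : Type*} [NormedAddCommGroup X] [NormedSpace ℝ X]
    [NormedAddCommGroup Y] [NormedSpace ℝ Y] (U : X →L[ℝ] Y) (hU : IsCompactOperator U) :
    IsSeparable (Set.range fun f : Y →L[ℝ] ℝ => f.comp U) := by
  let K : Set Y := closure (U '' Metric.closedBall 0 1)
  have hK : IsCompact K := IsCompactOperator.isCompact_closure_image_closedBall
    (f := U.toLinearMap) hU 1
  have : CompactSpace K := isCompact_iff_compactSpace.mp hK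
  let ρ : (Y →L[ℝ] ℝ) → C(K, ℝ) := fun f => ⟨fun y => f y, by fun_prop⟩
  have : SecondCountableTopology C(K, ℝ) := inferInstance
  have hsep : SeparableSpace (Set.range ρ) := inferInstance
  obtain ⟨t, ht, htd⟩ := exists_countable_dense (Set.range ρ)
  -- choose preimages
  have hpre : ∀ p : Set.range ρ, ∃ f, ρ f = p := fun p => p.2
  choose q hq using hpre
  refine ⟨(fun p => (q p).comp U) '' t, ht.image _, ?_⟩
  rintro _ ⟨f, rfl⟩
  rw [Metric.mem_closure_iff]
  intro ε hε
  obtain ⟨p, hp, hpd⟩ := Metric.mem_closure_iff.mp (htd ⟨ρ f, f, rfl⟩) (ε / 2) (by positivity)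
  refine ⟨_, ⟨p, hp, rfl⟩, ?_⟩
  have h1 : dist (ρ f) (ρ (q p)) < ε / 2 := by rw [hq]; exact hpd
  rw [dist_eq_norm] at h1 ⊢
  have h2 : ‖f.comp U - (q p).comp U‖ ≤ ‖ρ f - ρ (q p)‖ := by
    refine ContinuousLinearMap.opNorm_le_of_unit_norm (𝕜 := ℝ) (norm_nonneg _) fun x hx => ?_
    have hmem : U x ∈ K := subset_closure ⟨x, mem_closedBall_zero_iff.mpr hx.le, rfl⟩
    exact (ρ f - ρ (q p)).norm_coe_le_norm ⟨U x, hmem⟩
  linarith

end Pool.Agent.H756
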