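import Pool.Agent.H756.StepB

/-!
# The embedding theorem for pointwise limits of finite rank operators
-/

namespace Pool.Agent.H756

open Filter Topology

/-- concatenation of finite blocks -/
theorem exists_concat {α : Type*} (a : ℕ → ℕ → α) (len : ℕ → ℕ) (hlen : ∀ n, 0 < len n) :
    ∃ b : ℕ → α, ∃ L : ℕ → ℕ, L 0 = 0 ∧ (∀ n, L (n + 1) = L n + len n) ∧
      ∀ n, ∀ j < len n, b (L n + j) = a n j := by
  let L : ℕ → ℕ := fun n => ∑ m ∈ Finset.range n, len m
  have hL : ∀ n, L (n + 1) = L n + len n := fun n => Finset.sum_range_succ _ _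
  have hmono : StrictMono L := strictMono_nat_of_lt_succ fun n => by
    rw [hL]; have := hlen n; omega
  have hex : ∀ k, ∃ n, k < L (n + 1) := fun k => ⟨k, by
    have := hmono.le_apply (x := k + 1); omega⟩
  classical
  let st : ℕ → ℕ := fun k => Nat.find (hex k)
  refine ⟨fun k => a (st k) (k - L (st k)), L, by simp [L], hL, ?_⟩
  intro n j hj
  have h1 : st (L n + j) = n := by
    refine (Nat.find_eq_iff _).mpr ⟨by rw [hL]; omega, fun m hm => ?_⟩
    have : L (m + 1) ≤ L n := hmono.monotone hm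
    omega
  show a (st (L n + j)) (L n + j - L (st (L n + j))) = a n j
  rw [h1]
  congr 1
  omega

theorem exists_stage (L : ℕ → ℕ) (hL0 : L 0 = 0) (hL : StrictMono L) (M : ℕ) :
    ∃ n, L n ≤ M ∧ M < L (n + 1) := by
  classical
  have hex : ∃ n, M < L (n + 1) := ⟨M, by
    have := hL.le_apply (x := M + 1); omega⟩
  refine ⟨Nat.find hex, ?_, Nat.find_spec hex⟩
  rcases Nat.eq_zero_or_pos (Nat.find hex) with h | h
  · rw [h, hL0]; exact Nat.zero_le _
  · have := Nat.find_min hex (m := Nat.find hex - 1) (by omega)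
    rw [Nat.sub_add_cancel h] at this
    omega

variable {X : Type*} [NormedAddCommGroup X] [NormedSpace ℝ X]
variable {E : Type*} [NormedAddCommGroup E] [NormedSpace ℝ E]

/-- `X` embeds in a Banach space with a Schauder basis whose index is at most `η` -/
def EmbedsWithIndex (X : Type*) [NormedAddCommGroup X] [NormedSpace ℝ X] (η : Ordinal.{0}) :
    Prop :=
  ∃ (Y : Type) (_ : NormedAddCommGroup Y) (_ : NormedSpace ℝ Y) (_ : CompleteSpace Y),
      Nonempty (SchauderBasis ℝ Y) ∧ (∃ T : X →L[ℝ] Y, ∃ c > 0, ∀ x, c * ‖x‖ ≤ ‖T x‖) ∧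
        BourgainIndexLE Y η

/-- finite dimensional range: a rank one decomposition with an extra dummy term -/
theorem exists_rank_one (A : X →L[ℝ] E) (hA : FiniteDimensional ℝ (LinearMap.range A.toLinearMap))
    (e₀ : E) (he₀ : e₀ ≠ 0) :
    ∃ (m : ℕ) (φ : ℕ → X →L[ℝ] ℝ) (u : ℕ → E), 0 < m ∧ (∀ j, u j ≠ 0) ∧
      (∀ j, u j ∈ LinearMap.range A.toLinearMap ⊔ Submodule.span ℝ {e₀}) ∧
      ∀ x, ∑ j ∈ Finset.range m, φ j x • u j = A x := by
  classical
  let F := LinearMap.range A.toLinearMap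
  let b := Module.finBasis ℝ F
  let d := Module.finrank ℝ F
  let A' : X →L[ℝ] F := A.codRestrict F (fun x => ⟨x, rfl⟩)
  let φ : Fin d → X →L[ℝ] ℝ := fun j => (LinearMap.toContinuousLinearMap (b.coord j)).comp A'
  refine ⟨d + 1, fun j => if h : j < d then φ ⟨j, h⟩ else 0,
    fun j => if h : j < d then (b ⟨j, h⟩ : E) else e₀, Nat.succ_pos _, ?_, ?_, ?_⟩
  · intro j
    by_cases h : j < d
    · simp only [dif_pos h]
      intro h0
      exact b.ne_zero ⟨j, h⟩ (Subtype.ext h0)
    · simp only [dif_neg h]; exact he₀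
  · intro j
    by_cases h : j < d
    · simp only [dif_pos h]
      exact Submodule.mem_sup_left (b ⟨j, h⟩).2
    · simp only [dif_neg h]
      exact Submodule.mem_sup_right (Submodule.mem_span_singleton_self e₀)
  · intro x
    rw [Finset.sum_range_succ]
    have h0 : ¬ d < d := lt_irrefl d
    simp only [dif_neg h0]
    rw [Finset.sum_range]
    simp only [Fin.is_lt, dif_pos, Fin.eta]
    have h1 := b.sum_repr (A' x)
    have h2 : (∑ j, (b.repr (A' x)) j • (b j : E)) = A x := by
      have h3 := congrArg (F.subtype) h1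
      rw [map_sum] at h3
      refine Eq.trans ?_ (show ((A' x : F) : E) = A x from rfl)
      simpa only [map_smul, Submodule.subtype_apply] using h3
    simp only [zero_apply, _root_.zero_smul, _root_.add_zero]
    rw [← h2]
    rfl

/-- a compactness argument -/
theorem exists_finite_approx (i R : X →L[ℝ] E)
    (hR : FiniteDimensional ℝ (LinearMap.range R.toLinearMap)) {δ : ℝ} (hδ : 0 < δ)
    (hdist : ∀ x, ∃ x', ‖R x - i x'‖ ≤ δ * ‖x‖) :
    ∃ F : Submodule ℝ X, FiniteDimensional ℝ F ∧ ∀ x, ∃ x' ∈ F, ‖R x - i x'‖ ≤ 2 * δ * ‖x‖ := by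
  classical
  have htb : TotallyBounded (R '' Metric.closedBall 0 1) := by
    let F := LinearMap.range R.toLinearMap
    let R' : X →L[ℝ] F := R.codRestrict F (fun x => ⟨x, rfl⟩)
    have h1 : Bornology.IsBounded (R' '' Metric.closedBall 0 1) :=
      R'.lipschitz.isBounded_image Metric.isBounded_closedBall
    have : ProperSpace F := FiniteDimensional.proper ℝ F
    have h2 : TotallyBounded (R' '' Metric.closedBall 0 1) :=
      (h1.isCompact_closure.totallyBounded).subset subset_closure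
    have h3 := h2.image (f := ((↑) : F → E)) uniformContinuous_subtype_val
    rw [Set.image_image] at h3
    exact h3
  obtain ⟨t, ht, hfin, hcov⟩ := Metric.finite_approx_of_totallyBounded htb δ hδ
  choose! p hp using hdist
  have hsub : ∀ y ∈ t, ∃ x ∈ Metric.closedBall (0 : X) 1, R x = y := fun y hy => ht hy
  choose! q hq using hsub
  have hfin' : (Set.Finite ((fun y => p (q y)) '' t)) := hfin.image _
  refine ⟨Submodule.span ℝ ((fun y => p (q y)) '' t), FiniteDimensional.span_of_finite ℝ hfin', ?_⟩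
  intro x
  rcases eq_or_ne x 0 with rfl | hx
  · exact ⟨0, Submodule.zero_mem _, by simp⟩
  have hxn : 0 < ‖x‖ := norm_pos_iff.mpr hx
  have hx1 : ‖x‖⁻¹ • x ∈ Metric.closedBall (0 : X) 1 := by
    rw [mem_closedBall_zero_iff, norm_smul, norm_inv, norm_norm, inv_mul_cancel₀ hxn.ne']
  have h1 := hcov (Set.mem_image_of_mem R hx1)
  simp only [Set.mem_iUnion, Metric.mem_ball, exists_prop] at h1
  obtain ⟨y, hy, hyd⟩ := h1
  refine ⟨‖x‖ • p (q y), Submodule.smul_mem _ _ (Submodule.subset_span ⟨y, hy, rfl⟩), ?_⟩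
  have h2 := hp (q y)
  have h3 := (hq y hy).1
  rw [mem_closedBall_zero_iff] at h3
  rw [(hq y hy).2] at h2
  have e : R x - i (‖x‖ • p (q y)) = ‖x‖ • ((R (‖x‖⁻¹ • x) - y) + (y - i (p (q y)))) := by
    rw [sub_add_sub_cancel, smul_sub, map_smul, map_smul, smul_smul, mul_inv_cancel₀ hxn.ne',
      _root_.one_smul]
  rw [e, norm_smul, norm_norm, mul_comm]
  rw [dist_eq_norm] at hyd
  gcongr
  refine (norm_add_le _ _).trans ?_
  have h4 : ‖y - i (p (q y))‖ ≤ δ := by
    refine h2.trans ?_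
    nlinarith
  linarith

/-- the main embedding theorem -/
theorem embeds_of_approx [CompleteSpace X] {ξ : Ordinal.{0}} (hX : BourgainIndexLE X ξ)
    (i : X →L[ℝ] E) {c₀ : ℝ} (hc₀ : 0 < c₀) (hi : ∀ x, c₀ * ‖x‖ ≤ ‖i x‖)
    (e₀ : E) (he₀ : e₀ ≠ 0) (R : ℕ → X →L[ℝ] E)
    (hR0 : R 0 = 0)
    (hfin : ∀ n, FiniteDimensional ℝ (LinearMap.range (R n).toLinearMap))
    (hconv : ∀ x, Tendsto (fun n => R n x) atTop (𝓝 (i x)))
    (hdist : ∀ n, n ≠ 0 → ∀ x, ∃ x', ‖R n x - i x'‖ ≤ (1 / 4) ^ n * ‖x‖) :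
    EmbedsWithIndex X (Ordinal.omega0 * ξ * Ordinal.omega0) := by
  classical
  have hdist' : ∀ n x, ∃ x', ‖R n x - i x'‖ ≤ (1 / 4) ^ n * ‖x‖ := by
    intro n
    rcases eq_or_ne n 0 with rfl | h
    · intro x; exact ⟨0, by simp [hR0]⟩
    · exact hdist n h
  -- finite dimensional approximations
  have hF : ∀ n, ∃ F : Submodule ℝ X, FiniteDimensional ℝ F ∧
      ∀ x, ∃ x' ∈ F, ‖R n x - i x'‖ ≤ 2 * (1 / 4) ^ n * ‖x‖ := fun n =>
    exists_finite_approx i (R n) (hfin n) (by positivity) (hdist' n)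
  choose F hFfin hF using hF
  have hA : ∀ n, FiniteDimensional ℝ (LinearMap.range (R (n + 1) - R n).toLinearMap) := by
    intro n
    have h1 := hfin n
    have h2 := hfin (n + 1)
    refine Submodule.finiteDimensional_of_le (S₂ := LinearMap.range (R (n + 1)).toLinearMap ⊔
      LinearMap.range (R n).toLinearMap) ?_
    rintro _ ⟨x, rfl⟩
    exact Submodule.sub_mem _ (Submodule.mem_sup_left ⟨x, rfl⟩) (Submodule.mem_sup_right ⟨x, rfl⟩)
  have hrk := fun n => exists_rank_one (R (n + 1) - R n) (hA n) e₀ he₀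
  choose m φ u hm hu0 hu hsum using hrk
  let G : ℕ → Submodule ℝ E := fun n =>
    (LinearMap.range (R (n + 1) - R n).toLinearMap ⊔ Submodule.span ℝ {e₀}) ⊔
      (LinearMap.range (R n).toLinearMap ⊔ (F n).map i.toLinearMap)
  have hG : ∀ n, FiniteDimensional ℝ (G n) := by
    intro n
    have := hA n
    have := hfin n
    have := hFfin n
    infer_instance
  have huG : ∀ n j, u n j ∈ G n := fun n j => Submodule.mem_sup_left (hu n j)
  have hAG : ∀ n x, (R (n + 1) - R n) x ∈ G n := fun n x =>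
    Submodule.mem_sup_left (Submodule.mem_sup_left ⟨x, rfl⟩)
  -- the size of `R n x - i x`
  have hη : ∀ x, ∃ η : ℕ → ℝ, Tendsto η atTop (𝓝 0) ∧ ∀ n, NS i G (R n x - i x) (η n) := by
    intro x
    refine ⟨fun n => c₀⁻¹ * (‖R n x - i x‖ + 2 * (1 / 4) ^ n * ‖x‖) + 2 * (1 / 2) ^ n * ‖x‖, ?_,
      ?_⟩
    · have h1 : Tendsto (fun n => ‖R n x - i x‖) atTop (𝓝 0) :=
        tendsto_iff_norm_sub_tendsto_zero.mp (hconv x)
      have h2 : Tendsto (fun n : ℕ => ((1 : ℝ) / 4) ^ n) atTop (𝓝 0) :=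
        tendsto_pow_atTop_nhds_zero_of_lt_one (by norm_num) (by norm_num)
      have h3 : Tendsto (fun n : ℕ => ((1 : ℝ) / 2) ^ n) atTop (𝓝 0) :=
        tendsto_pow_atTop_nhds_zero_of_lt_one (by norm_num) (by norm_num)
      have h4 := ((h1.add ((h2.const_mul 2).mul_const ‖x‖)).const_mul c₀⁻¹).add
        ((h3.const_mul 2).mul_const ‖x‖)
      simpa using h4
    · intro n
      obtain ⟨x', hx', hle⟩ := hF n x
      have hg : R n x - i x' ∈ G n := Submodule.mem_sup_right
        (Submodule.sub_mem _ (Submodule.mem_sup_left ⟨x, rfl⟩)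
          (Submodule.mem_sup_right ⟨x', hx', rfl⟩))
      have e : R n x - i x = i (x' - x) + (R n x - i x') := by rw [map_sub]; abel
      rw [e]
      refine ((NS.of_image (x' - x)).mono ?_).add ((NS.of_mem hg).mono ?_)
      · rw [← div_eq_inv_mul, le_div_iff₀ hc₀, mul_comm]
        refine (hi _).trans ?_
        have e2 : i (x' - x) = (R n x - i x) - (R n x - i x') := by rw [map_sub]; abel
        rw [e2]
        exact (norm_sub_le _ _).trans (by linarith)
      · calc 2 ^ n * ‖R n x - i x'‖ ≤ 2 ^ n * (2 * (1 / 4) ^ n * ‖x‖) := by gcongr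
          _ = 2 * (1 / 2) ^ n * ‖x‖ := by
            have : ((1 : ℝ) / 4) ^ n = (1 / 2) ^ n * (1 / 2) ^ n := by
              rw [← mul_pow]; norm_num
            rw [this]
            have h2 : (2 : ℝ) ^ n * (1 / 2) ^ n = 1 := by rw [← mul_pow]; norm_num
            calc 2 ^ n * (2 * ((1 / 2) ^ n * (1 / 2) ^ n) * ‖x‖)
                = (2 ^ n * (1 / 2) ^ n) * (2 * (1 / 2) ^ n * ‖x‖) := by ring
              _ = _ := by rw [h2, one_mul]
  -- the number of repetitions
  have hN : ∀ n, ∃ N : ℕ, 0 < N ∧ ∀ p ≤ m n, ∀ x,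
      NS i G ((N : ℝ)⁻¹ • ∑ j ∈ Finset.range p, φ n j x • u n j) ((1 / 2) ^ n * ‖x‖) := by
    intro n
    let C : ℝ := ∑ j ∈ Finset.range (m n), ‖φ n j‖ * ‖u n j‖
    have hC : 0 ≤ C := Finset.sum_nonneg fun j _ => by positivity
    obtain ⟨N, hN⟩ := exists_nat_gt (4 ^ n * C)
    have hNpos : 0 < N := by
      have : (0 : ℝ) < N := lt_of_le_of_lt (by positivity) hN
      exact_mod_cast this
    refine ⟨N, hNpos, fun p hp x => ?_⟩
    have hNpos' : (0 : ℝ) < N := by exact_mod_cast hNpos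
    have hmem : (N : ℝ)⁻¹ • ∑ j ∈ Finset.range p, φ n j x • u n j ∈ G n :=
      (G n).smul_mem _ ((G n).sum_mem fun j _ => (G n).smul_mem _ (huG n j))
    refine (NS.of_mem hmem).mono ?_
    have h1 : ‖∑ j ∈ Finset.range p, φ n j x • u n j‖ ≤ C * ‖x‖ := by
      refine (norm_sum_le _ _).trans ?_
      rw [Finset.sum_mul]
      refine (Finset.sum_le_sum_of_subset_of_nonneg (Finset.range_mono hp)
        (fun _ _ _ => norm_nonneg _)).trans (Finset.sum_le_sum fun j _ => ?_)
      rw [norm_smul]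
      calc ‖φ n j x‖ * ‖u n j‖ ≤ (‖φ n j‖ * ‖x‖) * ‖u n j‖ := by
            gcongr; exact (φ n j).le_opNorm x
        _ = _ := by ring
    rw [norm_smul, norm_inv, Real.norm_of_nonneg hNpos'.le]
    calc 2 ^ n * ((N : ℝ)⁻¹ * ‖∑ j ∈ Finset.range p, φ n j x • u n j‖)
        ≤ 2 ^ n * ((N : ℝ)⁻¹ * (C * ‖x‖)) := by gcongr
      _ = ((2 ^ n * C) / N) * ‖x‖ := by ring
      _ ≤ (1 / 2) ^ n * ‖x‖ := by
        gcongr
        rw [div_le_iff₀ hNpos']
        calc 2 ^ n * C = (1 / 2) ^ n * (4 ^ n * C) := by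
              have : (4 : ℝ) ^ n = 2 ^ n * 2 ^ n := by rw [← mul_pow]; norm_num
              have h2 : (1 / 2 : ℝ) ^ n * 2 ^ n = 1 := by rw [← mul_pow]; norm_num
              rw [this]
              calc 2 ^ n * C = ((1 / 2 : ℝ) ^ n * 2 ^ n) * (2 ^ n * C) := by rw [h2, one_mul]
                _ = _ := by ring
          _ ≤ (1 / 2) ^ n * N := by gcongr
  choose N hNpos hN using hN
  -- blocks
  let a : ℕ → ℕ → (X →L[ℝ] ℝ) × E := fun n j => ((N n : ℝ)⁻¹ • φ n (j % m n), u n (j % m n))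
  obtain ⟨b, L, hL0, hLs, hb⟩ := exists_concat a (fun n => N n * m n)
    (fun n => Nat.mul_pos (hNpos n) (hm n))
  have hLmono : StrictMono L := strictMono_nat_of_lt_succ fun n => by
    rw [hLs]; have := Nat.mul_pos (hNpos n) (hm n); omega
  -- sums over blocks
  have hround : ∀ n x q, ∑ j ∈ Finset.range (q * m n), (a n j).1 x • (a n j).2 =
      (q * (N n : ℝ)⁻¹) • (R (n + 1) - R n) x := by
    intro n x q
    induction q with
    | zero => simp
    | succ q ih =>
      rw [Nat.succ_mul, Finset.sum_range_add, ih]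
      have : ∑ j ∈ Finset.range (m n), (a n (q * m n + j)).1 x • (a n (q * m n + j)).2
          = (N n : ℝ)⁻¹ • (R (n + 1) - R n) x := by
        rw [← hsum n x, Finset.smul_sum]
        refine Finset.sum_congr rfl fun j hj => ?_
        have h1 : (q * m n + j) % m n = j := by
          rw [Nat.mul_add_mod_self_right, Nat.mod_eq_of_lt (Finset.mem_range.mp hj)]
        simp only [a, h1, _root_.smul_apply, smul_eq_mul, mul_smul]
      rw [this, ← add_smul]
      congr 1
      push_cast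
      ring
  have hpartial : ∀ n x j, j < N n * m n → ∃ t : ℝ, 0 ≤ t ∧ t ≤ 1 ∧
      NS i G ((∑ k ∈ Finset.range j, (a n k).1 x • (a n k).2) - t • (R (n + 1) - R n) x)
        ((1 / 2) ^ n * ‖x‖) := by
    intro n x j hj
    have hNn : (0 : ℝ) < N n := by exact_mod_cast hNpos n
    have hdm := Nat.div_add_mod j (m n)
    have hq : j / m n < N n := Nat.div_lt_of_lt_mul (by rw [mul_comm]; exact hj)
    have hp : j % m n < m n := Nat.mod_lt _ (hm n)
    refine ⟨(j / m n : ℕ) * (N n : ℝ)⁻¹, by positivity, ?_, ?_⟩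
    · rw [← div_eq_mul_inv, div_le_one hNn]
      exact_mod_cast hq.le
    · have e : j = (j / m n) * m n + j % m n := by rw [mul_comm]; exact hdm.symm
      have e2 : ∑ k ∈ Finset.range j, (a n k).1 x • (a n k).2 =
          ((j / m n : ℕ) * (N n : ℝ)⁻¹) • (R (n + 1) - R n) x +
            (N n : ℝ)⁻¹ • ∑ k ∈ Finset.range (j % m n), φ n k x • u n k := by
        conv_lhs => rw [e]
        rw [Finset.sum_range_add, hround, Finset.smul_sum]
        congr 1
        refine Finset.sum_congr rfl fun k hk => ?_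
        have hk' : k < m n := (Finset.mem_range.mp hk).trans hp
        have h1 : (j / m n * m n + k) % m n = k := by
          rw [Nat.mul_add_mod_self_right, Nat.mod_eq_of_lt hk']
        simp only [a, h1, _root_.smul_apply, smul_eq_mul, mul_smul]
      rw [e2, add_sub_cancel_left]
      exact hN n _ hp.le x
  have hfull : ∀ n x, ∑ k ∈ Finset.range (L n), (b k).1 x • (b k).2 = R n x := by
    intro n x
    induction n with
    | zero => rw [hL0, hR0]; simp
    | succ n ih =>
      rw [hLs, Finset.sum_range_add, ih]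
      have : ∑ j ∈ Finset.range (N n * m n), (b (L n + j)).1 x • (b (L n + j)).2 =
          ∑ j ∈ Finset.range (N n * m n), (a n j).1 x • (a n j).2 :=
        Finset.sum_congr rfl fun j hj => by rw [hb n j (Finset.mem_range.mp hj)]
      have hNn : (N n : ℝ) ≠ 0 := by exact_mod_cast (hNpos n).ne'
      rw [this, hround, mul_inv_cancel₀ hNn, one_smul, _root_.sub_apply]
      abel
  have hbw : ∀ k, ∃ n j, b k = a n j := by
    intro k
    obtain ⟨n, h1, h2⟩ := exists_stage L hL0 hLmono k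
    refine ⟨n, k - L n, ?_⟩
    rw [← hb n (k - L n) (by rw [hLs] at h2; omega)]
    congr 1
    omega
  refine stepB hX i hc₀ hi G (fun k => (b k).2) ?_ ?_ (fun k => (b k).1) ?_
  · intro k
    obtain ⟨n, j, h⟩ := hbw k
    simp only [h, a]
    exact hu0 _ _
  · intro k
    obtain ⟨n, j, h⟩ := hbw k
    exact ⟨n, by simp only [h, a]; exact huG _ _⟩
  · intro x ε hε
    obtain ⟨η, hη0, hη⟩ := hη x
    have h1 : ∀ᶠ n in atTop, η n < ε / 4 := hη0.eventually_lt_const (by positivity)
    have h2 : Tendsto (fun n : ℕ => ((1 : ℝ) / 2) ^ n * ‖x‖) atTop (𝓝 0) := by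
      have := (tendsto_pow_atTop_nhds_zero_of_lt_one (r := (1 : ℝ) / 2) (by norm_num)
        (by norm_num)).mul_const ‖x‖
      simpa using this
    have h3 : ∀ᶠ n : ℕ in atTop, ((1 : ℝ) / 2) ^ n * ‖x‖ < ε / 4 :=
      h2.eventually_lt_const (by positivity)
    obtain ⟨n₀, hn₀⟩ := eventually_atTop.mp (h1.and h3)
    refine ⟨L n₀, fun M hM => ?_⟩
    obtain ⟨n, hn1, hn2⟩ := exists_stage L hL0 hLmono M
    have hn : n₀ ≤ n := by
      by_contra hlt
      push Not at hlt
      have : L (n + 1) ≤ L n₀ := hLmono.monotone hlt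
      omega
    obtain ⟨h4, h5⟩ := hn₀ n hn
    obtain ⟨h6, _⟩ := hn₀ (n + 1) (by omega)
    have hj : M - L n < N n * m n := by rw [hLs] at hn2; omega
    obtain ⟨t, ht0, ht1, ht⟩ := hpartial n x (M - L n) hj
    have e : M = L n + (M - L n) := by omega
    have e2 : ∑ k ∈ Finset.range M, (b k).1 x • (b k).2 = R n x +
        ∑ k ∈ Finset.range (M - L n), (a n k).1 x • (a n k).2 := by
      conv_lhs => rw [e]
      rw [Finset.sum_range_add, hfull]
      congr 1
      exact Finset.sum_congr rfl fun j hj' => by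
        rw [hb n j ((Finset.mem_range.mp hj').trans hj)]
    rw [e2]
    set s := ∑ k ∈ Finset.range (M - L n), (a n k).1 x • (a n k).2 with hs
    have e3 : R n x + s - i x = (1 - t) • (R n x - i x) + t • (R (n + 1) x - i x) +
        (s - t • (R (n + 1) - R n) x) := by
      rw [_root_.sub_apply]
      module
    rw [e3]
    have h7 := (((hη n).smul (1 - t)).add ((hη (n + 1)).smul t)).add ht
    refine h7.mono ?_
    rw [abs_of_nonneg ht0, abs_of_nonneg (show 0 ≤ 1 - t by linarith)]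
    have h8 := (hη n).nonneg
    have h9 := (hη (n + 1)).nonneg
    nlinarith

end Pool.Agent.H756
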