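import Pool.Agent.H756.Comb

/-!
# The abstract index bound
-/

namespace Pool.Agent.H756

open Ordinal

variable {V : Type*} [AddCommGroup V] [Module ℝ V]
variable {X : Type*} [NormedAddCommGroup X] [NormedSpace ℝ X]

/-- The tree of sequences on which a finite codimensional part of the combinations has a lower
`ℓ₁`-estimate after the map `π` into `X` has small rank. -/
lemma rankLE_good {ξ : Ordinal.{0}} (hX : BourgainIndexLE X ξ) (π : V →ₗ[ℝ] X)
    (U : Submodule ℝ V) [FiniteDimensional ℝ (V ⧸ U)] {b δ : ℝ} (hb : 0 < b) (hδ : 0 < δ)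
    (S : Set (List V))
    (hS1 : ∀ s ∈ S, ∀ v ∈ s, ‖π v‖ ≤ b)
    (hS2 : ∀ s ∈ S, ∀ A v, Comb s A v → v ∈ U → δ * A ≤ ‖π v‖) :
    RankLE S (((Module.finrank ℝ (V ⧸ U) + 1 : ℕ) : Ordinal.{0}) * ξ) := by
  classical
  set N := Module.finrank ℝ (V ⧸ U) + 1 with hN
  set K : ℝ := max 1 (b / δ) with hK
  have hK1 : 1 ≤ K := le_max_left _ _
  have hKpos : 0 < K := by linarith
  let ch : List V → V := fun s => if h : ∃ v, Comb s 1 v ∧ v ∈ U then h.choose else 0
  have hch : ∀ s : List V, s.length = N → Comb s 1 (ch s) ∧ ch s ∈ U := by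
    intro s hs
    have h := exists_comb_mem U hs
    simp only [ch, dif_pos h]
    exact h.choose_spec
  let f : List V → X := fun s => ‖π (ch s)‖⁻¹ • π (ch s)
  have hrank := rankLE_of_iterDerived_eq_empty _ (hX K hK1)
  refine RankLE.block hrank (Nat.succ_pos _) f ?_
  -- the invariant
  have hinv : ∀ s : List V, (∀ v ∈ s, ‖π v‖ ≤ b) → (∀ A v, Comb s A v → v ∈ U → δ * A ≤ ‖π v‖) →
      ∃ s', s = s' ++ (blocks N f s).2 ∧ (∀ x ∈ (blocks N f s).1, ‖x‖ = 1) ∧
        ∀ A y, Comb (blocks N f s).1 A y → ∃ A' v, Comb s' A' v ∧ v ∈ U ∧ π v = y ∧ A ≤ b * A' := by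
    intro s
    induction s using List.reverseRecOn with
    | nil =>
      intro _ _
      refine ⟨[], by simp [blocks], by simp [blocks], ?_⟩
      intro A y h
      have h' : Comb ([] : List X) A y := h
      rw [comb_nil] at h'
      exact ⟨0, 0, ⟨rfl, rfl⟩, U.zero_mem, by rw [h'.2]; simp, by rw [h'.1]; simp⟩
    | append_singleton s u ih =>
      intro h1 h2
      obtain ⟨s', hs', hn, hc⟩ := ih (fun v hv => h1 v (by simp [hv])) (fun A v hv hvU => by
        have := h2 (A + 0) (v + 0) ((comb_zero [u]).append hv) (by simpa using hvU)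
        simpa using this)
      by_cases hlen : ((blocks N f s).2 ++ [u]).length = N
      · have hbl : blocks N f (s ++ [u]) =
            ((blocks N f s).1 ++ [f ((blocks N f s).2 ++ [u])], []) := by
          rw [blocks_append]; unfold blockStep; rw [if_pos hlen]
        set r := (blocks N f s).2 ++ [u] with hr
        have hsu : s ++ [u] = s' ++ r := by rw [hr, ← List.append_assoc, ← hs']
        obtain ⟨hcomb, hU⟩ := hch r hlen
        have hlow : δ ≤ ‖π (ch r)‖ := by
          have := h2 (0 + 1) (0 + ch r) (by rw [hsu]; exact hcomb.append (comb_zero s'))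
            (by simpa using hU)
          simpa using this
        have hpos : 0 < ‖π (ch r)‖ := hδ.trans_le hlow
        have hup : ‖π (ch r)‖ ≤ b := by
          have := hcomb.size (fun v t => ‖π v‖ ≤ t) (by simp)
            (fun v w t t' hv hw => by
              rw [map_add]; exact (norm_add_le _ _).trans (add_le_add hv hw))
            (fun c v t hv => by
              rw [map_smul, norm_smul, Real.norm_eq_abs]
              exact mul_le_mul_of_nonneg_left hv (abs_nonneg c))
            (r := b) (fun v hv => h1 v (by rw [hsu]; simp [hv]))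
          simpa using this
        refine ⟨s ++ [u], by rw [hbl]; simp, ?_, ?_⟩
        · rw [hbl]
          intro x hx
          simp only [List.mem_append, List.mem_singleton] at hx
          rcases hx with hx | hx
          · exact hn x hx
          · rw [hx]
            show ‖‖π (ch r)‖⁻¹ • π (ch r)‖ = 1
            rw [norm_smul, norm_inv, norm_norm, inv_mul_cancel₀ hpos.ne']
        · rw [hbl]
          intro A y hAy
          obtain ⟨A₁, y₁, A₂, y₂, c1, c2, c3, c4⟩ := comb_append hAy
          obtain ⟨t, ht1, ht2⟩ := comb_singleton.mp c2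
          obtain ⟨A₁', v₁, d1, d2, d3, d4⟩ := hc _ _ c1
          refine ⟨A₁' + |t * ‖π (ch r)‖⁻¹| * 1, v₁ + (t * ‖π (ch r)‖⁻¹) • ch r, ?_, ?_, ?_, ?_⟩
          · rw [hsu]
            exact (hcomb.smul _).append d1
          · exact U.add_mem d2 (U.smul_mem _ hU)
          · rw [map_add, map_smul, d3, c4, ht2]
            show _ = y₁ + t • (‖π (ch r)‖⁻¹ • π (ch r))
            rw [smul_smul]
          · rw [c3, ht1, mul_add, abs_mul, abs_of_pos (inv_pos.mpr hpos)]
            refine add_le_add d4 ?_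
            rw [mul_one]
            have : b * (|t| * ‖π (ch r)‖⁻¹) = |t| * (b * ‖π (ch r)‖⁻¹) := by ring
            rw [this]
            refine le_mul_of_one_le_right (abs_nonneg _) ?_
            rw [← div_eq_mul_inv, one_le_div hpos]
            exact hup
      · have hbl : blocks N f (s ++ [u]) = ((blocks N f s).1, (blocks N f s).2 ++ [u]) := by
          rw [blocks_append]; unfold blockStep; rw [if_neg hlen]
        rw [hbl]
        refine ⟨s', ?_, hn, hc⟩
        show s ++ [u] = s' ++ ((blocks N f s).2 ++ [u])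
        rw [← List.append_assoc, ← hs']
  intro s hs
  obtain ⟨s', hs', hn, hc⟩ := hinv s (hS1 s hs) (hS2 s hs)
  rw [mem_bourgainTree_iff]
  refine ⟨hn, ?_⟩
  intro A y hAy
  obtain ⟨A', v, d1, d2, d3, d4⟩ := hc A y hAy
  have h1 : δ * A' ≤ ‖π v‖ := by
    have := hS2 s hs (A' + 0) (v + 0) (by
      rw [hs']; exact (comb_zero _).append d1) (by simpa using d2)
    simpa using this
  have hA' := d1.nonneg
  have hA := hAy.nonneg
  show K⁻¹ * A ≤ ‖y‖
  rw [← d3]
  refine le_trans ?_ h1
  have hKb : K⁻¹ ≤ δ / b := by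
    rw [inv_le_comm₀ hKpos (by positivity), inv_div]
    exact le_max_right _ _
  calc K⁻¹ * A ≤ (δ / b) * A := by gcongr
    _ ≤ (δ / b) * (b * A') := by gcongr
    _ = δ * A' := by field_simp

/-- chains of small vectors, the last one first -/
def Chain (Good : Set V) (π : V →ₗ[ℝ] X) (U : ℕ → Submodule ℝ V) (J : List V → ℕ) (δ : ℝ) :
    List V → Prop
  | [] => True
  | v :: vs => Chain Good π U J δ vs ∧ v ∈ Good ∧ v ∈ U (J vs) ∧ ‖π v‖ ≤ δ

/-- **Abstract index bound.** -/
theorem rankLE_main {ξ η : Ordinal.{0}} (hX : BourgainIndexLE X ξ) (π : V →ₗ[ℝ] X)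
    (U : ℕ → Submodule ℝ V) [∀ J, FiniteDimensional ℝ (V ⧸ U J)]
    (hη : ∀ J, ((Module.finrank ℝ (V ⧸ U J) + 1 : ℕ) : Ordinal.{0}) * ξ ≤ η)
    {b δ : ℝ} (hb : 0 < b) (hδ : 0 < δ) (Good : Set V)
    (hG1 : ∀ v ∈ Good, ‖π v‖ ≤ b)
    (hG2 : ∀ s A v, (∀ x ∈ s, x ∈ Good) → Comb s A v → A ≤ 1 → v ∈ Good)
    (κ : ℝ) (p : V → ℝ) (J : List V → ℕ) (m : ℕ)
    (hm : ∀ vs, Chain Good π U J δ vs → vs.length = m → ¬ LowerEst κ p vs) :
    RankLE {s : List V | (∀ v ∈ s, v ∈ Good) ∧ LowerEst κ p s} (η * (m : Ordinal.{0})) := by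
  have key : ∀ k : ℕ, ∀ vs, Chain Good π U J δ vs → vs.length + k = m →
      RankLE {s : List V | (∀ v ∈ s, v ∈ Good) ∧ LowerEst κ p (vs ++ s)}
        (η * (k : Ordinal.{0})) := by
    intro k
    induction k with
    | zero =>
      intro vs hvs hlen
      have hem : {s : List V | (∀ v ∈ s, v ∈ Good) ∧ LowerEst κ p (vs ++ s)} = ∅ := by
        rw [Set.eq_empty_iff_forall_notMem]
        rintro s ⟨_, hs⟩
        exact hm vs hvs (by simpa using hlen) hs.left
      rw [hem]
      exact ⟨fun _ => 0, by simp, by simp⟩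
    | succ k ih =>
      intro vs hvs hlen
      have heq : η * ((k + 1 : ℕ) : Ordinal.{0}) = η * (k : Ordinal.{0}) + η := by
        push_cast
        rw [mul_add_one]
      rw [heq]
      refine RankLE.comp ?_ {s | ∃ v, Comb s 1 v ∧ v ∈ U (J vs) ∧ ‖π v‖ ≤ δ} ?_ ?_
      · rintro s t ⟨h1, h2⟩
        refine ⟨fun v hv => h1 v (by simp [hv]), ?_⟩
        rw [← List.append_assoc] at h2
        exact h2.left
      · refine RankLE.mono ?_ (hη (J vs))
        refine rankLE_good hX π (U (J vs)) hb hδ _ ?_ ?_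
        · rintro s ⟨⟨h1, _⟩, _⟩ v hv
          exact hG1 v (h1 v hv)
        · rintro s ⟨⟨h1, _⟩, h2⟩ A v hv hvU
          rcases eq_or_lt_of_le hv.nonneg with hA | hA
          · rw [← hA]; simp
          · by_contra hcon
            push Not at hcon
            apply h2 s.length le_rfl
            rw [List.take_length]
            refine ⟨A⁻¹ • v, ?_, (U (J vs)).smul_mem _ hvU, ?_⟩
            · have := hv.smul A⁻¹
              rwa [abs_of_pos (inv_pos.mpr hA), inv_mul_cancel₀ hA.ne'] at this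
            · rw [map_smul, norm_smul, norm_inv, Real.norm_eq_abs, abs_of_pos hA,
                inv_mul_le_iff₀ hA]
              linarith
      · rintro s ⟨hs1, hs2⟩ ⟨v, hv1, hv2, hv3⟩
        have hvG : v ∈ Good := hG2 s 1 v hs1 hv1 le_rfl
        have hch : Chain Good π U J δ (v :: vs) := ⟨hvs, hvG, hv2, hv3⟩
        refine RankLE.subset (ih (v :: vs) hch (by simp at hlen ⊢; omega)) ?_
        rintro t ⟨ht1, ht2⟩
        refine ⟨fun x hx => ht1 x (by simp [hx]), ?_⟩
        rintro A w ⟨a, A', w', hc, hA, hw⟩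
        obtain ⟨A₁, w₁, A₂, w₂, c1, c2, c3, c4⟩ := comb_append hc
        have hsc := hv1.smul a
        have := ht2 (A₁ + (|a| * 1 + A₂)) (w₁ + (a • v + w₂)) ((c2.append hsc).append c1)
        rw [hA, hw, c3, c4]
        have e1 : |a| + (A₁ + A₂) = A₁ + (|a| * 1 + A₂) := by ring
        have e2 : a • v + (w₁ + w₂) = w₁ + (a • v + w₂) := by abel
        rw [e1, e2]
        exact this
  have := key m [] trivial (by simp)
  simpa using this

end Pool.Agent.H756
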