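import Pool.Agent.H756.EvOp

/-!
# Spaces whose identity factors locally through separable dual spaces
-/

namespace Pool.Agent.H756

open Filter Topology TopologicalSpace ENNReal

/-- the canonical embedding in `ℓ∞` over the dual ball -/
noncomputable def evL (X : Type*) [NormedAddCommGroup X] [NormedSpace ℝ X] :
    X →L[ℝ] lp (fun _ : Metric.closedBall (0 : X →L[ℝ] ℝ) 1 => ℝ) ∞ :=
  (evOp (V := X →L[ℝ] ℝ) (fun b : Metric.closedBall (0 : X →L[ℝ] ℝ) 1 => (b : X →L[ℝ] ℝ))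
    zero_le_one (fun b => mem_closedBall_zero_iff.mp b.2)).comp
      (NormedSpace.inclusionInDoubleDual ℝ X)

section

variable {X : Type*} [NormedAddCommGroup X] [NormedSpace ℝ X]

lemma evL_apply (x : X) (b : Metric.closedBall (0 : X →L[ℝ] ℝ) 1) :
    evL X x b = (b : X →L[ℝ] ℝ) x := rfl

lemma evL_norm_le (x : X) : ‖x‖ ≤ ‖evL X x‖ := by
  obtain ⟨g, hg1, hg2⟩ := exists_dual_vector'' ℝ x
  have h1 := lp.norm_apply_le_norm (p := ∞) (by simp) (evL X x)
    ⟨g, mem_closedBall_zero_iff.mpr hg1⟩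
  rw [evL_apply] at h1
  have h2 : g x = ‖x‖ := hg2
  rw [h2, norm_norm] at h1
  exact h1

lemma evL_le (x : X) : ‖evL X x‖ ≤ ‖x‖ := by
  refine lp.norm_le_of_forall_le (norm_nonneg _) fun b => ?_
  rw [evL_apply]
  exact ((b : X →L[ℝ] ℝ).le_opNorm x).trans
    (mul_le_of_le_one_left (norm_nonneg x) (mem_closedBall_zero_iff.mp b.2))

end

universe u v

/-- the embedding theorem for spaces that factor locally through separable dual spaces -/
theorem embeds_of_lf {X : Type u} [NormedAddCommGroup X] [NormedSpace ℝ X] [CompleteSpace X]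
    [SeparableSpace X] {ξ : Ordinal.{0}} (hX : BourgainIndexLE X ξ) {C : ℝ}
    (happ : ∀ (F : Finset X) (δ : ℝ), 0 < δ →
      ∃ (B : Type v) (_ : NormedAddCommGroup B) (_ : NormedSpace ℝ B)
        (_ : SeparableSpace (B →L[ℝ] ℝ)) (A : X →L[ℝ] (B →L[ℝ] ℝ)), ‖A‖ ≤ C ∧
        ∀ G : Submodule ℝ (B →L[ℝ] ℝ), FiniteDimensional ℝ G →
          ∃ τ : G →ₗ[ℝ] X, (∀ g : G, ‖τ g‖ ≤ C * ‖(g : B →L[ℝ] ℝ)‖) ∧
            ∀ x ∈ F, ∀ h : A x ∈ G, ‖τ ⟨A x, h⟩ - x‖ ≤ δ) :
    EmbedsWithIndex X (Ordinal.omega0 * ξ * Ordinal.omega0) := by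
  classical
  have hC : 0 ≤ C := by
    obtain ⟨B, _, _, _, A, hA, _⟩ := happ ∅ 1 one_pos
    exact (norm_nonneg A).trans hA
  refine embeds_of_local hX (evL X) one_pos (fun y => by rw [one_mul]; exact evL_norm_le y)
    (C * C) ?_
  intro F δ₀ hδ₀
  obtain ⟨B, _, _, hsep, A, hA, hG⟩ := happ F (δ₀ / 6) (by positivity)
  let d : ℕ → (B →L[ℝ] ℝ) := denseSeq (B →L[ℝ] ℝ)
  have hd : DenseRange d := denseRange_denseSeq _
  -- the local maps
  let S : ℕ → Finset (B →L[ℝ] ℝ) := fun n => F.image A ∪ (Finset.range (n + 1)).image d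
  let G : ℕ → Submodule ℝ (B →L[ℝ] ℝ) := fun n => Submodule.span ℝ (S n : Set (B →L[ℝ] ℝ))
  have hSG : ∀ n, ∀ g ∈ S n, g ∈ G n := fun n g hg => Submodule.subset_span hg
  choose τ hτ1 hτ2 using fun n => hG (G n) (FiniteDimensional.span_finset ℝ (S n))
  -- the selections
  have hsel : ∀ n, ∃ (r : Metric.closedBall (0 : X →L[ℝ] ℝ) 1 → B) (t : Finset B),
      (∀ b, ‖r b‖ ≤ C) ∧ (∀ b, r b ∈ t) ∧ ∀ b (g : S n),
        |(g : B →L[ℝ] ℝ) (r b) - (b : X →L[ℝ] ℝ) (τ n ⟨g, hSG n g g.2⟩)| ≤ 1 / (n + 1 : ℝ) := by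
    intro n
    refine exists_finite_selection (fun g : S n => (g : B →L[ℝ] ℝ))
      (fun g => τ n ⟨g, hSG n g g.2⟩) hC (fun a => ?_) (by positivity)
    have e : ∑ g : S n, a g • τ n ⟨g, hSG n g g.2⟩ =
        τ n (∑ g : S n, a g • (⟨g, hSG n g g.2⟩ : G n)) := by
      rw [map_sum]
      exact Finset.sum_congr rfl fun g _ => by rw [map_smul]
    rw [e]
    refine (hτ1 n _).trans_eq ?_
    rw [Submodule.coe_sum]
    rfl
  choose r t hr ht hrt using hsel
  let R : ℕ → (B →L[ℝ] ℝ) →L[ℝ] lp (fun _ : Metric.closedBall (0 : X →L[ℝ] ℝ) 1 => ℝ) ∞ :=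
    fun n => evOp (r n) hC (hr n)
  have hRn : ∀ n, ‖R n‖ ≤ C := fun n => evOp_norm_le _ _ _
  have hRτ : ∀ n, ∀ g (hg : g ∈ S n), ‖R n g - evL X (τ n ⟨g, hSG n g hg⟩)‖ ≤ 1 / (n + 1 : ℝ) := by
    intro n g hg
    refine lp.norm_le_of_forall_le (by positivity) fun b => ?_
    exact hrt n b ⟨g, hg⟩
  have hRF : ∀ n, ∀ x ∈ F, ‖R n (A x) - evL X x‖ ≤ 1 / (n + 1 : ℝ) + δ₀ / 6 := by
    intro n x hx
    have hg : A x ∈ S n := Finset.mem_union_left _ (Finset.mem_image_of_mem _ hx)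
    have h1 := hRτ n _ hg
    have h2 := hτ2 n x hx (hSG n _ hg)
    have e : R n (A x) - evL X x = (R n (A x) - evL X (τ n ⟨A x, hSG n _ hg⟩)) +
        evL X (τ n ⟨A x, hSG n _ hg⟩ - x) := by rw [map_sub]; abel
    rw [e]
    exact (norm_add_le _ _).trans (add_le_add h1 ((evL_le _).trans h2))
  let i := evL X
  have hannR : ∀ (μ : AnnBall i) (f : B →L[ℝ] ℝ), ∀ δ > 0, ∀ᶠ n in atTop, |μ.1.fn (R n f)| ≤ δ := by
    intro μ f δ hδ
    obtain ⟨k, hk⟩ := hd.exists_dist_lt f (show 0 < δ / (2 * (C + 1)) by positivity)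
    obtain ⟨n₀, hn₀⟩ := exists_nat_gt (2 / δ)
    filter_upwards [eventually_ge_atTop (max n₀ k)] with n hn
    have hn1 : n₀ ≤ n := (le_max_left _ _).trans hn
    have hn2 : k ≤ n := (le_max_right _ _).trans hn
    have hg : d k ∈ S n := Finset.mem_union_right _
      (Finset.mem_image_of_mem _ (Finset.mem_range.mpr (by omega)))
    have h1 := hRτ n _ hg
    have h2 : 1 / (n + 1 : ℝ) ≤ δ / 2 := by
      rw [div_le_iff₀ (by positivity)]
      have h3 : (n₀ : ℝ) ≤ n := by exact_mod_cast hn1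
      have h4 : 2 < δ * n₀ := by
        rw [div_lt_iff₀ hδ] at hn₀; linarith
      nlinarith
    rw [dist_eq_norm] at hk
    have h3 : μ.1.fn (evL X (τ n ⟨d k, hSG n _ hg⟩)) = 0 := μ.2 _
    have e : μ.1.fn (R n f) = μ.1.fn (R n (f - d k)) +
        μ.1.fn (R n (d k) - evL X (τ n ⟨d k, hSG n _ hg⟩)) := by
      rw [map_sub, map_sub, map_sub, h3]; ring
    have h5 : |μ.1.fn (R n (f - d k))| ≤ C * ‖f - d k‖ :=
      (μ.1.abs_le _).trans (((R n).le_opNorm _).trans (by gcongr; exact hRn n))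
    have h6 : |μ.1.fn (R n (d k) - evL X (τ n ⟨d k, hSG n _ hg⟩))| ≤ 1 / (n + 1 : ℝ) :=
      (μ.1.abs_le _).trans h1
    have h7 : C * ‖f - d k‖ ≤ δ / 2 := by
      have h8 : (C + 1) * (δ / (2 * (C + 1))) = δ / 2 := by field_simp
      have h9 := norm_nonneg (f - d k)
      nlinarith
    rw [e]
    exact (abs_add_le _ _).trans (by linarith)
  obtain ⟨n₀, hn₀⟩ := exists_nat_gt (6 / δ₀)
  have hn₀' : ∀ n ≥ n₀, 1 / (n + 1 : ℝ) ≤ δ₀ / 6 := by
    intro n hn
    rw [div_le_iff₀ (by positivity)]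
    have h3 : (n₀ : ℝ) ≤ n := by exact_mod_cast hn
    have h4 : 6 < δ₀ * n₀ := by
      rw [div_lt_iff₀ hδ₀] at hn₀; linarith
    nlinarith
  have hgcont : ∀ n, Continuous fun q : DualBall B × AnnBall i =>
      (C + 1) * |q.2.1.fn (R n q.1.fn)| := by
    intro n
    have e1 : ∀ q : DualBall B × AnnBall i, q.2.1.fn (R n q.1.fn) =
        ∑ v ∈ t n, q.1.fn v * q.2.1.fn (fibInd (r n) v) := by
      intro q
      have h1 : R n q.1.fn = ∑ v ∈ t n, q.1.fn v • fibInd (r n) v := evOp_eq _ _ _ _ (ht n) _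
      rw [h1, map_sum]
      exact Finset.sum_congr rfl fun v _ => by rw [map_smul, smul_eq_mul]
    simp only [e1]
    refine continuous_const.mul (Continuous.abs (continuous_finsetSum _ fun v _ => ?_))
    exact ((DualBall.continuous_fn v).comp continuous_fst).mul
      ((AnnBall.continuous_fn (i := i) (fibInd (r n) v)).comp continuous_snd)
  let g : ℕ → C(DualBall B × AnnBall i, ℝ) := fun n => ⟨_, hgcont n⟩
  have hgapp : ∀ n q, g n q = (C + 1) * |q.2.1.fn (R n q.1.fn)| := fun _ _ => rfl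
  obtain ⟨R', h1, h2, h3, h4⟩ := local_of_compact (i := i) (C := C * C)
    (R := fun n => (R n).comp A)
    (fun n => by
      have h1 : FiniteDimensional ℝ (LinearMap.range (R n).toLinearMap) :=
        evOp_finrank _ _ _ _ (ht n)
      refine Submodule.finiteDimensional_of_le (S₂ := LinearMap.range (R n).toLinearMap) ?_
      rintro _ ⟨x, rfl⟩
      exact ⟨A x, rfl⟩)
    (fun n => (ContinuousLinearMap.opNorm_comp_le (R n) A).trans (by gcongr; exact hRn n))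
    g ((C + 1) * C) (fun n q => by
      rw [hgapp, abs_mul, abs_abs, abs_of_nonneg (by positivity : (0 : ℝ) ≤ C + 1)]
      gcongr
      refine (q.2.1.abs_le _).trans (((R n).le_opNorm _).trans ?_)
      calc ‖R n‖ * ‖q.1.fn‖ ≤ C * 1 := by gcongr; exacts [hRn n, q.1.fn_norm_le]
        _ = C := mul_one C)
    (δ := δ₀ / 3) (by positivity)
    (fun q => by
      filter_upwards [hannR q.2 q.1.fn (δ₀ / (3 * (C + 1))) (by positivity)] with n hn
      rw [hgapp]
      calc (C + 1) * |q.2.1.fn (R n q.1.fn)| ≤ (C + 1) * (δ₀ / (3 * (C + 1))) := by gcongr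
        _ = δ₀ / 3 := by field_simp)
    F n₀
    (fun x hx μ => by
      have hC1 : (0 : ℝ) < C + 1 := by positivity
      have h1 : ‖(C + 1)⁻¹ • A x‖ ≤ 1 := by
        rw [norm_smul, norm_inv, Real.norm_of_nonneg hC1.le, inv_mul_le_iff₀ hC1, mul_one]
        have h2 : ‖A x‖ ≤ C * 1 := (A.le_opNorm x).trans (by gcongr)
        linarith
      refine ⟨⟨DualBall.mk' ((C + 1)⁻¹ • A x) h1, μ⟩, fun n => ?_⟩
      rw [hgapp]
      show |μ.1.fn (R n (A x))| ≤ (C + 1) * |μ.1.fn (R n ((C + 1)⁻¹ • A x))|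
      rw [map_smul, map_smul, smul_eq_mul, abs_mul, abs_inv, abs_of_pos hC1, ← mul_assoc,
        mul_inv_cancel₀ hC1.ne', one_mul])
    (fun ι s c n hn hc0 hc1 _ x hx => by
      have h1 : ∑ k ∈ s, c k • ((R (n k)).comp A) x - i x =
          ∑ k ∈ s, c k • (R (n k) (A x) - i x) := by
        simp only [smul_sub, Finset.sum_sub_distrib, ← Finset.sum_smul, hc1, one_smul]
        rfl
      rw [h1]
      calc ‖∑ k ∈ s, c k • (R (n k) (A x) - i x)‖
          ≤ ∑ k ∈ s, ‖c k • (R (n k) (A x) - i x)‖ := norm_sum_le _ _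
        _ ≤ ∑ k ∈ s, c k * (2 * (δ₀ / 3)) := by
          refine Finset.sum_le_sum fun k hk => ?_
          rw [norm_smul, Real.norm_of_nonneg (hc0 k hk)]
          have h2 := hRF (n k) x hx
          have h3 := hn₀' _ (hn k hk)
          exact mul_le_mul_of_nonneg_left (h2.trans (by linarith)) (hc0 k hk)
        _ = 2 * (δ₀ / 3) := by rw [← Finset.sum_mul, hc1, one_mul])
  refine ⟨R', h1, h2, fun x hx => (h3 x hx).trans (by linarith), fun x => ?_⟩
  obtain ⟨x', hx'⟩ := h4 x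
  exact ⟨x', hx'.trans_eq (by ring)⟩

end Pool.Agent.H756
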