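import Pool.Agent.H756.Cap2

/-!
# Local reflexivity relative to a capturing pair of subspaces
-/

namespace Pool.Agent.H756

open Filter Topology TopologicalSpace

universe u v w

/-- a strict inequality for convex combinations -/
lemma lt_of_convex {s t a b ρ : ℝ} (hs : 0 ≤ s) (ht : 0 ≤ t) (hst : s + t = 1) (ha : a < ρ)
    (hb : b < ρ) : s * a + t * b < ρ := by
  rcases eq_or_lt_of_le hs with h | h
  · have : t = 1 := by linarith
    subst h; subst this; linarith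
  · have h4 : s * a < s * ρ := mul_lt_mul_of_pos_left ha h
    have h5 : t * b ≤ t * ρ := mul_le_mul_of_nonneg_left hb.le ht
    have h6 : s * ρ + t * ρ = ρ := by rw [← add_mul, hst, one_mul]
    linarith

lemma convex_ball_pi {ι : Type*} {E : Type*} [NormedAddCommGroup E] [NormedSpace ℝ E]
    (p : ι → E) (ρ : ι → ℝ) : Convex ℝ {w : ι → E | ∀ k, ‖w k - p k‖ < ρ k} := by
  intro w hw v hv s t hs ht hst k
  have e : (s • w + t • v) k - p k = s • (w k - p k) + t • (v k - p k) := by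
    rw [Pi.add_apply, Pi.smul_apply, Pi.smul_apply, smul_sub, smul_sub]
    have : p k = s • p k + t • p k := by rw [← add_smul, hst, one_smul]
    conv_lhs => rw [this]
    abel
  rw [e]
  refine lt_of_le_of_lt ?_ (lt_of_convex hs ht hst (hw k) (hv k))
  refine (norm_add_le _ _).trans (le_of_eq ?_)
  rw [norm_smul, norm_smul, Real.norm_of_nonneg hs, Real.norm_of_nonneg ht]

lemma isOpen_ball_pi {ι : Type*} [Finite ι] {E : Type*} [NormedAddCommGroup E]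
    (p : ι → E) (ρ : ι → ℝ) : IsOpen {w : ι → E | ∀ k, ‖w k - p k‖ < ρ k} := by
  have e : {w : ι → E | ∀ k, ‖w k - p k‖ < ρ k} = ⋂ k, {w : ι → E | ‖w k - p k‖ < ρ k} := by
    ext w; simp
  rw [e]
  exact isOpen_iInter_of_finite fun k => isOpen_lt (by fun_prop) continuous_const

/-- the components of a functional on a finite power -/
lemma clm_pi_apply {ι : Type*} [Fintype ι] [DecidableEq ι] {E : Type*} [NormedAddCommGroup E]
    [NormedSpace ℝ E] (Φ : (ι → E) →L[ℝ] ℝ) (w : ι → E) :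
    Φ w = ∑ k, (Φ.comp (ContinuousLinearMap.single ℝ (fun _ : ι => E) k)) (w k) := by
  have e : w = ∑ k, Pi.single k (w k) := by
    ext k
    simp [Finset.sum_apply, Pi.single_apply]
  conv_lhs => rw [e]
  rw [map_sum]
  rfl

variable {X : Type u} [NormedAddCommGroup X] [NormedSpace ℝ X]
variable {V : Type w} [NormedAddCommGroup V] [NormedSpace ℝ V]
variable {W : Type*} [NormedAddCommGroup W] [NormedSpace ℝ W]
variable {W' : Type*} [NormedAddCommGroup W'] [NormedSpace ℝ W']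

/-- local reflexivity relative to a capturing pair of subspaces -/
theorem exists_local_map2 {A : X →L[ℝ] V} {s : ℕ → X →L[ℝ] ℝ} {D : Set (X →L[ℝ] ℝ)}
    {D' : Set (V →L[ℝ] ℝ)} (hD : Captures2.{u, v, w} A s D D')
    (J : W →ₗᵢ[ℝ] (X →L[ℝ] ℝ)) (hDJ : ∀ z ∈ D, ∃ w, J w = z)
    (J' : W' →ₗᵢ[ℝ] (V →L[ℝ] ℝ)) (hDJ' : ∀ z ∈ D', ∃ w, J' w = z)
    (aW : W' →L[ℝ] W) (haW : ∀ w, J (aW w) = (J' w).comp A) (m : ℕ → W) (hm : ∀ i, J (m i) = s i)
    (G : Submodule ℝ (W →L[ℝ] ℝ)) [FiniteDimensional ℝ G]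
    {I₁ I₂ : Type v} [Fintype I₁] [Fintype I₂]
    (h₁ : I₁ → G) (p : I₁ → X) (σ ρ : I₁ → ℝ) (hσ0 : ∀ k, 0 ≤ σ k) (hσρ : ∀ k, σ k < ρ k)
    (hh₁ : ∀ k (w : W), |(h₁ k : W →L[ℝ] ℝ) w - J w (p k)| ≤ σ k * ‖w‖)
    (h₂ : I₂ → G) (σ' ρ' : I₂ → ℝ) (hσ0' : ∀ k, 0 ≤ σ' k) (hσρ' : ∀ k, σ' k < ρ' k)
    (hh₂ : ∀ k (w : W'), |(h₂ k : W →L[ℝ] ℝ) (aW w)| ≤ σ' k * ‖w‖)
    (N : ℕ) {η₀ : ℝ} (hη₀ : 0 < η₀) :
    ∃ τ : G →ₗ[ℝ] X, (∀ k, ‖τ (h₁ k) - p k‖ < ρ k) ∧ (∀ k, ‖A (τ (h₂ k))‖ < ρ' k) ∧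
      ∀ k, ∀ i < N, |s i (τ (h₁ k)) - (h₁ k : W →L[ℝ] ℝ) (m i)| < η₀ := by
  classical
  by_contra hcon
  -- the open convex set and the subspace
  let r₀ : I₁ × Fin N → ℝ := fun k => (h₁ k.1 : W →L[ℝ] ℝ) (m k.2)
  let O₁ : Set (I₁ → X) := {w | ∀ k, ‖w k - p k‖ < ρ k}
  let O₂ : Set (I₂ → V) := {w | ∀ k, ‖w k - 0‖ < ρ' k}
  let O₃ : Set (I₁ × Fin N → ℝ) := {w | ∀ k, ‖w k - r₀ k‖ < η₀}
  let O : Set ((I₁ → X) × (I₂ → V) × (I₁ × Fin N → ℝ)) := O₁ ×ˢ (O₂ ×ˢ O₃)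
  have hOopen : IsOpen O :=
    (isOpen_ball_pi p ρ).prod ((isOpen_ball_pi (fun _ => (0 : V)) ρ').prod
      (isOpen_ball_pi r₀ (fun _ => η₀)))
  have hOconv : Convex ℝ O :=
    (convex_ball_pi p ρ).prod ((convex_ball_pi (fun _ => (0 : V)) ρ').prod
      (convex_ball_pi r₀ (fun _ => η₀)))
  let P : (G →ₗ[ℝ] X) →ₗ[ℝ] ((I₁ → X) × (I₂ → V) × (I₁ × Fin N → ℝ)) :=
    { toFun := fun τ => (fun k => τ (h₁ k), fun k => A (τ (h₂ k)), fun k => s k.2 (τ (h₁ k.1)))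
      map_add' := fun τ τ' => by
        ext k
        · rfl
        · show A ((τ + τ') (h₂ k)) = A (τ (h₂ k)) + A (τ' (h₂ k))
          rw [LinearMap.add_apply, map_add]
        · show s k.2 ((τ + τ') (h₁ k.1)) = s k.2 (τ (h₁ k.1)) + s k.2 (τ' (h₁ k.1))
          rw [LinearMap.add_apply, map_add]
      map_smul' := fun c τ => by
        ext k
        · rfl
        · show A ((c • τ) (h₂ k)) = c • A (τ (h₂ k))
          rw [LinearMap.smul_apply, map_smul]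
        · show s k.2 ((c • τ) (h₁ k.1)) = c • s k.2 (τ (h₁ k.1))
          rw [LinearMap.smul_apply, map_smul] }
  have hP : ∀ τ, P τ = (fun k => τ (h₁ k), fun k => A (τ (h₂ k)), fun k => s k.2 (τ (h₁ k.1))) :=
    fun _ => rfl
  have hdisj : Disjoint O (LinearMap.range P : Set _) := by
    rw [Set.disjoint_left]
    rintro _ hw ⟨τ, rfl⟩
    refine hcon ⟨τ, fun k => hw.1 k, fun k => ?_, fun k i hi => hw.2.2 (k, ⟨i, hi⟩)⟩
    have := hw.2.1 k
    rwa [sub_zero] at this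
  obtain ⟨Φ, u, hΦ1, hΦ2⟩ := geometric_hahn_banach_open hOconv hOopen
    (LinearMap.range P).convex hdisj
  have hu : u ≤ 0 := by
    have := hΦ2 0 (LinearMap.range P).zero_mem
    rwa [map_zero] at this
  have hΦP : ∀ τ, Φ (P τ) = 0 := by
    intro τ
    by_contra hne
    have h1 : ∀ c : ℝ, u ≤ c * Φ (P τ) := by
      intro c
      have := hΦ2 (P (c • τ)) ⟨_, rfl⟩
      rwa [map_smul, map_smul, smul_eq_mul] at this
    have h2 := h1 ((u - 1) / Φ (P τ))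
    rw [div_mul_cancel₀ _ hne] at h2
    linarith
  -- the components of the functional
  let Φ₁ : (I₁ → X) →L[ℝ] ℝ := Φ.comp (ContinuousLinearMap.inl ℝ _ _)
  let Φ₂ : (I₂ → V) →L[ℝ] ℝ :=
    Φ.comp ((ContinuousLinearMap.inr ℝ _ _).comp (ContinuousLinearMap.inl ℝ _ _))
  let Φ₃ : (I₁ × Fin N → ℝ) →L[ℝ] ℝ :=
    Φ.comp ((ContinuousLinearMap.inr ℝ _ _).comp (ContinuousLinearMap.inr ℝ _ _))
  let b : I₁ → X →L[ℝ] ℝ := fun k => Φ₁.comp (ContinuousLinearMap.single ℝ (fun _ : I₁ => X) k)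
  let c : I₂ → V →L[ℝ] ℝ := fun k => Φ₂.comp (ContinuousLinearMap.single ℝ (fun _ : I₂ => V) k)
  let α : I₁ × Fin N → ℝ := fun k =>
    (Φ₃.comp (ContinuousLinearMap.single ℝ (fun _ : I₁ × Fin N => ℝ) k)) 1
  have hΦ : ∀ (x : I₁ → X) (v : I₂ → V) (r : I₁ × Fin N → ℝ),
      Φ (x, v, r) = ∑ k, b k (x k) + ∑ k, c k (v k) + ∑ k, α k * r k := by
    intro x v r
    have e : ((x, v, r) : (I₁ → X) × (I₂ → V) × (I₁ × Fin N → ℝ)) =
        (x, 0, 0) + (0, v, 0) + (0, 0, r) := by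
      simp
    rw [e, map_add, map_add]
    have e1 : Φ (x, 0, 0) = ∑ k, b k (x k) := clm_pi_apply Φ₁ x
    have e2 : Φ (0, v, 0) = ∑ k, c k (v k) := clm_pi_apply Φ₂ v
    have e3 : Φ (0, 0, r) = ∑ k, α k * r k := by
      refine (clm_pi_apply Φ₃ r).trans (Finset.sum_congr rfl fun k _ => ?_)
      have : r k = r k • (1 : ℝ) := by rw [smul_eq_mul, mul_one]
      rw [this, map_smul, smul_eq_mul, smul_eq_mul, mul_one, mul_comm]
    rw [e1, e2, e3]
  -- relations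
  have hfree : Module.Free ℝ G := Module.Free.of_divisionRing ℝ G
  let e := Module.finBasis ℝ G
  let co : Fin (Module.finrank ℝ G) → (I₁ → ℝ) × (I₂ → ℝ) × (Fin N → ℝ) := fun j =>
    (fun k => e.coord j (h₁ k), fun k => e.coord j (h₂ k),
      fun i => ∑ k, e.coord j (h₁ k) * α (k, i))
  have hrel : ∀ j, comb2 A s b c (co j) = 0 := by
    intro j
    ext x
    have h1 := hΦP ((e.coord j).smulRight x)
    rw [hP, hΦ] at h1
    rw [_root_.zero_apply, ← h1]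
    unfold comb2
    rw [_root_.add_apply, _root_.add_apply, _root_.sum_apply, _root_.sum_apply, _root_.sum_apply]
    congr 1
    congr 1
    · refine Finset.sum_congr rfl fun k _ => ?_
      show e.coord j (h₁ k) * b k x = b k (e.coord j (h₁ k) • x)
      rw [map_smul, smul_eq_mul]
    · refine Finset.sum_congr rfl fun k _ => ?_
      show e.coord j (h₂ k) * c k (A x) = c k (A (e.coord j (h₂ k) • x))
      rw [map_smul, map_smul, smul_eq_mul]
    · rw [Fintype.sum_prod_type_right]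
      refine Finset.sum_congr rfl fun i _ => ?_
      show (∑ k, e.coord j (h₁ k) * α (k, i)) * s i x =
        ∑ k, α (k, i) * s i (e.coord j (h₁ k) • x)
      rw [Finset.sum_mul]
      refine Finset.sum_congr rfl fun k _ => ?_
      rw [map_smul, smul_eq_mul]
      ring
  have hρ : ∀ k, 0 < ρ k := fun k => lt_of_le_of_lt (hσ0 k) (hσρ k)
  have hρ' : ∀ k, 0 < ρ' k := fun k => lt_of_le_of_lt (hσ0' k) (hσρ' k)
  -- lower bound for the value at the centre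
  have hval : ∀ η > 0, ∑ k, b k (p k) + ∑ k, ρ k * (‖b k‖ - η) + ∑ k, ρ' k * (‖c k‖ - η) +
      ∑ k, (α k * r₀ k + |α k| * (η₀ / 2)) < 0 := by
    intro η hη
    choose y hy1 hy2 using fun k => exists_norming (b k) hη
    choose y' hy1' hy2' using fun k => exists_norming (c k) hη
    let sg : I₁ × Fin N → ℝ := fun k => SignType.sign (α k)
    have hsg : ∀ k, |sg k| ≤ 1 := by
      intro k
      rcases lt_trichotomy (α k) 0 with h | h | h
      · simp [sg, sign_neg h]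
      · simp [sg, h]
      · simp [sg, sign_pos h]
    have hsg2 : ∀ k, α k * sg k = |α k| := fun k => self_mul_sign _
    have hw : ((fun k => p k + ρ k • y k, fun k => ρ' k • y' k,
        fun k => r₀ k + (η₀ / 2) * sg k) :
          (I₁ → X) × (I₂ → V) × (I₁ × Fin N → ℝ)) ∈ O := by
      refine ⟨fun k => ?_, fun k => ?_, fun k => ?_⟩
      · show ‖p k + ρ k • y k - p k‖ < ρ k
        rw [add_sub_cancel_left, norm_smul, Real.norm_of_nonneg (hρ k).le]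
        exact mul_lt_of_lt_one_right (hρ k) (hy1 k)
      · show ‖ρ' k • y' k - 0‖ < ρ' k
        rw [sub_zero, norm_smul, Real.norm_of_nonneg (hρ' k).le]
        exact mul_lt_of_lt_one_right (hρ' k) (hy1' k)
      · show ‖r₀ k + (η₀ / 2) * sg k - r₀ k‖ < η₀
        rw [add_sub_cancel_left, Real.norm_eq_abs, abs_mul, abs_of_pos (by positivity)]
        have := hsg k
        nlinarith
    have h1 := hΦ1 _ hw
    rw [hΦ] at h1
    have h2 : ∑ k, b k (p k + ρ k • y k) = ∑ k, b k (p k) + ∑ k, ρ k * b k (y k) := by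
      rw [← Finset.sum_add_distrib]
      exact Finset.sum_congr rfl fun k _ => by rw [map_add, map_smul, smul_eq_mul]
    have h3 : ∑ k, c k (ρ' k • y' k) = ∑ k, ρ' k * c k (y' k) :=
      Finset.sum_congr rfl fun k _ => by rw [map_smul, smul_eq_mul]
    have h4 : ∑ k, α k * (r₀ k + (η₀ / 2) * sg k) = ∑ k, (α k * r₀ k + |α k| * (η₀ / 2)) := by
      refine Finset.sum_congr rfl fun k _ => ?_
      rw [← hsg2]; ring
    rw [h2, h3, h4] at h1
    have h5 : ∑ k, ρ k * (‖b k‖ - η) ≤ ∑ k, ρ k * b k (y k) :=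
      Finset.sum_le_sum fun k _ => mul_le_mul_of_nonneg_left (hy2 k).le (hρ k).le
    have h6 : ∑ k, ρ' k * (‖c k‖ - η) ≤ ∑ k, ρ' k * c k (y' k) :=
      Finset.sum_le_sum fun k _ => mul_le_mul_of_nonneg_left (hy2' k).le (hρ' k).le
    linarith
  -- the functional is not zero
  let Δ : ℝ := ∑ k, (ρ k - σ k) * ‖b k‖ + ∑ k, (ρ' k - σ' k) * ‖c k‖ + ∑ k, |α k| * (η₀ / 2)
  have hΔ1 : ∀ k ∈ Finset.univ, 0 ≤ (ρ k - σ k) * ‖b k‖ := fun k _ =>
    mul_nonneg (by linarith [hσρ k]) (norm_nonneg _)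
  have hΔ2 : ∀ k ∈ Finset.univ, 0 ≤ (ρ' k - σ' k) * ‖c k‖ := fun k _ =>
    mul_nonneg (by linarith [hσρ' k]) (norm_nonneg _)
  have hΔ3 : ∀ k ∈ Finset.univ, 0 ≤ |α k| * (η₀ / 2) := fun k _ => by positivity
  have hΔ : 0 < Δ := by
    by_contra hle
    push Not at hle
    have hs1 := Finset.sum_nonneg hΔ1
    have hs2 := Finset.sum_nonneg hΔ2
    have hs3 := Finset.sum_nonneg hΔ3
    have hz1 : ∑ k, (ρ k - σ k) * ‖b k‖ = 0 := by simp only [Δ] at hle; linarith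
    have hz2 : ∑ k, (ρ' k - σ' k) * ‖c k‖ = 0 := by simp only [Δ] at hle; linarith
    have hz3 : ∑ k, |α k| * (η₀ / 2) = 0 := by simp only [Δ] at hle; linarith
    have hb0 : ∀ k, b k = 0 := by
      intro k
      have h2 := (Finset.sum_eq_zero_iff_of_nonneg hΔ1).mp hz1 k (Finset.mem_univ k)
      rcases mul_eq_zero.mp h2 with h3 | h3
      · linarith [hσρ k]
      · exact norm_eq_zero.mp h3
    have hc0 : ∀ k, c k = 0 := by
      intro k
      have h2 := (Finset.sum_eq_zero_iff_of_nonneg hΔ2).mp hz2 k (Finset.mem_univ k)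
      rcases mul_eq_zero.mp h2 with h3 | h3
      · linarith [hσρ' k]
      · exact norm_eq_zero.mp h3
    have hα0 : ∀ k, α k = 0 := by
      intro k
      have h2 := (Finset.sum_eq_zero_iff_of_nonneg hΔ3).mp hz3 k (Finset.mem_univ k)
      rcases mul_eq_zero.mp h2 with h3 | h3
      · exact abs_eq_zero.mp h3
      · linarith
    have hpO : ((p, 0, r₀) : (I₁ → X) × (I₂ → V) × (I₁ × Fin N → ℝ)) ∈ O := by
      refine ⟨fun k => ?_, fun k => ?_, fun k => ?_⟩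
      · show ‖p k - p k‖ < ρ k
        rw [sub_self, norm_zero]; exact hρ k
      · show ‖(0 : I₂ → V) k - 0‖ < ρ' k
        rw [Pi.zero_apply, sub_self, norm_zero]; exact hρ' k
      · show ‖r₀ k - r₀ k‖ < η₀
        rw [sub_self, norm_zero]; exact hη₀
    have h1 := hΦ1 _ hpO
    rw [hΦ] at h1
    simp only [hb0, hc0, hα0, _root_.zero_apply, zero_mul, Finset.sum_const_zero, add_zero] at h1
    linarith
  -- capture the functional
  let M : ℝ := ∑ j, ‖(e j : W →L[ℝ] ℝ)‖ + ∑ k, σ k + ∑ k, ρ k + ∑ k, σ' k + ∑ k, ρ' k +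
    Fintype.card I₁ + 1
  have hM : 0 < M := by
    have h1 : 0 ≤ ∑ j, ‖(e j : W →L[ℝ] ℝ)‖ := Finset.sum_nonneg fun _ _ => norm_nonneg _
    have h2 : 0 ≤ ∑ k, σ k := Finset.sum_nonneg fun k _ => hσ0 k
    have h3 : 0 ≤ ∑ k, ρ k := Finset.sum_nonneg fun k _ => (hρ k).le
    have h4 : 0 ≤ ∑ k, σ' k := Finset.sum_nonneg fun k _ => hσ0' k
    have h5 : 0 ≤ ∑ k, ρ' k := Finset.sum_nonneg fun k _ => (hρ' k).le
    positivity
  let η : ℝ := Δ / M
  have hη : 0 < η := div_pos hΔ hM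
  obtain ⟨z, z', hzD, hzD', hz1, hzn, hzn', hz2⟩ := hD I₁ I₂ b c N (Finset.univ.image co)
    (Finset.univ.image p) η hη
  choose w hw using fun k => hDJ (z k) (hzD k)
  choose w' hw' using fun k => hDJ' (z' k) (hzD' k)
  have hwn : ∀ k, ‖w k‖ ≤ ‖b k‖ + η := by
    intro k
    have h3 : ‖w k‖ = ‖z k‖ := by rw [← hw k, J.norm_map]
    rw [h3]
    exact hzn k
  have hwn' : ∀ k, ‖w' k‖ ≤ ‖c k‖ + η := by
    intro k
    have h3 : ‖w' k‖ = ‖z' k‖ := by rw [← hw' k, J'.norm_map]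
    rw [h3]
    exact hzn' k
  let ζ : Fin (Module.finrank ℝ G) → W := fun j =>
    ∑ k, e.coord j (h₁ k) • w k + ∑ k, e.coord j (h₂ k) • aW (w' k) +
      ∑ i : Fin N, (∑ k, e.coord j (h₁ k) * α (k, i)) • m i
  have hζ : ∀ j, ‖ζ j‖ ≤ η := by
    intro j
    have h1 := hz1 (co j) (Finset.mem_image_of_mem co (Finset.mem_univ j))
    rw [hrel j, norm_zero, sub_zero, abs_of_nonneg (norm_nonneg _)] at h1
    have h2 : J (ζ j) = comb2 A s z z' (co j) := by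
      simp only [ζ, comb2, co, map_add, map_sum, map_smul, hw, haW, hw', hm]
    rw [← J.norm_map, h2]
    exact h1.le
  -- the key sum
  have hexp : ∀ g : G, (g : W →L[ℝ] ℝ) = ∑ j, e.coord j g • (e j : W →L[ℝ] ℝ) := by
    intro g
    have h2 := congrArg G.subtype (e.sum_repr g).symm
    rw [map_sum] at h2
    refine Eq.trans (show (g : W →L[ℝ] ℝ) = G.subtype g from rfl) (h2.trans ?_)
    exact Finset.sum_congr rfl fun j _ => by rw [map_smul]; rfl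
  have hexp' : ∀ (g : G) (x : W), (g : W →L[ℝ] ℝ) x = ∑ j, e.coord j g * (e j : W →L[ℝ] ℝ) x := by
    intro g x
    conv_lhs => rw [hexp g]
    rw [_root_.sum_apply]
    rfl
  have hsum : ∑ k, (h₁ k : W →L[ℝ] ℝ) (w k) + ∑ k, (h₂ k : W →L[ℝ] ℝ) (aW (w' k)) +
      ∑ k, α k * r₀ k = ∑ j, (e j : W →L[ℝ] ℝ) (ζ j) := by
    have t1 : ∑ k, (h₁ k : W →L[ℝ] ℝ) (w k) =
        ∑ j, ∑ k, e.coord j (h₁ k) * (e j : W →L[ℝ] ℝ) (w k) := by
      rw [Finset.sum_comm]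
      exact Finset.sum_congr rfl fun k _ => hexp' _ _
    have t2 : ∑ k, (h₂ k : W →L[ℝ] ℝ) (aW (w' k)) =
        ∑ j, ∑ k, e.coord j (h₂ k) * (e j : W →L[ℝ] ℝ) (aW (w' k)) := by
      rw [Finset.sum_comm]
      exact Finset.sum_congr rfl fun k _ => hexp' _ _
    have t3 : ∑ k, α k * r₀ k =
        ∑ j, ∑ i : Fin N, (∑ k, e.coord j (h₁ k) * α (k, i)) * (e j : W →L[ℝ] ℝ) (m i) := by
      have t4 : ∀ k : I₁ × Fin N, α k * r₀ k =
          ∑ j, e.coord j (h₁ k.1) * α k * (e j : W →L[ℝ] ℝ) (m k.2) := by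
        intro k
        simp only [r₀]
        rw [hexp' (h₁ k.1) (m k.2), Finset.mul_sum]
        exact Finset.sum_congr rfl fun j _ => by ring
      rw [Finset.sum_congr rfl fun k _ => t4 k, Finset.sum_comm]
      refine Finset.sum_congr rfl fun j _ => ?_
      rw [Fintype.sum_prod_type_right]
      refine Finset.sum_congr rfl fun i _ => ?_
      rw [Finset.sum_mul]
    rw [t1, t2, t3, ← Finset.sum_add_distrib, ← Finset.sum_add_distrib]
    refine Finset.sum_congr rfl fun j _ => ?_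
    simp only [ζ, map_add, map_sum, map_smul, smul_eq_mul]
  have hsum2 : -(η * ∑ j, ‖(e j : W →L[ℝ] ℝ)‖) ≤ ∑ k, (h₁ k : W →L[ℝ] ℝ) (w k) +
      ∑ k, (h₂ k : W →L[ℝ] ℝ) (aW (w' k)) + ∑ k, α k * r₀ k := by
    rw [hsum]
    have h1 : |∑ j, (e j : W →L[ℝ] ℝ) (ζ j)| ≤ η * ∑ j, ‖(e j : W →L[ℝ] ℝ)‖ := by
      refine (Finset.abs_sum_le_sum_abs _ _).trans ?_
      rw [Finset.mul_sum]
      refine Finset.sum_le_sum fun j _ => ?_
      refine ((e j : W →L[ℝ] ℝ).le_opNorm _).trans ?_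
      rw [mul_comm]
      exact mul_le_mul_of_nonneg_right (hζ j) (norm_nonneg _)
    linarith [(abs_le.mp h1).1]
  -- compare
  have hcmp : ∀ k, (h₁ k : W →L[ℝ] ℝ) (w k) ≤ b k (p k) + η + σ k * (‖b k‖ + η) := by
    intro k
    have h1 := hh₁ k (w k)
    have h2 := hz2 k (p k) (Finset.mem_image_of_mem _ (Finset.mem_univ k))
    rw [← hw k] at h2
    have h3 : σ k * ‖w k‖ ≤ σ k * (‖b k‖ + η) := mul_le_mul_of_nonneg_left (hwn k) (hσ0 k)
    linarith [(abs_le.mp h1).2, (abs_lt.mp h2).2]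
  have hcmp' : ∀ k, (h₂ k : W →L[ℝ] ℝ) (aW (w' k)) ≤ σ' k * (‖c k‖ + η) := by
    intro k
    have h1 := hh₂ k (w' k)
    have h3 : σ' k * ‖w' k‖ ≤ σ' k * (‖c k‖ + η) := mul_le_mul_of_nonneg_left (hwn' k) (hσ0' k)
    linarith [(abs_le.mp h1).2]
  have h1 := hval η hη
  have h2 : ∑ k, (h₁ k : W →L[ℝ] ℝ) (w k) ≤ ∑ k, (b k (p k) + η + σ k * (‖b k‖ + η)) :=
    Finset.sum_le_sum fun k _ => hcmp k
  have h2' : ∑ k, (h₂ k : W →L[ℝ] ℝ) (aW (w' k)) ≤ ∑ k, σ' k * (‖c k‖ + η) :=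
    Finset.sum_le_sum fun k _ => hcmp' k
  have h3 : ∑ k, (b k (p k) + η + σ k * (‖b k‖ + η)) = ∑ k, b k (p k) + Fintype.card I₁ * η +
      ∑ k, σ k * ‖b k‖ + η * ∑ k, σ k := by
    simp only [mul_add, Finset.sum_add_distrib, Finset.sum_const, Finset.card_univ, nsmul_eq_mul,
      Finset.mul_sum]
    have : ∑ k, σ k * η = ∑ k, η * σ k := Finset.sum_congr rfl fun k _ => mul_comm _ _
    rw [this]; ring
  have h3' : ∑ k, σ' k * (‖c k‖ + η) = ∑ k, σ' k * ‖c k‖ + η * ∑ k, σ' k := by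
    simp only [mul_add, Finset.sum_add_distrib, Finset.mul_sum]
    congr 1
    exact Finset.sum_congr rfl fun k _ => mul_comm _ _
  have h4 : ∑ k, ρ k * (‖b k‖ - η) = ∑ k, ρ k * ‖b k‖ - η * ∑ k, ρ k := by
    simp only [mul_sub, Finset.sum_sub_distrib, Finset.mul_sum]
    congr 1
    exact Finset.sum_congr rfl fun k _ => mul_comm _ _
  have h4' : ∑ k, ρ' k * (‖c k‖ - η) = ∑ k, ρ' k * ‖c k‖ - η * ∑ k, ρ' k := by
    simp only [mul_sub, Finset.sum_sub_distrib, Finset.mul_sum]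
    congr 1
    exact Finset.sum_congr rfl fun k _ => mul_comm _ _
  have h5 : ∑ k, (ρ k - σ k) * ‖b k‖ = ∑ k, ρ k * ‖b k‖ - ∑ k, σ k * ‖b k‖ := by
    simp only [sub_mul, Finset.sum_sub_distrib]
  have h5' : ∑ k, (ρ' k - σ' k) * ‖c k‖ = ∑ k, ρ' k * ‖c k‖ - ∑ k, σ' k * ‖c k‖ := by
    simp only [sub_mul, Finset.sum_sub_distrib]
  have h6 : η * M = Δ := div_mul_cancel₀ _ hM.ne'
  have h7 : η * M = η * ∑ j, ‖(e j : W →L[ℝ] ℝ)‖ + η * ∑ k, σ k + η * ∑ k, ρ k +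
      η * ∑ k, σ' k + η * ∑ k, ρ' k + Fintype.card I₁ * η + η := by
    simp only [M]; ring
  have h8 : ∑ k, (α k * r₀ k + |α k| * (η₀ / 2)) = ∑ k, α k * r₀ k + ∑ k, |α k| * (η₀ / 2) := by
    rw [Finset.sum_add_distrib]
  have h9 : Δ = ∑ k, (ρ k - σ k) * ‖b k‖ + ∑ k, (ρ' k - σ' k) * ‖c k‖ +
      ∑ k, |α k| * (η₀ / 2) := rfl
  linarith

end Pool.Agent.H756
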