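import Pool.Agent.H756.Gen
import Pool.Agent.H756.Mazur

/-!
# A local criterion for the embedding theorem
-/

namespace Pool.Agent.H756

open Filter Topology TopologicalSpace

variable {X : Type*} [NormedAddCommGroup X] [NormedSpace ℝ X]
variable {E : Type*} [NormedAddCommGroup E] [NormedSpace ℝ E]

/-- Hahn-Banach: distance to the range -/
theorem exists_near_of_annihilator (i : X →L[ℝ] E) (e : E) {a : ℝ}
    (h : ∀ μ : E →L[ℝ] ℝ, ‖μ‖ ≤ 1 → (∀ x, μ (i x) = 0) → |μ e| ≤ a) {ε : ℝ} (hε : 0 < ε) :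
    ∃ x, ‖e - i x‖ ≤ a + ε := by
  let S : Submodule ℝ E := LinearMap.range i.toLinearMap
  have hq : ‖(S.mkQ e : E ⧸ S)‖ ≤ a := by
    obtain ⟨g, hg1, hg2⟩ := exists_dual_vector'' ℝ (S.mkQ e : E ⧸ S)
    let μ : E →L[ℝ] ℝ := LinearMap.mkContinuous (g.toLinearMap ∘ₗ S.mkQ) 1 (fun x => by
      have h1 : ‖g (S.mkQ x)‖ ≤ ‖g‖ * ‖S.mkQ x‖ := g.le_opNorm _
      have h2 : ‖S.mkQ x‖ ≤ ‖x‖ := Submodule.Quotient.norm_mk_le S x
      show ‖g (S.mkQ x)‖ ≤ 1 * ‖x‖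
      have h3 : ‖g‖ * ‖S.mkQ x‖ ≤ 1 * ‖x‖ := by gcongr
      exact h1.trans h3)
    have hμ : ‖μ‖ ≤ 1 := LinearMap.mkContinuous_norm_le _ zero_le_one _
    have h4 := h μ hμ (fun x => by
      show g (S.mkQ (i x)) = 0
      have : S.mkQ (i x) = 0 := by
        rw [Submodule.mkQ_apply, Submodule.Quotient.mk_eq_zero]
        exact ⟨x, rfl⟩
      rw [this, map_zero])
    have h5 : μ e = ‖S.mkQ e‖ := hg2
    rw [h5, abs_of_nonneg (norm_nonneg _)] at h4
    exact h4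
  obtain ⟨m, hm1, hm2⟩ := Submodule.Quotient.norm_mk_lt (S.mkQ e) hε
  have h6 : e - m ∈ S := by
    rw [← Submodule.Quotient.mk_eq_zero, Submodule.Quotient.mk_sub, hm1, Submodule.mkQ_apply,
      sub_self]
  obtain ⟨x, hx⟩ := h6
  refine ⟨x, ?_⟩
  have h7 : i x = e - m := hx
  rw [h7, sub_sub_cancel]
  linarith

/-- local criterion -/
theorem embeds_of_local [CompleteSpace X] [SeparableSpace X] {ξ : Ordinal.{0}}
    (hX : BourgainIndexLE X ξ)
    (i : X →L[ℝ] E) {c₀ : ℝ} (hc₀ : 0 < c₀) (hi : ∀ x, c₀ * ‖x‖ ≤ ‖i x‖) (C : ℝ)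
    (h : ∀ (F : Finset X) (δ : ℝ), 0 < δ → ∃ R : X →L[ℝ] E,
      FiniteDimensional ℝ (LinearMap.range R.toLinearMap) ∧ ‖R‖ ≤ C ∧
      (∀ x ∈ F, ‖R x - i x‖ ≤ δ) ∧ ∀ x, ∃ x', ‖R x - i x'‖ ≤ δ * ‖x‖) :
    EmbedsWithIndex X (Ordinal.omega0 * ξ * Ordinal.omega0) := by
  classical
  let j : E →L[ℝ] E × ℝ := ContinuousLinearMap.inl ℝ E ℝ
  have hj : ∀ e, ‖j e‖ = ‖e‖ := fun e => by
    show ‖((e, 0) : E × ℝ)‖ = ‖e‖
    rw [Prod.norm_def]; simp
  have hC : 0 ≤ C := by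
    obtain ⟨R, _, h2, _⟩ := h ∅ 1 one_pos
    exact (norm_nonneg R).trans h2
  let d : ℕ → X := denseSeq X
  have hd : DenseRange d := denseRange_denseSeq X
  choose R0 hR1 hR2 hR3 hR4 using fun n : ℕ =>
    h (Finset.image d (Finset.range n)) ((1 / 4) ^ n) (by positivity)
  let R : ℕ → X →L[ℝ] E × ℝ := fun n => if n = 0 then 0 else j.comp (R0 n)
  have hRn : ∀ n, n ≠ 0 → R n = j.comp (R0 n) := fun n hn => if_neg hn
  refine embeds_of_approx hX (j.comp i) hc₀ (fun x => ?_) ((0, 1) : E × ℝ) ?_ R (if_pos rfl) ?_ ?_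
    ?_
  · rw [ContinuousLinearMap.comp_apply, hj]; exact hi x
  · intro h0
    have := congrArg Prod.snd h0
    simp at this
  · intro n
    rcases eq_or_ne n 0 with rfl | hn
    · have : R 0 = 0 := if_pos rfl
      rw [this]
      have e : LinearMap.range (0 : X →L[ℝ] E × ℝ).toLinearMap = ⊥ := by
        rw [LinearMap.range_eq_bot]; rfl
      rw [e]
      infer_instance
    · rw [hRn n hn]
      have := hR1 n
      have e : LinearMap.range (j.comp (R0 n)).toLinearMap =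
          (LinearMap.range (R0 n).toLinearMap).map j.toLinearMap := by
        rw [← LinearMap.range_comp]; rfl
      rw [e]
      infer_instance
  · intro x
    rw [Metric.tendsto_atTop]
    intro ε hε
    obtain ⟨k, hk⟩ := hd.exists_dist_lt x (show 0 < ε / (2 * (C + ‖i‖ + 1)) by positivity)
    have h1 : Tendsto (fun n : ℕ => ((1 : ℝ) / 4) ^ n) atTop (𝓝 0) :=
      tendsto_pow_atTop_nhds_zero_of_lt_one (by norm_num) (by norm_num)
    have h2 : ∀ᶠ n in atTop, ((1 : ℝ) / 4) ^ n < ε / 2 :=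
      h1.eventually_lt_const (by positivity)
    obtain ⟨n₀, hn₀⟩ := eventually_atTop.mp h2
    refine ⟨max n₀ (k + 1), fun n hn => ?_⟩
    have hn1 : n₀ ≤ n := (le_max_left _ _).trans hn
    have hn2 : k + 1 ≤ n := (le_max_right _ _).trans hn
    rw [hRn n (by omega), dist_eq_norm, ContinuousLinearMap.comp_apply,
      ContinuousLinearMap.comp_apply, ← map_sub, hj]
    have h3 : ‖R0 n (d k) - i (d k)‖ ≤ (1 / 4) ^ n := hR3 n _ (Finset.mem_image.mpr
      ⟨k, Finset.mem_range.mpr (by omega), rfl⟩)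
    have h4 : R0 n x - i x = R0 n (x - d k) + (R0 n (d k) - i (d k)) - i (x - d k) := by
      rw [map_sub, map_sub]; abel
    have h5 : ‖R0 n (x - d k)‖ ≤ C * ‖x - d k‖ :=
      ((R0 n).le_opNorm _).trans (by gcongr; exact hR2 n)
    have h6 : ‖i (x - d k)‖ ≤ ‖i‖ * ‖x - d k‖ := i.le_opNorm _
    have h7 : ‖x - d k‖ < ε / (2 * (C + ‖i‖ + 1)) := by rw [← dist_eq_norm]; exact hk
    have h8 : (C + ‖i‖ + 1) * ‖x - d k‖ ≤ ε / 2 := by
      have h9 : (C + ‖i‖ + 1) * (ε / (2 * (C + ‖i‖ + 1))) = ε / 2 := by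
        field_simp
      rw [← h9]
      gcongr
    have h10 := hn₀ n hn1
    rw [h4]
    have h11 := norm_sub_le (R0 n (x - d k) + (R0 n (d k) - i (d k))) (i (x - d k))
    have h12 := norm_add_le (R0 n (x - d k)) (R0 n (d k) - i (d k))
    have h13 := norm_nonneg (x - d k)
    nlinarith
  · intro n hn x
    obtain ⟨x', hx'⟩ := hR4 n x
    refine ⟨x', ?_⟩
    rw [hRn n hn, ContinuousLinearMap.comp_apply, ContinuousLinearMap.comp_apply, ← map_sub, hj]
    exact hx'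

end Pool.Agent.H756
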