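import Pool.Agent.H756.Capture

/-!
# Local reflexivity relative to a capturing subspace
-/

namespace Pool.Agent.H756

open Filter Topology TopologicalSpace

universe u v w

variable {X : Type u} [NormedAddCommGroup X] [NormedSpace ℝ X]
variable {W : Type w} [NormedAddCommGroup W] [NormedSpace ℝ W]

/-- a vector almost norming a functional -/
lemma exists_norming (f : X →L[ℝ] ℝ) {η : ℝ} (hη : 0 < η) :
    ∃ y : X, ‖y‖ < 1 ∧ ‖f‖ - η < f y := by
  rcases le_or_gt (‖f‖ - η) 0 with h | h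
  · rcases eq_or_lt_of_le h with h0 | h0
    · have hf : 0 < ‖f‖ := by linarith
      obtain ⟨x, hx1, hx2⟩ := f.exists_lt_apply_of_lt_opNorm (show 0 < ‖f‖ from hf)
      rw [Real.norm_eq_abs] at hx2
      rcases abs_cases (f x) with ⟨h3, _⟩ | ⟨h3, _⟩
      · exact ⟨x, hx1, by linarith⟩
      · exact ⟨-x, by rwa [norm_neg], by rw [map_neg]; linarith⟩
    · exact ⟨0, by simp, by rw [map_zero]; exact h0⟩
  · obtain ⟨x, hx1, hx2⟩ := f.exists_lt_apply_of_lt_opNorm (show ‖f‖ - η < ‖f‖ by linarith)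
    rw [Real.norm_eq_abs] at hx2
    rcases abs_cases (f x) with ⟨h3, _⟩ | ⟨h3, _⟩
    · exact ⟨x, hx1, by linarith⟩
    · exact ⟨-x, by rwa [norm_neg], by rw [map_neg]; linarith⟩

/-- local reflexivity relative to a capturing subspace -/
theorem exists_local_map {D : Set (X →L[ℝ] ℝ)} (hD : Captures.{u, v} D)
    (J : W →ₗᵢ[ℝ] (X →L[ℝ] ℝ)) (hDJ : ∀ z ∈ D, ∃ w, J w = z)
    (G : Submodule ℝ (W →L[ℝ] ℝ)) [FiniteDimensional ℝ G]
    {I : Type v} [Fintype I] (h : I → G) (p : I → X) (σ ρ : I → ℝ) (hσ0 : ∀ k, 0 ≤ σ k)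
    (hσρ : ∀ k, σ k < ρ k)
    (hh : ∀ k (w : W), |(h k : W →L[ℝ] ℝ) w - J w (p k)| ≤ σ k * ‖w‖) :
    ∃ τ : G →ₗ[ℝ] X, ∀ k, ‖τ (h k) - p k‖ < ρ k := by
  classical
  by_contra hcon
  push Not at hcon
  -- the open convex set and the subspace
  let O : Set (I → X) := {w | ∀ k, ‖w k - p k‖ < ρ k}
  have hOopen : IsOpen O := by
    have e : O = ⋂ k, {w : I → X | ‖w k - p k‖ < ρ k} := by ext w; simp [O]
    rw [e]
    refine isOpen_iInter_of_finite fun k => ?_
    exact isOpen_lt (by fun_prop) continuous_const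
  have hOconv : Convex ℝ O := by
    intro w hw v hv s t hs ht hst k
    have h1 := hw k
    have h2 := hv k
    have e : (s • w + t • v) k - p k = s • (w k - p k) + t • (v k - p k) := by
      rw [Pi.add_apply, Pi.smul_apply, Pi.smul_apply, smul_sub, smul_sub]
      have : p k = s • p k + t • p k := by rw [← add_smul, hst, one_smul]
      conv_lhs => rw [this]
      abel
    rw [e]
    have h3 : ‖s • (w k - p k) + t • (v k - p k)‖ ≤ s * ‖w k - p k‖ + t * ‖v k - p k‖ := by
      refine (norm_add_le _ _).trans (le_of_eq ?_)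
      rw [norm_smul, norm_smul, Real.norm_of_nonneg hs, Real.norm_of_nonneg ht]
    rcases eq_or_lt_of_le hs with h | h
    · have : t = 1 := by linarith
      subst h; subst this; linarith
    · have h4 : s * ‖w k - p k‖ < s * ρ k := mul_lt_mul_of_pos_left h1 h
      have h5 : t * ‖v k - p k‖ ≤ t * ρ k := mul_le_mul_of_nonneg_left h2.le ht
      have h6 : s * ρ k + t * ρ k = ρ k := by rw [← add_mul, hst, one_mul]
      linarith
  let P : (G →ₗ[ℝ] X) →ₗ[ℝ] (I → X) :=
    { toFun := fun τ k => τ (h k)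
      map_add' := fun _ _ => rfl
      map_smul' := fun _ _ => rfl }
  have hdisj : Disjoint O (LinearMap.range P : Set (I → X)) := by
    rw [Set.disjoint_left]
    rintro _ hw ⟨τ, rfl⟩
    obtain ⟨k, hk⟩ := hcon τ
    exact absurd (hw k) (not_lt.mpr hk)
  obtain ⟨Φ, u, hΦ1, hΦ2⟩ := geometric_hahn_banach_open hOconv hOopen
    (LinearMap.range P).convex hdisj
  have hu : u ≤ 0 := by
    have := hΦ2 0 (LinearMap.range P).zero_mem
    rwa [map_zero] at this
  have hΦP : ∀ τ, Φ (P τ) = 0 := by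
    intro τ
    by_contra hne
    have h1 : ∀ c : ℝ, u ≤ c * Φ (P τ) := by
      intro c
      have := hΦ2 (P (c • τ)) ⟨_, rfl⟩
      rwa [map_smul, map_smul, smul_eq_mul] at this
    have h2 := h1 ((u - 1) / Φ (P τ))
    rw [div_mul_cancel₀ _ hne] at h2
    linarith
  -- the components of the functional
  let b : I → X →L[ℝ] ℝ := fun k => Φ.comp (ContinuousLinearMap.single ℝ (fun _ : I => X) k)
  have hb : ∀ k x, b k x = Φ (Pi.single k x) := fun _ _ => rfl
  have hΦb : ∀ w : I → X, Φ w = ∑ k, b k (w k) := by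
    intro w
    have e : w = ∑ k, Pi.single k (w k) := by
      ext k
      simp [Finset.sum_apply, Pi.single_apply]
    conv_lhs => rw [e]
    rw [map_sum]
    rfl
  -- relations
  have hfree : Module.Free ℝ G := Module.Free.of_divisionRing ℝ G
  let e := Module.finBasis ℝ G
  have hrel : ∀ j, ∑ k, e.coord j (h k) • b k = 0 := by
    intro j
    ext x
    have h1 := hΦP ((e.coord j).smulRight x)
    rw [hΦb] at h1
    rw [_root_.sum_apply, _root_.zero_apply]
    rw [← h1]
    refine Finset.sum_congr rfl fun k _ => ?_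
    show e.coord j (h k) * b k x = b k (e.coord j (h k) • x)
    rw [map_smul, smul_eq_mul]
  -- lower bound for the value at `p`
  have hval : ∀ η > 0, ∑ k, b k (p k) + ∑ k, ρ k * (‖b k‖ - η) < 0 := by
    intro η hη
    choose y hy1 hy2 using fun k => exists_norming (b k) hη
    have hw : (fun k => p k + ρ k • y k) ∈ O := by
      intro k
      have hρ : 0 < ρ k := lt_of_le_of_lt (hσ0 k) (hσρ k)
      show ‖p k + ρ k • y k - p k‖ < ρ k
      rw [add_sub_cancel_left, norm_smul, Real.norm_of_nonneg hρ.le]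
      exact mul_lt_of_lt_one_right hρ (hy1 k)
    have h1 := hΦ1 _ hw
    rw [hΦb] at h1
    have h2 : ∑ k, b k (p k + ρ k • y k) = ∑ k, b k (p k) + ∑ k, ρ k * b k (y k) := by
      rw [← Finset.sum_add_distrib]
      exact Finset.sum_congr rfl fun k _ => by rw [map_add, map_smul, smul_eq_mul]
    rw [h2] at h1
    have h3 : ∑ k, ρ k * (‖b k‖ - η) ≤ ∑ k, ρ k * b k (y k) := by
      refine Finset.sum_le_sum fun k _ => ?_
      have hρ : 0 < ρ k := lt_of_le_of_lt (hσ0 k) (hσρ k)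
      exact mul_le_mul_of_nonneg_left (hy2 k).le hρ.le
    linarith
  -- the functional is not zero
  have hΔ : 0 < ∑ k, (ρ k - σ k) * ‖b k‖ := by
    by_contra hle
    push Not at hle
    have h0 : ∀ k, b k = 0 := by
      intro k
      have h1 : ∀ k ∈ Finset.univ, 0 ≤ (ρ k - σ k) * ‖b k‖ := fun k _ =>
        mul_nonneg (by linarith [hσρ k]) (norm_nonneg _)
      have h2 := (Finset.sum_eq_zero_iff_of_nonneg h1).mp (le_antisymm hle (Finset.sum_nonneg h1))
        k (Finset.mem_univ k)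
      rcases mul_eq_zero.mp h2 with h3 | h3
      · linarith [hσρ k]
      · exact norm_eq_zero.mp h3
    have hpO : p ∈ O := by
      intro k
      rw [sub_self, norm_zero]
      exact lt_of_le_of_lt (hσ0 k) (hσρ k)
    have h1 := hΦ1 p hpO
    rw [hΦb] at h1
    simp only [h0, _root_.zero_apply, Finset.sum_const_zero] at h1
    linarith
  -- capture the functional in `W`
  let M : ℝ := ∑ j, ‖(e j : W →L[ℝ] ℝ)‖ + ∑ k, σ k + ∑ k, ρ k + Fintype.card I + 1
  have hM : 0 < M := by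
    have h1 : 0 ≤ ∑ j, ‖(e j : W →L[ℝ] ℝ)‖ := Finset.sum_nonneg fun _ _ => norm_nonneg _
    have h2 : 0 ≤ ∑ k, σ k := Finset.sum_nonneg fun k _ => hσ0 k
    have h3 : 0 ≤ ∑ k, ρ k := Finset.sum_nonneg fun k _ => (lt_of_le_of_lt (hσ0 k) (hσρ k)).le
    positivity
  let η : ℝ := (∑ k, (ρ k - σ k) * ‖b k‖) / M
  have hη : 0 < η := div_pos hΔ hM
  obtain ⟨z, hzD, hz1, hz2⟩ := hD I b
    ((Finset.univ.image fun j => fun k => e.coord j (h k)) ∪
      (Finset.univ.image fun k : I => Pi.single k (1 : ℝ))) (Finset.univ.image p) η hη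
  choose w hw using fun k => hDJ (z k) (hzD k)
  have hwn : ∀ k, ‖w k‖ ≤ ‖b k‖ + η := by
    intro k
    have h1 := hz1 (Pi.single k (1 : ℝ)) (Finset.mem_union_right _
      (Finset.mem_image_of_mem _ (Finset.mem_univ k)))
    have h2 : ∀ v : I → X →L[ℝ] ℝ, ∑ l, (Pi.single k (1 : ℝ) : I → ℝ) l • v l = v k := by
      intro v
      rw [Finset.sum_eq_single k]
      · simp
      · intro l _ hl
        rw [Pi.single_eq_of_ne hl, zero_smul]
      · intro h; exact absurd (Finset.mem_univ _) h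
    rw [h2, h2] at h1
    have h3 : ‖w k‖ = ‖z k‖ := by rw [← hw k, J.norm_map]
    rw [h3]
    linarith [(abs_lt.mp h1).2]
  have hrelw : ∀ j, ‖∑ k, e.coord j (h k) • w k‖ ≤ η := by
    intro j
    have h1 := hz1 _ (Finset.mem_union_left _ (Finset.mem_image_of_mem
      (fun j => fun k => e.coord j (h k)) (Finset.mem_univ j)))
    rw [hrel j, norm_zero, sub_zero, abs_of_nonneg (norm_nonneg _)] at h1
    have h2 : J (∑ k, e.coord j (h k) • w k) = ∑ k, e.coord j (h k) • z k := by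
      rw [map_sum]
      exact Finset.sum_congr rfl fun k _ => by rw [map_smul, hw]
    rw [← J.norm_map, h2]
    exact h1.le
  -- the key sum
  have hsum : ∑ k, (h k : W →L[ℝ] ℝ) (w k) =
      ∑ j, (e j : W →L[ℝ] ℝ) (∑ k, e.coord j (h k) • w k) := by
    have h1 : ∀ k, (h k : W →L[ℝ] ℝ) = ∑ j, e.coord j (h k) • (e j : W →L[ℝ] ℝ) := by
      intro k
      have h2 := congrArg G.subtype (e.sum_repr (h k)).symm
      rw [map_sum] at h2
      refine Eq.trans (show (h k : W →L[ℝ] ℝ) = G.subtype (h k) from rfl) (h2.trans ?_)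
      exact Finset.sum_congr rfl fun j _ => by rw [map_smul]; rfl
    calc ∑ k, (h k : W →L[ℝ] ℝ) (w k)
        = ∑ k, ∑ j, e.coord j (h k) * (e j : W →L[ℝ] ℝ) (w k) := by
          refine Finset.sum_congr rfl fun k _ => ?_
          conv_lhs => rw [h1 k]
          rw [_root_.sum_apply]
          rfl
      _ = ∑ j, ∑ k, e.coord j (h k) * (e j : W →L[ℝ] ℝ) (w k) := Finset.sum_comm
      _ = _ := by
          refine Finset.sum_congr rfl fun j _ => ?_
          rw [map_sum]
          exact Finset.sum_congr rfl fun k _ => by rw [map_smul, smul_eq_mul]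
  have hsum2 : -(η * ∑ j, ‖(e j : W →L[ℝ] ℝ)‖) ≤ ∑ k, (h k : W →L[ℝ] ℝ) (w k) := by
    rw [hsum]
    have h1 : |∑ j, (e j : W →L[ℝ] ℝ) (∑ k, e.coord j (h k) • w k)| ≤
        η * ∑ j, ‖(e j : W →L[ℝ] ℝ)‖ := by
      refine (Finset.abs_sum_le_sum_abs _ _).trans ?_
      rw [Finset.mul_sum]
      refine Finset.sum_le_sum fun j _ => ?_
      refine ((e j : W →L[ℝ] ℝ).le_opNorm _).trans ?_
      rw [mul_comm]
      exact mul_le_mul_of_nonneg_right (hrelw j) (norm_nonneg _)
    linarith [(abs_le.mp h1).1]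
  -- compare
  have hcmp : ∀ k, (h k : W →L[ℝ] ℝ) (w k) ≤ b k (p k) + η + σ k * (‖b k‖ + η) := by
    intro k
    have h1 := hh k (w k)
    have h2 := hz2 k (p k) (Finset.mem_image_of_mem _ (Finset.mem_univ k))
    rw [← hw k] at h2
    have h3 : σ k * ‖w k‖ ≤ σ k * (‖b k‖ + η) := mul_le_mul_of_nonneg_left (hwn k) (hσ0 k)
    linarith [(abs_le.mp h1).2, (abs_lt.mp h2).2]
  have h1 := hval η hη
  have h2 : ∑ k, (h k : W →L[ℝ] ℝ) (w k) ≤ ∑ k, (b k (p k) + η + σ k * (‖b k‖ + η)) :=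
    Finset.sum_le_sum fun k _ => hcmp k
  have h3 : ∑ k, (b k (p k) + η + σ k * (‖b k‖ + η)) = ∑ k, b k (p k) + Fintype.card I * η +
      ∑ k, σ k * ‖b k‖ + η * ∑ k, σ k := by
    simp only [mul_add, Finset.sum_add_distrib, Finset.sum_const, Finset.card_univ, nsmul_eq_mul,
      Finset.mul_sum]
    have : ∑ k, σ k * η = ∑ k, η * σ k := Finset.sum_congr rfl fun k _ => mul_comm _ _
    rw [this]; ring
  have h4 : ∑ k, ρ k * (‖b k‖ - η) = ∑ k, ρ k * ‖b k‖ - η * ∑ k, ρ k := by
    simp only [mul_sub, Finset.sum_sub_distrib, Finset.mul_sum]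
    congr 1
    exact Finset.sum_congr rfl fun k _ => mul_comm _ _
  have h5 : ∑ k, (ρ k - σ k) * ‖b k‖ = ∑ k, ρ k * ‖b k‖ - ∑ k, σ k * ‖b k‖ := by
    simp only [sub_mul, Finset.sum_sub_distrib]
  have h6 : η * M = ∑ k, (ρ k - σ k) * ‖b k‖ := div_mul_cancel₀ _ hM.ne'
  have h7 : η * M = η * ∑ j, ‖(e j : W →L[ℝ] ℝ)‖ + η * ∑ k, σ k + η * ∑ k, ρ k +
      Fintype.card I * η + η := by
    simp only [M]; ring
  linarith

end Pool.Agent.H756
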