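import Pool.Agent.H756.Stage

/-!
# The mixed case: convergence
-/

namespace Pool.Agent.H756

open Filter Topology TopologicalSpace

universe u w

lemma finrank_smulRight {X E : Type*} [NormedAddCommGroup X] [NormedSpace ℝ X]
    [NormedAddCommGroup E] [NormedSpace ℝ E] (f : X →L[ℝ] ℝ) (e : E) :
    FiniteDimensional ℝ (LinearMap.range (f.smulRight e).toLinearMap) := by
  refine Submodule.finiteDimensional_of_le (S₂ := Submodule.span ℝ {e}) ?_
  rintro _ ⟨x, rfl⟩
  exact Submodule.smul_mem _ _ (Submodule.mem_span_singleton_self e)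

lemma finrank_sum_smulRight {X E : Type*} [NormedAddCommGroup X] [NormedSpace ℝ X]
    [NormedAddCommGroup E] [NormedSpace ℝ E] {ι : Type*} (t : Finset ι) (f : ι → X →L[ℝ] ℝ)
    (e : ι → E) :
    FiniteDimensional ℝ (LinearMap.range (∑ j ∈ t, (f j).smulRight (e j)).toLinearMap) := by
  have h := finrank_sum t (fun j => (f j).smulRight (e j)) (fun j _ => finrank_smulRight _ _)
    (fun _ => (1 : ℝ))
  have e0 : (∑ j ∈ t, (1 : ℝ) • (f j).smulRight (e j)) = ∑ j ∈ t, (f j).smulRight (e j) := by
    ext x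
    rw [_root_.sum_apply, _root_.sum_apply]
    refine Finset.sum_congr rfl fun j _ => ?_
    exact one_smul ℝ ((f j).smulRight (e j) x)
  rwa [e0] at h

lemma finrank_add {X E : Type*} [NormedAddCommGroup X] [NormedSpace ℝ X]
    [NormedAddCommGroup E] [NormedSpace ℝ E] {R S : X →L[ℝ] E}
    (hR : FiniteDimensional ℝ (LinearMap.range R.toLinearMap))
    (hS : FiniteDimensional ℝ (LinearMap.range S.toLinearMap)) :
    FiniteDimensional ℝ (LinearMap.range (R + S).toLinearMap) := by
  refine Submodule.finiteDimensional_of_le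
    (S₂ := LinearMap.range R.toLinearMap ⊔ LinearMap.range S.toLinearMap) ?_
  rintro _ ⟨x, rfl⟩
  exact Submodule.add_mem_sup ⟨x, rfl⟩ ⟨x, rfl⟩

section core

variable {X : Type u} [NormedAddCommGroup X] [NormedSpace ℝ X]
variable {V : Type w} [NormedAddCommGroup V] [NormedSpace ℝ V]
variable {W : Type*} [NormedAddCommGroup W] [NormedSpace ℝ W]
variable {W' : Type*} [NormedAddCommGroup W'] [NormedSpace ℝ W']

theorem local_of_mixed_data {A : X →L[ℝ] V} {U : X →L[ℝ] X} {xd : ℕ → X}
    (hx1 : ∀ k, ‖xd k‖ ≤ 1) (hx : ∀ y : X, ‖y‖ ≤ 1 → ∀ ε > 0, ∃ k, ‖y - xd k‖ < ε)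
    {s : ℕ → X →L[ℝ] ℝ} {δ M : ℝ} (hδ : 0 < δ) (hδ1 : δ ≤ 1) (hM : 1 ≤ M) (hAM : ‖A‖ ≤ M)
    (hUM : ‖U‖ ≤ M) (hs1 : ∀ k, ‖s k‖ ≤ M)
    (hs : ∀ b : DualBall X, ∃ k, Dom A M δ (b.fn.comp U - s k))
    {D : Set (X →L[ℝ] ℝ)} {D' : Set (V →L[ℝ] ℝ)} (hD : Captures2.{u, u, w} A s D D')
    (J : W →ₗᵢ[ℝ] (X →L[ℝ] ℝ)) (hDJ : ∀ z ∈ D, ∃ w, J w = z)
    (J' : W' →ₗᵢ[ℝ] (V →L[ℝ] ℝ)) (hDJ' : ∀ z ∈ D', ∃ w, J' w = z)
    (aW : W' →L[ℝ] W) (haW : ∀ w, J (aW w) = (J' w).comp A) (m : ℕ → W) (hm : ∀ i, J (m i) = s i)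
    (y : ℕ → W →L[ℝ] ℝ) (hy1 : ∀ j, ‖y j‖ ≤ 1)
    (hy : ∀ h : W →L[ℝ] ℝ, ‖h‖ ≤ 1 → ∀ ε > 0, ∃ j, ‖(h - y j).comp aW‖ < ε)
    (hQ : ∀ ω ∈ Submodule.span ℝ (Set.range m), Dom A (3 * M) (6 * δ) (J ω) →
      ∃ v : W', ‖v‖ ≤ 3 * M ∧ ‖ω - aW v‖ ≤ 8 * δ)
    (F : Finset X) (hF : ∀ x ∈ F, ‖x‖ ≤ 1) (hUF : ∀ x ∈ F, ‖U x - x‖ ≤ δ) {δ₀ : ℝ}
    (h42 : 42 * δ ≤ δ₀) (hcard : F.card * ((8 + 2 * M) * δ) ≤ δ₀) :
    ∃ R : X →L[ℝ] C(DualBall X, ℝ), FiniteDimensional ℝ (LinearMap.range R.toLinearMap) ∧
      ‖R‖ ≤ M + M * M ∧ (∀ x ∈ F, ‖R x - evC X x‖ ≤ 2 * δ₀) ∧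
      ∀ x, ∃ x', ‖R x - evC X x'‖ ≤ 3 * δ₀ * ‖x‖ := by
  classical
  have hM0 : 0 ≤ M := by linarith
  have hδ₀ : 0 < δ₀ := by linarith
  have haWM : ∀ w, ‖aW w‖ ≤ M * ‖w‖ := by
    intro w
    rw [← J.norm_map, haW]
    refine (ContinuousLinearMap.opNorm_comp_le _ _).trans ?_
    rw [J'.norm_map, mul_comm]
    gcongr
  -- the remainders
  let t : ℕ → DualBall X → X →L[ℝ] ℝ := fun k b => b.fn.comp U - sel A M U xd s δ k b
  have htn : ∀ k b, ‖t k b‖ ≤ 2 * M := by
    intro k b
    refine (norm_sub_le _ _).trans ?_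
    have h1 : ‖b.fn.comp U‖ ≤ 1 * M := (ContinuousLinearMap.opNorm_comp_le _ _).trans
      (mul_le_mul b.fn_norm_le hUM (norm_nonneg _) zero_le_one)
    have h2 := sel_norm_le (A := A) (M := M) (U := U) (x := xd) (δ := δ) hM0 hs1 k b
    linarith
  have htapp : ∀ k b x, t k b x = b.fn (U x) - RS A M U xd s δ k x b := by
    intro k b x
    rw [RS_apply]; rfl
  have htcont : ∀ k x, Continuous fun b => t k b x := by
    intro k x
    simp only [htapp]
    exact (DualBall.continuous_fn (U x)).sub (RS A M U xd s δ k x).continuous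
  -- the functionals
  let ev : X → W →L[ℝ] ℝ := fun x => J.toContinuousLinearMap.flip x
  have hev : ∀ x w, ev x w = J w x := fun _ _ => rfl
  have hevn : ∀ x, ‖ev x‖ ≤ ‖x‖ := by
    intro x
    refine ContinuousLinearMap.opNorm_le_bound _ (norm_nonneg _) fun w => ?_
    rw [hev]
    refine ((J w).le_opNorm x).trans_eq ?_
    rw [J.norm_map, mul_comm]
  let hf : ∀ k : ℕ, ({f // f ∈ F} ⊕ Fin k) → W →L[ℝ] ℝ := fun k =>
    Sum.elim (fun f => ev f.1) (fun j => y j)
  have hstage : ∀ k : ℕ, ∃ (x : ({f // f ∈ F} ⊕ Fin k) → X) (L : Type u) (_ : Fintype L)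
      (θ : L → C(DualBall X, ℝ)) (z : L → W'),
      (∀ f, ‖x (Sum.inl f) - f.1‖ ≤ δ) ∧ (∀ j, ‖x j‖ ≤ 2) ∧
      (∀ j : Fin k, ∀ i < k, |s i (x (Sum.inr j)) - y j (m i)| ≤ δ) ∧
      (∀ l b, 0 ≤ θ l b) ∧ (∀ b, ∑ l, θ l b = 1) ∧ (∀ l, ‖z l‖ ≤ M) ∧
      ∀ b, Dom A M (2 * δ) (t k b) → ∀ j,
        |∑ l, θ l b * hf k j (aW (z l)) - t k b (x j)| ≤ 7 * δ := by
    intro k
    obtain ⟨x, hx1', hx2', hx3', hx4'⟩ := exists_stage2 hD J hDJ J' hDJ' aW haW m hm (hf k)
      (by
        rintro (f | j)
        · exact (hevn f.1).trans (hF f.1 f.2)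
        · exact hy1 j)
      (Sum.elim (fun f => f.1) (fun _ => 0)) (Sum.elim (fun _ => 0) (fun _ => 1))
      (by rintro (f | j); exacts [le_rfl, zero_le_one])
      (by
        rintro (f | j)
        · show ‖f.1‖ + 0 ≤ 1
          rw [add_zero]; exact hF f.1 f.2
        · show ‖(0 : X)‖ + 1 ≤ 1
          rw [norm_zero, zero_add])
      (by
        rintro (f | j) w
        · show |J w f.1 - J w f.1| ≤ 0 * ‖w‖
          rw [sub_self, abs_zero, zero_mul]
        · show |y j w - J w 0| ≤ 1 * ‖w‖
          rw [map_zero, sub_zero]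
          exact ((y j).le_opNorm w).trans
            (mul_le_mul_of_nonneg_right (hy1 j) (norm_nonneg w))) k hδ hδ1 hM hAM
    let Θ : C(DualBall X, ({f // f ∈ F} ⊕ Fin k) → ℝ) :=
      ⟨fun b j => t k b (x j), continuous_pi fun j => htcont k (x j)⟩
    obtain ⟨L, iL, θ, z, hθ0, hθ1, hz, hθz⟩ := exists_continuous_selection Θ
      (B := W') (fun z j => hf k j (aW z)) hM0 (e := 6 * δ) hδ {b | Dom A M (2 * δ) (t k b)}
      (fun b hb => by
        obtain ⟨z, hz1, hz2⟩ := hx4' (t k b) (2 * δ) (by positivity) hb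
        exact ⟨z, hz1, fun j => (hz2 j).trans (by linarith)⟩)
    refine ⟨x, L, iL, θ, z, fun f => ?_, hx2', fun j i hi => hx3' (Sum.inr j) i hi, hθ0, hθ1, hz,
      fun b hb j => (hθz b hb j).trans (by linarith)⟩
    have := hx1' (Sum.inl f)
    simpa using this
  choose x L iL θ z hxF hx2 hxs hθ0 hθ1 hz hθz using hstage
  have hθn : ∀ k (c : L k → ℝ) (C : ℝ), 0 ≤ C → (∀ l, |c l| ≤ C) → ∀ b,
      |∑ l, θ k l b * c l| ≤ C := by
    intro k c C hC hc b
    calc |∑ l, θ k l b * c l| ≤ ∑ l, |θ k l b * c l| := Finset.abs_sum_le_sum_abs _ _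
      _ ≤ ∑ l, θ k l b * C := by
        refine Finset.sum_le_sum fun l _ => ?_
        rw [abs_mul, abs_of_nonneg (hθ0 k l b)]
        exact mul_le_mul_of_nonneg_left (hc l) (hθ0 k l b)
      _ = C := by rw [← Finset.sum_mul, hθ1, one_mul]
  -- the operators
  let RZ : ℕ → X →L[ℝ] C(DualBall X, ℝ) := fun k =>
    ∑ l, ((J' (z k l)).comp A).smulRight (θ k l)
  have hRZ : ∀ k x b, RZ k x b = ∑ l, θ k l b * J (aW (z k l)) x := by
    intro k x b
    simp only [RZ]
    rw [_root_.sum_apply, ContinuousMap.sum_apply]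
    refine Finset.sum_congr rfl fun l _ => ?_
    rw [haW]
    show (J' (z k l)) (A x) * θ k l b = θ k l b * (J' (z k l)) (A x)
    ring
  let R : ℕ → X →L[ℝ] C(DualBall X, ℝ) := fun k => RS A M U xd s δ k + RZ k
  have hRapp : ∀ k x b, R k x b = RS A M U xd s δ k x b + ∑ l, θ k l b * J (aW (z k l)) x := by
    intro k x b
    rw [← hRZ]; rfl
  have hJaz : ∀ k l x, |J (aW (z k l)) x| ≤ M * M * ‖x‖ := by
    intro k l x
    refine ((J (aW (z k l))).le_opNorm x).trans ?_
    rw [J.norm_map]
    have h1 : ‖aW (z k l)‖ ≤ M * M := (haWM _).trans (by gcongr; exact hz k l)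
    gcongr
  have hRfin : ∀ k, FiniteDimensional ℝ (LinearMap.range (R k).toLinearMap) := fun k =>
    finrank_add (finrank_sum_smulRight _ _ _) (finrank_sum_smulRight _ _ _)
  have hRn : ∀ k, ‖R k‖ ≤ M + M * M := by
    intro k
    refine ContinuousLinearMap.opNorm_le_bound _ (by positivity) fun x => ?_
    refine (ContinuousMap.norm_le _ (by positivity)).mpr fun b => ?_
    rw [hRapp, Real.norm_eq_abs]
    refine (abs_add_le _ _).trans ?_
    have h1 : |RS A M U xd s δ k x b| ≤ M * ‖x‖ := by
      rw [RS_apply]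
      exact sel_apply_le A M U xd s δ hM0 hs1 k b x
    have h2 := hθn k (fun l => J (aW (z k l)) x) (M * M * ‖x‖) (by positivity)
      (fun l => hJaz k l x) b
    calc _ ≤ M * ‖x‖ + M * M * ‖x‖ := add_le_add h1 h2
      _ = (M + M * M) * ‖x‖ := by ring
  -- the adjoints
  let ωk : ℕ → AnnBall (evC X) → W := fun k μ =>
    ∑ i ∈ Finset.range k, μ.1.fn (ww A M U xd s δ i k) • m i
  let vk : ℕ → AnnBall (evC X) → W' := fun k μ => ∑ l, μ.1.fn (θ k l) • z k l
  have hω : ∀ k μ, J (ωk k μ) = (μ.1.fn).comp (RS A M U xd s δ k) := by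
    intro k μ
    ext x'
    simp only [ωk, map_sum, map_smul, hm]
    rw [_root_.sum_apply]
    unfold RS
    rw [ContinuousLinearMap.comp_apply, _root_.sum_apply, map_sum]
    refine Finset.sum_congr rfl fun i _ => ?_
    show μ.1.fn (ww A M U xd s δ i k) * s i x' = μ.1.fn (s i x' • ww A M U xd s δ i k)
    rw [map_smul, smul_eq_mul, mul_comm]
  have hv : ∀ k μ, J (aW (vk k μ)) = (μ.1.fn).comp (RZ k) := by
    intro k μ
    ext x'
    simp only [vk, map_sum, map_smul]
    rw [_root_.sum_apply]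
    simp only [RZ]
    rw [ContinuousLinearMap.comp_apply, _root_.sum_apply, map_sum]
    refine Finset.sum_congr rfl fun i _ => ?_
    rw [haW]
    show μ.1.fn (θ k i) * (J' (z k i)) (A x') = μ.1.fn ((J' (z k i)) (A x') • θ k i)
    rw [map_smul, smul_eq_mul, mul_comm]
  have hvn : ∀ k μ, ‖vk k μ‖ ≤ M := by
    intro k μ
    obtain ⟨g, hg1, hg2⟩ := exists_dual_vector'' ℝ (vk k μ)
    have h1 : g (vk k μ) = μ.1.fn (∑ l, g (z k l) • θ k l) := by
      simp only [vk, map_sum, map_smul, smul_eq_mul]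
      exact Finset.sum_congr rfl fun l _ => mul_comm _ _
    have h2 : g (vk k μ) = ‖vk k μ‖ := hg2
    rw [← h2, h1]
    refine (le_abs_self _).trans ((μ.1.abs_le _).trans ?_)
    refine (ContinuousMap.norm_le _ hM0).mpr fun b => ?_
    rw [ContinuousMap.sum_apply, Real.norm_eq_abs]
    have h3 := hθn k (fun l => g (z k l)) M hM0 (fun l => by
      have h4 := g.le_opNorm (z k l)
      rw [Real.norm_eq_abs] at h4
      have h5 : ‖g‖ * ‖z k l‖ ≤ 1 * M := mul_le_mul hg1 (hz k l) (norm_nonneg _) zero_le_one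
      linarith) b
    refine le_trans (le_of_eq ?_) h3
    congr 1
    refine Finset.sum_congr rfl fun l _ => ?_
    show g (z k l) * θ k l b = θ k l b * g (z k l)
    ring
  have hμR : ∀ k μ, J (ωk k μ + aW (vk k μ)) = (μ.1.fn).comp (R k) := by
    intro k μ
    rw [map_add, hω, hv, ← ContinuousLinearMap.comp_add]
  -- the test functions
  have hcont1 : ∀ k, Continuous fun p : DualBall W × AnnBall (evC X) =>
      |p.1.fn (ωk k p.2 + aW (vk k p.2))| := by
    intro k
    have e : ∀ p : DualBall W × AnnBall (evC X), p.1.fn (ωk k p.2 + aW (vk k p.2)) =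
        ∑ i ∈ Finset.range k, p.2.1.fn (ww A M U xd s δ i k) * p.1.fn (m i) +
          ∑ l, p.2.1.fn (θ k l) * p.1.fn (aW (z k l)) := by
      intro p
      simp only [ωk, vk, map_add, map_sum, map_smul, smul_eq_mul]
    simp only [e]
    refine Continuous.abs (Continuous.add ?_ ?_)
    · refine continuous_finsetSum _ fun i _ => ?_
      exact ((AnnBall.continuous_fn (i := evC X) _).comp continuous_snd).mul
        ((DualBall.continuous_fn _).comp continuous_fst)
    · refine continuous_finsetSum _ fun i _ => ?_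
      exact ((AnnBall.continuous_fn (i := evC X) _).comp continuous_snd).mul
        ((DualBall.continuous_fn _).comp continuous_fst)
  have hcont2 : ∀ k, Continuous fun b : DualBall X => ∑ f ∈ F, |R k f b - evC X f b| := by
    intro k
    refine continuous_finsetSum _ fun f _ => ?_
    fun_prop
  let g : ℕ → C((DualBall W × AnnBall (evC X)) ⊕ DualBall X, ℝ) := fun k =>
    ⟨Sum.elim _ _, (hcont1 k).sumElim (hcont2 k)⟩
  have hginl : ∀ k p, g k (Sum.inl p) = |p.1.fn (ωk k p.2 + aW (vk k p.2))| := fun _ _ => rfl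
  have hginr : ∀ k b, g k (Sum.inr b) = ∑ f ∈ F, |R k f b - evC X f b| := fun _ _ => rfl
  have hnear := fun b => sel_near (A := A) (M := M) (U := U) (x := xd) (s := s) (δ := δ) hδ hx1
    hx hs b
  obtain ⟨R', h1, h2, h3, h4⟩ := local_of_compact (evC X) R hRfin hRn g
    (M + M * M + F.card * (M + M * M + 1)) (by
      intro k q
      rcases q with p | b
      · rw [hginl, abs_abs]
        refine (p.1.abs_le _).trans ?_
        rw [← J.norm_map, hμR]
        refine (ContinuousLinearMap.opNorm_comp_le _ _).trans ?_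
        have h1 : ‖p.2.1.fn‖ * ‖R k‖ ≤ 1 * (M + M * M) :=
          mul_le_mul p.2.1.fn_norm_le (hRn k) (norm_nonneg (R k)) zero_le_one
        have h2 : 0 ≤ (F.card : ℝ) * (M + M * M + 1) := by positivity
        linarith
      · rw [hginr, abs_of_nonneg (Finset.sum_nonneg fun _ _ => abs_nonneg _)]
        have h1 : ∑ f ∈ F, |R k f b - evC X f b| ≤ ∑ f ∈ F, (M + M * M + 1) := by
          refine Finset.sum_le_sum fun f hf' => ?_
          have h2 : |R k f b| ≤ M + M * M := by
            have h5 := (R k f).norm_coe_le_norm b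
            rw [Real.norm_eq_abs] at h5
            have h6 := (R k).le_opNorm f
            have h7 : ‖R k‖ * ‖f‖ ≤ (M + M * M) * 1 :=
              mul_le_mul (hRn k) (hF f hf') (norm_nonneg f) (by positivity)
            linarith
          have h3 : |evC X f b| ≤ 1 := (b.abs_le f).trans (hF f hf')
          have h4 := abs_sub (R k f b) (evC X f b)
          linarith
        rw [Finset.sum_const, nsmul_eq_mul] at h1
        have h2 : 0 ≤ M + M * M := by positivity
        linarith) hδ₀ (by
      intro q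
      rcases q with ⟨h, μ⟩ | b
      · -- the adjoints
        obtain ⟨j, hj⟩ := hy h.fn h.fn_norm_le (δ / M) (by positivity)
        let fk : ℕ → C(DualBall X, ℝ) := fun k =>
          if hk : j < k then
            ∑ l, y j (aW (z k l)) • θ k l -
              (evC X (U (x k (Sum.inr ⟨j, hk⟩))) - RS A M U xd s δ k (x k (Sum.inr ⟨j, hk⟩)))
          else 0
        have hfk : ∀ k (hk : j < k), fk k = ∑ l, y j (aW (z k l)) • θ k l -
              (evC X (U (x k (Sum.inr ⟨j, hk⟩))) - RS A M U xd s δ k (x k (Sum.inr ⟨j, hk⟩))) :=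
          fun k hk => dif_pos hk
        have hfk' : ∀ k (hk : j < k) b, fk k b = ∑ l, θ k l b * y j (aW (z k l)) -
            t k b (x k (Sum.inr ⟨j, hk⟩)) := by
          intro k hk b
          rw [hfk k hk, htapp, ContinuousMap.sub_apply, ContinuousMap.sum_apply,
            ContinuousMap.sub_apply]
          congr 1
          refine Finset.sum_congr rfl fun l _ => ?_
          show y j (aW (z k l)) * θ k l b = θ k l b * y j (aW (z k l))
          ring
        have hyaz : ∀ k l, |y j (aW (z k l))| ≤ M * M := by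
          intro k l
          refine ((y j).le_opNorm _).trans ?_
          have h1 : ‖aW (z k l)‖ ≤ M * M := (haWM _).trans (by gcongr; exact hz k l)
          calc ‖y j‖ * ‖aW (z k l)‖ ≤ 1 * (M * M) :=
                mul_le_mul (hy1 j) h1 (norm_nonneg _) zero_le_one
            _ = M * M := one_mul _
        have hw := weak_small μ.1.fn μ.1.fn_norm_le fk (M * M + 4 * M) (fun k b => by
          by_cases hk : j < k
          · rw [hfk' k hk]
            refine (abs_sub _ _).trans (add_le_add (hθn k _ _ (by positivity)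
              (fun l => hyaz k l) b) ?_)
            refine ((t k b).le_opNorm _).trans ?_
            calc ‖t k b‖ * ‖x k (Sum.inr ⟨j, hk⟩)‖ ≤ (2 * M) * 2 :=
                  mul_le_mul (htn k b) (hx2 k _) (norm_nonneg _) (by positivity)
              _ = 4 * M := by ring
          · have : fk k = 0 := dif_neg hk
            rw [this, ContinuousMap.zero_apply, abs_zero]
            positivity) (δ := 7 * δ) (by positivity) (fun b => by
          filter_upwards [hnear b, eventually_gt_atTop j] with k hk1 hk2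
          rw [hfk' k hk2]
          exact hθz k b hk1 (Sum.inr ⟨j, hk2⟩))
        have hdom := adjoint_dom (A := A) (M := M) (U := U) (x := xd) (s := s) (δ := δ) hM0 hδ hx1
          hx hM0 hUM hs1 hs μ
        filter_upwards [hw, hdom, eventually_gt_atTop j] with k hk1 hk2 hk3
        rw [hginl]
        have hk2' : Dom A (3 * M) (6 * δ) (J (ωk k μ)) := by rw [hω]; exact hk2
        obtain ⟨v, hv1, hv2⟩ := hQ (ωk k μ) (Submodule.sum_mem _ fun i _ =>
          Submodule.smul_mem _ _ (Submodule.subset_span ⟨i, rfl⟩)) hk2'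
        -- the first term
        let xx := x k (Sum.inr ⟨j, hk3⟩)
        let ek : C(DualBall X, ℝ) :=
          ∑ i ∈ Finset.range k, (y j (m i) - s i xx) • ww A M U xd s δ i k
        have hek : ‖ek‖ ≤ δ := by
          refine (ContinuousMap.norm_le _ hδ.le).mpr fun b => ?_
          simp only [ek]
          rw [ContinuousMap.sum_apply, Real.norm_eq_abs]
          calc |∑ i ∈ Finset.range k, ((y j (m i) - s i xx) • ww A M U xd s δ i k) b|
              ≤ ∑ i ∈ Finset.range k, |((y j (m i) - s i xx) • ww A M U xd s δ i k) b| :=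
                Finset.abs_sum_le_sum_abs _ _
            _ ≤ ∑ i ∈ Finset.range k, δ * ww A M U xd s δ i k b := by
              refine Finset.sum_le_sum fun i hi => ?_
              show |(y j (m i) - s i xx) * ww A M U xd s δ i k b| ≤ δ * ww A M U xd s δ i k b
              rw [abs_mul, abs_of_nonneg (ww_nonneg A M U xd s δ i k b), abs_sub_comm]
              exact mul_le_mul_of_nonneg_right (hxs k ⟨j, hk3⟩ i (Finset.mem_range.mp hi))
                (ww_nonneg A M U xd s δ i k b)
            _ ≤ δ * 1 := by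
              rw [← Finset.mul_sum]
              exact mul_le_mul_of_nonneg_left (sum_ww_le A M U xd s δ k k b) hδ.le
            _ = δ := mul_one δ
        have hy0 : y j (ωk k μ + aW (vk k μ)) = μ.1.fn ek + μ.1.fn (fk k) := by
          have e1 : y j (ωk k μ + aW (vk k μ)) =
              μ.1.fn (∑ i ∈ Finset.range k, y j (m i) • ww A M U xd s δ i k) +
                μ.1.fn (∑ l, y j (aW (z k l)) • θ k l) := by
            simp only [ωk, vk, map_add, map_sum, map_smul, smul_eq_mul]
            congr 1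
            · exact Finset.sum_congr rfl fun i _ => mul_comm _ _
            · exact Finset.sum_congr rfl fun l _ => mul_comm _ _
          have e2 : ek = ∑ i ∈ Finset.range k, y j (m i) • ww A M U xd s δ i k -
              RS A M U xd s δ k xx := by
            ext b
            simp only [ek]
            unfold RS
            rw [ContinuousMap.sub_apply, ContinuousMap.sum_apply, ContinuousMap.sum_apply,
              _root_.sum_apply, ContinuousMap.sum_apply, ← Finset.sum_sub_distrib]
            refine Finset.sum_congr rfl fun i _ => ?_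
            show (y j (m i) - s i xx) * ww A M U xd s δ i k b =
              y j (m i) * ww A M U xd s δ i k b - s i xx * ww A M U xd s δ i k b
            ring
          have e3 : μ.1.fn (evC X (U xx)) = 0 := μ.2 _
          rw [e1, e2, hfk k hk3, map_sub, map_sub, map_sub, e3]
          ring
        have hT1 : |y j (ωk k μ + aW (vk k μ))| ≤ 22 * δ := by
          rw [hy0]
          refine (abs_add_le _ _).trans ?_
          have h5 := (μ.1.abs_le ek).trans hek
          linarith
        have hgn : ‖h.fn - y j‖ ≤ 2 := by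
          refine (norm_sub_le _ _).trans ?_
          have h5 := h.fn_norm_le
          have h6 := hy1 j
          linarith
        have hT2 : |(h.fn - y j) (ωk k μ)| ≤ 19 * δ := by
          have e1 : (h.fn - y j) (ωk k μ) = (h.fn - y j) (ωk k μ - aW v) +
              ((h.fn - y j).comp aW) v := by
            rw [ContinuousLinearMap.comp_apply, ← map_add, sub_add_cancel]
          rw [e1]
          have h5 : |(h.fn - y j) (ωk k μ - aW v)| ≤ 2 * (8 * δ) :=
            ((h.fn - y j).le_opNorm _).trans (mul_le_mul hgn hv2 (norm_nonneg _) (by norm_num))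
          have h6 : |((h.fn - y j).comp aW) v| ≤ (δ / M) * (3 * M) :=
            (((h.fn - y j).comp aW).le_opNorm _).trans
              (mul_le_mul hj.le hv1 (norm_nonneg _) (by positivity))
          have h7 : (δ / M) * (3 * M) = 3 * δ := by field_simp
          refine (abs_add_le _ _).trans ?_
          linarith
        have hT3 : |(h.fn - y j) (aW (vk k μ))| ≤ δ := by
          have h6 : |((h.fn - y j).comp aW) (vk k μ)| ≤ (δ / M) * M :=
            (((h.fn - y j).comp aW).le_opNorm _).trans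
              (mul_le_mul hj.le (hvn k μ) (norm_nonneg _) (by positivity))
          have h7 : (δ / M) * M = δ := by field_simp
          exact h6.trans h7.le
        have e4 : h.fn (ωk k μ + aW (vk k μ)) = y j (ωk k μ + aW (vk k μ)) +
            (h.fn - y j) (ωk k μ) + (h.fn - y j) (aW (vk k μ)) := by
          rw [add_assoc, ← map_add, _root_.sub_apply]; ring
        show |h.fn (ωk k μ + aW (vk k μ))| ≤ δ₀
        rw [e4]
        have h8 := abs_add_le (y j (ωk k μ + aW (vk k μ)) + (h.fn - y j) (ωk k μ))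
          ((h.fn - y j) (aW (vk k μ)))
        have h9 := abs_add_le (y j (ωk k μ + aW (vk k μ))) ((h.fn - y j) (ωk k μ))
        linarith
      · filter_upwards [hnear b] with k hk
        rw [hginr]
        refine le_trans ?_ hcard
        calc ∑ f ∈ F, |R k f b - evC X f b| ≤ ∑ f ∈ F, (8 + 2 * M) * δ := by
              refine Finset.sum_le_sum fun f hf' => ?_
              let xf := x k (Sum.inl ⟨f, hf'⟩)
              have e1 : R k f b - evC X f b =
                  (∑ l, θ k l b * hf k (Sum.inl ⟨f, hf'⟩) (aW (z k l)) - t k b xf) +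
                    t k b (xf - f) + b.fn (U f - f) := by
                rw [hRapp, evC_apply, map_sub (t k b), map_sub b.fn, htapp k b f]
                show _ = (∑ l, θ k l b * J (aW (z k l)) f - t k b xf) + _ + _
                ring
              rw [e1]
              have h5 := hθz k b hk (Sum.inl ⟨f, hf'⟩)
              have h6 : |t k b (xf - f)| ≤ (2 * M) * δ :=
                ((t k b).le_opNorm _).trans (mul_le_mul (htn k b) (hxF k ⟨f, hf'⟩)
                  (norm_nonneg _) (by positivity))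
              have h7 : |b.fn (U f - f)| ≤ δ := (b.abs_le _).trans (hUF f hf')
              have h8 := abs_add_le ((∑ l, θ k l b * hf k (Sum.inl ⟨f, hf'⟩) (aW (z k l)) -
                t k b xf) + t k b (xf - f)) (b.fn (U f - f))
              have h9 := abs_add_le (∑ l, θ k l b * hf k (Sum.inl ⟨f, hf'⟩) (aW (z k l)) -
                t k b xf) (t k b (xf - f))
              linarith
          _ = F.card * ((8 + 2 * M) * δ) := by rw [Finset.sum_const, nsmul_eq_mul]) F 0
    (fun x' hx' μ => ⟨Sum.inl (DualBall.mk' (ev x') ((hevn x').trans hx'), μ), fun k => by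
      rw [hginl]
      show |μ.1.fn (R k x')| ≤ |ev x' (ωk k μ + aW (vk k μ))|
      rw [hev, hμR]
      exact le_rfl⟩)
    (fun ι s' c n _ hc0 hc1 hle f hf' => by
      refine (ContinuousMap.norm_le _ (by positivity)).mpr fun b => ?_
      have h1 := hle (Sum.inr b)
      have e : (∑ j ∈ s', c j • R (n j) f - evC X f) b =
          ∑ j ∈ s', c j * (R (n j) f b - evC X f b) := by
        rw [ContinuousMap.sub_apply, ContinuousMap.sum_apply]
        simp only [mul_sub, Finset.sum_sub_distrib, ← Finset.sum_mul, hc1, one_mul]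
        rfl
      rw [e, Real.norm_eq_abs]
      refine (Finset.abs_sum_le_sum_abs _ _).trans (le_trans ?_ h1)
      refine Finset.sum_le_sum fun j hj => ?_
      rw [abs_mul, abs_of_nonneg (hc0 j hj)]
      refine mul_le_mul_of_nonneg_left ?_ (hc0 j hj)
      rw [hginr]
      exact Finset.single_le_sum (f := fun f => |R (n j) f b - evC X f b|)
        (fun _ _ => abs_nonneg _) hf')
  exact ⟨R', h1, h2, h3, h4⟩

end core

end Pool.Agent.H756
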