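import Pool.Agent.H756.MixCore
import Pool.Agent.H756.Local

/-!
# The embedding theorem in the mixed case
-/

namespace Pool.Agent.H756

open Filter Topology TopologicalSpace

universe u w

section

variable {X : Type u} [NormedAddCommGroup X] [NormedSpace ℝ X]
variable {V : Type w} [NormedAddCommGroup V] [NormedSpace ℝ V]

/-- composition with an operator -/
noncomputable def preL (A : X →L[ℝ] V) : (V →L[ℝ] ℝ) →L[ℝ] (X →L[ℝ] ℝ) :=
  (ContinuousLinearMap.compL ℝ X V ℝ).flip A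

lemma preL_apply (A : X →L[ℝ] V) (g : V →L[ℝ] ℝ) : preL A g = g.comp A := rfl

/-- a good sequence of functionals -/
theorem exists_good_seq {W W' : Type*} [NormedAddCommGroup W] [NormedSpace ℝ W]
    [NormedAddCommGroup W'] [NormedSpace ℝ W'] [SeparableSpace (W' →L[ℝ] ℝ)] (aW : W' →L[ℝ] W) :
    ∃ y : ℕ → W →L[ℝ] ℝ, (∀ j, ‖y j‖ ≤ 1) ∧
      ∀ h : W →L[ℝ] ℝ, ‖h‖ ≤ 1 → ∀ ε > 0, ∃ j, ‖(h - y j).comp aW‖ < ε := by
  let S : Set (W' →L[ℝ] ℝ) := (fun h : W →L[ℝ] ℝ => h.comp aW) '' Metric.closedBall 0 1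
  have hS : IsSeparable S := (IsSeparable.of_separableSpace Set.univ).mono (Set.subset_univ S)
  have : SeparableSpace S := hS.separableSpace
  have hne : Nonempty S := ⟨⟨_, ⟨0, by simp, rfl⟩⟩⟩
  have hpre : ∀ k, ∃ y : W →L[ℝ] ℝ, ‖y‖ ≤ 1 ∧ y.comp aW = (denseSeq S k : W' →L[ℝ] ℝ) := by
    intro k
    obtain ⟨f, hf, hf2⟩ := (denseSeq S k).2
    exact ⟨f, mem_closedBall_zero_iff.mp hf, hf2⟩
  choose y hy1 hy2 using hpre
  refine ⟨y, hy1, fun h hh ε hε => ?_⟩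
  obtain ⟨k, hk⟩ := (denseRange_denseSeq S).exists_dist_lt
    ⟨h.comp aW, ⟨h, mem_closedBall_zero_iff.mpr hh, rfl⟩⟩ hε
  refine ⟨k, ?_⟩
  rw [Subtype.dist_eq, dist_eq_norm] at hk
  rw [ContinuousLinearMap.sub_comp, hy2]
  exact hk

/-- the restriction of the adjoint to a subspace -/
theorem exists_adjoint_map {W W' : Type*} [NormedAddCommGroup W] [NormedSpace ℝ W]
    [NormedAddCommGroup W'] [NormedSpace ℝ W'] (A : X →L[ℝ] V)
    (J : W →ₗᵢ[ℝ] (X →L[ℝ] ℝ)) (J' : W' →ₗᵢ[ℝ] (V →L[ℝ] ℝ))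
    (h : ∀ w', ∃ w, J w = (J' w').comp A) :
    ∃ aW : W' →L[ℝ] W, ∀ w, J (aW w) = (J' w).comp A := by
  choose a ha using h
  let a1 : W' →ₗ[ℝ] W :=
    { toFun := a
      map_add' := fun x y => J.injective (by
        rw [map_add, ha, ha, ha, map_add, ContinuousLinearMap.add_comp])
      map_smul' := fun c x => J.injective (by
        rw [map_smul, ha, ha, map_smul, RingHom.id_apply]
        rfl) }
  refine ⟨a1.mkContinuous ‖A‖ fun w => ?_, fun w => ha w⟩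
  have h1 : ‖J (a w)‖ ≤ ‖A‖ * ‖w‖ := by
    rw [ha]
    refine (ContinuousLinearMap.opNorm_comp_le _ _).trans ?_
    rw [J'.norm_map, mul_comm]
  rw [J.norm_map] at h1
  exact h1

/-- packaging of a closed separable subspace -/
theorem exists_package {E : Type w} [NormedAddCommGroup E] [NormedSpace ℝ E] [CompleteSpace E]
    (S : Set E) (hS : IsSeparable S) :
    ∃ (W : Type w) (_ : NormedAddCommGroup W) (_ : NormedSpace ℝ W) (_ : CompleteSpace W)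
      (_ : SeparableSpace W) (J : W →ₗᵢ[ℝ] E), ∀ z ∈ S, ∃ w, J w = z := by
  let Z : Submodule ℝ E := (Submodule.span ℝ S).topologicalClosure
  have hSZ : ∀ z ∈ S, z ∈ Z := fun z hz =>
    Submodule.le_topologicalClosure _ (Submodule.subset_span hz)
  have hcomp : CompleteSpace Z := (Submodule.isClosed_topologicalClosure _).completeSpace_coe
  have hsep : IsSeparable (Z : Set E) := (hS.span (R := ℝ)).closure
  have hsep' : SeparableSpace Z := hsep.separableSpace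
  exact ⟨Z, inferInstance, inferInstance, hcomp, hsep', Z.subtypeₗᵢ,
    fun z hz => ⟨⟨z, hSZ z hz⟩, rfl⟩⟩

theorem local_of_mixed [SeparableSpace X]
    (hAsp : ∀ (W : Type w) [NormedAddCommGroup W] [NormedSpace ℝ W] [CompleteSpace W]
      [SeparableSpace W], (W →ₗᵢ[ℝ] (V →L[ℝ] ℝ)) → SeparableSpace (W →L[ℝ] ℝ))
    {A : X →L[ℝ] V} {U : X →L[ℝ] X}
    {s : ℕ → X →L[ℝ] ℝ} {δ M : ℝ} (hδ : 0 < δ) (hδ1 : δ ≤ 1) (hM : 1 ≤ M) (hAM : ‖A‖ ≤ M)
    (hUM : ‖U‖ ≤ M) (hs1 : ∀ k, ‖s k‖ ≤ M)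
    (hs : ∀ b : DualBall X, ∃ k, Dom A M δ (b.fn.comp U - s k))
    (F : Finset X) (hF : ∀ x ∈ F, ‖x‖ ≤ 1) (hUF : ∀ x ∈ F, ‖U x - x‖ ≤ δ) {δ₀ : ℝ}
    (h42 : 42 * δ ≤ δ₀) (hcard : F.card * ((8 + 2 * M) * δ) ≤ δ₀) :
    ∃ R : X →L[ℝ] C(DualBall X, ℝ), FiniteDimensional ℝ (LinearMap.range R.toLinearMap) ∧
      ‖R‖ ≤ M + M * M ∧ (∀ x ∈ F, ‖R x - evC X x‖ ≤ 2 * δ₀) ∧
      ∀ x, ∃ x', ‖R x - evC X x'‖ ≤ 3 * δ₀ * ‖x‖ := by
  classical
  obtain ⟨xd, hx1, hx⟩ := exists_dense_ball X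
  obtain ⟨D, D', hDc, hDc', hD⟩ := exists_captures2.{u, u, w} A s
  have hM0 : 0 ≤ M := by linarith
  -- the dominated functionals
  let Q : Set (X →L[ℝ] ℝ) := {ω | ω ∈ Submodule.span ℝ (Set.range s) ∧ Dom A (3 * M) (6 * δ) ω}
  have hQsep : IsSeparable Q :=
    ((Set.countable_range s).isSeparable.span (R := ℝ)).mono fun ω hω => hω.1
  obtain ⟨T, hTQ, hTc, hTd⟩ := hQsep.exists_countable_dense_subset
  have hfac : ∀ q : X →L[ℝ] ℝ, ∃ g : V →L[ℝ] ℝ, q ∈ T → ‖g‖ ≤ 3 * M ∧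
      ‖q - g.comp A‖ ≤ 6 * δ := by
    intro q
    by_cases hq : q ∈ T
    · obtain ⟨g, hg⟩ := (hTQ hq).2.exists_factor (by positivity) (by positivity)
      exact ⟨g, fun _ => hg⟩
    · exact ⟨0, fun h => absurd h hq⟩
  choose gq hgq using hfac
  -- the subspaces
  obtain ⟨W', iW1', iW2', iW3', iW4', J', hJ'⟩ :=
    exists_package (D' ∪ gq '' T) (hDc'.union (hTc.image gq)).isSeparable
  have hW'dual : SeparableSpace (W' →L[ℝ] ℝ) := hAsp W' J'
  have hJ'sep : IsSeparable (Set.range J') := isSeparable_range J'.continuous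
  have hcompsep : IsSeparable (preL A '' Set.range J') := hJ'sep.image (preL A).continuous
  obtain ⟨W, iW1, iW2, iW3, iW4, J, hJ⟩ :=
    exists_package (D ∪ Set.range s ∪ preL A '' Set.range J')
      ((hDc.isSeparable.union (Set.countable_range s).isSeparable).union hcompsep)
  obtain ⟨aW, haW⟩ := exists_adjoint_map A J J' (fun w' =>
    hJ _ (Or.inr ⟨J' w', ⟨w', rfl⟩, rfl⟩))
  obtain ⟨y, hy1, hy⟩ := exists_good_seq aW
  choose m hm using fun i => hJ (s i) (Or.inl (Or.inr ⟨i, rfl⟩))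
  refine local_of_mixed_data hx1 hx hδ hδ1 hM hAM hUM hs1 hs hD J
    (fun z hz => hJ z (Or.inl (Or.inl hz))) J' (fun z hz => hJ' z (Or.inl hz)) aW haW m hm y hy1 hy
    ?_ F hF hUF h42 hcard
  intro ω hω hdom
  have hωspan : J ω ∈ Submodule.span ℝ (Set.range s) := by
    have h1 : Submodule.map J.toLinearMap (Submodule.span ℝ (Set.range m)) ≤
          Submodule.span ℝ (Set.range s) := by
      rw [Submodule.map_span_le]
      rintro _ ⟨i, rfl⟩
      refine Submodule.subset_span ⟨i, (hm i).symm⟩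
    exact h1 (Submodule.mem_map_of_mem hω)
  have hωQ : J ω ∈ Q := ⟨hωspan, hdom⟩
  obtain ⟨q, hqT, hqd⟩ := Metric.mem_closure_iff.mp (hTd hωQ) δ hδ
  obtain ⟨hg1, hg2⟩ := hgq q hqT
  obtain ⟨v, hv⟩ := hJ' (gq q) (Or.inr ⟨q, hqT, rfl⟩)
  refine ⟨v, ?_, ?_⟩
  · rw [← J'.norm_map, hv]; exact hg1
  · rw [← J.norm_map, map_sub, haW, hv]
    have e : J ω - (gq q).comp A = (J ω - q) + (q - (gq q).comp A) := by
      abel
    rw [e]
    rw [dist_eq_norm] at hqd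
    refine (norm_add_le _ _).trans ?_
    linarith

/-- the mixed embedding theorem -/
theorem embeds_of_mixed [CompleteSpace X] [SeparableSpace X] {ξ : Ordinal.{0}}
    (hX : BourgainIndexLE X ξ)
    (hAsp : ∀ (W : Type w) [NormedAddCommGroup W] [NormedSpace ℝ W] [CompleteSpace W]
      [SeparableSpace W], (W →ₗᵢ[ℝ] (V →L[ℝ] ℝ)) → SeparableSpace (W →L[ℝ] ℝ))
    (A : X →L[ℝ] V) (S : Set (X →L[ℝ] ℝ)) (hS : IsSeparable S)
    (hdec : ∀ f : X →L[ℝ] ℝ, ∃ s ∈ S, ∃ g : V →L[ℝ] ℝ, f = s + g.comp A) :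
    EmbedsWithIndex X (Ordinal.omega0 * ξ * Ordinal.omega0) := by
  classical
  obtain ⟨W₀, iW1, iW2, iW3, iW4, J₀, hJ₀⟩ := exists_package S hS
  let T : W₀ × (V →L[ℝ] ℝ) →L[ℝ] (X →L[ℝ] ℝ) :=
    J₀.toContinuousLinearMap.comp (ContinuousLinearMap.fst ℝ W₀ (V →L[ℝ] ℝ)) +
      (preL A).comp (ContinuousLinearMap.snd ℝ W₀ (V →L[ℝ] ℝ))
  have hT : ∀ p, T p = J₀ p.1 + p.2.comp A := fun _ => rfl
  have hTsurj : Function.Surjective T := by
    intro f
    obtain ⟨s, hs, g, hg⟩ := hdec f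
    obtain ⟨w, hw⟩ := hJ₀ s hs
    exact ⟨(w, g), by rw [hT, hg]; show J₀ w + g.comp A = s + g.comp A; rw [hw]⟩
  obtain ⟨C₀, hC₀, hpre⟩ := T.exists_preimage_norm_le hTsurj
  obtain ⟨x, hx1, hx2⟩ := exists_dense_ball W₀
  let M : ℝ := max (max C₀ ‖A‖) 1
  have hM : 1 ≤ M := le_max_right _ _
  have hM0 : 0 ≤ M := by linarith
  have hAM : ‖A‖ ≤ M := (le_max_right _ _).trans (le_max_left _ _)
  have hCM : C₀ ≤ M := (le_max_left _ _).trans (le_max_left _ _)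
  let s : ℕ → X →L[ℝ] ℝ := fun k => J₀ (C₀ • x k)
  have hs1 : ∀ k, ‖s k‖ ≤ M := by
    intro k
    simp only [s]
    rw [J₀.norm_map, norm_smul, Real.norm_of_nonneg hC₀.le]
    calc C₀ * ‖x k‖ ≤ C₀ * 1 := by gcongr; exact hx1 k
      _ ≤ M := by rw [mul_one]; exact hCM
  have hs : ∀ δ > 0, ∀ b : DualBall X,
      ∃ k, Dom A M δ (b.fn.comp (ContinuousLinearMap.id ℝ X) - s k) := by
    intro δ hδ b
    obtain ⟨⟨σ, g⟩, hσ1, hσ2⟩ := hpre b.fn
    have hn : ‖((σ, g) : W₀ × (V →L[ℝ] ℝ))‖ ≤ C₀ := by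
      refine hσ2.trans ?_
      calc C₀ * ‖b.fn‖ ≤ C₀ * 1 := by gcongr; exact b.fn_norm_le
        _ = C₀ := mul_one _
    rw [Prod.norm_def] at hn
    have hσn : ‖σ‖ ≤ C₀ := (le_max_left _ _).trans hn
    have hgn : ‖g‖ ≤ C₀ := (le_max_right _ _).trans hn
    obtain ⟨k, hk⟩ := hx2 (C₀⁻¹ • σ) (by
      rw [norm_smul, norm_inv, Real.norm_of_nonneg hC₀.le, inv_mul_le_iff₀ hC₀, mul_one]
      exact hσn) (δ / C₀) (by positivity)
    refine ⟨k, fun v => ?_⟩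
    have h1 : ‖J₀ σ - s k‖ ≤ δ := by
      have e : J₀ σ - s k = J₀ (C₀ • (C₀⁻¹ • σ - x k)) := by
        simp only [s]
        rw [← map_sub, smul_sub, smul_smul, mul_inv_cancel₀ hC₀.ne', one_smul]
      rw [e, J₀.norm_map, norm_smul, Real.norm_of_nonneg hC₀.le]
      calc C₀ * ‖C₀⁻¹ • σ - x k‖ ≤ C₀ * (δ / C₀) := by gcongr
        _ = δ := by field_simp
    have e : (b.fn.comp (ContinuousLinearMap.id ℝ X) - s k) v =
        g (A v) + (J₀ σ - s k) v := by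
      have h3 : b.fn v = J₀ σ v + g (A v) := by
        rw [← hσ1, hT]; rfl
      show b.fn v - s k v = g (A v) + (J₀ σ v - s k v)
      rw [h3]; ring
    rw [e]
    refine (abs_add_le _ _).trans (add_le_add ?_ ?_)
    · exact (g.le_opNorm _).trans (by gcongr; exact hgn.trans hCM)
    · exact ((J₀ σ - s k).le_opNorm v).trans (by gcongr)
  refine embeds_of_local hX (evC X) one_pos (fun y => by rw [one_mul]; exact evC_norm_le y)
    (M + M * M) ?_
  intro F δ₁ hδ₁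
  let lam : ℝ := 1 + ∑ y ∈ F, ‖y‖
  have hlam1 : 1 ≤ lam := by
    have : 0 ≤ ∑ y ∈ F, ‖y‖ := Finset.sum_nonneg fun _ _ => norm_nonneg _
    simp only [lam]; linarith
  have hlam0 : 0 < lam := by linarith
  have hlamF : ∀ y ∈ F, ‖y‖ ≤ lam := by
    intro y hy
    have := Finset.single_le_sum (f := fun y => ‖y‖) (fun _ _ => norm_nonneg _) hy
    simp only [lam]
    linarith
  let F' : Finset X := F.image fun y => lam⁻¹ • y
  let δ₀ : ℝ := δ₁ / (3 * lam)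
  have hδ₀ : 0 < δ₀ := by positivity
  let c : ℝ := F'.card
  have hc : 0 ≤ c := Nat.cast_nonneg _
  let δ : ℝ := min 1 (δ₀ / (42 + c * (8 + 2 * M)))
  have hδ : 0 < δ := lt_min one_pos (by positivity)
  have hδ1 : δ ≤ 1 := min_le_left _ _
  have hδ2 : (42 + c * (8 + 2 * M)) * δ ≤ δ₀ := by
    calc (42 + c * (8 + 2 * M)) * δ ≤ (42 + c * (8 + 2 * M)) * (δ₀ / (42 + c * (8 + 2 * M))) := by
          gcongr; exact min_le_right _ _
      _ = δ₀ := by field_simp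
  have hδ3 : 0 ≤ c * (8 + 2 * M) * δ := by positivity
  obtain ⟨R, h1, h2, h3, h4⟩ := local_of_mixed hAsp (A := A) (U := ContinuousLinearMap.id ℝ X)
    (s := s) hδ hδ1 hM hAM (ContinuousLinearMap.norm_id_le.trans hM) hs1 (hs δ hδ) F'
    (by
      intro x' hx'
      obtain ⟨y, hy, rfl⟩ := Finset.mem_image.mp hx'
      rw [norm_smul, norm_inv, Real.norm_of_nonneg hlam0.le, inv_mul_le_iff₀ hlam0, mul_one]
      exact hlamF y hy)
    (by
      intro x' _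
      rw [ContinuousLinearMap.id_apply, sub_self, norm_zero]
      exact hδ.le)
    (δ₀ := δ₀) (by nlinarith) (by
      have e : (F'.card : ℝ) * ((8 + 2 * M) * δ) = c * (8 + 2 * M) * δ := by
        simp only [c]; ring
      rw [e]
      nlinarith)
  refine ⟨R, h1, h2, fun y hy => ?_, fun y => ?_⟩
  · have h5 := h3 (lam⁻¹ • y) (Finset.mem_image_of_mem _ hy)
    rw [map_smul, map_smul, ← smul_sub, norm_smul, norm_inv, Real.norm_of_nonneg hlam0.le,
      inv_mul_le_iff₀ hlam0] at h5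
    refine h5.trans ?_
    have h6 : lam * (2 * δ₀) = 2 / 3 * δ₁ := by simp only [δ₀]; field_simp
    rw [h6]
    linarith
  · obtain ⟨y', hy'⟩ := h4 y
    refine ⟨y', hy'.trans ?_⟩
    have h6 : 3 * δ₀ ≤ δ₁ := by
      have h7 : 3 * δ₀ * lam = δ₁ := by simp only [δ₀]; field_simp
      nlinarith
    gcongr

end

end Pool.Agent.H756
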