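import Pool.Agent.H756.Compact

/-!
# Spaces with separable dual
-/

namespace Pool.Agent.H756

open Filter Topology TopologicalSpace

/-- pointwise small sequences are weakly small -/
theorem weak_small {K : Type*} [TopologicalSpace K] [CompactSpace K] [T2Space K]
    (μ : C(K, ℝ) →L[ℝ] ℝ) (hμ : ‖μ‖ ≤ 1) (f : ℕ → C(K, ℝ)) (C : ℝ) (hC : ∀ n b, |f n b| ≤ C)
    {δ : ℝ} (hδ : 0 < δ) (hf : ∀ b, ∀ᶠ n in atTop, |f n b| ≤ δ) :
    ∀ᶠ n in atTop, |μ (f n)| ≤ 3 * δ := by
  by_contra hcon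
  rw [Filter.not_eventually] at hcon
  obtain ⟨φ, hφ, hφ2⟩ := extraction_of_frequently_atTop hcon
  obtain ⟨ι, s, c, n, hn, hc0, hc1, hle⟩ := mazur_weights (fun k => ⟨fun b => |f (φ k) b|, by
    fun_prop⟩ : ℕ → C(K, ℝ)) C (fun n b => by
      show |(|f (φ n) b|)| ≤ C
      rw [abs_abs]; exact hC _ _) hδ (fun b => hφ.tendsto_atTop.eventually (hf b)) 0
  let σ : ι → ℝ := fun j => SignType.sign (μ (f (φ (n j))))
  have hσ : ∀ j, |σ j| ≤ 1 := by
    intro j
    rcases lt_trichotomy (μ (f (φ (n j)))) 0 with h | h | h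
    · simp [σ, sign_neg h]
    · simp [σ, h]
    · simp [σ, sign_pos h]
  have hσ2 : ∀ j, σ j * μ (f (φ (n j))) = |μ (f (φ (n j)))| := by
    intro j
    exact sign_mul_self _
  let a : C(K, ℝ) := ∑ j ∈ s, (c j * σ j) • f (φ (n j))
  have ha : ‖a‖ ≤ 2 * δ := by
    rw [ContinuousMap.norm_le _ (by positivity)]
    intro b
    have h1 : a b = ∑ j ∈ s, (c j * σ j) * f (φ (n j)) b := by
      simp [a, ContinuousMap.sum_apply]
    rw [h1, Real.norm_eq_abs]
    refine (Finset.abs_sum_le_sum_abs _ _).trans (le_trans ?_ (hle b))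
    refine Finset.sum_le_sum fun j hj => ?_
    show |c j * σ j * f (φ (n j)) b| ≤ c j * |f (φ (n j)) b|
    rw [abs_mul, abs_mul, abs_of_nonneg (hc0 j hj)]
    refine mul_le_mul_of_nonneg_right ?_ (abs_nonneg _)
    exact mul_le_of_le_one_right (hc0 j hj) (hσ j)
  have hμa : μ a = ∑ j ∈ s, c j * |μ (f (φ (n j)))| := by
    simp only [a, map_sum, map_smul, smul_eq_mul]
    refine Finset.sum_congr rfl fun j _ => ?_
    rw [mul_assoc, hσ2]
  have h2 : |μ a| ≤ 2 * δ := by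
    have := μ.le_opNorm a
    rw [Real.norm_eq_abs] at this
    refine this.trans ?_
    have := norm_nonneg a
    nlinarith
  have h3 : 3 * δ ≤ μ a := by
    rw [hμa]
    calc 3 * δ = ∑ j ∈ s, c j * (3 * δ) := by rw [← Finset.sum_mul, hc1, one_mul]
      _ ≤ _ := by
        refine Finset.sum_le_sum fun j hj => mul_le_mul_of_nonneg_left ?_ (hc0 j hj)
        have := hφ2 (n j)
        push Not at this
        exact this.le
  have h4 := le_abs_self (μ a)
  linarith

section selection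

variable {X : Type*} [NormedAddCommGroup X] [NormedSpace ℝ X]

/-- approximate norms of a functional -/
noncomputable def th (x : ℕ → X) (f : X →L[ℝ] ℝ) : ℕ → ℝ
  | 0 => 0
  | (m + 1) => max (th x f m) |f (x m)|

lemma th_mono (x : ℕ → X) (f : X →L[ℝ] ℝ) : Monotone (th x f) :=
  monotone_nat_of_le_succ fun _ => le_max_left _ _

lemma th_le (x : ℕ → X) (hx : ∀ k, ‖x k‖ ≤ 1) (f : X →L[ℝ] ℝ) (m : ℕ) : th x f m ≤ ‖f‖ := by
  induction m with
  | zero => exact norm_nonneg f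
  | succ m ih =>
    refine max_le ih ?_
    exact (f.le_opNorm _).trans (mul_le_of_le_one_right (norm_nonneg f) (hx m))

lemma le_th (x : ℕ → X) (f : X →L[ℝ] ℝ) {k m : ℕ} (h : k < m) : |f (x k)| ≤ th x f m :=
  le_trans (le_max_right _ _) (th_mono x f (show k + 1 ≤ m from h))

lemma exists_th_gt (x : ℕ → X)
    (hd : ∀ y : X, ‖y‖ ≤ 1 → ∀ ε > 0, ∃ k, ‖y - x k‖ < ε) (f : X →L[ℝ] ℝ) {a : ℝ}
    (ha0 : 0 ≤ a) (ha : a < ‖f‖) : ∃ m₀, ∀ m ≥ m₀, a < th x f m := by
  have h1 : ∃ y : X, ‖y‖ ≤ 1 ∧ a < |f y| := by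
    by_contra hcon
    push Not at hcon
    have : ‖f‖ ≤ a := ContinuousLinearMap.opNorm_le_of_unit_norm (𝕜 := ℝ) ha0 fun y hy => by
      rw [Real.norm_eq_abs]; exact hcon y hy.le
    linarith
  obtain ⟨y, hy, hlt⟩ := h1
  have hf : 0 < ‖f‖ := lt_of_le_of_lt ha0 ha
  obtain ⟨k, hk⟩ := hd y hy ((|f y| - a) / (2 * ‖f‖)) (div_pos (by linarith) (by positivity))
  refine ⟨k + 1, fun m hm => lt_of_lt_of_le ?_ (le_th x f (show k < m from hm))⟩
  have h2 : |f (y - x k)| ≤ ‖f‖ * ‖y - x k‖ := f.le_opNorm _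
  have h3 : ‖f‖ * ‖y - x k‖ ≤ (|f y| - a) / 2 := by
    calc ‖f‖ * ‖y - x k‖ ≤ ‖f‖ * ((|f y| - a) / (2 * ‖f‖)) := by gcongr
      _ = (|f y| - a) / 2 := by field_simp
  have h4 : |f y| ≤ |f (x k)| + |f (y - x k)| := by
    have : f y = f (x k) + f (y - x k) := by rw [map_sub]; ring
    rw [this]; exact abs_add_le _ _
  linarith

/-- cut-off function -/
noncomputable def cut (δ t : ℝ) : ℝ := max 0 (min 1 (2 - t / δ))

lemma cut_nonneg (δ t : ℝ) : 0 ≤ cut δ t := le_max_left _ _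

lemma cut_le_one (δ t : ℝ) : cut δ t ≤ 1 := max_le zero_le_one (min_le_left _ _)

lemma cut_eq_one {δ t : ℝ} (hδ : 0 < δ) (h : t ≤ δ) : cut δ t = 1 := by
  have h1 : t / δ ≤ 1 := (div_le_one hδ).mpr h
  unfold cut
  rw [min_eq_left (by linarith)]
  exact max_eq_right zero_le_one

lemma cut_eq_zero {δ t : ℝ} (hδ : 0 < δ) (h : 2 * δ ≤ t) : cut δ t = 0 := by
  have h1 : 2 ≤ t / δ := (le_div_iff₀ hδ).mpr h
  unfold cut
  exact max_eq_left ((min_le_right _ _).trans (by linarith))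

lemma continuous_cut (δ : ℝ) : Continuous (cut δ) := by
  unfold cut; fun_prop

variable (U : X →L[ℝ] X) (x : ℕ → X) (d : ℕ → X →L[ℝ] ℝ) (δ : ℝ)

/-- the cut-off functions -/
noncomputable def uu (k m : ℕ) (b : DualBall X) : ℝ := cut δ (th x (b.fn.comp U - d k) m)

lemma continuous_th_sub (k m : ℕ) :
    Continuous fun b : DualBall X => th x (b.fn.comp U - d k) m := by
  induction m with
  | zero => exact continuous_const
  | succ m ih =>
    refine ih.max (Continuous.abs ?_)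
    exact (DualBall.continuous_fn (U (x m))).sub continuous_const

lemma continuous_uu (k m : ℕ) : Continuous (uu U x d δ k m) :=
  (continuous_cut δ).comp (continuous_th_sub U x d k m)

/-- the weights -/
noncomputable def hh (k m : ℕ) : C(DualBall X, ℝ) :=
  ⟨fun b => uu U x d δ k m b * ∏ j ∈ Finset.range k, (1 - uu U x d δ j m b),
    (continuous_uu U x d δ k m).mul
      (continuous_finsetProd _ fun j _ => continuous_const.sub (continuous_uu U x d δ j m))⟩

lemma hh_apply (k m : ℕ) (b : DualBall X) : hh U x d δ k m b =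
    uu U x d δ k m b * ∏ j ∈ Finset.range k, (1 - uu U x d δ j m b) := rfl

lemma hh_nonneg (k m : ℕ) (b : DualBall X) : 0 ≤ hh U x d δ k m b := by
  rw [hh_apply]
  refine mul_nonneg (cut_nonneg _ _) (Finset.prod_nonneg fun j _ => ?_)
  have := cut_le_one δ (th x (b.fn.comp U - d j) m)
  unfold uu; linarith

lemma sum_hh (m N : ℕ) (b : DualBall X) : ∑ k ∈ Finset.range N, hh U x d δ k m b =
    1 - ∏ j ∈ Finset.range N, (1 - uu U x d δ j m b) := by
  induction N with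
  | zero => simp
  | succ N ih =>
    rw [Finset.sum_range_succ, ih, Finset.prod_range_succ, hh_apply]
    ring

lemma sum_hh_le (m N : ℕ) (b : DualBall X) : ∑ k ∈ Finset.range N, hh U x d δ k m b ≤ 1 := by
  rw [sum_hh]
  have : 0 ≤ ∏ j ∈ Finset.range N, (1 - uu U x d δ j m b) :=
    Finset.prod_nonneg fun j _ => by
      have := cut_le_one δ (th x (b.fn.comp U - d j) m)
      unfold uu; linarith
  linarith

/-- the approximate selection -/
noncomputable def ss (m : ℕ) (b : DualBall X) : X →L[ℝ] ℝ :=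
  ∑ k ∈ Finset.range m, hh U x d δ k m b • d k

variable {U x d δ}

lemma ss_norm_le {C : ℝ} (hC : 0 ≤ C) (hd : ∀ k, ‖d k‖ ≤ C) (m : ℕ) (b : DualBall X) :
    ‖ss U x d δ m b‖ ≤ C := by
  unfold ss
  refine (norm_sum_le _ _).trans ?_
  calc ∑ k ∈ Finset.range m, ‖hh U x d δ k m b • d k‖
      ≤ ∑ k ∈ Finset.range m, hh U x d δ k m b * C := by
        refine Finset.sum_le_sum fun k _ => ?_
        rw [norm_smul, Real.norm_of_nonneg (hh_nonneg U x d δ k m b)]
        exact mul_le_mul_of_nonneg_left (hd k) (hh_nonneg U x d δ k m b)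
    _ = (∑ k ∈ Finset.range m, hh U x d δ k m b) * C := by rw [Finset.sum_mul]
    _ ≤ 1 * C := by gcongr; exact sum_hh_le U x d δ m m b
    _ = C := one_mul C

lemma ss_near (hδ : 0 < δ) (hx1 : ∀ k, ‖x k‖ ≤ 1)
    (hx : ∀ y : X, ‖y‖ ≤ 1 → ∀ ε > 0, ∃ k, ‖y - x k‖ < ε)
    (hd : ∀ f : X →L[ℝ] ℝ, ‖f‖ ≤ 1 → ∀ ε > 0, ∃ k, ‖f.comp U - d k‖ < ε) (b : DualBall X) :
    ∀ᶠ m in atTop, ‖ss U x d δ m b - b.fn.comp U‖ ≤ 2 * δ := by
  obtain ⟨k₀, hk₀⟩ := hd b.fn b.fn_norm_le δ hδ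
  have hu1 : ∀ m, uu U x d δ k₀ m b = 1 := fun m =>
    cut_eq_one hδ ((th_le x hx1 _ m).trans hk₀.le)
  have hbig : ∀ᶠ m in atTop, ∀ k ∈ Finset.range (k₀ + 1), 2 * δ < ‖b.fn.comp U - d k‖ →
      2 * δ < th x (b.fn.comp U - d k) m := by
    rw [Filter.eventually_all_finset]
    intro k _
    by_cases h : 2 * δ < ‖b.fn.comp U - d k‖
    · obtain ⟨m₀, hm₀⟩ := exists_th_gt x hx (b.fn.comp U - d k) (by positivity) h
      filter_upwards [eventually_ge_atTop m₀] with m hm _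
      exact hm₀ m hm
    · exact Eventually.of_forall fun m h' => absurd h' h
  filter_upwards [hbig, eventually_ge_atTop (k₀ + 1)] with m hm hm2
  have hzero : ∀ k, 2 * δ < ‖b.fn.comp U - d k‖ → hh U x d δ k m b = 0 := by
    intro k hk
    rw [hh_apply]
    by_cases hkk : k ∈ Finset.range (k₀ + 1)
    · have : uu U x d δ k m b = 0 := cut_eq_zero hδ (hm k hkk hk).le
      rw [this, zero_mul]
    · have hlt : k₀ < k := by
        rw [Finset.mem_range] at hkk; omega
      have : ∏ j ∈ Finset.range k, (1 - uu U x d δ j m b) = 0 :=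
        Finset.prod_eq_zero (Finset.mem_range.mpr hlt) (by rw [hu1, sub_self])
      rw [this, mul_zero]
  have hsum1 : ∑ k ∈ Finset.range m, hh U x d δ k m b = 1 := by
    rw [sum_hh]
    have : ∏ j ∈ Finset.range m, (1 - uu U x d δ j m b) = 0 :=
      Finset.prod_eq_zero (Finset.mem_range.mpr (show k₀ < m by omega)) (by rw [hu1, sub_self])
    rw [this, sub_zero]
  have e : ss U x d δ m b - b.fn.comp U = ∑ k ∈ Finset.range m, hh U x d δ k m b • (d k - b.fn.comp U) := by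
    simp only [smul_sub, Finset.sum_sub_distrib, ← Finset.sum_smul, hsum1, one_smul]
    rfl
  rw [e]
  calc ‖∑ k ∈ Finset.range m, hh U x d δ k m b • (d k - b.fn.comp U)‖
      ≤ ∑ k ∈ Finset.range m, ‖hh U x d δ k m b • (d k - b.fn.comp U)‖ := norm_sum_le _ _
    _ ≤ ∑ k ∈ Finset.range m, hh U x d δ k m b * (2 * δ) := by
      refine Finset.sum_le_sum fun k _ => ?_
      rw [norm_smul, Real.norm_of_nonneg (hh_nonneg U x d δ k m b)]
      by_cases h : 2 * δ < ‖b.fn.comp U - d k‖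
      · rw [hzero k h]; simp
      · push Not at h
        rw [norm_sub_rev] at h
        exact mul_le_mul_of_nonneg_left h (hh_nonneg U x d δ k m b)
    _ = 2 * δ := by rw [← Finset.sum_mul, hsum1, one_mul]

end selection

end Pool.Agent.H756
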