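import Pool.Agent.H756.Sep

/-!
# The embedding theorem for spaces with separable dual, and more
-/

namespace Pool.Agent.H756

open Filter Topology TopologicalSpace

lemma exists_dense_ball (V : Type*) [NormedAddCommGroup V] [NormedSpace ℝ V] [SeparableSpace V] :
    ∃ x : ℕ → V, (∀ k, ‖x k‖ ≤ 1) ∧ ∀ y : V, ‖y‖ ≤ 1 → ∀ ε > 0, ∃ k, ‖y - x k‖ < ε := by
  have : SecondCountableTopology V := UniformSpace.secondCountable_of_separable V
  have hne : Nonempty (Metric.closedBall (0 : V) 1) := ⟨⟨0, by simp⟩⟩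
  refine ⟨fun k => (denseSeq (Metric.closedBall (0 : V) 1) k : V), fun k => ?_, fun y hy ε hε => ?_⟩
  · exact mem_closedBall_zero_iff.mp (denseSeq (Metric.closedBall (0 : V) 1) k).2
  · obtain ⟨k, hk⟩ := (denseRange_denseSeq (Metric.closedBall (0 : V) 1)).exists_dist_lt
      ⟨y, mem_closedBall_zero_iff.mpr hy⟩ hε
    refine ⟨k, ?_⟩
    rw [Subtype.dist_eq, dist_eq_norm] at hk
    exact hk

section

variable {X : Type*} [NormedAddCommGroup X] [NormedSpace ℝ X]

/-- the canonical embedding into `C(K)`, `K` the dual ball -/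
noncomputable def evC (X : Type*) [NormedAddCommGroup X] [NormedSpace ℝ X] :
    X →L[ℝ] C(DualBall X, ℝ) :=
  LinearMap.mkContinuous
    { toFun := fun x => ⟨fun b => b.fn x, DualBall.continuous_fn x⟩
      map_add' := fun x y => by ext b; exact map_add b.fn x y
      map_smul' := fun c x => by ext b; exact map_smul b.fn c x } 1 (fun x => by
        rw [one_mul]
        refine (ContinuousMap.norm_le _ (norm_nonneg x)).mpr fun b => ?_
        exact b.abs_le x)

lemma evC_apply (x : X) (b : DualBall X) : evC X x b = b.fn x := rfl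

lemma evC_norm_le (x : X) : ‖x‖ ≤ ‖evC X x‖ := by
  obtain ⟨g, hg1, hg2⟩ := exists_dual_vector'' ℝ x
  have h1 := (evC X x).norm_coe_le_norm (DualBall.mk' g hg1)
  have h2 : evC X x (DualBall.mk' g hg1) = ‖x‖ := by
    rw [evC_apply, DualBall.fn_mk']; exact hg2
  rw [h2, norm_norm] at h1
  exact h1

/-- a separable range has a good dense sequence -/
lemma exists_dense_adjoint {U : X →L[ℝ] X} {C : ℝ} (hU : ‖U‖ ≤ C)
    (hs : IsSeparable (Set.range fun f : X →L[ℝ] ℝ => f.comp U)) :
    ∃ d : ℕ → X →L[ℝ] ℝ, (∀ k, ‖d k‖ ≤ C) ∧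
      ∀ f : X →L[ℝ] ℝ, ‖f‖ ≤ 1 → ∀ ε > 0, ∃ k, ‖f.comp U - d k‖ < ε := by
  let S : Set (X →L[ℝ] ℝ) := (fun f : X →L[ℝ] ℝ => f.comp U) '' Metric.closedBall 0 1
  have hS : IsSeparable S := hs.mono (Set.image_subset_range _ _)
  have : SeparableSpace S := hS.separableSpace
  have hne : Nonempty S := ⟨⟨_, ⟨0, by simp, rfl⟩⟩⟩
  refine ⟨fun k => (denseSeq S k : X →L[ℝ] ℝ), fun k => ?_, fun f hf ε hε => ?_⟩
  · obtain ⟨f, hf, hf2⟩ := (denseSeq S k).2
    show ‖(denseSeq S k : X →L[ℝ] ℝ)‖ ≤ C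
    rw [← hf2]
    rw [mem_closedBall_zero_iff] at hf
    refine (ContinuousLinearMap.opNorm_comp_le f U).trans ?_
    calc ‖f‖ * ‖U‖ ≤ 1 * ‖U‖ := by gcongr
      _ ≤ C := by rw [one_mul]; exact hU
  · obtain ⟨k, hk⟩ := (denseRange_denseSeq S).exists_dist_lt
      ⟨f.comp U, ⟨f, mem_closedBall_zero_iff.mpr hf, rfl⟩⟩ hε
    refine ⟨k, ?_⟩
    rw [Subtype.dist_eq, dist_eq_norm] at hk
    exact hk

variable (U : X →L[ℝ] X) (x : ℕ → X) (d : ℕ → X →L[ℝ] ℝ) (δ : ℝ)

/-- the finite rank operators -/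
noncomputable def RR (m : ℕ) : X →L[ℝ] C(DualBall X, ℝ) :=
  ∑ k ∈ Finset.range m, (d k).smulRight (hh U x d δ k m)

lemma RR_apply (m : ℕ) (y : X) (b : DualBall X) : RR U x d δ m y b = ss U x d δ m b y := by
  unfold RR ss
  rw [_root_.sum_apply, ContinuousMap.sum_apply, _root_.sum_apply]
  refine Finset.sum_congr rfl fun k _ => ?_
  show d k y * hh U x d δ k m b = hh U x d δ k m b * d k y
  ring

lemma ss_apply_le {C : ℝ} (hC : 0 ≤ C) (hd : ∀ k, ‖d k‖ ≤ C) (m : ℕ) (b : DualBall X) (y : X) :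
    ‖ss U x d δ m b y‖ ≤ C * ‖y‖ :=
  ((ss U x d δ m b).le_opNorm y).trans (by gcongr; exact ss_norm_le hC hd m b)

lemma RR_apply_le {C : ℝ} (hC : 0 ≤ C) (hd : ∀ k, ‖d k‖ ≤ C) (m : ℕ) (y : X) :
    ‖RR U x d δ m y‖ ≤ C * ‖y‖ := by
  refine (ContinuousMap.norm_le _ (by positivity)).mpr fun b => ?_
  rw [RR_apply]
  exact ss_apply_le U x d δ hC hd m b y

lemma RR_norm_le {C : ℝ} (hC : 0 ≤ C) (hd : ∀ k, ‖d k‖ ≤ C) (m : ℕ) : ‖RR U x d δ m‖ ≤ C :=
  ContinuousLinearMap.opNorm_le_bound _ hC fun y => RR_apply_le U x d δ hC hd m y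

lemma RR_finrank (m : ℕ) :
    FiniteDimensional ℝ (LinearMap.range (RR U x d δ m).toLinearMap) := by
  classical
  refine Submodule.finiteDimensional_of_le (S₂ := Submodule.span ℝ
    ((Finset.range m).image (fun k => hh U x d δ k m) : Set C(DualBall X, ℝ))) ?_
  rintro _ ⟨y, rfl⟩
  show RR U x d δ m y ∈ _
  unfold RR
  rw [_root_.sum_apply]
  refine Submodule.sum_mem _ fun k hk => ?_
  show d k y • hh U x d δ k m ∈ _
  exact Submodule.smul_mem _ _ (Submodule.subset_span (Finset.mem_coe.mpr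
    (Finset.mem_image_of_mem _ hk)))

variable {U x d δ}

/-- the adjoints are eventually small on the annihilator -/
theorem adjoint_small (hδ : 0 < δ) (hx1 : ∀ k, ‖x k‖ ≤ 1)
    (hx : ∀ y : X, ‖y‖ ≤ 1 → ∀ ε > 0, ∃ k, ‖y - x k‖ < ε) {C : ℝ} (hC : 0 ≤ C)
    (hUC : ‖U‖ ≤ C) (hd1 : ∀ k, ‖d k‖ ≤ C)
    (hd : ∀ f : X →L[ℝ] ℝ, ‖f‖ ≤ 1 → ∀ ε > 0, ∃ k, ‖f.comp U - d k‖ < ε)
    (μ : AnnBall (evC X)) :
    ∀ᶠ m in atTop, ‖(μ.1.fn).comp (RR U x d δ m)‖ ≤ 18 * δ := by
  have hnear := fun b => ss_near (δ := δ) hδ hx1 hx hd b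
  -- Cauchy type estimate
  have hcauchy : ∃ m₀, ∀ m ≥ m₀, ∀ n ≥ m₀, ∀ y, ‖y‖ ≤ 1 →
      |μ.1.fn (RR U x d δ m y - RR U x d δ n y)| ≤ 12 * δ := by
    by_contra hcon
    push Not at hcon
    choose mm hmm nn hnn yy hyy hlt using hcon
    have hmm' : Tendsto mm atTop atTop := tendsto_atTop_mono hmm tendsto_id
    have hnn' : Tendsto nn atTop atTop := tendsto_atTop_mono hnn tendsto_id
    have h1 := weak_small μ.1.fn μ.1.fn_norm_le
      (fun p => RR U x d δ (mm p) (yy p) - RR U x d δ (nn p) (yy p)) (2 * C) (fun p b => by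
        have h2 := (RR U x d δ (mm p) (yy p)).norm_coe_le_norm b
        have h3 := (RR U x d δ (nn p) (yy p)).norm_coe_le_norm b
        have h4 : ‖RR U x d δ (mm p) (yy p)‖ ≤ C :=
          (RR_apply_le U x d δ hC hd1 (mm p) (yy p)).trans (mul_le_of_le_one_right hC (hyy p))
        have h5 : ‖RR U x d δ (nn p) (yy p)‖ ≤ C :=
          (RR_apply_le U x d δ hC hd1 (nn p) (yy p)).trans (mul_le_of_le_one_right hC (hyy p))
        rw [ContinuousMap.sub_apply]
        have h6 := norm_sub_le (RR U x d δ (mm p) (yy p) b) (RR U x d δ (nn p) (yy p) b)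
        rw [Real.norm_eq_abs] at h6
        linarith) (δ := 4 * δ) (by positivity) (fun b => by
          filter_upwards [hmm'.eventually (hnear b), hnn'.eventually (hnear b)] with p hp1 hp2
          rw [ContinuousMap.sub_apply, RR_apply, RR_apply]
          have e : ss U x d δ (mm p) b (yy p) - ss U x d δ (nn p) b (yy p) =
              (ss U x d δ (mm p) b - b.fn.comp U) (yy p) -
                (ss U x d δ (nn p) b - b.fn.comp U) (yy p) := by
            simp
          rw [e]
          have h2 : ‖(ss U x d δ (mm p) b - b.fn.comp U) (yy p)‖ ≤ 2 * δ :=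
            ((ss U x d δ (mm p) b - b.fn.comp U).le_opNorm _).trans (by
              have := hyy p
              have := norm_nonneg (yy p)
              nlinarith [norm_nonneg (ss U x d δ (mm p) b - b.fn.comp U)])
          have h3 : ‖(ss U x d δ (nn p) b - b.fn.comp U) (yy p)‖ ≤ 2 * δ :=
            ((ss U x d δ (nn p) b - b.fn.comp U).le_opNorm _).trans (by
              have := hyy p
              have := norm_nonneg (yy p)
              nlinarith [norm_nonneg (ss U x d δ (nn p) b - b.fn.comp U)])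
          have h6 := norm_sub_le ((ss U x d δ (mm p) b - b.fn.comp U) (yy p))
            ((ss U x d δ (nn p) b - b.fn.comp U) (yy p))
          rw [Real.norm_eq_abs] at h6
          linarith)
    obtain ⟨p, hp⟩ := h1.exists
    have := hlt p
    linarith
  obtain ⟨m₀, hm₀⟩ := hcauchy
  filter_upwards [eventually_ge_atTop m₀] with m hm
  refine ContinuousLinearMap.opNorm_le_of_unit_norm (𝕜 := ℝ) (by positivity) fun y hy => ?_
  have h1 := weak_small μ.1.fn μ.1.fn_norm_le (fun n => RR U x d δ n y - evC X (U y)) (2 * C)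
    (fun n b => by
      rw [ContinuousMap.sub_apply, RR_apply, evC_apply]
      have h2 : ‖ss U x d δ n b y‖ ≤ C := (ss_apply_le U x d δ hC hd1 n b y).trans_eq
        (by rw [hy, mul_one])
      have h3 : ‖b.fn (U y)‖ ≤ C := (b.abs_le (U y)).trans ((U.le_opNorm y).trans (by
        rw [hy, mul_one]; exact hUC))
      have h6 := norm_sub_le (ss U x d δ n b y) (b.fn (U y))
      rw [Real.norm_eq_abs] at h6
      linarith) (δ := 2 * δ) (by positivity) (fun b => by
        filter_upwards [hnear b] with n hn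
        rw [ContinuousMap.sub_apply, RR_apply, evC_apply]
        have h2 : ‖(ss U x d δ n b - b.fn.comp U) y‖ ≤ 2 * δ :=
          ((ss U x d δ n b - b.fn.comp U).le_opNorm _).trans (by rw [hy, mul_one]; exact hn)
        exact h2)
  obtain ⟨n, hn1, hn2⟩ := (h1.and (eventually_ge_atTop m₀)).exists
  have h3 := hm₀ m hm n hn2 y hy.le
  have h4 : μ.1.fn (evC X (U y)) = 0 := μ.2 (U y)
  rw [map_sub, h4, sub_zero] at hn1
  rw [map_sub] at h3
  show ‖μ.1.fn (RR U x d δ m y)‖ ≤ 18 * δ
  rw [Real.norm_eq_abs]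
  have h5 := abs_sub_abs_le_abs_sub (μ.1.fn (RR U x d δ m y)) (μ.1.fn (RR U x d δ n y))
  linarith

end

/-- the embedding theorem for spaces whose identity is a pointwise limit of a bounded family of
operators with separable adjoint range -/
theorem embeds_of_asplund_approx {X : Type*} [NormedAddCommGroup X] [NormedSpace ℝ X]
    [CompleteSpace X] [SeparableSpace X] {ξ : Ordinal.{0}} (hX : BourgainIndexLE X ξ) {C : ℝ}
    (happ : ∀ (F : Finset X) (δ : ℝ), 0 < δ → ∃ U : X →L[ℝ] X, ‖U‖ ≤ C ∧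
      IsSeparable (Set.range fun f : X →L[ℝ] ℝ => f.comp U) ∧ ∀ x ∈ F, ‖U x - x‖ ≤ δ) :
    EmbedsWithIndex X (Ordinal.omega0 * ξ * Ordinal.omega0) := by
  classical
  have hC : 0 ≤ C := by
    obtain ⟨U, hU, _⟩ := happ ∅ 1 one_pos
    exact (norm_nonneg U).trans hU
  obtain ⟨x, hx1, hx⟩ := exists_dense_ball X
  refine embeds_of_local hX (evC X) one_pos (fun y => by rw [one_mul]; exact evC_norm_le y) C ?_
  intro F δ₀ hδ₀
  have hcard : (0 : ℝ) < F.card + 1 := by positivity
  obtain ⟨U, hUC, hUs, hUF⟩ := happ F (δ₀ / (6 * (F.card + 1))) (by positivity)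
  obtain ⟨d, hd1, hd⟩ := exists_dense_adjoint hUC hUs
  let S : ℝ := ∑ y ∈ F, ‖y‖
  have hS : 0 ≤ S := Finset.sum_nonneg fun _ _ => norm_nonneg _
  let δ : ℝ := δ₀ / (108 * (S + 1))
  have hδ : 0 < δ := by positivity
  have hδS : 18 * δ * (S + 1) = δ₀ / 6 := by
    simp only [δ]; field_simp; norm_num
  have hcont1 : ∀ n, Continuous fun μ : AnnBall (evC X) => ‖(μ.1.fn).comp (RR U x d δ n)‖ := by
    intro n
    have e : ∀ μ : AnnBall (evC X), (μ.1.fn).comp (RR U x d δ n) =
        ∑ k ∈ Finset.range n, μ.1.fn (hh U x d δ k n) • d k := by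
      intro μ
      ext y
      unfold RR
      rw [ContinuousLinearMap.comp_apply, _root_.sum_apply, map_sum, _root_.sum_apply]
      refine Finset.sum_congr rfl fun k _ => ?_
      show μ.1.fn (d k y • hh U x d δ k n) = μ.1.fn (hh U x d δ k n) * d k y
      rw [map_smul, smul_eq_mul, mul_comm]
    simp only [e]
    refine (continuous_finsetSum _ fun k _ => ?_).norm
    exact (AnnBall.continuous_fn (i := evC X) _).smul continuous_const
  have hcont2 : ∀ n, Continuous fun b : DualBall X =>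
      ∑ y ∈ F, |RR U x d δ n y b - evC X y b| := by
    intro n
    refine continuous_finsetSum _ fun y _ => ?_
    fun_prop
  let g : ℕ → C(AnnBall (evC X) ⊕ DualBall X, ℝ) := fun n =>
    ⟨Sum.elim _ _, (hcont1 n).sumElim (hcont2 n)⟩
  have hginl : ∀ n μ, g n (Sum.inl μ) = ‖(μ.1.fn).comp (RR U x d δ n)‖ := fun _ _ => rfl
  have hginr : ∀ n b, g n (Sum.inr b) = ∑ y ∈ F, |RR U x d δ n y b - evC X y b| :=
    fun _ _ => rfl
  obtain ⟨R', h1, h2, h3, h4⟩ := local_of_compact (evC X) (RR U x d δ) (RR_finrank U x d δ)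
    (RR_norm_le U x d δ hC hd1) g (C + (C + 1) * S) (by
      intro n q
      rcases q with μ | b
      · rw [hginl, abs_of_nonneg (norm_nonneg _)]
        refine (ContinuousLinearMap.opNorm_comp_le _ _).trans ?_
        have h1 := μ.1.fn_norm_le
        have h2 := RR_norm_le U x d δ hC hd1 n
        have h3 : ‖μ.1.fn‖ * ‖RR U x d δ n‖ ≤ 1 * C := by gcongr
        have h4 : 0 ≤ (C + 1) * S := by positivity
        linarith
      · rw [hginr, abs_of_nonneg (Finset.sum_nonneg fun _ _ => abs_nonneg _)]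
        have h1 : ∑ y ∈ F, |RR U x d δ n y b - evC X y b| ≤ ∑ y ∈ F, (C + 1) * ‖y‖ := by
          refine Finset.sum_le_sum fun y _ => ?_
          rw [RR_apply, evC_apply]
          have h2 : ‖ss U x d δ n b y‖ ≤ C * ‖y‖ := ss_apply_le U x d δ hC hd1 n b y
          have h3 : ‖b.fn y‖ ≤ ‖y‖ := b.abs_le y
          have h6 := norm_sub_le (ss U x d δ n b y) (b.fn y)
          rw [Real.norm_eq_abs] at h6
          linarith
        rw [← Finset.mul_sum] at h1
        linarith) (δ := δ₀ / 3) (by positivity) (by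
      intro q
      rcases q with μ | b
      · filter_upwards [adjoint_small hδ hx1 hx hC hUC hd1 hd μ] with n hn
        rw [hginl]
        have : 18 * δ ≤ 18 * δ * (S + 1) := by nlinarith
        linarith
      · filter_upwards [ss_near (δ := δ) hδ hx1 hx hd b] with n hn
        rw [hginr]
        have h1 : ∑ y ∈ F, |RR U x d δ n y b - evC X y b| ≤
            ∑ y ∈ F, (2 * δ * ‖y‖ + δ₀ / (6 * (F.card + 1))) := by
          refine Finset.sum_le_sum fun y hy => ?_
          rw [RR_apply, evC_apply]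
          have e : ss U x d δ n b y - b.fn y = (ss U x d δ n b - b.fn.comp U) y +
              b.fn (U y - y) := by
            rw [_root_.sub_apply, ContinuousLinearMap.comp_apply, map_sub]; ring
          rw [e]
          refine (abs_add_le _ _).trans (add_le_add ?_ ((b.abs_le _).trans (hUF y hy)))
          exact ((ss U x d δ n b - b.fn.comp U).le_opNorm y).trans (by gcongr)
        rw [Finset.sum_add_distrib, ← Finset.mul_sum, Finset.sum_const, nsmul_eq_mul] at h1
        have h2 : (F.card : ℝ) * (δ₀ / (6 * (F.card + 1))) ≤ δ₀ / 6 := by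
          rw [mul_div_assoc', div_le_div_iff₀ (by positivity) (by positivity)]
          nlinarith
        have h3 : 2 * δ * S ≤ 18 * δ * (S + 1) := by nlinarith
        have h4 : ∑ y ∈ F, ‖y‖ = S := rfl
        rw [h4] at h1
        linarith) F 0
    (fun y hy μ => ⟨Sum.inl μ, fun n => by
      rw [hginl]
      have h1 := ((μ.1.fn).comp (RR U x d δ n)).le_opNorm y
      rw [Real.norm_eq_abs] at h1
      refine h1.trans (mul_le_of_le_one_right (norm_nonneg _) hy)⟩)
    (fun ι s c n _ hc0 hc1 hle y hy => by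
      refine (ContinuousMap.norm_le _ (by positivity)).mpr fun b => ?_
      have h1 := hle (Sum.inr b)
      have e : (∑ j ∈ s, c j • RR U x d δ (n j) y - evC X y) b =
          ∑ j ∈ s, c j * (RR U x d δ (n j) y b - evC X y b) := by
        rw [ContinuousMap.sub_apply, ContinuousMap.sum_apply]
        simp only [mul_sub, Finset.sum_sub_distrib, ← Finset.sum_mul, hc1, one_mul]
        rfl
      rw [e, Real.norm_eq_abs]
      refine (Finset.abs_sum_le_sum_abs _ _).trans (le_trans ?_ h1)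
      refine Finset.sum_le_sum fun j hj => ?_
      rw [abs_mul, abs_of_nonneg (hc0 j hj)]
      refine mul_le_mul_of_nonneg_left ?_ (hc0 j hj)
      rw [hginr]
      exact Finset.single_le_sum (f := fun y => |RR U x d δ (n j) y b - evC X y b|)
        (fun _ _ => abs_nonneg _) hy)
  refine ⟨R', h1, h2, fun y hy => (h3 y hy).trans (by linarith), fun y => ?_⟩
  obtain ⟨y', hy'⟩ := h4 y
  exact ⟨y', hy'.trans_eq (by ring)⟩

end Pool.Agent.H756
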