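import Pool.Agent.H756.Index
import Pool.Agent.H756.Basis

/-!
# Norms from size predicates
-/

namespace Pool.Agent.H756

open Filter Topology Ordinal

section graded

variable {V : Type*} [AddCommGroup V] [Module ℝ V]

/-- a size predicate: `B v r` means that `v` has size at most `r` -/
structure IsSize (B : V → ℝ → Prop) : Prop where
  zero : B 0 0
  add : ∀ v w r r', B v r → B w r' → B (v + w) (r + r')
  smul : ∀ (c : ℝ) v r, B v r → B (c • v) (|c| * r)
  mono : ∀ v r r', r ≤ r' → B v r → B v r'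
  nonneg : ∀ v r, B v r → 0 ≤ r
  exists_size : ∀ v, ∃ r, B v r

/-- the norm attached to a size predicate -/
noncomputable def sizeNorm (B : V → ℝ → Prop) (v : V) : ℝ := sInf {r | B v r}

variable {B : V → ℝ → Prop} (hB : IsSize B)

include hB

lemma IsSize.norm_le {v : V} {r : ℝ} (h : B v r) : sizeNorm B v ≤ r :=
  csInf_le ⟨0, fun _ h => hB.nonneg _ _ h⟩ h

lemma IsSize.of_lt {v : V} {r : ℝ} (h : sizeNorm B v < r) : B v r := by
  obtain ⟨r', hr', hlt⟩ := exists_lt_of_csInf_lt (hB.exists_size v) h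
  exact hB.mono _ _ _ hlt.le hr'

lemma IsSize.norm_nonneg (v : V) : 0 ≤ sizeNorm B v :=
  le_csInf (hB.exists_size v) (fun _ h => hB.nonneg _ _ h)

lemma IsSize.norm_add (v w : V) : sizeNorm B (v + w) ≤ sizeNorm B v + sizeNorm B w := by
  refine le_of_forall_pos_le_add fun ε hε => ?_
  have h1 := hB.of_lt (show sizeNorm B v < sizeNorm B v + ε / 2 by linarith)
  have h2 := hB.of_lt (show sizeNorm B w < sizeNorm B w + ε / 2 by linarith)
  have := hB.norm_le (hB.add _ _ _ _ h1 h2)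
  linarith

lemma IsSize.norm_zero : sizeNorm B (0 : V) = 0 :=
  le_antisymm (hB.norm_le hB.zero) (hB.norm_nonneg 0)

lemma IsSize.norm_smul_le (t : ℝ) (v : V) : sizeNorm B (t • v) ≤ |t| * sizeNorm B v := by
  refine le_of_forall_pos_le_add fun ε hε => ?_
  have h1 := hB.of_lt (show sizeNorm B v < sizeNorm B v + ε / (|t| + 1) by
    have : 0 < ε / (|t| + 1) := by positivity
    linarith)
  have h2 := hB.norm_le (hB.smul t _ _ h1)
  refine h2.trans ?_
  have h3 : |t| * (ε / (|t| + 1)) ≤ ε := by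
    rw [mul_div_assoc', div_le_iff₀ (by positivity)]
    nlinarith [abs_nonneg t]
  linarith [mul_add |t| (sizeNorm B v) (ε / (|t| + 1))]

lemma IsSize.norm_smul (t : ℝ) (v : V) : sizeNorm B (t • v) = |t| * sizeNorm B v := by
  refine le_antisymm (hB.norm_smul_le t v) ?_
  rcases eq_or_ne t 0 with rfl | ht
  · simp [hB.norm_zero]
  · have h := hB.norm_smul_le t⁻¹ (t • v)
    rw [smul_smul, inv_mul_cancel₀ ht, one_smul, abs_inv] at h
    have hpos : 0 < |t| := abs_pos.mpr ht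
    rwa [← div_eq_inv_mul, le_div_iff₀' hpos] at h

end graded

section NS

variable {X : Type*} [NormedAddCommGroup X] [NormedSpace ℝ X]
variable {E : Type*} [NormedAddCommGroup E] [NormedSpace ℝ E]

/-- the sum of a finitely supported sequence of vectors -/
noncomputable def Sg : (ℕ →₀ E) →ₗ[ℝ] E := Finsupp.lsum ℝ (fun _ => LinearMap.id)

lemma Sg_apply (g : ℕ →₀ E) : Sg g = ∑ n ∈ g.support, g n := by
  simp [Sg, Finsupp.sum]

lemma Sg_single (n : ℕ) (y : E) : Sg (Finsupp.single n y) = y := by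
  simp [Sg]

variable (i : X →L[ℝ] E) (G : ℕ → Submodule ℝ E)

/-- size of a vector of `E` with respect to `X` and the finite dimensional spaces `G n`, the
latter with weights `2 ^ n` -/
def NS (z : E) (r : ℝ) : Prop :=
  ∃ (x : X) (g : ℕ →₀ E), ‖x‖ ≤ r ∧ (∀ n, g n ∈ G n) ∧ (∀ n, 2 ^ n * ‖g n‖ ≤ r) ∧ z = i x + Sg g

variable {i G}

lemma NS.nonneg {z : E} {r : ℝ} (h : NS i G z r) : 0 ≤ r := by
  obtain ⟨x, g, h1, _⟩ := h
  exact (norm_nonneg x).trans h1

lemma NS.zero : NS i G 0 0 := ⟨0, 0, by simp, by simp, by simp, by simp⟩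

lemma NS.add {z z' : E} {r r' : ℝ} (h : NS i G z r) (h' : NS i G z' r') :
    NS i G (z + z') (r + r') := by
  obtain ⟨x, g, h1, h2, h3, h4⟩ := h
  obtain ⟨x', g', h1', h2', h3', h4'⟩ := h'
  refine ⟨x + x', g + g', (norm_add_le _ _).trans (add_le_add h1 h1'), ?_, ?_, ?_⟩
  · intro n; exact (G n).add_mem (h2 n) (h2' n)
  · intro n
    have := norm_add_le (g n) (g' n)
    have hp : (0 : ℝ) < 2 ^ n := by positivity
    calc 2 ^ n * ‖(g + g') n‖ ≤ 2 ^ n * (‖g n‖ + ‖g' n‖) := by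
          rw [Finsupp.add_apply]; gcongr
      _ ≤ r + r' := by rw [mul_add]; exact add_le_add (h3 n) (h3' n)
  · rw [h4, h4', map_add, map_add]; abel

lemma NS.smul {z : E} {r : ℝ} (c : ℝ) (h : NS i G z r) : NS i G (c • z) (|c| * r) := by
  obtain ⟨x, g, h1, h2, h3, h4⟩ := h
  refine ⟨c • x, c • g, ?_, ?_, ?_, ?_⟩
  · rw [norm_smul, Real.norm_eq_abs]; gcongr
  · intro n; exact (G n).smul_mem _ (h2 n)
  · intro n
    rw [Finsupp.smul_apply, norm_smul, Real.norm_eq_abs]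
    calc 2 ^ n * (|c| * ‖g n‖) = |c| * (2 ^ n * ‖g n‖) := by ring
      _ ≤ |c| * r := by gcongr; exact h3 n
  · rw [h4, map_smul, map_smul, smul_add]

lemma NS.neg {z : E} {r : ℝ} (h : NS i G z r) : NS i G (-z) r := by
  have := h.smul (-1)
  simpa using this

lemma NS.sub {z z' : E} {r r' : ℝ} (h : NS i G z r) (h' : NS i G z' r') :
    NS i G (z - z') (r + r') := by
  rw [sub_eq_add_neg]; exact h.add h'.neg

lemma NS.mono {z : E} {r r' : ℝ} (hr : r ≤ r') (h : NS i G z r) : NS i G z r' := by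
  obtain ⟨x, g, h1, h2, h3, h4⟩ := h
  exact ⟨x, g, h1.trans hr, h2, fun n => (h3 n).trans hr, h4⟩

lemma sum_half_pow_le (s : Finset ℕ) : ∑ n ∈ s, ((1 : ℝ) / 2) ^ n ≤ 2 := by
  have := summable_geometric_two.sum_le_tsum s (fun n _ => by positivity)
  rwa [tsum_geometric_two] at this

lemma norm_Sg_le {g : ℕ →₀ E} {r : ℝ} (h3 : ∀ n, 2 ^ n * ‖g n‖ ≤ r) (hr : 0 ≤ r) :
    ‖Sg g‖ ≤ 2 * r := by
  rw [Sg_apply]
  refine (norm_sum_le _ _).trans ?_
  calc ∑ n ∈ g.support, ‖g n‖ ≤ ∑ n ∈ g.support, ((1 : ℝ) / 2) ^ n * r := by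
        refine Finset.sum_le_sum fun n _ => ?_
        have := h3 n
        have hp : (0 : ℝ) < 2 ^ n := by positivity
        rw [one_div, inv_pow, ← div_eq_inv_mul, le_div_iff₀ hp]
        linarith
    _ = (∑ n ∈ g.support, ((1 : ℝ) / 2) ^ n) * r := by rw [Finset.sum_mul]
    _ ≤ 2 * r := by gcongr; exact sum_half_pow_le _

lemma NS.norm_le {z : E} {r : ℝ} (h : NS i G z r) : ‖z‖ ≤ (‖i‖ + 2) * r := by
  have hr := h.nonneg
  obtain ⟨x, g, h1, h2, h3, h4⟩ := h
  rw [h4, add_mul]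
  refine (norm_add_le _ _).trans (add_le_add ?_ (norm_Sg_le h3 hr))
  exact (i.le_opNorm x).trans (by gcongr)

lemma NS.of_mem {z : E} {n : ℕ} (h : z ∈ G n) : NS i G z (2 ^ n * ‖z‖) := by
  refine ⟨0, Finsupp.single n z, by simp, ?_, ?_, ?_⟩
  · intro m
    by_cases hm : n = m
    · subst hm; simpa using h
    · rw [Finsupp.single_eq_of_ne (Ne.symm hm)]; exact (G m).zero_mem
  · intro m
    by_cases hm : n = m
    · subst hm; simp
    · rw [Finsupp.single_eq_of_ne (Ne.symm hm)]; simp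
  · simp [Sg_single]

lemma NS.of_image (x : X) : NS i G (i x) ‖x‖ :=
  ⟨x, 0, le_rfl, by simp, by simp, by simp⟩

end NS

end Pool.Agent.H756
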