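import Pool.Agent.H756.Loc2
import Pool.Agent.H756.Gauge

/-!
# One stage of the construction for the mixed case
-/

namespace Pool.Agent.H756

open Filter Topology TopologicalSpace

universe u v w

/-- Helly's theorem, with a tolerance -/
theorem exists_helly_tol {B : Type*} [NormedAddCommGroup B] [NormedSpace ℝ B] {ι : Type*}
    [Fintype ι] (g : ι → B →L[ℝ] ℝ) (c : ι → ℝ) {M tol : ℝ} (hM : 0 < M) (htol : 0 ≤ tol)
    (h : ∀ a : ι → ℝ, |∑ j, a j * c j| ≤ M * ‖∑ j, a j • g j‖ + tol * ∑ j, |a j|) {ε : ℝ}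
    (hε : 0 < ε) : ∃ z : B, ‖z‖ ≤ M ∧ ∀ j, |g j z - c j| < tol + ε := by
  classical
  let g' : ι → (B × (ι → ℝ)) →L[ℝ] ℝ := fun j =>
    (g j).comp (ContinuousLinearMap.fst ℝ B (ι → ℝ)) + (tol / M) •
      (ContinuousLinearMap.proj (R := ℝ) (φ := fun _ : ι => ℝ) j).comp
        (ContinuousLinearMap.snd ℝ B (ι → ℝ))
  have hg' : ∀ j z e, g' j (z, e) = g j z + (tol / M) * e j := fun _ _ _ => rfl
  have hkey : ∀ a : ι → ℝ, ‖∑ j, a j • g j‖ + (tol / M) * ∑ j, |a j| ≤ ‖∑ j, a j • g' j‖ := by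
    intro a
    refine le_of_forall_pos_le_add fun η hη => ?_
    obtain ⟨y, hy1, hy2⟩ := exists_norming (∑ j, a j • g j) hη
    let sg : ι → ℝ := fun j => SignType.sign (a j)
    have hsg : ∀ j, |sg j| ≤ 1 := by
      intro k
      rcases lt_trichotomy (a k) 0 with h | h | h
      · simp [sg, sign_neg h]
      · simp [sg, h]
      · simp [sg, sign_pos h]
    have hsg2 : ∀ j, a j * sg j = |a j| := fun j => self_mul_sign _
    have h1 : (∑ j, a j • g' j) (y, sg) = (∑ j, a j • g j) y + (tol / M) * ∑ j, |a j| := by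
      rw [_root_.sum_apply, _root_.sum_apply, Finset.mul_sum, ← Finset.sum_add_distrib]
      refine Finset.sum_congr rfl fun j _ => ?_
      show a j * (g j y + (tol / M) * sg j) = a j * g j y + (tol / M) * |a j|
      rw [← hsg2]; ring
    have h2 : ‖((y, sg) : B × (ι → ℝ))‖ ≤ 1 := by
      rw [Prod.norm_def]
      refine max_le hy1.le ?_
      rw [pi_norm_le_iff_of_nonneg zero_le_one]
      exact hsg
    have h3 := (∑ j, a j • g' j).le_opNorm (y, sg)
    have h4 := le_abs_self ((∑ j, a j • g' j) (y, sg))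
    rw [Real.norm_eq_abs] at h3
    have h5 : ‖∑ j, a j • g' j‖ * ‖((y, sg) : B × (ι → ℝ))‖ ≤ ‖∑ j, a j • g' j‖ :=
      mul_le_of_le_one_right (norm_nonneg _) h2
    linarith
  obtain ⟨⟨z, e⟩, hze, hz⟩ := exists_helly g' c hM.le (fun a => by
    refine (h a).trans ?_
    have h1 := mul_le_mul_of_nonneg_left (hkey a) hM.le
    have h2 : M * (‖∑ j, a j • g j‖ + (tol / M) * ∑ j, |a j|) =
        M * ‖∑ j, a j • g j‖ + tol * ∑ j, |a j| := by
      field_simp
    linarith) hε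
  rw [Prod.norm_def] at hze
  refine ⟨z, (le_max_left _ _).trans hze, fun j => ?_⟩
  have h1 := hz j
  rw [hg'] at h1
  have h2 : |e j| ≤ M := (norm_le_pi_norm e j).trans ((le_max_right _ _).trans hze)
  have h3 : |(tol / M) * e j| ≤ tol := by
    rw [abs_mul, abs_of_nonneg (by positivity)]
    calc tol / M * |e j| ≤ tol / M * M := by gcongr
      _ = tol := by field_simp
  have h4 : g j z - c j = (g j z + (tol / M) * e j - c j) - (tol / M) * e j := by ring
  rw [h4]
  have h5 := abs_sub (g j z + (tol / M) * e j - c j) ((tol / M) * e j)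
  linarith

/-- continuous selections with finitely many values -/
theorem exists_continuous_selection {K : Type*} [TopologicalSpace K] [CompactSpace K]
    {ι : Type v} [Fintype ι] (Θ : C(K, ι → ℝ)) {B : Type*} [NormedAddCommGroup B]
    (Ψ : B → ι → ℝ) {M : ℝ} (hM : 0 ≤ M) {e δ : ℝ} (hδ : 0 < δ)
    (good : Set K) (h : ∀ b ∈ good, ∃ z : B, ‖z‖ ≤ M ∧ ∀ j, |Ψ z j - Θ b j| ≤ e) :
    ∃ (L : Type v) (_ : Fintype L) (θ : L → C(K, ℝ)) (z : L → B), (∀ l b, 0 ≤ θ l b) ∧
      (∀ b, ∑ l, θ l b = 1) ∧ (∀ l, ‖z l‖ ≤ M) ∧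
      ∀ b ∈ good, ∀ j, |∑ l, θ l b * Ψ (z l) j - Θ b j| ≤ e + δ := by
  classical
  have htb : TotallyBounded (Set.range Θ) := (isCompact_range Θ.continuous).totallyBounded
  obtain ⟨t, ht, hfin, hcov⟩ := Metric.finite_approx_of_totallyBounded (α := ι → ℝ) htb (δ / 4)
    (by positivity)
  let T : Finset (ι → ℝ) := hfin.toFinset
  let wt : T → C(K, ℝ) := fun l => ⟨fun b => max 0 (δ / 2 - ‖Θ b - l.1‖), by fun_prop⟩
  have hwt : ∀ l b, wt l b = max 0 (δ / 2 - ‖Θ b - l.1‖) := fun _ _ => rfl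
  have hwt0 : ∀ l b, 0 ≤ wt l b := fun l b => le_max_left _ _
  have hS : ∀ b, 0 < ∑ l, wt l b := by
    intro b
    have h1 := hcov (Set.mem_range_self b)
    simp only [Set.mem_iUnion, Metric.mem_ball, exists_prop] at h1
    obtain ⟨c, hc, hcd⟩ := h1
    rw [dist_eq_norm] at hcd
    have h2 : δ / 4 ≤ wt ⟨c, hfin.mem_toFinset.mpr hc⟩ b := by
      rw [hwt]
      refine le_trans ?_ (le_max_right _ _)
      show δ / 4 ≤ δ / 2 - ‖Θ b - c‖
      linarith
    have h3 := Finset.single_le_sum (f := fun l => wt l b) (fun l _ => hwt0 l b)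
      (Finset.mem_univ (⟨c, hfin.mem_toFinset.mpr hc⟩ : T))
    have h4 : wt ⟨c, hfin.mem_toFinset.mpr hc⟩ b ≤ ∑ l, wt l b := h3
    linarith
  let θ : T → C(K, ℝ) := fun l => ⟨fun b => wt l b / ∑ l', wt l' b, by
    refine Continuous.div (wt l).continuous ?_ fun b => (hS b).ne'
    exact continuous_finsetSum _ fun l' _ => (wt l').continuous⟩
  have hθ : ∀ l b, θ l b = wt l b / ∑ l', wt l' b := fun _ _ => rfl
  have hz : ∀ l : T, ∃ z : B, ‖z‖ ≤ M ∧ ((∃ b ∈ good, ‖Θ b - l.1‖ < δ / 2) →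
      ∀ j, |Ψ z j - l.1 j| ≤ e + δ / 2) := by
    intro l
    by_cases hl : ∃ b ∈ good, ‖Θ b - l.1‖ < δ / 2
    · obtain ⟨b, hb, hbl⟩ := hl
      obtain ⟨z, hz1, hz2⟩ := h b hb
      refine ⟨z, hz1, fun _ j => ?_⟩
      have h1 := norm_le_pi_norm (Θ b - l.1) j
      rw [Pi.sub_apply, Real.norm_eq_abs] at h1
      have h2 := hz2 j
      have h3 : Ψ z j - l.1 j = (Ψ z j - Θ b j) + (Θ b j - l.1 j) := by ring
      rw [h3]
      refine (abs_add_le _ _).trans ?_
      linarith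
    · exact ⟨0, by rw [norm_zero]; exact hM, fun h' => absurd h' hl⟩
  choose z hz1 hz2 using hz
  have hθ0 : ∀ l b, 0 ≤ θ l b := fun l b => by
    rw [hθ]; exact div_nonneg (hwt0 l b) (hS b).le
  have hθ1 : ∀ b, ∑ l, θ l b = 1 := by
    intro b
    simp only [hθ]
    rw [← Finset.sum_div, div_self (hS b).ne']
  refine ⟨T, inferInstance, θ, z, hθ0, hθ1, hz1, fun b hb j => ?_⟩
  have h1 : ∑ l, θ l b * Ψ (z l) j - Θ b j = ∑ l, θ l b * (Ψ (z l) j - Θ b j) := by
    simp only [mul_sub, Finset.sum_sub_distrib, ← Finset.sum_mul, hθ1, one_mul]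
  rw [h1]
  calc |∑ l, θ l b * (Ψ (z l) j - Θ b j)| ≤ ∑ l, |θ l b * (Ψ (z l) j - Θ b j)| :=
        Finset.abs_sum_le_sum_abs _ _
    _ ≤ ∑ l, θ l b * (e + δ) := by
      refine Finset.sum_le_sum fun l _ => ?_
      rw [abs_mul, abs_of_nonneg (hθ0 l b)]
      by_cases hl : ‖Θ b - l.1‖ < δ / 2
      · refine mul_le_mul_of_nonneg_left ?_ (hθ0 l b)
        have h2 := hz2 l ⟨b, hb, hl⟩ j
        have h3 := norm_le_pi_norm (Θ b - l.1) j
        rw [Pi.sub_apply, Real.norm_eq_abs] at h3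
        have h4 : Ψ (z l) j - Θ b j = (Ψ (z l) j - l.1 j) - (Θ b j - l.1 j) := by ring
        rw [h4]
        refine (abs_sub _ _).trans ?_
        linarith
      · have h2 : θ l b = 0 := by
          rw [hθ, hwt, max_eq_left (by linarith), zero_div]
        rw [h2, zero_mul, zero_mul]
    _ = e + δ := by rw [← Finset.sum_mul, hθ1, one_mul]

section stage

variable {X : Type u} [NormedAddCommGroup X] [NormedSpace ℝ X]
variable {V : Type w} [NormedAddCommGroup V] [NormedSpace ℝ V]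
variable {W : Type*} [NormedAddCommGroup W] [NormedSpace ℝ W]
variable {W' : Type*} [NormedAddCommGroup W'] [NormedSpace ℝ W']

/-- local maps and approximation of dominated functionals -/
theorem exists_stage2 {A : X →L[ℝ] V} {s : ℕ → X →L[ℝ] ℝ} {D : Set (X →L[ℝ] ℝ)}
    {D' : Set (V →L[ℝ] ℝ)} (hD : Captures2.{u, v, w} A s D D')
    (J : W →ₗᵢ[ℝ] (X →L[ℝ] ℝ)) (hDJ : ∀ z ∈ D, ∃ w, J w = z)
    (J' : W' →ₗᵢ[ℝ] (V →L[ℝ] ℝ)) (hDJ' : ∀ z ∈ D', ∃ w, J' w = z)
    (aW : W' →L[ℝ] W) (haW : ∀ w, J (aW w) = (J' w).comp A) (m : ℕ → W) (hm : ∀ i, J (m i) = s i)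
    {ι : Type v} [Fintype ι] (h : ι → W →L[ℝ] ℝ) (hh : ∀ j, ‖h j‖ ≤ 1) (p : ι → X) (σ : ι → ℝ)
    (hσ0 : ∀ j, 0 ≤ σ j) (hpσ : ∀ j, ‖p j‖ + σ j ≤ 1)
    (hhp : ∀ j (w : W), |h j w - J w (p j)| ≤ σ j * ‖w‖) (N : ℕ) {δ : ℝ} (hδ : 0 < δ)
    (hδ1 : δ ≤ 1) {M : ℝ} (hM : 1 ≤ M) (hAM : ‖A‖ ≤ M) :
    ∃ x : ι → X, (∀ j, ‖x j - p j‖ ≤ σ j + δ) ∧ (∀ j, ‖x j‖ ≤ 2) ∧
      (∀ j, ∀ i < N, |s i (x j) - h j (m i)| ≤ δ) ∧
      ∀ (t : X →L[ℝ] ℝ) (η : ℝ), 0 ≤ η → Dom A M η t →
        ∃ z : W', ‖z‖ ≤ M ∧ ∀ j, |h j (aW z) - t (x j)| ≤ 2 * η + 2 * δ := by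
  classical
  have hM0 : 0 < M := by linarith
  have haWM : ∀ w, ‖aW w‖ ≤ M * ‖w‖ := by
    intro w
    rw [← J.norm_map, haW]
    refine (ContinuousLinearMap.opNorm_comp_le _ _).trans ?_
    rw [J'.norm_map, mul_comm]
    gcongr
  have hcomp : ∀ g : W →L[ℝ] ℝ, ‖g.comp aW‖ ≤ ‖g‖ * M := by
    intro g
    refine ContinuousLinearMap.opNorm_le_bound _ (by positivity) fun w => ?_
    refine (g.le_opNorm _).trans ?_
    rw [mul_assoc]
    gcongr
    exact haWM w
  let G : Submodule ℝ (W →L[ℝ] ℝ) := Submodule.span ℝ (Set.range h)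
  have hGfin : FiniteDimensional ℝ G := FiniteDimensional.span_of_finite ℝ (Set.finite_range h)
  have hhG : ∀ j, h j ∈ G := fun j => Submodule.subset_span ⟨j, rfl⟩
  let c : ℝ := Fintype.card ι
  have hc : 0 ≤ c := Nat.cast_nonneg _
  let κ : ℝ := δ / (6 * M ^ 2 * (c + 1))
  have hκ : 0 < κ := by positivity
  have hκc : 3 * M * κ * c ≤ δ / (2 * M) := by
    have h1 : 3 * M * κ * c = (δ / (2 * M)) * (c / (c + 1)) := by
      simp only [κ]; field_simp; ring
    rw [h1]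
    refine mul_le_of_le_one_right (by positivity) ?_
    rw [div_le_one (by positivity)]
    linarith
  have htb : TotallyBounded (Metric.closedBall (0 : ι → ℝ) 1) :=
    (isCompact_closedBall (0 : ι → ℝ) 1).totallyBounded
  obtain ⟨t₀, ht₀, hfin, hcov⟩ := Metric.finite_approx_of_totallyBounded htb κ hκ
  let T : Finset (ι → ℝ) := hfin.toFinset
  let hG : (ι → ℝ) → G := fun a => ∑ j, a j • (⟨h j, hhG j⟩ : G)
  have hhG' : ∀ a, (hG a : W →L[ℝ] ℝ) = ∑ j, a j • h j := by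
    intro a
    simp only [hG]
    rw [Submodule.coe_sum]
    rfl
  obtain ⟨τ, hτ1, hτ2, hτ3⟩ := exists_local_map2 hD J hDJ J' hDJ' aW haW m hm G
    (I₁ := ι) (I₂ := {a : ι → ℝ // a ∈ T}) (fun j => ⟨h j, hhG j⟩) p σ (fun j => σ j + δ) hσ0
    (fun j => by linarith) hhp (fun a => hG a.1) (fun a => ‖(hG a.1 : W →L[ℝ] ℝ).comp aW‖)
    (fun a => ‖(hG a.1 : W →L[ℝ] ℝ).comp aW‖ + δ / (2 * M)) (fun _ => norm_nonneg _)
    (fun a => by have : 0 < δ / (2 * M) := by positivity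
                 linarith)
    (fun a w => ((hG a.1 : W →L[ℝ] ℝ).comp aW).le_opNorm w) N hδ
  let x : ι → X := fun j => τ ⟨h j, hhG j⟩
  have hx1 : ∀ j, ‖x j - p j‖ ≤ σ j + δ := fun j => (hτ1 j).le
  have hx2 : ∀ j, ‖x j‖ ≤ 2 := by
    intro j
    have h1 : x j = (x j - p j) + p j := by abel
    rw [h1]
    have h2 := norm_add_le (x j - p j) (p j)
    have h3 := hx1 j
    have h4 := hpσ j
    linarith
  refine ⟨x, hx1, hx2, fun j i hi => (hτ3 j i hi).le, ?_⟩
  -- the norm estimate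
  have hτG : ∀ a, τ (hG a) = ∑ j, a j • x j := by
    intro a
    simp only [hG, map_sum, map_smul, x]
  have hkey1 : ∀ a : ι → ℝ, ∑ j, |a j| ≤ 1 →
      ‖A (∑ j, a j • x j)‖ ≤ ‖(∑ j, a j • h j).comp aW‖ + δ / M := by
    intro a ha
    have ha1 : a ∈ Metric.closedBall (0 : ι → ℝ) 1 := by
      rw [mem_closedBall_zero_iff, pi_norm_le_iff_of_nonneg zero_le_one]
      intro j
      rw [Real.norm_eq_abs]
      exact (Finset.single_le_sum (f := fun j => |a j|) (fun _ _ => abs_nonneg _)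
        (Finset.mem_univ j)).trans ha
    have h1 := hcov ha1
    simp only [Set.mem_iUnion, Metric.mem_ball, exists_prop] at h1
    obtain ⟨a', ha', had⟩ := h1
    have hd : ∀ j, |a j - a' j| ≤ κ := by
      intro j
      rw [← Real.dist_eq]
      exact (dist_le_pi_dist a a' j).trans had.le
    have h2 := hτ2 ⟨a', hfin.mem_toFinset.mpr ha'⟩
    have h2' : ‖A (∑ j, a' j • x j)‖ < ‖(∑ j, a' j • h j).comp aW‖ + δ / (2 * M) := by
      rw [← hτG, ← hhG']; exact h2
    have h3 : ‖A (∑ j, a j • x j)‖ ≤ ‖A (∑ j, a' j • x j)‖ + M * (c * (κ * 2)) := by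
      have e : A (∑ j, a j • x j) = A (∑ j, a' j • x j) + A (∑ j, (a j - a' j) • x j) := by
        rw [← map_add]
        congr 1
        simp only [sub_smul, Finset.sum_sub_distrib]
        abel
      rw [e]
      refine (norm_add_le _ _).trans (add_le_add le_rfl ?_)
      refine (A.le_opNorm _).trans ?_
      have h4 : ‖∑ j, (a j - a' j) • x j‖ ≤ c * (κ * 2) := by
        calc ‖∑ j, (a j - a' j) • x j‖ ≤ ∑ j : ι, κ * 2 := by
              refine norm_sum_le_of_le _ fun j _ => ?_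
              rw [norm_smul, Real.norm_eq_abs]
              exact mul_le_mul (hd j) (hx2 j) (norm_nonneg _) hκ.le
          _ = c * (κ * 2) := by
            rw [Finset.sum_const, Finset.card_univ, nsmul_eq_mul]
      gcongr
    have h5 : ‖(∑ j, a' j • h j).comp aW‖ ≤ ‖(∑ j, a j • h j).comp aW‖ + c * κ * M := by
      have e : (∑ j, a' j • h j).comp aW =
          (∑ j, a j • h j).comp aW - (∑ j, (a j - a' j) • h j).comp aW := by
        have e0 : ∑ j, a' j • h j = ∑ j, a j • h j - ∑ j, (a j - a' j) • h j := by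
          rw [← Finset.sum_sub_distrib]
          refine Finset.sum_congr rfl fun j _ => ?_
          ext w
          show a' j * h j w = a j * h j w - (a j - a' j) * h j w
          ring
        rw [← ContinuousLinearMap.sub_comp, ← e0]
      rw [e]
      refine (norm_sub_le _ _).trans (add_le_add le_rfl ?_)
      refine (hcomp _).trans ?_
      have h4 : ‖∑ j, (a j - a' j) • h j‖ ≤ c * κ := by
        calc ‖∑ j, (a j - a' j) • h j‖ ≤ ∑ j : ι, κ := by
              refine norm_sum_le_of_le _ fun j _ => ?_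
              rw [norm_smul, Real.norm_eq_abs]
              calc |a j - a' j| * ‖h j‖ ≤ κ * 1 :=
                    mul_le_mul (hd j) (hh j) (norm_nonneg _) hκ.le
                _ = κ := mul_one κ
          _ = c * κ := by
            rw [Finset.sum_const, Finset.card_univ, nsmul_eq_mul]
      gcongr
    have h6 : δ / M = δ / (2 * M) + δ / (2 * M) := by field_simp; ring
    rw [h6]
    nlinarith
  have hkey : ∀ a : ι → ℝ,
      ‖A (∑ j, a j • x j)‖ ≤ ‖(∑ j, a j • h j).comp aW‖ + δ / M * ∑ j, |a j| := by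
    intro a
    let L : ℝ := ∑ j, |a j|
    have hL0 : 0 ≤ L := Finset.sum_nonneg fun _ _ => abs_nonneg _
    rcases eq_or_lt_of_le hL0 with hL | hL
    · have ha : ∀ j, a j = 0 := by
        intro j
        have := (Finset.sum_eq_zero_iff_of_nonneg (fun j _ => abs_nonneg (a j))).mp hL.symm j
          (Finset.mem_univ j)
        exact abs_eq_zero.mp this
      simp [ha]
    · have h1 := hkey1 (fun j => L⁻¹ * a j) (by
        have e0 : ∀ j, |L⁻¹ * a j| = L⁻¹ * |a j| := fun j => by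
          rw [abs_mul, abs_inv, abs_of_pos hL]
        rw [Finset.sum_congr rfl fun j _ => e0 j, ← Finset.mul_sum]
        exact (inv_mul_cancel₀ hL.ne').le)
      have e1 : ∑ j, (L⁻¹ * a j) • x j = L⁻¹ • ∑ j, a j • x j := by
        rw [Finset.smul_sum]
        exact Finset.sum_congr rfl fun j _ => by rw [smul_smul]
      have e2 : ∑ j, (L⁻¹ * a j) • h j = L⁻¹ • ∑ j, a j • h j := by
        rw [Finset.smul_sum]
        exact Finset.sum_congr rfl fun j _ => by rw [smul_smul]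
      rw [e1, e2, map_smul, norm_smul, ContinuousLinearMap.smul_comp, norm_smul, norm_inv,
        Real.norm_of_nonneg hL0, inv_mul_le_iff₀ hL] at h1
      have h2 : L * (L⁻¹ * ‖(∑ j, a j • h j).comp aW‖ + δ / M) =
          ‖(∑ j, a j • h j).comp aW‖ + δ / M * L := by
        field_simp
      rw [h2] at h1
      exact h1
  intro t η hη hdom
  obtain ⟨z, hz1, hz2⟩ := exists_helly_tol (fun j => (h j).comp aW) (fun j => t (x j)) hM0
    (show 0 ≤ δ + 2 * η by positivity) (fun a => by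
      have h1 : ∑ j, a j * t (x j) = t (∑ j, a j • x j) := by
        rw [map_sum]
        exact Finset.sum_congr rfl fun j _ => by rw [map_smul, smul_eq_mul]
      rw [h1]
      refine (hdom _).trans ?_
      have h2 := hkey a
      have h3 : M * ‖A (∑ j, a j • x j)‖ ≤
          M * (‖(∑ j, a j • h j).comp aW‖ + δ / M * ∑ j, |a j|) := by gcongr
      have h4 : M * (‖(∑ j, a j • h j).comp aW‖ + δ / M * ∑ j, |a j|) =
          M * ‖(∑ j, a j • h j).comp aW‖ + δ * ∑ j, |a j| := by field_simp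
      have h5 : ‖∑ j, a j • x j‖ ≤ ∑ j, |a j| * 2 := by
        refine norm_sum_le_of_le _ fun j _ => ?_
        rw [norm_smul, Real.norm_eq_abs]
        gcongr
        exact hx2 j
      rw [← Finset.sum_mul] at h5
      have h6 : η * ‖∑ j, a j • x j‖ ≤ η * ((∑ j, |a j|) * 2) := by gcongr
      have e : ∑ j, a j • (h j).comp aW = (∑ j, a j • h j).comp aW := by
        ext w
        simp [_root_.sum_apply]
      rw [e]
      linarith) hδ
  refine ⟨z, hz1, fun j => (hz2 j).le.trans (by linarith)⟩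

end stage

end Pool.Agent.H756
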