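import Pool.Agent.H756.Size

/-!
# The space attached to an approximate expansion
-/

namespace Pool.Agent.H756

open Filter Topology Ordinal

variable {X : Type*} [NormedAddCommGroup X] [NormedSpace ℝ X]
variable {E : Type*} [NormedAddCommGroup E] [NormedSpace ℝ E]

section BB

variable (i : X →L[ℝ] E) (G : ℕ → Submodule ℝ E) (w : ℕ → E)

/-- the synthesis map -/
noncomputable def Syn : (ℕ →₀ ℝ) →ₗ[ℝ] E := Finsupp.linearCombination ℝ w

lemma Syn_single (k : ℕ) (a : ℝ) : Syn w (Finsupp.single k a) = a • w k := by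
  simp [Syn]

/-- size of a finitely supported sequence: all partial sums have size at most `r` -/
def BB (c : ℕ →₀ ℝ) (r : ℝ) : Prop := ∀ M, NS i G (Syn w (trunc M c)) r

variable {i G w}

lemma trunc_zero (c : ℕ →₀ ℝ) : trunc 0 c = 0 := by
  ext k; simp [trunc_apply]

lemma trunc_trunc (M M' : ℕ) (c : ℕ →₀ ℝ) : trunc M' (trunc M c) = trunc (min M' M) c := by
  ext k
  simp only [trunc_apply]
  by_cases h1 : k < M' <;> by_cases h2 : k < M <;> simp [h1, h2]

lemma trunc_single (M k : ℕ) (a : ℝ) :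
    trunc M (Finsupp.single k a) = if k < M then Finsupp.single k a else 0 := by
  ext l
  rw [trunc_apply]
  by_cases hkl : k = l
  · subst hkl
    split_ifs <;> simp
  · rw [Finsupp.single_eq_of_ne (Ne.symm hkl)]
    split_ifs <;> simp [hkl]

lemma isSize_BB (hw : ∀ k, ∃ n, w k ∈ G n) : IsSize (BB i G w) where
  zero := fun M => by simpa using NS.zero
  add := fun c d r r' h h' M => by
    rw [map_add, map_add]; exact (h M).add (h' M)
  smul := fun t c r h M => by
    rw [map_smul, map_smul]; exact (h M).smul t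
  mono := fun c r r' hr h M => (h M).mono hr
  nonneg := fun c r h => (h 0).nonneg
  exists_size := by
    intro c
    induction c using Finsupp.induction_linear with
    | zero => exact ⟨0, fun M => by simpa using NS.zero⟩
    | add c d hc hd =>
      obtain ⟨r, hr⟩ := hc
      obtain ⟨r', hr'⟩ := hd
      exact ⟨r + r', fun M => by rw [map_add, map_add]; exact (hr M).add (hr' M)⟩
    | single k a =>
      obtain ⟨n, hn⟩ := hw k
      refine ⟨|a| * (2 ^ n * ‖w k‖), fun M => ?_⟩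
      rw [trunc_single]
      split_ifs
      · rw [Syn_single]; exact (NS.of_mem hn).smul a
      · rw [map_zero]; exact NS.zero.mono (by positivity)

lemma BB.trunc {c : ℕ →₀ ℝ} {r : ℝ} (h : BB i G w c r) (M : ℕ) : BB i G w (trunc M c) r := by
  intro M'
  rw [trunc_trunc]; exact h _

lemma BB.full {c : ℕ →₀ ℝ} {r : ℝ} (h : BB i G w c r) : NS i G (Syn w c) r := by
  obtain ⟨M, hM⟩ := exists_bound c
  have := h M
  rwa [trunc_of_le hM] at this

lemma syn_norm_le (hw : ∀ k, ∃ n, w k ∈ G n) (c : ℕ →₀ ℝ) :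
    ‖Syn w c‖ ≤ (‖i‖ + 2) * sizeNorm (BB i G w) c := by
  have hB := isSize_BB (i := i) (G := G) hw
  refine le_of_forall_pos_le_add fun ε hε => ?_
  have hC : 0 < ‖i‖ + 2 := by positivity
  have h1 := hB.of_lt (show sizeNorm (BB i G w) c < sizeNorm (BB i G w) c + ε / (‖i‖ + 2) by
    have : 0 < ε / (‖i‖ + 2) := by positivity
    linarith)
  have h2 := h1.full.norm_le
  calc ‖Syn w c‖ ≤ (‖i‖ + 2) * (sizeNorm (BB i G w) c + ε / (‖i‖ + 2)) := h2
    _ = (‖i‖ + 2) * sizeNorm (BB i G w) c + ε := by field_simp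

end BB

section V

variable {V : Type*} [AddCommGroup V] [Module ℝ V]
variable (pc : V →ₗ[ℝ] (ℕ →₀ ℝ)) (px : V →ₗ[ℝ] X) (pg : V →ₗ[ℝ] (ℕ →₀ E))
variable (i : X →L[ℝ] E) (G : ℕ → Submodule ℝ E) (w : ℕ → E)

/-- the initial parts of a triple -/
noncomputable def PhiJ {G : ℕ → Submodule ℝ E} (hpg : ∀ v n, pg v n ∈ G n) (J : ℕ) :
    V →ₗ[ℝ] ((Fin J → ℝ) × ((n : Fin J) → G n)) where
  toFun v := (fun k => pc v k, fun n => ⟨pg v n, hpg v n⟩)
  map_add' u v := by
    ext <;> simp
  map_smul' t v := by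
    ext <;> simp

/-- vanishing of the initial parts -/
def UJ (J : ℕ) : Submodule ℝ V where
  carrier := {v | (∀ k < J, pc v k = 0) ∧ (∀ n < J, pg v n = 0)}
  add_mem' := fun ha hb => ⟨fun k hk => by rw [map_add, Finsupp.add_apply, ha.1 k hk, hb.1 k hk, add_zero],
    fun n hn => by rw [map_add, Finsupp.add_apply, ha.2 n hn, hb.2 n hn, add_zero]⟩
  zero_mem' := ⟨fun k _ => by simp, fun n _ => by simp⟩
  smul_mem' := fun c _ ha => ⟨fun k hk => by rw [map_smul, Finsupp.smul_apply, ha.1 k hk, smul_zero],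
    fun n hn => by rw [map_smul, Finsupp.smul_apply, ha.2 n hn, smul_zero]⟩

variable {pc px pg}

lemma mem_UJ {J : ℕ} {v : V} :
    v ∈ UJ pc pg J ↔ (∀ k < J, pc v k = 0) ∧ (∀ n < J, pg v n = 0) := Iff.rfl

lemma UJ_eq_ker {G : ℕ → Submodule ℝ E} (hpg : ∀ v n, pg v n ∈ G n) (J : ℕ) :
    LinearMap.ker (PhiJ pc pg hpg J) = UJ pc pg J := by
  ext v
  rw [mem_UJ, LinearMap.mem_ker]
  constructor
  · intro h
    have h1 : ∀ k : Fin J, pc v k = 0 := fun k => congrFun (congrArg Prod.fst h) k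
    have h2 : ∀ n : Fin J, (⟨pg v n, hpg v n⟩ : G n) = 0 := fun n =>
      congrFun (congrArg Prod.snd h) n
    exact ⟨fun k hk => h1 ⟨k, hk⟩, fun n hn => congrArg Subtype.val (h2 ⟨n, hn⟩)⟩
  · rintro ⟨h1, h2⟩
    refine Prod.ext ?_ ?_
    · funext k; exact h1 k k.2
    · funext n; exact Subtype.ext (h2 n n.2)

lemma finDim_UJ {G : ℕ → Submodule ℝ E} [∀ n, FiniteDimensional ℝ (G n)]
    (hpg : ∀ v n, pg v n ∈ G n) (J : ℕ) : FiniteDimensional ℝ (V ⧸ UJ pc pg J) := by
  rw [← UJ_eq_ker hpg]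
  exact LinearEquiv.finiteDimensional (LinearMap.quotKerEquivRange (PhiJ pc pg hpg J)).symm

variable (pc px pg)

/-- size of a triple with `∑ c_k w_k = i x + ∑ g_n` -/
def Sz (v : V) (r : ℝ) : Prop :=
  BB i G w (pc v) r ∧ ‖px v‖ ≤ r ∧ (∀ n, 2 ^ n * ‖pg v n‖ ≤ r) ∧
    Syn w (pc v) = i (px v) + Sg (pg v)

variable {pc px pg i G w}

lemma Sz.zero : Sz pc px pg i G w 0 0 := by
  refine ⟨fun M => by simpa using NS.zero, by simp, by simp, by simp⟩

lemma Sz.add {v v' : V} {r r' : ℝ} (h : Sz pc px pg i G w v r) (h' : Sz pc px pg i G w v' r') :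
    Sz pc px pg i G w (v + v') (r + r') := by
  obtain ⟨h1, h2, h3, h4⟩ := h
  obtain ⟨h1', h2', h3', h4'⟩ := h'
  refine ⟨?_, ?_, ?_, ?_⟩
  · intro M
    rw [map_add, map_add, map_add]; exact (h1 M).add (h1' M)
  · rw [map_add]; exact (norm_add_le _ _).trans (add_le_add h2 h2')
  · intro n
    rw [map_add, Finsupp.add_apply]
    have := norm_add_le (pg v n) (pg v' n)
    calc 2 ^ n * ‖pg v n + pg v' n‖ ≤ 2 ^ n * (‖pg v n‖ + ‖pg v' n‖) := by gcongr
      _ ≤ r + r' := by rw [mul_add]; exact add_le_add (h3 n) (h3' n)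
  · rw [map_add, map_add, h4, h4', map_add, map_add, map_add, map_add]; abel

lemma Sz.smul {v : V} {r : ℝ} (c : ℝ) (h : Sz pc px pg i G w v r) :
    Sz pc px pg i G w (c • v) (|c| * r) := by
  obtain ⟨h1, h2, h3, h4⟩ := h
  refine ⟨?_, ?_, ?_, ?_⟩
  · intro M
    rw [map_smul, map_smul, map_smul]; exact (h1 M).smul c
  · rw [map_smul, norm_smul, Real.norm_eq_abs]; gcongr
  · intro n
    rw [map_smul, Finsupp.smul_apply, norm_smul, Real.norm_eq_abs]
    calc 2 ^ n * (|c| * ‖pg v n‖) = |c| * (2 ^ n * ‖pg v n‖) := by ring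
      _ ≤ |c| * r := by gcongr; exact h3 n
  · rw [map_smul, map_smul, h4, map_smul, map_smul, map_smul, map_smul, smul_add]

lemma Sz.mono {v : V} {r r' : ℝ} (hr : r ≤ r') (h : Sz pc px pg i G w v r) :
    Sz pc px pg i G w v r' := by
  obtain ⟨h1, h2, h3, h4⟩ := h
  exact ⟨fun M => (h1 M).mono hr, h2.trans hr, fun n => (h3 n).trans hr, h4⟩

variable (pc pg) in
/-- a bound for the supports -/
noncomputable def bnd (v : V) : ℕ :=
  max (exists_bound (pc v)).choose ((pg v).support.sup id + 1)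

lemma bnd_c (v : V) {k : ℕ} (hk : bnd pc pg v ≤ k) : pc v k = 0 :=
  (exists_bound (pc v)).choose_spec k ((le_max_left _ _).trans hk)

lemma bnd_g (v : V) {k : ℕ} (hk : bnd pc pg v ≤ k) : pg v k = 0 := by
  by_contra hne
  have h1 : k ≤ (pg v).support.sup id :=
    Finset.le_sup (f := id) (Finsupp.mem_support_iff.mpr hne)
  have h2 : (pg v).support.sup id + 1 ≤ k := (le_max_right _ _).trans hk
  omega

variable (pc pg) in
/-- a bound for the supports of the members of a finite sequence -/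
noncomputable def bnds : List V → ℕ
  | [] => 0
  | v :: vs => max (bnd pc pg v) (bnds vs)

lemma chain_sum (hpg : ∀ v n, pg v n ∈ G n) {δ : ℝ} : ∀ vs : List V,
    Chain {v | Sz pc px pg i G w v 2} px (UJ pc pg) (bnds pc pg) δ vs →
    ((∀ k, bnds pc pg vs ≤ k → pc vs.sum k = 0 ∧ pg vs.sum k = 0) ∧
      ‖px vs.sum‖ ≤ vs.length * δ ∧ (∀ n, 2 ^ n * ‖pg vs.sum n‖ ≤ 2) ∧
      Syn w (pc vs.sum) = i (px vs.sum) + Sg (pg vs.sum)) ∧
    (∀ M, ∃ (x : X) (g : ℕ →₀ E), ‖x‖ ≤ 2 + vs.length * δ ∧ (∀ n, g n ∈ G n) ∧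
      (∀ n, 2 ^ n * ‖g n‖ ≤ 4) ∧ Syn w (trunc M (pc vs.sum)) = i x + Sg g) := by
  intro vs
  induction vs with
  | nil =>
    intro _
    refine ⟨⟨by simp, by simp, by simp, by simp⟩, fun M => ⟨0, 0, by simp, by simp, by simp, by simp⟩⟩
  | cons v vs ih =>
    rintro ⟨hvs, ⟨g1, g2, g3, g4⟩, hU, hδ⟩
    obtain ⟨⟨h1, h2, h3, h4⟩, h5⟩ := ih hvs
    rw [mem_UJ] at hU
    obtain ⟨u1, u2⟩ := hU
    have hsum : (v :: vs).sum = v + vs.sum := List.sum_cons
    rw [hsum]
    have hlen : ((v :: vs).length : ℝ) = vs.length + 1 := by simp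
    rw [hlen]
    refine ⟨⟨?_, ?_, ?_, ?_⟩, ?_⟩
    · intro k hk
      have hk1 : bnd pc pg v ≤ k := (le_max_left _ _).trans hk
      have hk2 : bnds pc pg vs ≤ k := (le_max_right _ _).trans hk
      rw [map_add, map_add, Finsupp.add_apply, Finsupp.add_apply, bnd_c v hk1, bnd_g v hk1,
        (h1 k hk2).1, (h1 k hk2).2]
      simp
    · rw [map_add]
      refine (norm_add_le _ _).trans ?_
      linarith
    · intro n
      rw [map_add, Finsupp.add_apply]
      by_cases hn : n < bnds pc pg vs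
      · rw [u2 n hn, zero_add]; exact h3 n
      · rw [(h1 n (not_lt.mp hn)).2, add_zero]; exact g3 n
    · rw [map_add, map_add, h4, g4, map_add, map_add, map_add, map_add]; abel
    · intro M
      by_cases hM : M ≤ bnds pc pg vs
      · obtain ⟨x, g, k1, k2, k3, k4⟩ := h5 M
        have htr : trunc M (pc v) = 0 := by
          ext k
          rw [trunc_apply]
          split_ifs with hk
          · exact u1 k (hk.trans_le hM)
          · rfl
        refine ⟨x, g, ?_, k2, k3, ?_⟩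
        · have := (norm_nonneg (px v)).trans hδ
          linarith
        · rw [map_add, map_add, htr, zero_add]; exact k4
      · push Not at hM
        obtain ⟨x, g, k1, k2, k3, k4⟩ := g1 M
        have htr : trunc M (pc vs.sum) = pc vs.sum :=
          trunc_of_le fun k hk => (h1 k (hM.le.trans hk)).1
        refine ⟨x + px vs.sum, g + pg vs.sum, ?_, ?_, ?_, ?_⟩
        · refine (norm_add_le _ _).trans ?_
          have := (norm_nonneg (px v)).trans hδ
          linarith
        · intro n; exact (G n).add_mem (k2 n) (hpg _ n)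
        · intro n
          rw [Finsupp.add_apply]
          have := norm_add_le (g n) (pg vs.sum n)
          calc 2 ^ n * ‖g n + pg vs.sum n‖ ≤ 2 ^ n * (‖g n‖ + ‖pg vs.sum n‖) := by gcongr
            _ ≤ 4 := by rw [mul_add]; linarith [k3 n, h3 n]
        · rw [map_add, map_add, map_add, htr, k4, h4, map_add, map_add]; abel

omit [Module ℝ V] in
lemma comb_sum [Module ℝ V] (vs : List V) : Comb vs vs.length vs.sum := by
  induction vs with
  | nil => exact ⟨by simp, by simp⟩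
  | cons v vs ih =>
    refine ⟨1, vs.length, vs.sum, ih, ?_, ?_⟩
    · rw [List.length_cons]; push_cast; rw [abs_one, add_comm]
    · rw [List.sum_cons, one_smul]

/-- chains of small vectors with a lower estimate are short -/
lemma chain_short (hpg : ∀ v n, pg v n ∈ G n) {κ : ℝ} (hκ : 0 < κ) (hw : ∀ k, ∃ n, w k ∈ G n)
    {m : ℕ} (hm : 8 / κ < m)
    (vs : List V) (hvs : Chain {v | Sz pc px pg i G w v 2} px (UJ pc pg) (bnds pc pg) (κ / 2) vs)
    (hlen : vs.length = m) : ¬ LowerEst κ (fun v => sizeNorm (BB i G w) (pc v)) vs := by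
  intro hlow
  have hB := isSize_BB (i := i) (G := G) hw
  have h1 := hlow _ _ (comb_sum vs)
  obtain ⟨_, h5⟩ := chain_sum hpg vs hvs
  have h2 : BB i G w (pc vs.sum) (4 + vs.length * (κ / 2)) := by
    intro M
    obtain ⟨x, g, k1, k2, k3, k4⟩ := h5 M
    have hnn : (0 : ℝ) ≤ vs.length * (κ / 2) := by positivity
    exact ⟨x, g, by linarith, k2, fun n => (k3 n).trans (by linarith), k4⟩
  have h3 := hB.norm_le h2
  rw [hlen] at h1 h3
  have h4 : κ * m ≤ 4 + m * (κ / 2) := h1.trans h3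
  rw [div_lt_iff₀ hκ] at hm
  linarith

/-- rank of the sequences of triples with a lower `ℓ₁`-estimate -/
theorem rankLE_triples [∀ n, FiniteDimensional ℝ (G n)] {ξ : Ordinal.{0}}
    (hX : BourgainIndexLE X ξ) (hpg : ∀ v n, pg v n ∈ G n) {κ : ℝ} (hκ : 0 < κ)
    (hw : ∀ k, ∃ n, w k ∈ G n) :
    RankLE {s : List V | (∀ v ∈ s, Sz pc px pg i G w v 2) ∧
      LowerEst κ (fun v => sizeNorm (BB i G w) (pc v)) s} (ω * ξ * ω) := by
  obtain ⟨m, hm⟩ := exists_nat_gt (8 / κ)
  have : ∀ J, FiniteDimensional ℝ (V ⧸ UJ pc pg J) := fun J => finDim_UJ hpg J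
  refine RankLE.mono (α := ω * ξ * (m : Ordinal.{0})) ?_ ?_
  · refine rankLE_main hX px (UJ pc pg) ?_ (b := 2) (δ := κ / 2) (by norm_num) (by positivity)
      {v | Sz pc px pg i G w v 2} ?_ ?_ κ _ (bnds pc pg) m ?_
    · intro J
      gcongr
      exact (Ordinal.natCast_lt_omega0 _).le
    · intro v hv; exact hv.2.1
    · intro s A v hs hc hA
      have h := hc.size (fun v r => Sz pc px pg i G w v r) Sz.zero
        (fun _ _ _ _ h h' => h.add h') (fun c _ _ h => h.smul c) (r := 2) hs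
      exact h.mono (by linarith)
    · intro vs hvs hlen
      exact chain_short hpg hκ hw hm vs hvs hlen
  · gcongr
    exact (Ordinal.natCast_lt_omega0 _).le

end V

end Pool.Agent.H756
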