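import Pool.Agent.H756.StepA

/-!
# The embedding theorem for an approximate expansion
-/

namespace Pool.Agent.H756

open Filter Topology Ordinal

variable {X : Type*} [NormedAddCommGroup X] [NormedSpace ℝ X]
variable {E : Type*} [NormedAddCommGroup E] [NormedSpace ℝ E]

/-- `rankLE_triples` for a subspace -/
theorem rankLE_triples_sub {M : Type*} [AddCommGroup M] [Module ℝ M] (S : Submodule ℝ M)
    (qc : M →ₗ[ℝ] (ℕ →₀ ℝ)) (qx : M →ₗ[ℝ] X) (qg : M →ₗ[ℝ] (ℕ →₀ E))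
    (i : X →L[ℝ] E) (G : ℕ → Submodule ℝ E) (w : ℕ → E) [∀ n, FiniteDimensional ℝ (G n)]
    (hS : ∀ v ∈ S, ∀ n, qg v n ∈ G n) {ξ : Ordinal.{0}} (hX : BourgainIndexLE X ξ)
    {κ : ℝ} (hκ : 0 < κ) (hw : ∀ k, ∃ n, w k ∈ G n)
    {Y : Type*} [NormedAddCommGroup Y] [NormedSpace ℝ Y] (ι : (ℕ →₀ ℝ) →ₗ[ℝ] Y)
    (hι : ∀ c, ‖ι c‖ = sizeNorm (BB i G w) c) (T : Set (List Y)) (hT : ∀ s ∈ T, LowerEst (2 * κ) (fun y => ‖y‖) s)
    (hex : ∀ s ∈ T, ∀ y ∈ s, ∃ v ∈ S, BB i G w (qc v) 2 ∧ ‖qx v‖ ≤ 2 ∧ (∀ n, 2 ^ n * ‖qg v n‖ ≤ 2) ∧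
      Syn w (qc v) = i (qx v) + Sg (qg v) ∧ ‖ι (qc v) - y‖ ≤ κ) :
    RankLE T (ω * ξ * ω) := by
  classical
  let P : Y → S → Prop := fun y v => (BB i G w (qc v) 2 ∧ ‖qx v‖ ≤ 2 ∧
    (∀ n, 2 ^ n * ‖qg v n‖ ≤ 2) ∧ Syn w (qc v) = i (qx v) + Sg (qg v)) ∧ ‖ι (qc v) - y‖ ≤ κ
  let θ : Y → S := fun y => if h : ∃ v, P y v then h.choose else 0
  have hθ : ∀ s ∈ T, ∀ y ∈ s, P y (θ y) := by
    intro s hs y hy
    obtain ⟨v, hv, h1, h2, h3, h4, h5⟩ := hex s hs y hy
    have h : ∃ v, P y v := ⟨⟨v, hv⟩, ⟨h1, h2, h3, h4⟩, h5⟩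
    simp only [θ, dif_pos h]
    exact h.choose_spec
  have key : ∀ s : List Y, (∀ y ∈ s, ‖ι (qc (θ y)) - y‖ ≤ κ) → ∀ A (v : S),
      Comb (s.map θ) A v → ∃ y, Comb s A y ∧ ‖ι (qc v) - y‖ ≤ A * κ := by
    intro s
    induction s with
    | nil =>
      intro _ A v h
      exact ⟨0, ⟨h.1, rfl⟩, by rw [h.1, h.2]; simp⟩
    | cons z s ih =>
      rintro hs A v ⟨a, A', v', h, hA, hv⟩
      obtain ⟨y, hy1, hy2⟩ := ih (fun y hy => hs y (by simp [hy])) A' v' h
      refine ⟨a • z + y, ⟨a, A', y, hy1, hA, rfl⟩, ?_⟩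
      have hz := hs z (by simp)
      have e : ι (qc v) - (a • z + y) = a • (ι (qc (θ z)) - z) + (ι (qc v') - y) := by
        rw [hv]
        push_cast
        rw [map_add, map_add, map_smul, map_smul, smul_sub]
        abel
      rw [e, hA, add_mul]
      refine (norm_add_le _ _).trans (add_le_add ?_ hy2)
      rw [norm_smul, Real.norm_eq_abs]
      gcongr
  have hrank := rankLE_triples (V := S) (pc := qc ∘ₗ S.subtype) (px := qx ∘ₗ S.subtype)
    (pg := qg ∘ₗ S.subtype) (i := i) (G := G) (w := w) hX (fun v n => hS v v.2 n) hκ hw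
  refine hrank.comap θ ?_
  intro s hs
  refine ⟨?_, ?_⟩
  · intro v hv
    rw [List.mem_map] at hv
    obtain ⟨y, hy, rfl⟩ := hv
    exact (hθ s hs y hy).1
  · intro A v hc
    obtain ⟨y, hy1, hy2⟩ := key s (fun y hy => (hθ s hs y hy).2) A v hc
    have h1 := hT s hs A y hy1
    show κ * A ≤ sizeNorm (BB i G w) (qc v)
    rw [← hι]
    have h2 : ‖y‖ ≤ ‖ι (qc v)‖ + ‖ι (qc v) - y‖ := by
      have := norm_sub_le (ι (qc v)) (ι (qc v) - y)
      simpa using this
    have h1' : 2 * κ * A ≤ ‖y‖ := h1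
    linarith

/-- triples `(c, x, g)` with `g n ∈ G n` -/
def VS (G : ℕ → Submodule ℝ E) : Submodule ℝ ((ℕ →₀ ℝ) × X × (ℕ →₀ E)) where
  carrier := {v | ∀ n, v.2.2 n ∈ G n}
  add_mem' := fun ha hb n => (G n).add_mem (ha n) (hb n)
  zero_mem' := fun n => (G n).zero_mem
  smul_mem' := fun c _ ha n => (G n).smul_mem c (ha n)

theorem stepB [CompleteSpace X] {ξ : Ordinal.{0}} (hX : BourgainIndexLE X ξ)
    (i : X →L[ℝ] E) {c₀ : ℝ} (hc₀ : 0 < c₀) (hi : ∀ x, c₀ * ‖x‖ ≤ ‖i x‖)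
    (G : ℕ → Submodule ℝ E) [∀ n, FiniteDimensional ℝ (G n)] (w : ℕ → E) (hw0 : ∀ k, w k ≠ 0)
    (hw : ∀ k, ∃ n, w k ∈ G n) (f : ℕ → X →L[ℝ] ℝ)
    (hf : ∀ x, ∀ ε > 0, ∃ M₀, ∀ M ≥ M₀, NS i G ((∑ k ∈ Finset.range M, f k x • w k) - i x) ε) :
    ∃ (Y : Type) (_ : NormedAddCommGroup Y) (_ : NormedSpace ℝ Y) (_ : CompleteSpace Y),
      Nonempty (SchauderBasis ℝ Y) ∧ (∃ T : X →L[ℝ] Y, ∃ c > 0, ∀ x, c * ‖x‖ ≤ ‖T x‖) ∧
        BourgainIndexLE Y (ω * ξ * ω) := by
  have hB := isSize_BB (i := i) (G := G) hw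
  have hC : 0 < ‖i‖ + 2 := by positivity
  obtain ⟨Y, _, _, _, ι, hι, hdense, hbasis⟩ := exists_basis_space (sizeNorm (BB i G w))
    hB.norm_add hB.norm_smul (by
      intro c hc
      -- all partial sums vanish
      have h1 : ∀ M, Syn w (trunc M c) = 0 := by
        intro M
        have h2 : sizeNorm (BB i G w) (trunc M c) ≤ 0 := by
          refine le_of_forall_pos_le_add fun ε hε => ?_
          have h3 := hB.of_lt (show sizeNorm (BB i G w) c < ε by rw [hc]; exact hε)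
          rw [zero_add]
          exact hB.norm_le (h3.trunc M)
        have h4 := syn_norm_le (i := i) (G := G) hw (trunc M c)
        have h5 : ‖Syn w (trunc M c)‖ ≤ 0 := h4.trans (mul_nonpos_of_nonneg_of_nonpos hC.le h2)
        exact norm_le_zero_iff.mp h5
      ext k
      have h6 : Syn w (trunc (k + 1) c) - Syn w (trunc k c) = c k • w k := by
        rw [← map_sub, trunc_succ_sub, Syn_single]
      rw [h1, h1, _root_.sub_self] at h6
      have := smul_eq_zero.mp h6.symm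
      rcases this with h | h
      · simpa using h
      · exact absurd h (hw0 k))
    (by
      intro M c
      refine le_of_forall_pos_le_add fun ε hε => ?_
      have h3 := hB.of_lt (show sizeNorm (BB i G w) c < sizeNorm (BB i G w) c + ε by linarith)
      exact hB.norm_le (h3.trunc M))
  refine ⟨Y, inferInstance, inferInstance, inferInstance, hbasis, ?_, ?_⟩
  · -- the embedding
    let cf : ℕ → X → (ℕ →₀ ℝ) := fun M x => ∑ k ∈ Finset.range M, Finsupp.single k (f k x)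
    have hcf_syn : ∀ M x, Syn w (cf M x) = ∑ k ∈ Finset.range M, f k x • w k := by
      intro M x
      simp only [cf, map_sum, Syn_single]
    have hcf_apply : ∀ M x l, cf M x l = if l < M then f l x else 0 := by
      intro M x l
      simp only [cf, Finsupp.finsetSum_apply, Finsupp.single_apply]
      by_cases h : l < M
      · rw [if_pos h, Finset.sum_ite_eq' (Finset.range M) l, if_pos (Finset.mem_range.mpr h)]
      · rw [if_neg h, Finset.sum_ite_eq' (Finset.range M) l,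
          if_neg (fun h' => h (Finset.mem_range.mp h'))]
    have htrunc : ∀ Q M x, trunc Q (cf M x) = cf (min Q M) x := by
      intro Q M x
      ext l
      rw [trunc_apply, hcf_apply, hcf_apply]
      by_cases h1 : l < Q <;> by_cases h2 : l < M <;> simp [h1, h2]
    have hcauchy : ∀ x, ∀ ε > 0, ∃ M₀, ∀ M ≥ M₀, ∀ L ≥ M₀, L ≤ M →
        sizeNorm (BB i G w) (cf M x - cf L x) ≤ ε := by
      intro x ε hε
      obtain ⟨M₀, hM₀⟩ := hf x (ε / 2) (by positivity)
      refine ⟨M₀, fun M hM L hL hLM => ?_⟩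
      apply hB.norm_le
      intro Q
      rw [map_sub, htrunc, htrunc]
      by_cases hQ : Q ≤ L
      · have e1 : min Q M = Q := min_eq_left (hQ.trans hLM)
        have e2 : min Q L = Q := min_eq_left hQ
        rw [e1, e2, _root_.sub_self, map_zero]
        exact NS.zero.mono hε.le
      · push Not at hQ
        have e2 : min Q L = L := min_eq_right hQ.le
        have hge : M₀ ≤ min Q M := le_min (hL.trans hQ.le) hM
        have h1 := hM₀ (min Q M) hge
        have h2 := hM₀ L hL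
        rw [e2, map_sub, hcf_syn, hcf_syn]
        have h3 := h1.sub h2
        rw [add_halves] at h3
        have e3 : (∑ k ∈ Finset.range (min Q M), f k x • w k) - ∑ k ∈ Finset.range L, f k x • w k
          = ((∑ k ∈ Finset.range (min Q M), f k x • w k) - i x) -
            ((∑ k ∈ Finset.range L, f k x • w k) - i x) := by abel
        rw [e3]; exact h3
    let JJ : ℕ → X →L[ℝ] Y := fun M =>
      ∑ k ∈ Finset.range M, (f k).smulRight (ι (Finsupp.single k 1))
    have hJJ : ∀ M x, JJ M x = ι (cf M x) := by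
      intro M x
      simp only [JJ, cf, map_sum, _root_.sum_apply,
        ContinuousLinearMap.smulRight_apply]
      refine Finset.sum_congr rfl fun k _ => ?_
      rw [← map_smul, Finsupp.smul_single, _root_.smul_eq_mul, _root_.mul_one]
    have hconv : ∀ x, ∃ y, Tendsto (fun M => JJ M x) atTop (𝓝 y) := by
      intro x
      apply cauchySeq_tendsto_of_complete
      rw [Metric.cauchySeq_iff]
      intro ε hε
      obtain ⟨M₀, hM₀⟩ := hcauchy x (ε / 2) (by positivity)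
      have hsymm : ∀ M ≥ M₀, ∀ L ≥ M₀, L ≤ M → dist (JJ M x) (JJ L x) < ε := by
        intro M hM L hL hLM
        rw [dist_eq_norm, hJJ, hJJ, ← map_sub, hι]
        exact (hM₀ M hM L hL hLM).trans_lt (by linarith)
      refine ⟨M₀, fun M hM L hL => ?_⟩
      rcases le_total L M with h | h
      · exact hsymm M hM L hL h
      · rw [dist_comm]; exact hsymm L hL M hM h
    choose T0 hT0 using hconv
    let T : X →L[ℝ] Y := continuousLinearMapOfTendsto JJ (f := T0) (tendsto_pi_nhds.mpr hT0)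
    have hTapp : ∀ x, T x = T0 x := fun x => rfl
    refine ⟨T, c₀ / (‖i‖ + 2), by positivity, fun x => ?_⟩
    rw [hTapp]
    have h1 : Tendsto (fun M => ‖JJ M x‖) atTop (𝓝 ‖T0 x‖) := (hT0 x).norm
    have h2 : Tendsto (fun M => ‖Syn w (cf M x)‖) atTop (𝓝 ‖i x‖) := by
      apply Tendsto.norm
      rw [Metric.tendsto_atTop]
      intro ε hε
      obtain ⟨M₀, hM₀⟩ := hf x (ε / (2 * (‖i‖ + 2))) (by positivity)
      refine ⟨M₀, fun M hM => ?_⟩
      rw [dist_eq_norm, hcf_syn]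
      have := (hM₀ M hM).norm_le
      refine this.trans_lt ?_
      have e : (‖i‖ + 2) * (ε / (2 * (‖i‖ + 2))) = ε / 2 := by field_simp
      rw [e]; linarith
    have h3 : ‖i x‖ ≤ (‖i‖ + 2) * ‖T0 x‖ := by
      refine le_of_tendsto_of_tendsto' h2 (h1.const_mul _) fun M => ?_
      rw [hJJ, hι]
      exact syn_norm_le hw _
    rw [div_mul_eq_mul_div, div_le_iff₀ hC]
    calc c₀ * ‖x‖ ≤ ‖i x‖ := hi x
      _ ≤ (‖i‖ + 2) * ‖T0 x‖ := h3
      _ = ‖T0 x‖ * (‖i‖ + 2) := mul_comm _ _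
  · -- the index
    intro K hK
    rw [iterDerived_eq_empty_iff]
    have hKpos : 0 < K := by linarith
    have hK' : K⁻¹ ≤ 1 := inv_le_one_of_one_le₀ hK
    have hKinv : 0 < K⁻¹ := inv_pos.mpr hKpos
    have hVS : ∀ v ∈ VS (X := X) G, ∀ n, v.2.2 n ∈ G n := fun v hv => hv
    refine rankLE_triples_sub (M := (ℕ →₀ ℝ) × X × (ℕ →₀ E)) (VS (X := X) G)
      (LinearMap.fst ℝ (ℕ →₀ ℝ) (X × (ℕ →₀ E)))
      (LinearMap.fst ℝ X (ℕ →₀ E) ∘ₗ LinearMap.snd ℝ (ℕ →₀ ℝ) (X × (ℕ →₀ E)))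
      (LinearMap.snd ℝ X (ℕ →₀ E) ∘ₗ LinearMap.snd ℝ (ℕ →₀ ℝ) (X × (ℕ →₀ E)))
      i G w (fun v hv n => hVS v hv n) hX (κ := K⁻¹ / 2) (by positivity) hw ι hι _ ?_ ?_
    · intro s hs
      rw [mem_bourgainTree_iff] at hs
      have : 2 * (K⁻¹ / 2) = K⁻¹ := by ring
      rw [this]
      exact hs.2
    · intro s hs y hy
      rw [mem_bourgainTree_iff] at hs
      have hy1 := hs.1 y hy
      obtain ⟨c, hc⟩ := hdense.exists_dist_lt y (show 0 < K⁻¹ / 2 by positivity)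
      have hcy : ‖ι c - y‖ ≤ K⁻¹ / 2 := by
        rw [dist_comm, dist_eq_norm] at hc; exact hc.le
      have hcn : sizeNorm (BB i G w) c < 2 := by
        rw [← hι]
        have h1 : ‖ι c‖ ≤ ‖ι c - y‖ + ‖y‖ := by
          have := norm_add_le (ι c - y) y
          simpa using this
        rw [hy1] at h1
        linarith
      have hBc := hB.of_lt hcn
      obtain ⟨x, g, h1, h2, h3, h4⟩ := hBc.full
      exact ⟨(c, x, g), h2, hBc, h1, h3, h4, hcy⟩

end Pool.Agent.H756
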