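import Mathlib

/-!
# Trees, their order, and Bourgain's `ℓ₁`-index
-/

namespace Pool.Agent.H756

open Ordinal

/-- Bourgain's tree `T(X, K)`: the finite sequences `(x₁, …, xₙ)` of unit vectors of `X` with
`‖∑ aᵢ xᵢ‖ ≥ K⁻¹ ∑ |aᵢ|` for all scalars. -/
def bourgainTree (X : Type*) [NormedAddCommGroup X] [NormedSpace ℝ X] (K : ℝ) : Set (List X) :=
  {s | (∀ x ∈ s, ‖x‖ = 1) ∧
    ∀ a : Fin s.length → ℝ, K⁻¹ * ∑ i, |a i| ≤ ‖∑ i, a i • s.get i‖}

/-- The derived tree `T'`: the members of `T` with an immediate extension in `T`. -/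
def derivedTree {X : Type*} (T : Set (List X)) : Set (List X) :=
  {s | s ∈ T ∧ ∃ x, s ++ [x] ∈ T}

/-- The iterated derived trees: `T^(0) = T`, `T^(α+1) = (T^(α))'`, and `T^(lam)` is the
intersection of the `T^(α)` with `α < lam` for limit `lam`. -/
noncomputable def iterDerived {X : Type*} (T : Set (List X)) (α : Ordinal.{0}) : Set (List X) :=
  Ordinal.limitRecOn α T (fun _ S => derivedTree S) (fun lam _ S => ⋂ β : Set.Iio lam, S β.1 β.2)

/-- `X` contains no `ℓ₁` and Bourgain's index satisfies `φ(X) ≤ ξ`: for every `K ≥ 1` the tree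
`T(X, K)` has order at most `ξ`, that is, its derived tree of order `ξ` is empty. -/
def BourgainIndexLE (X : Type*) [NormedAddCommGroup X] [NormedSpace ℝ X] (ξ : Ordinal.{0}) : Prop :=
  ∀ K : ℝ, 1 ≤ K → iterDerived (bourgainTree X K) ξ = ∅

section basic

variable {X : Type*} (T : Set (List X))

lemma iterDerived_zero : iterDerived T 0 = T := by
  simp [iterDerived]

lemma iterDerived_succ (α : Ordinal.{0}) :
    iterDerived T (α + 1) = derivedTree (iterDerived T α) := by
  unfold iterDerived
  rw [Ordinal.limitRecOn_add_one]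

lemma iterDerived_limit {α : Ordinal.{0}} (h : Order.IsSuccLimit α) :
    iterDerived T α = ⋂ β : Set.Iio α, iterDerived T β.1 := by
  unfold iterDerived
  rw [Ordinal.limitRecOn_limit _ _ _ _ h]

lemma iterDerived_antitone : ∀ {α β : Ordinal.{0}}, α ≤ β → iterDerived T β ⊆ iterDerived T α := by
  intro α β h
  induction β using Ordinal.limitRecOn with
  | zero =>
    have : α = 0 := by simpa using h
    subst this; exact subset_rfl
  | add_one β ih =>
    rcases eq_or_lt_of_le h with h | h
    · subst h; exact subset_rfl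
    · have h' : α ≤ β := by simpa using Order.lt_succ_iff.mp (by simpa using h)
      refine subset_trans ?_ (ih h')
      rw [iterDerived_succ]
      intro s hs; exact hs.1
  | limit β hβ ih =>
    rcases eq_or_lt_of_le h with h | h
    · subst h; exact subset_rfl
    · rw [iterDerived_limit T hβ]
      intro s hs
      exact Set.mem_iInter.mp hs ⟨α, h⟩

/-- There is a strictly decreasing rank function on `T` with values below `α`. -/
def RankLE {X : Type*} (T : Set (List X)) (α : Ordinal.{0}) : Prop :=
  ∃ ρ : List X → Ordinal.{0}, (∀ s ∈ T, ρ s < α) ∧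
    ∀ s x, s ∈ T → s ++ [x] ∈ T → ρ (s ++ [x]) < ρ s

lemma RankLE.iterDerived_eq_empty {α : Ordinal.{0}} (h : RankLE T α) : iterDerived T α = ∅ := by
  obtain ⟨ρ, h1, h2⟩ := h
  have key : ∀ β : Ordinal.{0}, ∀ s ∈ iterDerived T β, β ≤ ρ s := by
    intro β
    induction β using Ordinal.limitRecOn with
    | zero => intro s _; exact zero_le
    | add_one β ih =>
      intro s hs
      rw [iterDerived_succ] at hs
      obtain ⟨hs, x, hx⟩ := hs
      have hsT : s ∈ T := by
        have := iterDerived_antitone T (zero_le (a := β)) hs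
        rwa [iterDerived_zero] at this
      have hxT : s ++ [x] ∈ T := by
        have := iterDerived_antitone T (zero_le (a := β)) hx
        rwa [iterDerived_zero] at this
      have := h2 s x hsT hxT
      have h3 := ih _ hx
      exact Order.add_one_le_of_lt (lt_of_le_of_lt h3 this)
    | limit β hβ ih =>
      intro s hs
      rw [iterDerived_limit T hβ] at hs
      refine (Order.IsSuccLimit.le_iff_forall_le hβ).mpr ?_
      intro γ hγ
      exact ih γ hγ s (Set.mem_iInter.mp hs ⟨γ, hγ⟩)
  rw [Set.eq_empty_iff_forall_notMem]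
  intro s hs
  have hsT : s ∈ T := by
    have := iterDerived_antitone T (zero_le (a := α)) hs
    rwa [iterDerived_zero] at this
  exact absurd (h1 s hsT) (not_lt.mpr (key α s hs))

lemma rankLE_of_iterDerived_eq_empty {α : Ordinal.{0}} (h : iterDerived T α = ∅) : RankLE T α := by
  classical
  have hex : ∀ s : List X, ∃ β : Ordinal.{0}, β ≤ α ∧ s ∉ iterDerived T β := by
    intro s; exact ⟨α, le_rfl, by rw [h]; exact Set.notMem_empty s⟩
  -- the least `β` with `s ∉ T^(β)`
  let τ : List X → Ordinal.{0} := fun s => sInf {β | s ∉ iterDerived T β}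
  have hτmem : ∀ s, s ∉ iterDerived T (τ s) := by
    intro s
    obtain ⟨β, _, hβ⟩ := hex s
    exact csInf_mem (s := {β | s ∉ iterDerived T β}) ⟨β, hβ⟩
  have hτlt : ∀ s β, β < τ s → s ∈ iterDerived T β := by
    intro s β hβ
    by_contra hcon
    exact absurd (csInf_le' (s := {β | s ∉ iterDerived T β}) hcon) (not_le.mpr hβ)
  have hτle : ∀ s, τ s ≤ α := by
    intro s
    exact csInf_le' (s := {β | s ∉ iterDerived T β}) (by
      show s ∉ iterDerived T α
      rw [h]; exact Set.notMem_empty s)
  have hτsucc : ∀ s ∈ T, ∃ γ, τ s = γ + 1 := by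
    intro s hs
    rcases Ordinal.zero_or_succ_or_isSuccLimit (τ s) with h0 | ⟨γ, hγ⟩ | hl
    · exfalso
      have := hτmem s
      rw [h0, iterDerived_zero] at this
      exact this hs
    · exact ⟨γ, by rw [← hγ, Order.succ_eq_add_one]⟩
    · exfalso
      have := hτmem s
      rw [iterDerived_limit T hl] at this
      apply this
      rw [Set.mem_iInter]
      rintro ⟨β, hβ⟩
      exact hτlt s β hβ
  let ρ : List X → Ordinal.{0} := fun s => if hs : s ∈ T then (hτsucc s hs).choose else 0
  have hρ : ∀ s ∈ T, τ s = ρ s + 1 := by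
    intro s hs
    simp only [ρ, dif_pos hs]
    exact (hτsucc s hs).choose_spec
  refine ⟨ρ, ?_, ?_⟩
  · intro s hs
    have := hτle s
    rw [hρ s hs] at this
    exact Order.add_one_le_iff.mp this
  · intro s x hs hx
    by_contra hcon
    push Not at hcon
    have h1 : s ++ [x] ∈ iterDerived T (ρ (s ++ [x])) := by
      apply hτlt
      rw [hρ _ hx]
      exact lt_add_one _
    have h2 : s ∈ iterDerived T (ρ s) := by
      apply hτlt
      rw [hρ _ hs]
      exact lt_add_one _
    have h3 : s ++ [x] ∈ iterDerived T (ρ s) := iterDerived_antitone T hcon h1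
    have h4 : s ∈ iterDerived T (ρ s + 1) := by
      rw [iterDerived_succ]; exact ⟨h2, x, h3⟩
    apply hτmem s
    rw [hρ s hs]
    exact h4

lemma iterDerived_eq_empty_iff {α : Ordinal.{0}} : iterDerived T α = ∅ ↔ RankLE T α :=
  ⟨rankLE_of_iterDerived_eq_empty T, RankLE.iterDerived_eq_empty T⟩

end basic

lemma RankLE.mono {X : Type*} {T : Set (List X)} {α β : Ordinal.{0}} (h : RankLE T α)
    (hab : α ≤ β) : RankLE T β := by
  obtain ⟨ρ, h1, h2⟩ := h
  exact ⟨ρ, fun s hs => (h1 s hs).trans_le hab, h2⟩

lemma RankLE.subset {X : Type*} {T S : Set (List X)} {α : Ordinal.{0}} (h : RankLE T α)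
    (hab : S ⊆ T) : RankLE S α := by
  obtain ⟨ρ, h1, h2⟩ := h
  exact ⟨ρ, fun s hs => h1 s (hab hs), fun s x hs hx => h2 s x (hab hs) (hab hx)⟩

/-- pull back along a map of the underlying sets -/
lemma RankLE.comap {X Y : Type*} {T : Set (List Y)} {S : Set (List X)} {α : Ordinal.{0}}
    (h : RankLE T α) (f : X → Y) (hf : ∀ s ∈ S, s.map f ∈ T) : RankLE S α := by
  obtain ⟨ρ, h1, h2⟩ := h
  refine ⟨fun s => ρ (s.map f), fun s hs => h1 _ (hf s hs), fun s x hs hx => ?_⟩
  have := hf _ hx
  simp only [List.map_append, List.map_cons, List.map_nil] at this ⊢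
  exact h2 _ _ (hf s hs) this

/-- **Composition lemma.** `T` is a set of finite sequences closed under initial segments.
If the sequences without an initial segment in `Bad` have rank at most `η` and above every bad
sequence the tree has rank at most `θ`, then `T` has rank at most `θ + η`. -/
lemma RankLE.comp {X : Type*} {T : Set (List X)} (hT : ∀ s t, s ++ t ∈ T → s ∈ T)
    (Bad : Set (List X)) {θ η : Ordinal.{0}}
    (h1 : RankLE {s | s ∈ T ∧ ∀ n ≤ s.length, s.take n ∉ Bad} η)
    (h2 : ∀ s ∈ T, s ∈ Bad → RankLE {t | s ++ t ∈ T} θ) : RankLE T (θ + η) := by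
  classical
  obtain ⟨ρ, hρ1, hρ2⟩ := h1
  choose! σ hσ1 hσ2 using h2
  let P : List X → ℕ → Prop := fun s n => n ≤ s.length ∧ s.take n ∈ Bad
  let F : List X → Ordinal.{0} := fun s =>
    if h : ∃ n, P s n then σ (s.take (Nat.find h)) (s.drop (Nat.find h)) else θ + ρ s
  refine ⟨F, ?_, ?_⟩
  · intro s hs
    by_cases h : ∃ n, P s n
    · have hF : F s = σ (s.take (Nat.find h)) (s.drop (Nat.find h)) := by simp [F, h]
      rw [hF]
      have hb := Nat.find_spec h
      have htake : s.take (Nat.find h) ∈ T := by
        apply hT _ (s.drop (Nat.find h))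
        rw [List.take_append_drop]; exact hs
      have := hσ1 _ htake hb.2 (s.drop (Nat.find h)) (by
        show _ ++ _ ∈ T
        rw [List.take_append_drop]; exact hs)
      exact this.trans_le (le_add_right le_rfl)
    · have hF : F s = θ + ρ s := by simp [F, h]
      rw [hF]
      have : ρ s < η := by
        apply hρ1
        refine ⟨hs, fun n hn hb => h ⟨n, hn, hb⟩⟩
      exact add_lt_add_right this θ
  · intro s x hs hx
    by_cases h : ∃ n, P s n
    · have hF : F s = σ (s.take (Nat.find h)) (s.drop (Nat.find h)) := by simp [F, h]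
      have hb := Nat.find_spec h
      have h' : ∃ n, P (s ++ [x]) n := by
        refine ⟨Nat.find h, ?_, ?_⟩
        · rw [List.length_append]; exact hb.1.trans (Nat.le_add_right _ _)
        · rw [List.take_append_of_le_length hb.1]; exact hb.2
      have hfind : Nat.find h' = Nat.find h := by
        rw [Nat.find_eq_iff]
        refine ⟨⟨?_, ?_⟩, ?_⟩
        · rw [List.length_append]; exact hb.1.trans (Nat.le_add_right _ _)
        · rw [List.take_append_of_le_length hb.1]; exact hb.2
        · intro n hn hcon
          have hns : n ≤ s.length := hn.le.trans hb.1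
          apply Nat.find_min h hn
          refine ⟨hns, ?_⟩
          have := hcon.2
          rwa [List.take_append_of_le_length hns] at this
      have hF' : F (s ++ [x]) = σ ((s ++ [x]).take (Nat.find h')) ((s ++ [x]).drop (Nat.find h')) := by
        simp only [F, dif_pos h']
      rw [hF, hF', hfind, List.take_append_of_le_length hb.1, List.drop_append_of_le_length hb.1]
      have htake : s.take (Nat.find h) ∈ T := by
        apply hT _ (s.drop (Nat.find h))
        rw [List.take_append_drop]; exact hs
      apply hσ2 _ htake hb.2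
      · show _ ++ _ ∈ T
        rw [List.take_append_drop]; exact hs
      · show _ ++ _ ∈ T
        rw [← List.append_assoc, List.take_append_drop]; exact hx
    · have hF : F s = θ + ρ s := by simp [F, h]
      by_cases h' : ∃ n, P (s ++ [x]) n
      · have hF' : F (s ++ [x]) = σ ((s ++ [x]).take (Nat.find h'))
            ((s ++ [x]).drop (Nat.find h')) := by
          simp only [F, dif_pos h']
        rw [hF, hF']
        have hb := Nat.find_spec h'
        have htake : (s ++ [x]).take (Nat.find h') ∈ T := by
          apply hT _ ((s ++ [x]).drop (Nat.find h'))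
          rw [List.take_append_drop]; exact hx
        have := hσ1 _ htake hb.2 ((s ++ [x]).drop (Nat.find h')) (by
          show _ ++ _ ∈ T
          rw [List.take_append_drop]; exact hx)
        exact this.trans_le (le_add_right le_rfl)
      · have hF' : F (s ++ [x]) = θ + ρ (s ++ [x]) := by simp only [F, dif_neg h']
        rw [hF, hF']
        have : ρ (s ++ [x]) < ρ s := by
          apply hρ2
          · exact ⟨hs, fun n hn hb => h ⟨n, hn, hb⟩⟩
          · exact ⟨hx, fun n hn hb => h' ⟨n, hn, hb⟩⟩
        exact add_lt_add_right this θ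

end Pool.Agent.H756
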